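import Pool.Agent.Lib.MP_725e58_gt.FS.FunC41

/-! The certificate exists. -/

set_option autoImplicit false

namespace Pool.Agent.FR.CF

open MeasureTheory Set Filter Topology intervalIntegral

/-- the right-hand side of the equation -/
noncomputable def Dd (n : ℕ) (x y : ℝ) : ℝ := n * (|y| - |x|) - n * (y - x) * c0 n x y

/-- the Lipschitz constant -/
noncomputable def Lc (n : ℕ) : ℝ := n * (n + 2) + n

lemma Lc_nonneg (n : ℕ) : 0 ≤ Lc n := by unfold Lc; positivity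

lemma mem_of_abs {x : ℝ} (h : |x| ≤ 1) : x ∈ Icc (-1:ℝ) 1 := abs_le.mp h

lemma abs_cl (x : ℝ) : |cl x| ≤ 1 := abs_le.mpr (cl_mem x)

lemma cc_lip {n : ℕ} (hn : 1 ≤ n) (x x' y y' : ℝ) :
    |cc n x y - cc n x' y'| ≤ Lc n * (|x - x'| + |y - y'|) := by
  have h := c0_lip hn (cl_mem x) (cl_mem x') (cl_mem y) (cl_mem y')
  refine h.trans ?_
  have h1 := cl_lip x x'
  have h2 := cl_lip y y'
  have h3 := Lc_nonneg n
  unfold Lc at h3 ⊢
  exact mul_le_mul_of_nonneg_left (add_le_add h1 h2) h3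

lemma cc_cont {n : ℕ} (hn : 1 ≤ n) : Continuous fun p : ℝ × ℝ => cc n p.1 p.2 := by
  have : LipschitzWith (Real.toNNReal (2 * Lc n)) fun p : ℝ × ℝ => cc n p.1 p.2 := by
    apply LipschitzWith.of_dist_le_mul
    intro p q
    rw [Real.coe_toNNReal _ (by have := Lc_nonneg n; positivity), Real.dist_eq, Prod.dist_eq]
    have h := cc_lip hn p.1 q.1 p.2 q.2
    rw [Real.dist_eq, Real.dist_eq]
    have h1 := le_max_left |p.1 - q.1| |p.2 - q.2|
    have h2 := le_max_right |p.1 - q.1| |p.2 - q.2|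
    have h3 := Lc_nonneg n
    calc _ ≤ Lc n * (max |p.1 - q.1| |p.2 - q.2| + max |p.1 - q.1| |p.2 - q.2|) :=
          h.trans (by gcongr)
      _ = _ := by ring
  exact this.continuous

lemma cc_eq {n : ℕ} {x y : ℝ} (hx : |x| ≤ 1) (hy : |y| ≤ 1) : cc n x y = c0 n x y := by
  unfold cc
  rw [cl_of_mem hx, cl_of_mem hy]

lemma Dd_bd {n : ℕ} (hn : 1 ≤ n) {x y : ℝ} (hx : |x| ≤ 1) (hy : |y| ≤ 1) :
    |Dd n x y| ≤ 3 * n := by
  have hn0 : (0:ℝ) ≤ n := Nat.cast_nonneg n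
  have h1 := c0_bd hn x y
  have h2 : |(|y| - |x|)| ≤ 1 := by
    rw [abs_le]; constructor <;> linarith [abs_nonneg x, abs_nonneg y]
  have h3 : |y - x| ≤ 2 := (abs_sub _ _).trans (by linarith)
  have h4 : |n * (|y| - |x|)| ≤ n * 1 := by
    rw [abs_mul, abs_of_nonneg hn0]; gcongr
  have h5 : |n * (y - x) * c0 n x y| ≤ n * 2 * 1 := by
    rw [abs_mul, abs_mul, abs_of_nonneg hn0]; gcongr
  unfold Dd
  have := abs_sub (n * (|y| - |x|)) (n * (y - x) * c0 n x y)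
  linarith

lemma Dd_lip {n : ℕ} (hn : 1 ≤ n) {x y x' y' : ℝ} (hx : |x| ≤ 1) (hy : |y| ≤ 1) (hx' : |x'| ≤ 1)
    (hy' : |y'| ≤ 1) :
    |Dd n x' y' - Dd n x y| ≤ (2 * n + 2 * n * Lc n) * (|x' - x| + |y' - y|) := by
  have hn0 : (0:ℝ) ≤ n := Nat.cast_nonneg n
  have h1 := c0_bd hn x' y'
  have h3 : |y - x| ≤ 2 := (abs_sub _ _).trans (by linarith)
  have hl := c0_lip hn (mem_of_abs hx') (mem_of_abs hx) (mem_of_abs hy') (mem_of_abs hy)
  have L0 := Lc_nonneg n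
  have e : Dd n x' y' - Dd n x y = n * (((|y'| - |y|) - (|x'| - |x|)) -
      ((y' - y) - (x' - x)) * c0 n x' y' - (y - x) * (c0 n x' y' - c0 n x y)) := by
    unfold Dd; ring
  rw [e, abs_mul, abs_of_nonneg hn0]
  set A := |x' - x|
  set B := |y' - y|
  have a1 : |(|y'| - |y|) - (|x'| - |x|)| ≤ A + B := by
    have b1 := abs_abs_sub_abs_le y' y
    have b2 := abs_abs_sub_abs_le x' x
    have := abs_sub (|y'| - |y|) (|x'| - |x|)
    linarith
  have a2 : |((y' - y) - (x' - x)) * c0 n x' y'| ≤ A + B := by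
    rw [abs_mul]
    have := abs_sub (y' - y) (x' - x)
    calc _ ≤ (B + A) * 1 := by gcongr
      _ = _ := by ring
  have a3 : |(y - x) * (c0 n x' y' - c0 n x y)| ≤ 2 * (Lc n * (A + B)) := by
    rw [abs_mul]
    have hl' : |c0 n x' y' - c0 n x y| ≤ Lc n * (A + B) := hl
    gcongr
  have a4 := abs_sub ((|y'| - |y|) - (|x'| - |x|) - ((y' - y) - (x' - x)) * c0 n x' y')
    ((y - x) * (c0 n x' y' - c0 n x y))
  have a5 := abs_sub ((|y'| - |y|) - (|x'| - |x|)) (((y' - y) - (x' - x)) * c0 n x' y')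
  calc _ ≤ (n:ℝ) * ((A + B) + (A + B) + 2 * (Lc n * (A + B))) := by
        gcongr; linarith
    _ = _ := by ring

lemma fX_sub_le {x T : ℝ} (hx : |x| ≤ 1) (hT0 : 0 ≤ T) (hT : T ≤ 1 / 2) : |fX x T - x| ≤ 2 * T := by
  have hT' : |T| ≤ 1 / 2 := by rwa [abs_of_nonneg hT0]
  have d := den_pos hx hT'
  have e : fX x T - x = T * (1 - x ^ 2) / (1 + x * T) := by
    unfold fX
    rw [eq_div_iff (by linarith), sub_mul, div_mul_cancel₀ _ (by linarith)]
    ring
  have h1 : |1 - x ^ 2| ≤ 1 := by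
    have := sq_abs x
    have := abs_nonneg x
    rw [abs_le]; constructor <;> nlinarith
  rw [e, abs_div, abs_of_pos (show 0 < 1 + x * T by linarith), div_le_iff₀ (by linarith), abs_mul,
    abs_of_nonneg hT0]
  nlinarith [mul_le_mul_of_nonneg_left h1 hT0]

lemma fX_euler {x T : ℝ} (hx : |x| ≤ 1) (hT0 : 0 ≤ T) (hT : T ≤ 1 / 2) :
    |fX x T - (x + T * (1 - x ^ 2))| ≤ 2 * T ^ 2 := by
  have hT' : |T| ≤ 1 / 2 := by rwa [abs_of_nonneg hT0]
  have d := den_pos hx hT'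
  have e : fX x T - (x + T * (1 - x ^ 2)) = -(T * (1 - x ^ 2) * (x * T)) / (1 + x * T) := by
    unfold fX
    rw [eq_div_iff (by linarith), sub_mul, div_mul_cancel₀ _ (by linarith)]
    ring
  have h1 : |1 - x ^ 2| ≤ 1 := by
    have := sq_abs x
    have := abs_nonneg x
    rw [abs_le]; constructor <;> nlinarith
  rw [e, abs_div, abs_of_pos (show 0 < 1 + x * T by linarith), div_le_iff₀ (by linarith), abs_neg,
    abs_mul, abs_mul, abs_mul, abs_of_nonneg hT0]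
  have h2 : |1 - x ^ 2| * |x| ≤ 1 * 1 := by gcongr
  have h3 : 0 ≤ T ^ 2 := sq_nonneg T
  calc T * |1 - x ^ 2| * (|x| * T) = T ^ 2 * (|1 - x ^ 2| * |x|) := by ring
    _ ≤ T ^ 2 * (1 * 1) := by gcongr
    _ ≤ 2 * T ^ 2 * (1 + x * T) := by nlinarith

lemma fX_semi {x T T₀ : ℝ} (hx : |x| ≤ 1) (h0 : 0 ≤ T₀) (h : T₀ ≤ T) (hT : T ≤ 1 / 2) :
    fX x T = fX (fX x T₀) ((T - T₀) / (1 - T₀ * T)) := by
  have hT' : |T| ≤ 1 / 2 := by rwa [abs_of_nonneg (h0.trans h)]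
  have hT₀' : |T₀| ≤ 1 / 2 := by rw [abs_of_nonneg h0]; exact h.trans hT
  have d := den_pos hx hT'
  have d' := den_pos hx hT₀'
  have d2 : 1 / 2 ≤ 1 - T₀ * T := by nlinarith
  have d3 : 1 / 2 ≤ 1 - T₀ ^ 2 := by nlinarith
  have e1 : fX x T₀ + (T - T₀) / (1 - T₀ * T) =
      (x + T) * (1 - T₀ ^ 2) / ((1 + x * T₀) * (1 - T₀ * T)) := by
    unfold fX
    rw [div_add_div _ _ (by linarith) (by linarith)]
    congr 1
    ring
  have e2 : 1 + fX x T₀ * ((T - T₀) / (1 - T₀ * T)) =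
      (1 + x * T) * (1 - T₀ ^ 2) / ((1 + x * T₀) * (1 - T₀ * T)) := by
    unfold fX
    have p : (1 + x * T₀) * (1 - T₀ * T) ≠ 0 := mul_ne_zero (by linarith) (by linarith)
    rw [div_mul_div_comm, eq_div_iff p, add_mul, div_mul_cancel₀ _ p]
    ring
  rw [fX.eq_def (fX x T₀), e1, e2]
  unfold fX
  have z2 : 1 - T₀ ^ 2 ≠ 0 := by linarith
  have z3 : (1 + x * T₀) * (1 - T₀ * T) ≠ 0 := mul_ne_zero (by linarith) (by linarith)
  rw [div_div_div_cancel_right₀ z3, mul_div_mul_right _ _ z2]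

lemma fY_semi {y T T₀ : ℝ} (hy : |y| ≤ 1) (h0 : 0 ≤ T₀) (h : T₀ ≤ T) (hT : T ≤ 1 / 2) :
    fY y T = fY (fY y T₀) ((T - T₀) / (1 - T₀ * T)) := by
  unfold fY
  rw [neg_neg, fX_semi (by rwa [abs_neg]) h0 h hT]

lemma deriv_at {n : ℕ} {x y T₀ : ℝ} (hx : |x| ≤ 1) (hy : |y| ≤ 1) (h0 : 0 ≤ T₀)
    (h1 : T₀ < 1 / 2) :
    HasDerivWithinAt (fun T => cc n (fX x T) (fY y T))
      (Dd n (fX x T₀) (fY y T₀) / (1 - T₀ ^ 2)) (Ici T₀) T₀ := by
  have hT₀' : |T₀| ≤ 1 / 2 := by rw [abs_of_nonneg h0]; exact h1.le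
  have d := deriv_zero (n := n) (fX_mem hx hT₀') (fY_mem hy hT₀')
  set τ : ℝ → ℝ := fun T => (T - T₀) / (1 - T₀ * T) with hτ
  have τ0 : τ T₀ = 0 := by simp [hτ]
  have dτ : HasDerivAt τ (1 / (1 - T₀ ^ 2)) T₀ := by
    have a : HasDerivAt (fun T : ℝ => T - T₀) 1 T₀ := (hasDerivAt_id T₀).sub_const T₀
    have b : HasDerivAt (fun T : ℝ => 1 - T₀ * T) (-T₀) T₀ := by
      simpa using ((hasDerivAt_id T₀).const_mul T₀).const_sub 1
    have z : 1 - T₀ * T₀ ≠ 0 := by nlinarith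
    refine (a.fun_div b z).congr_deriv ?_
    have z' : 1 - T₀ ^ 2 ≠ 0 := by nlinarith
    rw [sub_self, zero_mul, sub_zero, one_mul, ← pow_two T₀, pow_two (1 - T₀ ^ 2), one_div]
    exact div_mul_cancel_left₀ z' _
  have mt : MapsTo τ (Icc T₀ (1 / 2)) (Ici 0) := by
    intro T hT
    simp only [hτ, mem_Ici]
    apply div_nonneg (by linarith [hT.1])
    nlinarith [hT.1, hT.2]
  have d' : HasDerivWithinAt (fun T => c0 n (fX (fX x T₀) T) (fY (fY y T₀) T))
      (Dd n (fX x T₀) (fY y T₀)) (Ici 0) (τ T₀) := by rw [τ0]; exact d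
  have comp := d'.scomp T₀ (dτ.hasDerivWithinAt (s := Icc T₀ (1 / 2))) mt
  have comp2 : HasDerivWithinAt (fun T => cc n (fX x T) (fY y T))
      ((1 / (1 - T₀ ^ 2)) • Dd n (fX x T₀) (fY y T₀)) (Icc T₀ (1 / 2)) T₀ := by
    refine comp.congr ?_ ?_
    · intro T hT
      have hT' : |T| ≤ 1 / 2 := by rw [abs_of_nonneg (h0.trans hT.1)]; exact hT.2
      rw [cc_eq (fX_mem hx hT') (fY_mem hy hT'), fX_semi hx h0 hT.1 hT.2,
        fY_semi hy h0 hT.1 hT.2]
      rfl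
    · rw [cc_eq (fX_mem hx hT₀') (fY_mem hy hT₀')]
      simp only [Function.comp, τ0, fX_zero, fY_zero]
  have comp3 := comp2.mono_of_mem_nhdsWithin (Icc_mem_nhdsGE h1)
  refine comp3.congr_deriv ?_
  rw [smul_eq_mul]; ring

/-- the Euler step along the flow -/
lemma flow_euler {n : ℕ} (hn : 1 ≤ n) {x y t : ℝ} (hx : |x| ≤ 1) (hy : |y| ≤ 1) (h0 : 0 ≤ t)
    (h1 : t ≤ 1 / 2) :
    |cc n (fX x t) (fY y t) - cc n x y - t * Dd n x y| ≤
      ((2 * n + 2 * n * Lc n) * 4 + 3 * n) * t ^ 2 := by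
  have hn0 : (0:ℝ) ≤ n := Nat.cast_nonneg n
  have L0 := Lc_nonneg n
  set K : ℝ := (2 * n + 2 * n * Lc n) * 4 + 3 * n with hK
  have K0 : 0 ≤ K := by positivity
  set f : ℝ → ℝ := fun T => cc n (fX x T) (fY y T) - T * Dd n x y with hf
  have cX : ∀ z : ℝ, |z| ≤ 1 → ContinuousOn (fX z) (Icc 0 t) := by
    intro z hz
    unfold fX
    refine ContinuousOn.div (by fun_prop) (by fun_prop) fun T hT => ?_
    have := den_pos hz (T := T) (by rw [abs_of_nonneg hT.1]; exact hT.2.trans h1)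
    linarith
  have cf : ContinuousOn f (Icc 0 t) := by
    have c1 : ContinuousOn (fun T => (fX x T, fY y T)) (Icc 0 t) :=
      (cX x hx).prodMk (cX (-y) (by rwa [abs_neg])).neg
    have c2 := (cc_cont hn).comp_continuousOn c1
    exact c2.sub (continuousOn_id.mul continuousOn_const)
  have df : ∀ T ∈ Ico 0 t, HasDerivWithinAt f
      (Dd n (fX x T) (fY y T) / (1 - T ^ 2) - Dd n x y) (Ici T) T := by
    intro T hT
    have a := deriv_at (n := n) hx hy hT.1 (hT.2.trans_le h1)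
    have b : HasDerivWithinAt (fun T : ℝ => T * Dd n x y) (Dd n x y) (Ici T) T := by
      simpa using ((hasDerivAt_id T).mul_const (Dd n x y)).hasDerivWithinAt
    exact a.fun_sub b
  have bd : ∀ T ∈ Ico 0 t, ‖Dd n (fX x T) (fY y T) / (1 - T ^ 2) - Dd n x y‖ ≤ K * t := by
    intro T hT
    have hT2 : T ≤ 1 / 2 := hT.2.le.trans h1
    have hT' : |T| ≤ 1 / 2 := by rwa [abs_of_nonneg hT.1]
    have mX := fX_mem hx hT'
    have mY := fY_mem hy hT'
    have l := Dd_lip hn hx hy mX mY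
    have b1 := fX_sub_le hx hT.1 hT2
    have b2 : |fY y T - y| ≤ 2 * T := by
      have := fX_sub_le (x := -y) (by rwa [abs_neg]) hT.1 hT2
      unfold fY
      rw [← abs_neg] at this
      convert this using 2
      ring
    have b3 := Dd_bd hn mX mY
    have dT : 3 / 4 ≤ 1 - T ^ 2 := by nlinarith [hT.1]
    have e : Dd n (fX x T) (fY y T) / (1 - T ^ 2) - Dd n x y =
        (Dd n (fX x T) (fY y T) - Dd n x y) + Dd n (fX x T) (fY y T) * (T ^ 2 / (1 - T ^ 2)) := by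
      have : 1 - T ^ 2 ≠ 0 := by linarith
      field_simp
      ring
    have b4 : T ^ 2 / (1 - T ^ 2) ≤ T := by
      rw [div_le_iff₀ (by linarith)]
      nlinarith [hT.1]
    have b4' : 0 ≤ T ^ 2 / (1 - T ^ 2) := div_nonneg (sq_nonneg T) (by linarith)
    rw [e, Real.norm_eq_abs]
    have b5 : |Dd n (fX x T) (fY y T) * (T ^ 2 / (1 - T ^ 2))| ≤ 3 * n * T := by
      rw [abs_mul, abs_of_nonneg b4']
      gcongr
    have b6 : |Dd n (fX x T) (fY y T) - Dd n x y| ≤ (2 * n + 2 * n * Lc n) * (4 * T) := by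
      refine l.trans ?_
      gcongr
      linarith
    have b7 := abs_add_le (Dd n (fX x T) (fY y T) - Dd n x y)
      (Dd n (fX x T) (fY y T) * (T ^ 2 / (1 - T ^ 2)))
    calc _ ≤ (2 * n + 2 * n * Lc n) * (4 * T) + 3 * n * T := by linarith
      _ = K * T := by rw [hK]; ring
      _ ≤ K * t := by gcongr; exact hT.2.le
  have mv := norm_image_sub_le_of_norm_deriv_right_le_segment cf df bd t ⟨h0, le_rfl⟩
  rw [Real.norm_eq_abs] at mv
  have e0 : f t - f 0 = cc n (fX x t) (fY y t) - cc n x y - t * Dd n x y := by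
    simp only [hf, fX_zero, fY_zero]; ring
  rw [e0] at mv
  calc _ ≤ _ := mv
    _ = _ := by ring

/-- the certificate exists -/
theorem exists_cert {n : ℕ} (hn : 1 ≤ n) : Cert n (cc n) where
  bd x y := c0_bd hn _ _
  mono1 y := fun x x' h => c0_mono hn (cl_mono h) (cl_mem y)
  mono2 x := fun y y' h => by
    show c0 n (cl x) (cl y) ≤ c0 n (cl x) (cl y')
    rw [c0_comm n (cl x) (cl y), c0_comm n (cl x) (cl y')]
    exact c0_mono hn (cl_mono h) (cl_mem x)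
  lip := ⟨Lc n, Lc_nonneg n, cc_lip hn⟩
  euler := by
    have hn0 : (0:ℝ) ≤ n := Nat.cast_nonneg n
    have L0 := Lc_nonneg n
    refine ⟨((2 * n + 2 * n * Lc n) * 4 + 3 * n) + 4 * Lc n, by positivity, ?_⟩
    intro x y t hx hy ht0 ht
    have h := flow_euler hn hx hy ht0 ht
    have e1 := fX_euler hx ht0 ht
    have e2 : |fY y t - (y - t * (1 - y ^ 2))| ≤ 2 * t ^ 2 := by
      have := fX_euler (x := -y) (by rwa [abs_neg]) ht0 ht
      unfold fY
      rw [← abs_neg] at this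
      convert this using 2
      ring
    have l := cc_lip hn (x + t * (1 - x ^ 2)) (fX x t) (y - t * (1 - y ^ 2)) (fY y t)
    rw [abs_sub_comm] at e1 e2
    have l2 : |cc n (x + t * (1 - x ^ 2)) (y - t * (1 - y ^ 2)) - cc n (fX x t) (fY y t)| ≤
        Lc n * (2 * t ^ 2 + 2 * t ^ 2) := by
      refine l.trans ?_
      gcongr
    have hD : Dd n x y = n * (|y| - |x|) - n * (y - x) * cc n x y := by
      unfold Dd; rw [cc_eq hx hy]
    rw [← hD]
    have := abs_sub_le (cc n (x + t * (1 - x ^ 2)) (y - t * (1 - y ^ 2)))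
      (cc n (fX x t) (fY y t)) (cc n x y + t * Dd n x y)
    have e3 : cc n (fX x t) (fY y t) - (cc n x y + t * Dd n x y) =
        cc n (fX x t) (fY y t) - cc n x y - t * Dd n x y := by ring
    have e4 : cc n (x + t * (1 - x ^ 2)) (y - t * (1 - y ^ 2)) - (cc n x y + t * Dd n x y) =
        cc n (x + t * (1 - x ^ 2)) (y - t * (1 - y ^ 2)) - cc n x y - t * Dd n x y := by ring
    rw [e3, e4] at this
    calc _ ≤ _ := this
      _ ≤ Lc n * (2 * t ^ 2 + 2 * t ^ 2) + ((2 * n + 2 * n * Lc n) * 4 + 3 * n) * t ^ 2 :=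
          add_le_add l2 h
      _ = _ := by ring

end Pool.Agent.FR.CF
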