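import Pool.Agent.Lib.MP_725e58_gt.FS.Wei41
import Pool.Agent.Lib.MP_725e58_gt.FS.FunD41

/-! The sharp mean inequality on a frame. -/

set_option autoImplicit false

namespace Pool.Agent.FR

open MeasureTheory Set Filter Topology
open scoped ENNReal NNReal

namespace Frame

variable {V : Type*} [NormedAddCommGroup V] [NormedSpace ℝ V] (F : Frame V)
variable [FiniteDimensional ℝ V] [MeasurableSpace V] [BorelSpace V] (ν : Measure V)
  [ν.IsAddHaarMeasure]
variable {n : ℕ} {Z : ℝ}

lemma integrable_two_gr (hM : F.Mom ν n Z) :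
    Integrable (fun p : V × V => 2 * F.gr p.1 p.2) ((F.eN ν).prod (F.ex ν 2)) := by
  have f1 := F.eN_finite ν hM
  have f2 := Mom.finite_ex F hM (s := 2) two_pos
  have ih : Integrable (fun p : V × V => 2 * F.h p.2) ((F.eN ν).prod (F.ex ν 2)) := by
    have := (Mom.integrable_pow F hM 1 (s := 2) two_pos).comp_snd (F.eN ν)
    simp only [pow_one] at this
    exact this.const_mul 2
  refine ih.mono' (F.measurable_gr_pair.const_mul 2).aestronglyMeasurable ?_
  filter_upwards [F.ae_QQs ν hM] with p ⟨hp, hs⟩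
  have a1 := Sup.abs_le F hs hp
  rw [Real.norm_eq_abs, abs_mul, abs_two]; linarith

lemma integrable_hsub (hM : F.Mom ν n Z) :
    Integrable (fun p : V × V => F.h (p.1 - p.2)) ((F.ex ν 1).prod (F.ex ν 1)) := by
  refine hM.integrable_hh.mono' F.measurable_hsub.aestronglyMeasurable ?_
  filter_upwards [F.ae_prod_mem ν 1 1] with p hp
  rw [Real.norm_eq_abs]
  exact (F.h_abs_le41 _).trans (F.N_le hp.1 hp.2)

/-- The sharp mean inequality: the mean of `|φ g|` over the Rogers-Shephard part is at most the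
mean of `|h a - h b|`. -/
theorem sharp_mean (hn : Module.finrank ℝ V = n) (n0 : 0 < n) (hM : F.Mom ν n Z) :
    ∫ p : V × V, |2 * F.gr p.1 p.2| ∂((F.eN ν).prod (F.ex ν 2)) ≤
      ∫ p : V × V, |F.h (p.1 - p.2)| ∂((F.ex ν 1).prod (F.ex ν 1)) := by
  have f1 := F.eN_finite ν hM
  have f2 := Mom.finite_ex F hM (s := 2) two_pos
  have f3 := Mom.finite_ex F hM (s := 1) one_pos
  obtain ⟨c, hc⟩ : ∃ c, Cert n c := ⟨_, CF.exists_cert n0⟩
  have C := F.cert_ineq ν hn n0 hM hc
  have D1 := F.weighted_N ν hn hM hc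
  have D2 := F.y_embed ν hM hc
  have D3 := F.gamma_indep ν hn hM hc
  have hn0 : (0:ℝ) ≤ n := Nat.cast_nonneg n
  set P := (F.ex ν 1).prod (F.ex ν 1) with hP
  set Q := (F.eN ν).prod (F.ex ν 2) with hQ
  -- integrability
  have j1 : Integrable (fun p : V × V => |2 * F.gr p.1 p.2|) Q := (F.integrable_two_gr ν hM).abs
  have j2 : Integrable (fun p : V × V => 2 * F.gr p.1 p.2 * F.rc c p) Q := by
    refine j1.mono' ((F.measurable_gr_pair.const_mul 2).mul (F.measurable_rc hc)).aestronglyMeasurable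
      (Eventually.of_forall fun p => ?_)
    rw [Real.norm_eq_abs, abs_mul]
    exact mul_le_of_le_one_right (abs_nonneg _) (hc.bd _ _)
  have k1 : Integrable (fun p : V × V => |F.h (p.1 - p.2)|) P := (F.integrable_hsub ν hM).abs
  have bX : ∀ p, |F.gX p| ≤ 1 := fun p => abs_ratio (F.h_abs_le41 _)
  have bX2 : ∀ p, |(|F.gX p| - F.gX p * F.gc c p)| ≤ 2 := fun p => by
    have h1 : |F.gX p * F.gc c p| ≤ |F.gX p| := by
      rw [abs_mul]
      exact mul_le_of_le_one_right (abs_nonneg _) (hc.bd _ _)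
    have := bX p
    have := abs_le.mp h1
    rw [abs_le]; constructor <;> linarith [abs_nonneg (F.gX p)]
  have mX : Measurable (fun p => |F.gX p| - F.gX p * F.gc c p) :=
    F.measurable_gX.abs.sub (F.measurable_gX.mul (F.measurable_gc hc))
  have k2 : Integrable (fun p : V × V => (F.N (p.1 - p.2) - n) * (|F.gX p| - F.gX p * F.gc c p)) P := by
    have iN : Integrable (fun p : V × V => (F.N (p.1 - p.2) + n) * 2) P :=
      (hM.integrable_N.add (integrable_const _)).mul_const 2
    refine iN.mono' ((F.measurable_Nsub.sub_const _).mul mX).aestronglyMeasurable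
      (Eventually.of_forall fun p => ?_)
    have h0 := F.N_nonneg (p.1 - p.2)
    rw [Real.norm_eq_abs, abs_mul]
    refine mul_le_mul ?_ (bX2 p) (abs_nonneg _) (by positivity)
    rw [abs_le]; constructor <;> linarith
  have k3 : Integrable (fun p : V × V => |F.gY p| - F.gY p * F.gc c p) P := by
    refine Integrable.of_bound (F.measurable_gY.abs.sub
      (F.measurable_gY.mul (F.measurable_gc hc))).aestronglyMeasurable 2 ?_
    filter_upwards [F.ae_PP0 ν hM] with p ⟨h1, h2, hs⟩
    have a3 : |F.gY p| ≤ 1 := abs_ratio (F.abs_W_le h1 h2 hs)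
    have h1 : |F.gY p * F.gc c p| ≤ |F.gY p| := by
      rw [abs_mul]
      exact mul_le_of_le_one_right (abs_nonneg _) (hc.bd _ _)
    have := abs_le.mp h1
    rw [Real.norm_eq_abs, abs_le]; constructor <;> linarith [abs_nonneg (F.gY p)]
  have e : ∫ p : V × V, (F.h (p.1 - p.2) * F.gc c p -
        (n * (|F.gY p| - |F.gX p|) - n * (F.gY p - F.gX p) * F.gc c p)) ∂P =
      ∫ p : V × V, |F.h (p.1 - p.2)| ∂P -
        ∫ p : V × V, (F.N (p.1 - p.2) - n) * (|F.gX p| - F.gX p * F.gc c p) ∂P -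
        n * ∫ p : V × V, (|F.gY p| - F.gY p * F.gc c p) ∂P := by
    have k12 : Integrable (fun p : V × V => |F.h (p.1 - p.2)| -
        (F.N (p.1 - p.2) - n) * (|F.gX p| - F.gX p * F.gc c p)) P := k1.sub k2
    rw [← integral_const_mul, ← integral_sub k1 k2, ← integral_sub k12 (k3.const_mul _)]
    refine integral_congr_ae (Eventually.of_forall fun p => ?_)
    have hN := F.N_nonneg (p.1 - p.2)
    have hz : F.h (p.1 - p.2) = F.N (p.1 - p.2) * F.gX p := by
      unfold gX
      rcases hN.eq_or_lt with h0 | h0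
      · have := F.h_abs_le41 (p.1 - p.2)
        rw [← h0] at this
        rw [← h0, zero_mul]
        exact abs_nonpos_iff.mp this
      · field_simp
    have hz2 : |F.h (p.1 - p.2)| = F.N (p.1 - p.2) * |F.gX p| := by
      rw [hz, abs_mul, abs_of_nonneg hN]
    simp only
    rw [hz2]
    nth_rewrite 1 [hz]
    ring
  rw [e] at C
  have s : ∫ p : V × V, (|2 * F.gr p.1 p.2| - 2 * F.gr p.1 p.2 * F.rc c p) ∂Q =
      ∫ p : V × V, |2 * F.gr p.1 p.2| ∂Q - ∫ p : V × V, 2 * F.gr p.1 p.2 * F.rc c p ∂Q :=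
    integral_sub j1 j2
  rw [s] at D3
  have := mul_le_mul_of_nonneg_left D2 hn0
  linarith

/-- the same with the Lebesgue integral -/
theorem sharp_mean' (hn : Module.finrank ℝ V = n) (n0 : 0 < n) (hM : F.Mom ν n Z) :
    ∫⁻ p : V × V, ENNReal.ofReal |F.gr p.1 p.2| ∂((F.eN ν).prod (F.ex ν 2)) ≤
      ENNReal.ofReal (1 / 2 * ∫ p : V × V, |F.h p.1 - F.h p.2| ∂((F.ex ν 1).prod (F.ex ν 1))) := by
  have f1 := F.eN_finite ν hM
  have f2 := Mom.finite_ex F hM (s := 2) two_pos
  have h := F.sharp_mean ν hn n0 hM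
  have e1 : ∫ p : V × V, |2 * F.gr p.1 p.2| ∂((F.eN ν).prod (F.ex ν 2)) =
      2 * ∫ p : V × V, |F.gr p.1 p.2| ∂((F.eN ν).prod (F.ex ν 2)) := by
    rw [← integral_const_mul]
    refine integral_congr_ae (Eventually.of_forall fun p => ?_)
    simp only [abs_mul, abs_two]
  have e2 : ∫ p : V × V, |F.h (p.1 - p.2)| ∂((F.ex ν 1).prod (F.ex ν 1)) =
      ∫ p : V × V, |F.h p.1 - F.h p.2| ∂((F.ex ν 1).prod (F.ex ν 1)) := by
    simp only [map_sub]
  rw [e1, e2] at h
  have i : Integrable (fun p : V × V => |F.gr p.1 p.2|) ((F.eN ν).prod (F.ex ν 2)) := by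
    have := (F.integrable_two_gr ν hM).abs.const_mul (1 / 2)
    refine this.congr (Eventually.of_forall fun p => ?_)
    simp only [abs_mul, abs_two]
    ring
  rw [← ofReal_integral_eq_lintegral_ofReal i (Eventually.of_forall fun p => abs_nonneg _)]
  exact ENNReal.ofReal_le_ofReal (by linarith)

end Frame

end Pool.Agent.FR
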