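import Pool.Agent.Lib.MP_725e58_gt.FR.Slope41

/-! The flux of the norm in the direction `(x, 1)` is equal to the volume of the reflection body
(the reverse of `frameOf_slope`). -/

set_option autoImplicit false

namespace Pool.Agent.FR

open MeasureTheory Set Filter Topology
open scoped ENNReal NNReal Pointwise

/-- the flux on a half line on which the function increases -/
lemma half_line_le {η : ℝ → ℝ} {C : ℝ≥0} (hη : LipschitzWith C η) (hn : ∀ s, 0 ≤ η s) {s0 : ℝ}
    (hm : MonotoneOn η (Ici s0)) :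
    ∫⁻ s in Ioi s0, ENNReal.ofReal |deriv η s| * ENNReal.ofReal (Real.exp (-η s)) ≤
      ENNReal.ofReal (Real.exp (-η s0)) := by
  set f : ℝ → ℝ := fun s => Real.exp (-η s) with hf
  have hfl : LipschitzWith C f := by
    refine LipschitzWith.of_dist_le_mul fun a b => ?_
    rw [Real.dist_eq]
    refine (exp_neg_lip (hn a) (hn b)).trans ?_
    rw [← Real.dist_eq]
    exact hη.dist_le_mul a b
  have hint : ∀ s, ENNReal.ofReal |deriv η s| * ENNReal.ofReal (Real.exp (-η s)) =
      ENNReal.ofReal |deriv f s| := by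
    intro s
    rw [hf, deriv_exp_neg, abs_neg, abs_mul, abs_of_pos (Real.exp_pos (-η s)),
      ENNReal.ofReal_mul (abs_nonneg _)]
  simp only [hint]
  have hanti : AntitoneOn f (Ici s0) := fun a ha b hb hab =>
    Real.exp_le_exp.mpr (neg_le_neg (hm ha hb hab))
  have hneg : ∀ s ∈ Ioi s0, deriv f s ≤ 0 := by
    intro s hs
    have h1 : derivWithin f (Ici s0) s ≤ 0 := hanti.derivWithin_nonpos
    rwa [derivWithin_of_mem_nhds (Ici_mem_nhds hs)] at h1
  have key : ∀ n : ℕ, ∫⁻ s in Ioc s0 (s0 + n), ENNReal.ofReal |deriv f s| ≤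
      ENNReal.ofReal (f s0) := by
    intro n
    have hab : s0 ≤ s0 + n := by have : (0:ℝ) ≤ n := by positivity
                                 linarith
    have hac := (hfl.lipschitzOnWith (s := uIcc s0 (s0 + n))).absolutelyContinuousOnInterval
    have e1 : ∫⁻ s in Ioc s0 (s0 + n), ENNReal.ofReal |deriv f s| =
        ∫⁻ s in Ioc s0 (s0 + n), ENNReal.ofReal (-deriv f s) := by
      refine setLIntegral_congr_fun measurableSet_Ioc fun s hs => ?_
      show ENNReal.ofReal |deriv f s| = ENNReal.ofReal (-deriv f s)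
      rw [abs_of_nonpos (hneg s hs.1)]
    have hii : IntegrableOn (fun s => -deriv f s) (Ioc s0 (s0 + n)) := by
      have := hac.intervalIntegrable_deriv
      rw [intervalIntegrable_iff_integrableOn_Ioc_of_le hab] at this
      exact this.neg
    have hnn : 0 ≤ᵐ[volume.restrict (Ioc s0 (s0 + n))] fun s => -deriv f s := by
      filter_upwards [ae_restrict_mem measurableSet_Ioc] with s hs
      have := hneg s hs.1
      simp only [Pi.zero_apply]; linarith
    rw [e1, ← ofReal_integral_eq_lintegral_ofReal hii hnn, integral_neg,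
      ← intervalIntegral.integral_of_le hab, hac.integral_deriv_eq_sub]
    apply ENNReal.ofReal_le_ofReal
    have : 0 < f (s0 + n) := Real.exp_pos _
    linarith
  have hU : Ioi s0 = ⋃ n : ℕ, Ioc s0 (s0 + n) := by
    ext s
    simp only [mem_Ioi, mem_iUnion, mem_Ioc]
    constructor
    · intro hs
      obtain ⟨n, hn'⟩ := exists_nat_ge (s - s0)
      exact ⟨n, hs, by linarith⟩
    · rintro ⟨n, h1, -⟩; exact h1
  rw [hU, setLIntegral_iUnion_of_directed]
  · exact iSup_le key
  · refine Monotone.directed_le fun a b hab => ?_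
    refine Ioc_subset_Ioc le_rfl ?_
    have : (a : ℝ) ≤ b := by exact_mod_cast hab
    linarith

/-- The flux along one line is at most twice the maximum, for a convex function. -/
theorem line_le {η : ℝ → ℝ} {C : ℝ≥0} (hη : LipschitzWith C η) (hn : ∀ s, 0 ≤ η s)
    (hc : ConvexOn ℝ univ η) {s0 : ℝ} (h0 : ∀ s, η s0 ≤ η s) :
    ∫⁻ s, ENNReal.ofReal |deriv η s| * ENNReal.ofReal (Real.exp (-η s)) ≤
      ENNReal.ofReal (2 * Real.exp (-η s0)) := by
  have hm : MonotoneOn η (Ici s0) := by
    intro a ha b hb hab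
    have h1 := hc.le_max_of_mem_Icc (mem_univ s0) (mem_univ b) ⟨ha, hab⟩
    rwa [max_eq_right (h0 b)] at h1
  have hm' : MonotoneOn (fun s => η (-s)) (Ici (-s0)) := by
    intro a ha b hb hab
    have ha : -s0 ≤ a := ha
    have h1 := hc.le_max_of_mem_Icc (mem_univ (-b)) (mem_univ s0)
      (show -a ∈ Icc (-b) s0 from ⟨by linarith, by linarith⟩)
    rwa [max_eq_left (h0 (-b))] at h1
  have hη' : LipschitzWith C (fun s => η (-s)) := by
    refine LipschitzWith.of_dist_le_mul fun a b => ?_
    refine (hη.dist_le_mul (-a) (-b)).trans ?_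
    rw [dist_neg_neg]
  have h1 := half_line_le hη hn hm
  have h2 := half_line_le hη' (fun s => hn (-s)) hm'
  have h3 : ∫⁻ s in Ioi (-s0), ENNReal.ofReal |deriv (fun s => η (-s)) s| *
      ENNReal.ofReal (Real.exp (-η (-s))) =
      ∫⁻ s in Iio s0, ENNReal.ofReal |deriv η s| * ENNReal.ofReal (Real.exp (-η s)) := by
    have hpre : Ioi (-s0) = (fun s : ℝ => -s) ⁻¹' (Iio s0) := by
      ext s; simp only [mem_Ioi, mem_preimage, mem_Iio]; constructor <;> intro h <;> linarith
    have hmp := (Measure.measurePreserving_neg (volume : Measure ℝ))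
    have hme : MeasurableEmbedding (fun s : ℝ => -s) := (MeasurableEquiv.neg ℝ).measurableEmbedding
    rw [← hmp.setLIntegral_comp_preimage_emb hme _ (Iio s0), ← hpre]
    refine lintegral_congr fun s => ?_
    rw [deriv_comp_neg, abs_neg]
  rw [h3] at h2
  simp only [neg_neg] at h2
  have h4 : ∫⁻ s, ENNReal.ofReal |deriv η s| * ENNReal.ofReal (Real.exp (-η s)) =
      (∫⁻ s in Iio s0, ENNReal.ofReal |deriv η s| * ENNReal.ofReal (Real.exp (-η s))) +
      ∫⁻ s in Ioi s0, ENNReal.ofReal |deriv η s| * ENNReal.ofReal (Real.exp (-η s)) := by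
    rw [← lintegral_add_compl _ (measurableSet_Iio (a := s0)), compl_Iio,
      setLIntegral_congr Ioi_ae_eq_Ici.symm]
  rw [h4, ENNReal.ofReal_mul (by norm_num)]
  calc _ ≤ ENNReal.ofReal (Real.exp (-η s0)) + ENNReal.ofReal (Real.exp (-η s0)) :=
        add_le_add h2 h1
    _ = _ := by rw [← two_mul]; norm_num

namespace Frame

open Pool.Agent.Lib.MP_725e58_gt.Tow (RB RB_compact)

variable {E : Type*} [NormedAddCommGroup E] [NormedSpace ℝ E] [FiniteDimensional ℝ E]
  (F : Frame (E × ℝ))

omit [FiniteDimensional ℝ E] in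
/-- the reflection body contains the projection of the unit ball of `N` along `(x, 1)` -/
lemma mem_RB_of_le {K : Set E} (hne : K.Nonempty) (hG : ∀ a ∈ F.G, ∃ k ∈ K, a.1 = a.2 • k)
    (hh : ∀ p, F.h p = p.2) {x z : E} {r s : ℝ} (hr : 0 < r) (hs : F.N (z + s • x, s) ≤ r) :
    x + r⁻¹ • z ∈ RB K x := by
  obtain ⟨a, ha, b, hb, hab, hN⟩ := F.dec (z + s • x, s)
  have ha0 := F.h_nonneg ha
  have hb0 := F.h_nonneg hb
  obtain ⟨k, hk, hak⟩ := hG a ha
  obtain ⟨l, hl, hbl⟩ := hG b hb
  rw [hh] at ha0 hb0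
  rw [hN, hh, hh] at hs
  have e1 : z + s • x = a.1 - b.1 := congrArg Prod.fst hab
  have e2 : s = a.2 - b.2 := congrArg Prod.snd hab
  have hconv : Convex ℝ (RB K x) := convex_convexHull ℝ _
  have hk' : k ∈ RB K x := subset_convexHull ℝ _ (Or.inl hk)
  have hl' : (2 : ℝ) • x - l ∈ RB K x := subset_convexHull ℝ _ (Or.inr ⟨l, hl, rfl⟩)
  have hx' : x ∈ RB K x := by
    obtain ⟨m, hm⟩ := hne
    have h1 : m ∈ RB K x := subset_convexHull ℝ _ (Or.inl hm)
    have h2 : (2 : ℝ) • x - m ∈ RB K x := subset_convexHull ℝ _ (Or.inr ⟨m, hm, rfl⟩)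
    have h3 := hconv h1 h2 (show (0:ℝ) ≤ 1/2 by norm_num) (show (0:ℝ) ≤ 1/2 by norm_num)
      (by norm_num)
    have h4 : (1/2 : ℝ) • m + (1/2 : ℝ) • ((2 : ℝ) • x - m) = x := by module
    rwa [h4] at h3
  have hz : x + r⁻¹ • z = (a.2 / r) • k + (b.2 / r) • ((2 : ℝ) • x - l) +
      (1 - a.2 / r - b.2 / r) • x := by
    have e3 : z = a.2 • k - b.2 • l - (a.2 - b.2) • x := by
      rw [← e2, ← hak, ← hbl, ← e1]; abel
    rw [e3]
    module
  rw [hz]
  have hw : 0 ≤ 1 - a.2 / r - b.2 / r := by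
    have : a.2 / r + b.2 / r ≤ 1 := by
      rw [← add_div, div_le_one hr]; exact hs
    linarith
  have ha1 : 0 ≤ a.2 / r := div_nonneg ha0 hr.le
  have hb1 : 0 ≤ b.2 / r := div_nonneg hb0 hr.le
  rcases (add_nonneg ha1 hb1).eq_or_lt with h | h
  · have h5 : a.2 / r = 0 := by linarith
    have h6 : b.2 / r = 0 := by linarith
    rw [h5, h6]
    simpa using hx'
  · have h7 := hconv hk' hl' (show 0 ≤ (a.2 / r) / (a.2 / r + b.2 / r) by positivity)
      (show 0 ≤ (b.2 / r) / (a.2 / r + b.2 / r) by positivity)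
      (by rw [← add_div, div_self h.ne'])
    have h8 := hconv h7 hx' (show 0 ≤ a.2 / r + b.2 / r from h.le) hw (by ring)
    rw [smul_add, smul_smul, smul_smul, mul_div_cancel₀ _ h.ne', mul_div_cancel₀ _ h.ne'] at h8
    exact h8

variable [MeasurableSpace E] [BorelSpace E] (μ : Measure E) [μ.IsAddHaarMeasure]

lemma flux_le {K : Set E} (hne : K.Nonempty) (hG : ∀ a ∈ F.G, ∃ k ∈ K, a.1 = a.2 • k)
    (hh : ∀ p, F.h p = p.2) (x : E) : ∀ᵐ z ∂μ, ∃ r0 : ℝ, 0 ≤ r0 ∧
      F.flux x z ≤ ENNReal.ofReal (2 * Real.exp (-r0)) ∧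
      ∀ r : ℝ, r0 < r → x + r⁻¹ • z ∈ RB K x := by
  obtain ⟨C, hC⟩ := F.exists_lipschitz
  filter_upwards [F.ae_diff_line μ x] with z hz
  set η : ℝ → ℝ := fun s => F.N (z + s • x, s) with hη
  have hlip : LipschitzWith (C * ⟨‖x‖ + 1, by positivity⟩) η := by
    refine hC.comp ?_
    refine LipschitzWith.of_dist_le_mul fun a b => ?_
    rw [dist_eq_norm, dist_eq_norm]
    have : ((z + a • x, a) : E × ℝ) - (z + b • x, b) = ((a - b) • x, a - b) := by
      ext
      · simp only [Prod.mk_sub_mk]; module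
      · simp
    rw [this]
    refine (max_le ?_ ?_ : max ‖(a - b) • x‖ ‖a - b‖ ≤ _)
    · rw [norm_smul]
      change ‖a - b‖ * ‖x‖ ≤ (‖x‖ + 1) * ‖a - b‖
      nlinarith [norm_nonneg (a - b), norm_nonneg x]
    · change ‖a - b‖ ≤ (‖x‖ + 1) * ‖a - b‖
      nlinarith [norm_nonneg (a - b), norm_nonneg x, mul_nonneg (norm_nonneg x) (norm_nonneg (a - b))]
  have h0 : ∀ s, |s| ≤ η s := by
    intro s
    have := F.abs_h_le (z + s • x, s)
    rwa [hh] at this
  have hn : ∀ s, 0 ≤ η s := fun s => (abs_nonneg s).trans (h0 s)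
  have hcv : ConvexOn ℝ univ η := by
    refine ⟨convex_univ, fun s _ t _ a b ha hb hab => ?_⟩
    have h1 := F.convexOn_N.2 (mem_univ (z + s • x, s)) (mem_univ (z + t • x, t)) ha hb hab
    have h2 : a • ((z + s • x, s) : E × ℝ) + b • ((z + t • x, t) : E × ℝ) =
        (z + (a • s + b • t) • x, a • s + b • t) := by
      ext
      · simp only [Prod.smul_mk, Prod.mk_add_mk, smul_eq_mul]
        have : z = (a + b) • z := by rw [hab, one_smul]
        calc a • (z + s • x) + b • (z + t • x) = (a + b) • z + (a * s + b * t) • x := by module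
          _ = z + (a * s + b * t) • x := by rw [hab, one_smul]
      · simp
    rw [h2] at h1
    exact h1
  obtain ⟨s0, hs0⟩ : ∃ s0, ∀ s, η s0 ≤ η s := by
    have hcomp : IsCompact (Icc (-η 0) (η 0)) := isCompact_Icc
    have h00 : (0:ℝ) ∈ Icc (-η 0) (η 0) := ⟨by linarith [hn 0], hn 0⟩
    obtain ⟨s0, -, hmin⟩ := hcomp.exists_isMinOn ⟨0, h00⟩ hlip.continuous.continuousOn
    refine ⟨s0, fun s => ?_⟩
    by_cases hs : s ∈ Icc (-η 0) (η 0)
    · exact hmin hs
    · have h1 : η 0 < |s| := by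
        by_contra hcon
        exact hs (abs_le.mp (not_lt.mp hcon))
      exact (hmin h00).trans (h1.le.trans (h0 s))
  refine ⟨η s0, hn s0, ?_, fun r hr => ?_⟩
  · have h1 := line_le hlip hn hcv hs0
    have h2 : ∫⁻ s, ENNReal.ofReal |deriv η s| * ENNReal.ofReal (Real.exp (-η s)) =
        F.flux x z := by
      refine lintegral_congr_ae ?_
      filter_upwards [hz] with s hs
      have hl : HasDerivAt (fun s : ℝ => ((z + s • x, s) : E × ℝ)) ((x, 1) : E × ℝ) s := by
        refine HasDerivAt.prodMk ?_ (hasDerivAt_id s)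
        have := ((hasDerivAt_id s).smul_const x).const_add z
        simpa using this
      have hd : HasDerivAt η (F.gr (z + s • x, s) (x, 1)) s :=
        HasFDerivAt.comp_hasDerivAt (f := fun s : ℝ => ((z + s • x, s) : E × ℝ)) s
          hs.hasFDerivAt hl
      rw [hd.deriv]
    rwa [h2] at h1
  · exact F.mem_RB_of_le hne hG hh ((hn s0).trans_lt hr) hr.le

/-- The integral of `I` is at most `2 d! |R|` if `I` is at most `2 e^{-r}` outside of `r R`. -/
lemma layer_le {R : Set E} (hR : MeasurableSet R) {I : E → ℝ≥0∞}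
    (hI : ∀ᵐ z ∂μ, ∃ r0 : ℝ, 0 ≤ r0 ∧ I z ≤ ENNReal.ofReal (2 * Real.exp (-r0)) ∧
      ∀ r : ℝ, r0 < r → r⁻¹ • z ∈ R) :
    ∫⁻ z, I z ∂μ ≤ ENNReal.ofReal (2 * (Module.finrank ℝ E).factorial) * μ R := by
  set d := Module.finrank ℝ E with hd
  set T : Set (E × ℝ) := {p | 0 < p.2 ∧ p.2⁻¹ • p.1 ∈ R} with hT
  have hTm : MeasurableSet T := by
    refine (measurableSet_lt measurable_const measurable_snd).inter ?_
    exact (measurable_snd.inv.smul measurable_fst) hR
  set q : E × ℝ → ℝ≥0∞ := T.indicator (fun p => ENNReal.ofReal (Real.exp (-p.2))) with hq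
  have hqm : Measurable q := by
    refine Measurable.indicator ?_ hTm
    exact (Real.measurable_exp.comp measurable_snd.neg).ennreal_ofReal
  -- pointwise bound
  have hpt : ∀ᵐ z ∂μ, I z ≤ 2 * ∫⁻ r : ℝ, q (z, r) := by
    filter_upwards [hI] with z hz
    obtain ⟨r0, hr0, h1, h2⟩ := hz
    have h3 : ENNReal.ofReal (Real.exp (-r0)) ≤ ∫⁻ r : ℝ, q (z, r) := by
      calc ENNReal.ofReal (Real.exp (-r0))
          = ENNReal.ofReal (∫ r : ℝ in Ioi r0, Real.exp (-r)) := by rw [integral_exp_neg_Ioi]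
        _ = ∫⁻ r : ℝ in Ioi r0, ENNReal.ofReal (Real.exp (-r)) := by
            rw [ofReal_integral_eq_lintegral_ofReal (integrableOn_exp_neg_Ioi r0)]
            exact Eventually.of_forall fun r => (Real.exp_pos _).le
        _ ≤ ∫⁻ r : ℝ, q (z, r) := by
            rw [← lintegral_indicator measurableSet_Ioi]
            refine lintegral_mono fun r => ?_
            by_cases hr : r ∈ Ioi r0
            · have h4 : (z, r) ∈ T := ⟨hr0.trans_lt hr, h2 r hr⟩
              rw [hq, indicator_of_mem hr, indicator_of_mem h4]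
            · rw [indicator_of_notMem hr]; exact zero_le
    calc I z ≤ ENNReal.ofReal (2 * Real.exp (-r0)) := h1
      _ = 2 * ENNReal.ofReal (Real.exp (-r0)) := by
          rw [ENNReal.ofReal_mul (by norm_num)]; norm_num
      _ ≤ _ := by gcongr
  -- Tonelli
  have hfub : ∫⁻ z, ∫⁻ r : ℝ, q (z, r) ∂volume ∂μ = ENNReal.ofReal (d.factorial) * μ R := by
    rw [lintegral_lintegral_swap (f := fun z r => q (z, r)) hqm.aemeasurable]
    have h1 : ∀ r : ℝ, ∫⁻ z, q (z, r) ∂μ =
        (Ioi (0:ℝ)).indicator (fun r => ENNReal.ofReal (Real.exp (-r) * r ^ d)) r * μ R := by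
      intro r
      by_cases hr : 0 < r
      · have h2 : ∀ z, q (z, r) = (r • R).indicator (fun _ => ENNReal.ofReal (Real.exp (-r))) z := by
          intro z
          by_cases hz : z ∈ r • R
          · have : (z, r) ∈ T := ⟨hr, (mem_smul_set_iff_inv_smul_mem₀ hr.ne' _ _).mp hz⟩
            rw [hq, indicator_of_mem this, indicator_of_mem hz]
          · have : (z, r) ∉ T := fun h => hz ((mem_smul_set_iff_inv_smul_mem₀ hr.ne' _ _).mpr h.2)
            rw [hq, indicator_of_notMem this, indicator_of_notMem hz]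
        simp only [h2]
        rw [lintegral_indicator_const (hR.const_smul₀ r), Measure.addHaar_smul,
          indicator_of_mem (show r ∈ Ioi (0:ℝ) from hr), ← hd, abs_of_pos (pow_pos hr d),
          ENNReal.ofReal_mul (Real.exp_pos _).le, mul_assoc]
      · have h2 : ∀ z, q (z, r) = 0 := by
          intro z
          rw [hq, indicator_of_notMem]
          exact fun h => hr h.1
        simp only [h2, lintegral_zero]
        rw [indicator_of_notMem (show r ∉ Ioi (0:ℝ) from hr), zero_mul]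
    simp only [h1]
    have hmi : Measurable ((Ioi (0:ℝ)).indicator
        (fun r => ENNReal.ofReal (Real.exp (-r) * r ^ d))) := by
      refine Measurable.indicator ?_ measurableSet_Ioi
      exact ((Real.measurable_exp.comp measurable_neg).mul (measurable_id.pow_const d)).ennreal_ofReal
    rw [lintegral_mul_const _ hmi, lintegral_indicator measurableSet_Ioi]
    congr 1
    have hg := Real.Gamma_eq_integral (s := (d:ℝ) + 1) (by positivity)
    rw [Real.Gamma_nat_eq_factorial] at hg
    rw [hg, ofReal_integral_eq_lintegral_ofReal]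
    · refine setLIntegral_congr_fun measurableSet_Ioi fun r hr => ?_
      simp only [add_sub_cancel_right, Real.rpow_natCast]
    · exact Real.GammaIntegral_convergent (by positivity)
    · filter_upwards [ae_restrict_mem measurableSet_Ioi] with r hr
      have hr' : (0:ℝ) < r := hr
      positivity
  calc ∫⁻ z, I z ∂μ ≤ ∫⁻ z, 2 * ∫⁻ r : ℝ, q (z, r) ∂volume ∂μ := lintegral_mono_ae hpt
    _ = 2 * (ENNReal.ofReal (d.factorial) * μ R) := by
        rw [← hfub, lintegral_const_mul]
        exact hqm.lintegral_prod_right'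
    _ = ENNReal.ofReal (2 * (d.factorial : ℝ)) * μ R := by
        rw [ENNReal.ofReal_mul (by norm_num), mul_assoc]; norm_num

/-- the flux in direction `(x, 1)` is at most the volume of the reflection body -/
theorem slope_le' {K : Set E} (hne : K.Nonempty) (hG : ∀ a ∈ F.G, ∃ k ∈ K, a.1 = a.2 • k)
    (hh : ∀ p, F.h p = p.2) (x : E) (hm : MeasurableSet (RB K x)) :
    ∫⁻ y, ENNReal.ofReal |F.gr y (x, 1)| ∂(F.eN (μ.prod volume)) ≤
      ENNReal.ofReal (2 * (Module.finrank ℝ E).factorial) * μ (RB K x) := by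
  rw [F.lintegral_flux μ x]
  have h1 : μ (RB K x) = μ ((fun z => x + z) ⁻¹' RB K x) := (measure_preimage_add μ x _).symm
  rw [h1]
  refine layer_le μ (hm.preimage (measurable_const_add x)) ?_
  filter_upwards [F.flux_le μ hne hG hh x] with z hz
  exact hz

end Frame

section K4

open Pool.Agent.Lib.MP_725e58_gt.Tow (RB RB_compact)

variable {E : Type*} [NormedAddCommGroup E] [NormedSpace ℝ E] [FiniteDimensional ℝ E]

variable [MeasurableSpace E] [BorelSpace E] (μ : Measure E) [μ.IsAddHaarMeasure]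

/-- the volume of the reflection body is the flux of the norm in the direction `(x, 1)` -/
theorem frameOf_slope_eq {K : Set E} (hc : IsCompact K) (hv : Convex ℝ K)
    (hi : (interior K).Nonempty) (x : E) :
    ∫⁻ y, ENNReal.ofReal |(frameOf K hc hv hi).gr y (x, 1)|
        ∂((frameOf K hc hv hi).eN (μ.prod (volume : Measure ℝ))) =
      ENNReal.ofReal (2 * (Module.finrank ℝ E).factorial) * μ (RB K x) := by
  refine le_antisymm ?_ (frameOf_slope μ hc hv hi x)
  refine (frameOf K hc hv hi).slope_le' μ (hi.mono interior_subset) ?_ ?_ x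
    (RB_compact hc hv x).measurableSet
  · intro a ha
    exact ha.2
  · intro p
    rfl

end K4

end Pool.Agent.FR
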