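import Pool.Agent.Lib.MP_725e58_gt.FR.Fin7
import Pool.Agent.Lib.MP_725e58_gt.FS.Sharp41
import Pool.Agent.Lib.MP_725e58_gt.FS.Slope59

/-! Assembly: from the frame to the reflection bodies. -/

set_option autoImplicit false

namespace Pool.Agent.FR

open MeasureTheory Set Filter Topology
open scoped ENNReal NNReal
open Pool.Agent.Lib.MP_725e58_gt

section arith

/-- the constant of the sharp mean inequality -/
noncomputable def mc (d : ℕ) : ℝ := ((2 * d + 2).choose (d + 1) : ℝ) / 2 ^ (d + 1)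

lemma mc_nonneg (d : ℕ) : 0 ≤ mc d := by unfold mc; positivity

lemma centralBinom_two_step (n : ℕ) :
    (n + 1) * (n + 2) * Nat.centralBinom (n + 2) =
      4 * (2 * n + 1) * (2 * n + 3) * Nat.centralBinom n := by
  have h1 := Nat.succ_mul_centralBinom_succ n
  have h2 := Nat.succ_mul_centralBinom_succ (n + 1)
  calc (n + 1) * (n + 2) * Nat.centralBinom (n + 2)
      = (n + 1) * ((n + 1 + 1) * Nat.centralBinom (n + 1 + 1)) := by ring
    _ = (n + 1) * (2 * (2 * (n + 1) + 1) * Nat.centralBinom (n + 1)) := by rw [h2]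
    _ = 2 * (2 * (n + 1) + 1) * ((n + 1) * Nat.centralBinom (n + 1)) := by ring
    _ = 2 * (2 * (n + 1) + 1) * (2 * (2 * n + 1) * Nat.centralBinom n) := by rw [h1]
    _ = _ := by ring

/-- odd dimensions: `4 C(4m,2m) ≤ 3 * 4 ^ m C(2m,m)` -/
lemma odd_aux (m : ℕ) (hm : 1 ≤ m) :
    4 * Nat.centralBinom (2 * m) ≤ 3 * 4 ^ m * Nat.centralBinom m := by
  induction m, hm using Nat.le_induction with
  | base => decide
  | succ m hm ih =>
    have h1 := centralBinom_two_step (2 * m)
    have h2 := Nat.succ_mul_centralBinom_succ m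
    have e : 2 * (m + 1) = 2 * m + 2 := by ring
    rw [e]
    have hpos : 0 < (2 * m + 1) * (2 * m + 2) := by positivity
    refine Nat.le_of_mul_le_mul_left ?_ hpos
    calc (2 * m + 1) * (2 * m + 2) * (4 * Nat.centralBinom (2 * m + 2))
        = 4 * ((2 * m + 1) * (2 * m + 2) * Nat.centralBinom (2 * m + 2)) := by ring
      _ = 4 * (4 * (2 * (2 * m) + 1) * (2 * (2 * m) + 3) * Nat.centralBinom (2 * m)) := by rw [h1]
      _ = 4 * (4 * m + 1) * (4 * m + 3) * (4 * Nat.centralBinom (2 * m)) := by ring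
      _ ≤ 4 * (4 * m + 1) * (4 * m + 3) * (3 * 4 ^ m * Nat.centralBinom m) := by gcongr
      _ = (4 * m + 1) * (4 * m + 3) * (12 * 4 ^ m * Nat.centralBinom m) := by ring
      _ ≤ (4 * (2 * m + 1) ^ 2) * (12 * 4 ^ m * Nat.centralBinom m) := by
          apply Nat.mul_le_mul_right
          nlinarith
      _ = (2 * m + 1) * 12 * 2 * 4 ^ m * (2 * (2 * m + 1) * Nat.centralBinom m) := by ring
      _ = (2 * m + 1) * 12 * 2 * 4 ^ m * ((m + 1) * Nat.centralBinom (m + 1)) := by rw [h2]
      _ = _ := by ring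

/-- even dimensions: `C(4m+2,2m+1) ≤ 3 * 4 ^ m C(2m,m)` -/
lemma even_aux (m : ℕ) :
    Nat.centralBinom (2 * m + 1) ≤ 3 * 4 ^ m * Nat.centralBinom m := by
  rcases Nat.eq_zero_or_pos m with rfl | hm
  · decide
  have h1 := Nat.succ_mul_centralBinom_succ (2 * m)
  have h2 := odd_aux m hm
  have hpos : 0 < 2 * m + 1 := by positivity
  refine Nat.le_of_mul_le_mul_left ?_ hpos
  calc (2 * m + 1) * Nat.centralBinom (2 * m + 1)
      = 2 * (2 * (2 * m) + 1) * Nat.centralBinom (2 * m) := h1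
    _ ≤ (2 * m + 1) * (4 * Nat.centralBinom (2 * m)) := by
        have : 2 * (2 * (2 * m) + 1) ≤ (2 * m + 1) * 4 := by omega
        calc _ ≤ (2 * m + 1) * 4 * Nat.centralBinom (2 * m) := Nat.mul_le_mul_right _ this
          _ = _ := by ring
    _ ≤ _ := Nat.mul_le_mul_left _ h2

/-- `C(2d+2,d+1) / 2 ^ (d+1) ≤ (3/2) C(d, ⌊d/2⌋)` -/
lemma mc_le (d : ℕ) : mc d ≤ 3 / 2 * (d.choose (d / 2) : ℝ) := by
  have key : (2 * d + 2).choose (d + 1) ≤ 3 * 2 ^ d * d.choose (d / 2) := by
    have e0 : (2 * d + 2).choose (d + 1) = Nat.centralBinom (d + 1) := by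
      rw [Nat.centralBinom]; congr 1
    rw [e0]
    rcases Nat.even_or_odd' d with ⟨m, rfl | rfl⟩
    · have h := even_aux m
      rw [Nat.mul_div_cancel_left m (by norm_num), pow_mul]
      have : (2 * m).choose m = Nat.centralBinom m := rfl
      rw [this]
      exact h
    · have h := odd_aux (m + 1) (by omega)
      have hd : (2 * m + 1) / 2 = m := by omega
      rw [hd]
      have h1 : Nat.centralBinom (m + 1) = 2 * (2 * m + 1).choose m := by
        have h2 : Nat.centralBinom (m + 1) = (2 * m + 1 + 1).choose (m + 1) := by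
          rw [Nat.centralBinom]; congr 1
        rw [h2, Nat.choose_succ_succ, Nat.choose_symm_half]
        ring
      rw [h1] at h
      have e1 : 2 * m + 1 + 1 = 2 * (m + 1) := by ring
      rw [e1]
      have h4 : 4 ^ (m + 1) = 2 * 2 ^ (2 * m + 1) := by
        rw [← pow_succ', show 2 * m + 1 + 1 = 2 * (m + 1) by ring, pow_mul]; norm_num
      rw [h4] at h
      have h5 : 4 * Nat.centralBinom (2 * (m + 1)) ≤
          4 * (3 * 2 ^ (2 * m + 1) * (2 * m + 1).choose m) := by
        calc _ ≤ _ := h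
          _ = _ := by ring
      exact Nat.le_of_mul_le_mul_left h5 (by norm_num)
  have key' : ((2 * d + 2).choose (d + 1) : ℝ) ≤ 3 * 2 ^ d * (d.choose (d / 2) : ℝ) := by
    exact_mod_cast key
  unfold mc
  rw [div_le_iff₀ (by positivity), pow_succ]
  calc _ ≤ _ := key'
    _ = _ := by ring

end arith

section K5

variable {E : Type*} [NormedAddCommGroup E] [NormedSpace ℝ E] [FiniteDimensional ℝ E]
variable [MeasurableSpace E] [BorelSpace E] (μ : Measure E) [μ.IsAddHaarMeasure]

variable {K : Set E} (hc : IsCompact K) (hv : Convex ℝ K) (hi : (interior K).Nonempty)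

include hi in
omit [FiniteDimensional ℝ E] [BorelSpace E] in
lemma vol_ne_zero7 : μ K ≠ 0 := by
  intro h0
  have := isOpen_interior.measure_pos μ hi
  exact absurd (measure_mono_null interior_subset h0) this.ne'

/-- the slope integral is the volume of the reflection body -/
theorem slopeInt_eq (x : E) : slopeInt μ hc hv hi (x, 1) =
    ENNReal.ofReal (2 * (Module.finrank ℝ E).factorial) * μ (Tow.RB K x) :=
  frameOf_slope_eq μ hc hv hi x

/-- the exact formula for the integral of the volume of the reflection body -/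
theorem mean_RB_eq :
    ∫⁻ p : (E × ℝ) × (E × ℝ), ENNReal.ofReal |(frameOf K hc hv hi).gr p.1 p.2|
      ∂(((frameOf K hc hv hi).eN (μ.prod (volume : Measure ℝ))).prod
        ((frameOf K hc hv hi).ex (μ.prod (volume : Measure ℝ)) 2)) =
    ENNReal.ofReal ((Module.finrank ℝ E + 1).factorial * (Module.finrank ℝ E).factorial /
      2 ^ (Module.finrank ℝ E + 1)) * ∫⁻ x in K, μ (Tow.RB K x) ∂μ := by
  rw [slope_cone μ hc hv hi]
  simp_rw [slopeInt_eq μ hc hv hi]
  rw [lintegral_const_mul' _ _ ENNReal.ofReal_ne_top, ← mul_assoc,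
    ← ENNReal.ofReal_mul (by positivity)]
  congr 2
  rw [pow_succ 2 (Module.finrank ℝ E + 1)]
  field_simp

/-- the sharp mean inequality for reflection bodies, given the constant -/
theorem mean_RB_of {J : ℝ}
    (hE : ∫ p, |(frameOf K hc hv hi).h p.1 - (frameOf K hc hv hi).h p.2|
      ∂(((frameOf K hc hv hi).ex (μ.prod (volume : Measure ℝ)) 1).prod
        ((frameOf K hc hv hi).ex (μ.prod (volume : Measure ℝ)) 1)) = J)
    (hJ : J = 2 * (Module.finrank ℝ E + 1 : ℕ) *
      (Nat.centralBinom (Module.finrank ℝ E + 1)) / 4 ^ (Module.finrank ℝ E + 1) *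
      ((Module.finrank ℝ E).factorial * (μ K).toReal) ^ 2) :
    ∫⁻ x in K, μ (Tow.RB K x) ∂μ ≤
      ENNReal.ofReal (mc (Module.finrank ℝ E)) * (μ K) ^ 2 := by
  set d := Module.finrank ℝ E with hd
  have hKt : μ K ≠ ∞ := hc.measure_lt_top.ne
  have hfin2 : Module.finrank ℝ (E × ℝ) = d + 1 := by
    rw [Module.finrank_prod, Module.finrank_self]
  have h1 := (frameOf K hc hv hi).sharp_mean' (μ.prod (volume : Measure ℝ)) hfin2
    (Nat.succ_pos _) (frameOf_mom μ hc hv hi)
  rw [mean_RB_eq μ hc hv hi, hE, hJ, ← hd] at h1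
  set c : ℝ := ((d + 1).factorial : ℝ) * d.factorial / 2 ^ (d + 1) with hcdef
  have hcpos : 0 < c := by positivity
  have e1 : (1 / 2 * (2 * ((d + 1 : ℕ) : ℝ) * (Nat.centralBinom (d + 1)) / 4 ^ (d + 1) *
      (d.factorial * (μ K).toReal) ^ 2)) = c * (mc d * ((μ K).toReal) ^ 2) := by
    have hf : ((d + 1).factorial : ℝ) = ((d : ℝ) + 1) * d.factorial := by
      rw [Nat.factorial_succ]; push_cast; ring
    have e0 : ((2 * d + 2).choose (d + 1) : ℝ) = (Nat.centralBinom (d + 1) : ℝ) := by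
      rw [Nat.centralBinom]; congr 2
    have e4 : (4 : ℝ) ^ (d + 1) = 2 ^ (d + 1) * 2 ^ (d + 1) := by
      rw [← mul_pow]; norm_num
    rw [hcdef, mc, hf, e0, e4]
    push_cast
    field_simp
  rw [e1, ENNReal.ofReal_mul hcpos.le] at h1
  have h2 := (ENNReal.mul_le_mul_iff_right (ENNReal.ofReal_pos.mpr hcpos).ne'
    ENNReal.ofReal_ne_top).mp h1
  refine h2.trans (le_of_eq ?_)
  rw [ENNReal.ofReal_mul (mc_nonneg d), ENNReal.ofReal_pow ENNReal.toReal_nonneg,
    ENNReal.ofReal_toReal hKt]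

include hc hv hi in
/-- Jensen: the volume at the centroid is at most the mean -/
theorem RB_centroid_le :
    (⨍ x in K, x ∂μ) ∈ K ∧
      μ (Tow.RB K (⨍ x in K, x ∂μ)) * μ K ≤ ∫⁻ x in K, μ (Tow.RB K x) ∂μ := by
  have hK0 := vol_ne_zero7 μ hi
  have hKt : μ K ≠ ∞ := hc.measure_lt_top.ne
  refine ⟨hv.set_average_mem hc.isClosed hK0 hKt (ae_restrict_mem hc.measurableSet)
    (continuous_id.continuousOn.integrableOn_compact hc), ?_⟩
  have h := slopeInt_centroid μ hc hv hi hK0
  simp_rw [slopeInt_eq μ hc hv hi] at h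
  rw [lintegral_const_mul' _ _ ENNReal.ofReal_ne_top, mul_assoc] at h
  refine (ENNReal.mul_le_mul_iff_right ?_ ENNReal.ofReal_ne_top).mp h
  exact (ENNReal.ofReal_pos.mpr (by positivity)).ne'

end K5

end Pool.Agent.FR
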