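import Mathlib

/-! The certificate function for the sharp mean inequality: interface. -/

set_option autoImplicit false

namespace Pool.Agent.FR

/-- A certificate in dimension `n`: a bounded monotone Lipschitz function of two variables which
satisfies `(1 - x²) c_x - (1 - y²) c_y = n (|y| - |x|) - n (y - x) c` on the square, in the form of
an Euler step. -/
structure Cert (n : ℕ) (c : ℝ → ℝ → ℝ) : Prop where
  bd : ∀ x y, |c x y| ≤ 1
  mono1 : ∀ y, Monotone fun x => c x y
  mono2 : ∀ x, Monotone fun y => c x y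
  lip : ∃ C : ℝ, 0 ≤ C ∧ ∀ x x' y y', |c x y - c x' y'| ≤ C * (|x - x'| + |y - y'|)
  euler : ∃ C : ℝ, 0 ≤ C ∧ ∀ x y t, |x| ≤ 1 → |y| ≤ 1 → 0 ≤ t → t ≤ 1 / 2 →
    |c (x + t * (1 - x ^ 2)) (y - t * (1 - y ^ 2)) - c x y -
      t * (n * (|y| - |x|) - n * (y - x) * c x y)| ≤ C * t ^ 2

end Pool.Agent.FR
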