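import Pool.Agent.Lib.MP_725e58_gt.FS.Asm7

/-! The constant of the sharp mean inequality is asymptotically `√2` times the central binomial
coefficient. -/

set_option autoImplicit false

namespace Pool.Agent.FR

open Real

/-- `C(2n,n) ^ 2 W(n) (2n+1) = 16 ^ n` -/
lemma central_wallis (n : ℕ) :
    (Nat.centralBinom n : ℝ) ^ 2 * (Wallis.W n * (2 * n + 1)) = 16 ^ n := by
  have h1 : (Nat.centralBinom n : ℝ) * (n.factorial : ℝ) ^ 2 = ((2 * n).factorial : ℝ) := by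
    have := Nat.choose_mul_factorial_mul_factorial (n := 2 * n) (k := n) (by omega)
    have e : 2 * n - n = n := by omega
    rw [e] at this
    rw [Nat.centralBinom]
    rw [← this]
    push_cast
    ring
  have h2 := Wallis.W_eq_factorial_ratio n
  have hf : (0 : ℝ) < (n.factorial : ℝ) := by positivity
  have hC : (0 : ℝ) < (Nat.centralBinom n : ℝ) := by exact_mod_cast Nat.centralBinom_pos n
  rw [h2, ← h1]
  have e4 : (2 : ℝ) ^ (4 * n) = 16 ^ n := by rw [pow_mul]; norm_num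
  rw [e4]
  field_simp

/-- upper and lower bounds -/
lemma central_upper (n : ℕ) :
    (Nat.centralBinom n : ℝ) ^ 2 * (π * (2 * n + 1) ^ 2) ≤ 16 ^ n * (2 * (2 * n + 2)) := by
  have h := central_wallis n
  have h2 := Wallis.le_W n
  have hn : (0 : ℝ) < 2 * n + 2 := by positivity
  have h3 : (2 * (n : ℝ) + 1) * (π / 2) ≤ Wallis.W n * (2 * n + 2) := by
    have := mul_le_mul_of_nonneg_right h2 hn.le
    calc _ = (2 * (n : ℝ) + 1) / (2 * n + 2) * (π / 2) * (2 * n + 2) := by field_simp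
      _ ≤ _ := this
  calc (Nat.centralBinom n : ℝ) ^ 2 * (π * (2 * n + 1) ^ 2)
      = (Nat.centralBinom n : ℝ) ^ 2 * (2 * n + 1) * 2 * ((2 * (n : ℝ) + 1) * (π / 2)) := by ring
    _ ≤ (Nat.centralBinom n : ℝ) ^ 2 * (2 * n + 1) * 2 * (Wallis.W n * (2 * n + 2)) := by
        gcongr
    _ = ((Nat.centralBinom n : ℝ) ^ 2 * (Wallis.W n * (2 * n + 1))) * (2 * (2 * n + 2)) := by ring
    _ = _ := by rw [h]

lemma central_lower (n : ℕ) :
    16 ^ n * 2 ≤ (Nat.centralBinom n : ℝ) ^ 2 * (π * (2 * n + 1)) := by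
  have h := central_wallis n
  have h2 := Wallis.W_le n
  calc (16 : ℝ) ^ n * 2 = (Nat.centralBinom n : ℝ) ^ 2 * (Wallis.W n * (2 * n + 1)) * 2 := by
        rw [h]
    _ ≤ (Nat.centralBinom n : ℝ) ^ 2 * (π / 2 * (2 * n + 1)) * 2 := by gcongr
    _ = _ := by ring

/-- even dimensions -/
lemma even_sq (m : ℕ) : (Nat.centralBinom (2 * m + 1) : ℝ) ^ 2 ≤
    8 * 16 ^ m * (Nat.centralBinom m : ℝ) ^ 2 := by
  have h1 := central_upper (2 * m + 1)
  have h2 := central_lower m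
  push_cast at h1
  obtain ⟨A, hA⟩ : ∃ A : ℝ, A = (Nat.centralBinom (2 * m + 1) : ℝ) ^ 2 := ⟨_, rfl⟩
  obtain ⟨B, hB⟩ : ∃ B : ℝ, B = (Nat.centralBinom m : ℝ) ^ 2 := ⟨_, rfl⟩
  have e16 : (16 : ℝ) ^ (2 * m + 1) = 16 * (16 ^ m * 16 ^ m) := by
    rw [pow_succ, two_mul, pow_add]; ring
  rw [e16, ← hA] at h1
  rw [← hB] at h2
  rw [← hA, ← hB]
  have hB0 : 0 ≤ B := by rw [hB]; positivity
  have hm : (0 : ℝ) ≤ m := Nat.cast_nonneg m
  obtain ⟨p, hp⟩ : ∃ p : ℝ, p = 16 ^ m := ⟨_, rfl⟩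
  have hp0 : 0 < p := by rw [hp]; positivity
  rw [← hp] at h1 h2 ⊢
  obtain ⟨x, hx⟩ : ∃ x : ℝ, x = (m : ℝ) := ⟨_, rfl⟩
  rw [← hx] at h1 h2 hm
  have hpi := Real.pi_pos
  have key : A * (π * (4 * x + 3) ^ 2) ≤ (8 * p * B) * (π * (4 * x + 3) ^ 2) := by
    calc A * (π * (4 * x + 3) ^ 2) = A * (π * (2 * (2 * x + 1) + 1) ^ 2) := by ring
      _ ≤ 16 * (p * p) * (2 * (2 * (2 * x + 1) + 2)) := h1
      _ = p * 16 * (4 * x + 4) * (p * 2) := by ring
      _ ≤ p * 16 * (4 * x + 4) * (B * (π * (2 * x + 1))) := by gcongr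
      _ = (8 * p * B * π) * (2 * (4 * x + 4) * (2 * x + 1)) := by ring
      _ ≤ (8 * p * B * π) * ((4 * x + 3) ^ 2) := by
          apply mul_le_mul_of_nonneg_left _ (by positivity)
          nlinarith
      _ = _ := by ring
  exact le_of_mul_le_mul_right key (by positivity)

/-- odd dimensions -/
lemma odd_sq (M : ℕ) : (Nat.centralBinom (2 * M) : ℝ) ^ 2 * (4 * M + 1) ^ 2 ≤
    16 ^ M / 2 * (Nat.centralBinom M : ℝ) ^ 2 * (4 * M + 2) ^ 2 := by
  have h1 := central_upper (2 * M)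
  have h2 := central_lower M
  push_cast at h1
  obtain ⟨A, hA⟩ : ∃ A : ℝ, A = (Nat.centralBinom (2 * M) : ℝ) ^ 2 := ⟨_, rfl⟩
  obtain ⟨B, hB⟩ : ∃ B : ℝ, B = (Nat.centralBinom M : ℝ) ^ 2 := ⟨_, rfl⟩
  have e16 : (16 : ℝ) ^ (2 * M) = 16 ^ M * 16 ^ M := by
    rw [two_mul, pow_add]
  rw [e16, ← hA] at h1
  rw [← hB] at h2
  rw [← hA, ← hB]
  have hB0 : 0 ≤ B := by rw [hB]; positivity
  have hm : (0 : ℝ) ≤ M := Nat.cast_nonneg M
  obtain ⟨p, hp⟩ : ∃ p : ℝ, p = 16 ^ M := ⟨_, rfl⟩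
  have hp0 : 0 < p := by rw [hp]; positivity
  rw [← hp] at h1 h2 ⊢
  obtain ⟨x, hx⟩ : ∃ x : ℝ, x = (M : ℝ) := ⟨_, rfl⟩
  rw [← hx] at h1 h2 hm ⊢
  have hpi := Real.pi_pos
  have key : (A * (4 * x + 1) ^ 2) * π ≤ (p / 2 * B * (4 * x + 2) ^ 2) * π := by
    calc (A * (4 * x + 1) ^ 2) * π = A * (π * (2 * (2 * x) + 1) ^ 2) := by ring
      _ ≤ p * p * (2 * (2 * (2 * x) + 2)) := h1
      _ = p * (4 * x + 2) * (p * 2) := by ring
      _ ≤ p * (4 * x + 2) * (B * (π * (2 * x + 1))) := by gcongr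
      _ = _ := by ring
  exact le_of_mul_le_mul_right key hpi

/-- `C(2d+2,d+1) / 2 ^ (d+1) ≤ √2 (1 + 1/(2d+3)) C(d, ⌊d/2⌋)` -/
lemma mc_le_sqrt (d : ℕ) :
    mc d ≤ Real.sqrt 2 * (1 + 1 / (2 * d + 3)) * (d.choose (d / 2) : ℝ) := by
  have e0 : ((2 * d + 2).choose (d + 1) : ℝ) = (Nat.centralBinom (d + 1) : ℝ) := by
    rw [Nat.centralBinom]; congr 2
  unfold mc
  rw [e0]
  have hs : Real.sqrt 2 ^ 2 = 2 := Real.sq_sqrt (by norm_num)
  have hs0 : 0 ≤ Real.sqrt 2 := Real.sqrt_nonneg 2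
  rcases Nat.even_or_odd' d with ⟨m, rfl | rfl⟩
  · have h := even_sq m
    rw [Nat.mul_div_cancel_left m (by norm_num)]
    have e1 : (2 * m).choose m = Nat.centralBinom m := rfl
    rw [e1]
    have h2 : (Nat.centralBinom (2 * m + 1) : ℝ) / 2 ^ (2 * m + 1) ≤
        Real.sqrt 2 * (Nat.centralBinom m : ℝ) := by
      apply (pow_le_pow_iff_left₀ (by positivity) (by positivity) two_ne_zero).mp
      rw [div_pow, mul_pow, hs, div_le_iff₀ (by positivity)]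
      refine h.trans (le_of_eq ?_)
      have e2 : ((2 : ℝ) ^ (2 * m + 1)) ^ 2 = 4 * 16 ^ m := by
        rw [← pow_mul, show (2 * m + 1) * 2 = 4 * m + 2 by ring, pow_add, pow_mul]
        norm_num
        ring
      rw [e2]
      ring
    refine h2.trans ?_
    have : (1 : ℝ) ≤ 1 + 1 / (2 * ((2 * m : ℕ) : ℝ) + 3) := by
      have : (0 : ℝ) ≤ 1 / (2 * ((2 * m : ℕ) : ℝ) + 3) := by positivity
      linarith
    calc Real.sqrt 2 * (Nat.centralBinom m : ℝ)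
        = Real.sqrt 2 * 1 * (Nat.centralBinom m : ℝ) := by ring
      _ ≤ _ := by gcongr
  · have h := odd_sq (m + 1)
    have hd : (2 * m + 1) / 2 = m := by omega
    rw [hd]
    have h1 : Nat.centralBinom (m + 1) = 2 * (2 * m + 1).choose m := by
      have h2 : Nat.centralBinom (m + 1) = (2 * m + 1 + 1).choose (m + 1) := by
        rw [Nat.centralBinom]; congr 1
      rw [h2, Nat.choose_succ_succ, Nat.choose_symm_half]
      ring
    rw [h1] at h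
    have e1 : 2 * m + 1 + 1 = 2 * (m + 1) := by ring
    rw [e1]
    push_cast at h ⊢
    apply (pow_le_pow_iff_left₀ (by positivity) (by positivity) two_ne_zero).mp
    have e3 : (1 : ℝ) + 1 / (2 * (2 * m + 1) + 3) = (4 * (m + 1) + 2) / (4 * (m + 1) + 1) := by
      have : (2 * (2 * (m : ℝ) + 1) + 3) ≠ 0 := by positivity
      have : (4 * ((m : ℝ) + 1) + 1) ≠ 0 := by positivity
      field_simp
      ring
    rw [e3]
    have e2 : ((2 : ℝ) ^ (2 * (m + 1))) ^ 2 = 16 ^ (m + 1) := by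
      rw [← pow_mul, show 2 * (m + 1) * 2 = 4 * (m + 1) by ring, pow_mul]
      norm_num
    rw [div_pow, mul_pow, mul_pow, hs, div_pow, e2, div_le_iff₀ (by positivity)]
    have hne : (0 : ℝ) < (4 * ((m : ℝ) + 1) + 1) ^ 2 := by positivity
    have h5 : (Nat.centralBinom (2 * (m + 1)) : ℝ) ^ 2 ≤
        16 ^ (m + 1) / 2 * (2 * ((2 * m + 1).choose m : ℝ)) ^ 2 * (4 * (m + 1) + 2) ^ 2 /
          (4 * (m + 1) + 1) ^ 2 := by
      rw [le_div_iff₀ hne]
      exact h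
    refine h5.trans (le_of_eq ?_)
    ring

end Pool.Agent.FR
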