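import Pool.Agent.Lib.MP_725e58_gt.FS.Cert41
import Pool.Agent.Lib.MP_725e58_gt.FR.Main49

/-! The two ratios on the two spaces. -/

set_option autoImplicit false

namespace Pool.Agent.FR

open MeasureTheory Set Filter Topology
open scoped ENNReal NNReal

namespace Frame

variable {V : Type*} [NormedAddCommGroup V] [NormedSpace ℝ V] (F : Frame V)

/-- `x = h (a - b) / N (a - b)` -/
noncomputable def gX (p : V × V) : ℝ := F.h (p.1 - p.2) / F.N (p.1 - p.2)

/-- `ε = h (a + b) - N (a - b)` -/
noncomputable def gE (p : V × V) : ℝ := F.h (p.1 + p.2) - F.N (p.1 - p.2)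

/-- `y = Θ / ε`, `Θ = φ (a + b) - h (a - b)`, `φ` the gradient of `N` at `a - b` -/
noncomputable def gY (p : V × V) : ℝ := F.W p / F.gE p

/-- `x = h y / N y` -/
noncomputable def rX (p : V × V) : ℝ := F.h p.1 / F.N p.1

/-- `y = Θ / ε`, `Θ = 2 φ g`, `ε = 2 h g`, `φ` the gradient of `N` at `y` -/
noncomputable def rY (p : V × V) : ℝ := 2 * F.gr p.1 p.2 / (2 * F.h p.2)

/-- `c` at the point `(x, y)`, first space -/
noncomputable def gc (c : ℝ → ℝ → ℝ) (p : V × V) : ℝ := c (F.gX p) (F.gY p)

/-- `c` at the point `(x, y)`, second space -/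
noncomputable def rc (c : ℝ → ℝ → ℝ) (p : V × V) : ℝ := c (F.rX p) (F.rY p)

variable [FiniteDimensional ℝ V] [MeasurableSpace V] [BorelSpace V]

lemma measurable_hsub : Measurable (fun p : V × V => F.h (p.1 - p.2)) :=
  F.measurable_h.comp (measurable_fst.sub measurable_snd)

lemma measurable_Nsub : Measurable (fun p : V × V => F.N (p.1 - p.2)) :=
  F.measurable_N.comp (measurable_fst.sub measurable_snd)

lemma measurable_gX : Measurable F.gX := F.measurable_hsub.div F.measurable_Nsub

lemma measurable_gE : Measurable F.gE :=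
  (F.measurable_h.comp (measurable_fst.add measurable_snd)).sub F.measurable_Nsub

lemma measurable_gY : Measurable F.gY := F.measurable_W.div F.measurable_gE

lemma measurable_rX : Measurable F.rX :=
  (F.measurable_h.comp measurable_fst).div (F.measurable_N.comp measurable_fst)

lemma measurable_rY : Measurable F.rY :=
  (F.measurable_gr_pair.const_mul 2).div ((F.measurable_h.comp measurable_snd).const_mul 2)

end Frame

lemma Cert.continuous {n : ℕ} {c : ℝ → ℝ → ℝ} (hc : Cert n c) :
    Continuous fun p : ℝ × ℝ => c p.1 p.2 := by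
  obtain ⟨C, hC, h⟩ := hc.lip
  have : LipschitzWith (Real.toNNReal (2 * C)) fun p : ℝ × ℝ => c p.1 p.2 := by
    apply LipschitzWith.of_dist_le_mul
    intro p q
    rw [Real.coe_toNNReal _ (by positivity), Real.dist_eq, Prod.dist_eq, Real.dist_eq, Real.dist_eq]
    have h1 := le_max_left |p.1 - q.1| |p.2 - q.2|
    have h2 := le_max_right |p.1 - q.1| |p.2 - q.2|
    calc _ ≤ C * (max |p.1 - q.1| |p.2 - q.2| + max |p.1 - q.1| |p.2 - q.2|) :=
          (h _ _ _ _).trans (by gcongr)
      _ = _ := by ring
  exact this.continuous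

namespace Frame

variable {V : Type*} [NormedAddCommGroup V] [NormedSpace ℝ V] (F : Frame V)
variable [FiniteDimensional ℝ V] [MeasurableSpace V] [BorelSpace V]

lemma measurable_gc {n : ℕ} {c : ℝ → ℝ → ℝ} (hc : Cert n c) : Measurable (F.gc c) :=
  hc.continuous.measurable.comp (F.measurable_gX.prodMk F.measurable_gY)

lemma measurable_rc {n : ℕ} {c : ℝ → ℝ → ℝ} (hc : Cert n c) : Measurable (F.rc c) :=
  hc.continuous.measurable.comp (F.measurable_rX.prodMk F.measurable_rY)

end Frame

end Pool.Agent.FR
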