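import Pool.Agent.Lib.MP_725e58_gt.FR.Cone7
import Pool.Agent.Lib.MP_725e58_gt.FR.Main49

/-! The mean of `|h a - h b|` over the product of two copies of the cone. -/

set_option autoImplicit false

namespace Pool.Agent.FR

open MeasureTheory Set Filter Topology
open scoped ENNReal NNReal

section one

/-- the antiderivative -/
noncomputable def GG (d : ℕ) (u : ℝ) : ℝ := u ^ (d + 1) / ((d + 1) * (1 + u) ^ (2 * d + 2))

lemma hasDerivAt_GG (d : ℕ) {u : ℝ} (hu : 0 ≤ u) :
    HasDerivAt (GG d) (u ^ d * (1 - u) / (1 + u) ^ (2 * d + 3)) u := by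
  have h1 : HasDerivAt (fun u : ℝ => u ^ (d + 1)) ((d + 1 : ℕ) * u ^ d) u := by
    simpa using hasDerivAt_pow (d + 1) u
  have h2 : HasDerivAt (fun u : ℝ => (1 + u) ^ (2 * d + 2)) ((2 * d + 2 : ℕ) * (1 + u) ^ (2 * d + 1)) u := by
    have h := (((hasDerivAt_id u).const_add 1).pow (2 * d + 2))
    have e : (fun u : ℝ => (1 + u) ^ (2 * d + 2)) = (fun u : ℝ => 1 + id u) ^ (2 * d + 2) := by
      funext u; rfl
    rw [e]
    refine h.congr_deriv ?_
    simp
  have hd : ((d : ℝ) + 1) ≠ 0 := by positivity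
  have hu1 : (1 + u) ≠ 0 := by positivity
  have h3 := h1.div (h2.const_mul ((d : ℝ) + 1)) (by positivity)
  refine h3.congr_deriv ?_
  push_cast
  field_simp
  ring

lemma GG_zero (d : ℕ) : GG d 0 = 0 := by simp [GG]

lemma GG_one (d : ℕ) : GG d 1 = 1 / ((d + 1) * 4 ^ (d + 1)) := by
  unfold GG
  rw [one_pow, show (1 + 1 : ℝ) = 2 by norm_num, show 2 * d + 2 = 2 * (d + 1) by ring, pow_mul]
  norm_num

lemma tendsto_GG (d : ℕ) : Tendsto (GG d) atTop (𝓝 0) := by
  have h1 : Tendsto (fun u : ℝ => (1 + u)⁻¹) atTop (𝓝 0) :=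
    tendsto_inv_atTop_zero.comp (tendsto_atTop_add_const_left _ _ tendsto_id)
  refine tendsto_of_tendsto_of_tendsto_of_le_of_le' tendsto_const_nhds h1 ?_ ?_
  · filter_upwards [eventually_ge_atTop 0] with u hu
    unfold GG; positivity
  · filter_upwards [eventually_ge_atTop 0] with u hu
    unfold GG
    have hu1 : 1 ≤ 1 + u := by linarith
    rw [div_le_iff₀ (by positivity), inv_mul_eq_div, le_div_iff₀ (by positivity)]
    have a1 : u ^ (d + 1) ≤ (1 + u) ^ (d + 1) := by gcongr; linarith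
    have a2 : (1 + u) ^ (d + 1) * (1 + u) ≤ (1 + u) ^ (2 * d + 2) := by
      rw [← pow_succ]
      exact pow_le_pow_right₀ hu1 (by omega)
    have a3 : (1 + u) ^ (2 * d + 2) ≤ (d + 1) * (1 + u) ^ (2 * d + 2) := by
      have : (0 : ℝ) ≤ d := Nat.cast_nonneg d
      have : 0 ≤ (1 + u) ^ (2 * d + 2) := by positivity
      nlinarith
    calc u ^ (d + 1) * (1 + u) ≤ (1 + u) ^ (d + 1) * (1 + u) := by gcongr
      _ ≤ _ := a2.trans a3

/-- the integral over the ratio -/
theorem lint_ratio (d : ℕ) :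
    ∫⁻ u in Ioi (0 : ℝ), ENNReal.ofReal (u ^ d * |1 - u| / (1 + u) ^ (2 * d + 3)) =
      ENNReal.ofReal (2 / ((d + 1) * 4 ^ (d + 1))) := by
  have hsplit : Ioi (0 : ℝ) = Ioc 0 1 ∪ Ioi 1 := (Ioc_union_Ioi_eq_Ioi zero_le_one).symm
  have hdis : Disjoint (Ioc (0 : ℝ) 1) (Ioi 1) := by
    rw [Set.disjoint_left]
    intro x hx hx'
    exact absurd hx.2 (not_le.mpr hx')
  rw [hsplit, lintegral_union measurableSet_Ioi hdis]
  have p1 : ∫⁻ u in Ioc (0 : ℝ) 1, ENNReal.ofReal (u ^ d * |1 - u| / (1 + u) ^ (2 * d + 3)) =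
      ENNReal.ofReal (1 / ((d + 1) * 4 ^ (d + 1))) := by
    have e1 : ∫⁻ u in Ioc (0 : ℝ) 1, ENNReal.ofReal (u ^ d * |1 - u| / (1 + u) ^ (2 * d + 3)) =
        ∫⁻ u in Ioc (0 : ℝ) 1, ENNReal.ofReal (u ^ d * (1 - u) / (1 + u) ^ (2 * d + 3)) := by
      refine setLIntegral_congr_fun measurableSet_Ioc fun u hu => ?_
      rw [abs_of_nonneg (show 0 ≤ 1 - u by linarith [hu.2])]
    have hc : ContinuousOn (fun u : ℝ => u ^ d * (1 - u) / (1 + u) ^ (2 * d + 3)) (Icc 0 1) := by
      apply ContinuousOn.div (by fun_prop) (by fun_prop)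
      intro u hu
      have : 0 ≤ u := hu.1
      positivity
    have hii : IntervalIntegrable (fun u : ℝ => u ^ d * (1 - u) / (1 + u) ^ (2 * d + 3)) volume 0 1 :=
      ContinuousOn.intervalIntegrable (by rwa [uIcc_of_le zero_le_one])
    have e2 : ∫ u in (0 : ℝ)..1, u ^ d * (1 - u) / (1 + u) ^ (2 * d + 3) =
        1 / ((d + 1) * 4 ^ (d + 1)) := by
      rw [intervalIntegral.integral_eq_sub_of_hasDerivAt (f := GG d) ?_ hii, GG_one, GG_zero, sub_zero]
      intro u hu
      rw [uIcc_of_le zero_le_one] at hu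
      exact hasDerivAt_GG d hu.1
    rw [e1, ← ofReal_integral_eq_lintegral_ofReal, ← intervalIntegral.integral_of_le zero_le_one, e2]
    · exact (intervalIntegrable_iff_integrableOn_Ioc_of_le zero_le_one).mp hii
    · filter_upwards [ae_restrict_mem measurableSet_Ioc] with u hu
      have h0 : 0 < u := hu.1
      have h1 : 0 ≤ 1 - u := by linarith [hu.2]
      show 0 ≤ u ^ d * (1 - u) / (1 + u) ^ (2 * d + 3)
      positivity
  have p2 : ∫⁻ u in Ioi (1 : ℝ), ENNReal.ofReal (u ^ d * |1 - u| / (1 + u) ^ (2 * d + 3)) =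
      ENNReal.ofReal (1 / ((d + 1) * 4 ^ (d + 1))) := by
    have e1 : ∫⁻ u in Ioi (1 : ℝ), ENNReal.ofReal (u ^ d * |1 - u| / (1 + u) ^ (2 * d + 3)) =
        ∫⁻ u in Ioi (1 : ℝ), ENNReal.ofReal (-(u ^ d * (1 - u) / (1 + u) ^ (2 * d + 3))) := by
      refine setLIntegral_congr_fun measurableSet_Ioi fun u hu => ?_
      have hu : 1 < u := hu
      rw [abs_of_nonpos (show 1 - u ≤ 0 by linarith)]
      congr 1
      ring
    have hder : ∀ u ∈ Ici (1 : ℝ), HasDerivAt (fun u => -GG d u)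
        (-(u ^ d * (1 - u) / (1 + u) ^ (2 * d + 3))) u := fun u hu =>
      (hasDerivAt_GG d (zero_le_one.trans hu)).neg
    have hpos : ∀ u ∈ Ioi (1 : ℝ), 0 ≤ -(u ^ d * (1 - u) / (1 + u) ^ (2 * d + 3)) := by
      intro u hu
      have hu : 1 < u := hu
      have : -(u ^ d * (1 - u) / (1 + u) ^ (2 * d + 3)) = u ^ d * (u - 1) / (1 + u) ^ (2 * d + 3) := by
        ring
      rw [this]
      have h1 : 0 ≤ u - 1 := by linarith
      have h2 : 0 < u := by linarith
      positivity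
    have hlim : Tendsto (fun u => -GG d u) atTop (𝓝 (-0)) := (tendsto_GG d).neg
    have e2 := integral_Ioi_of_hasDerivAt_of_nonneg' hder hpos hlim
    have hi := integrableOn_Ioi_deriv_of_nonneg' hder hpos hlim
    rw [e1, ← ofReal_integral_eq_lintegral_ofReal hi, e2, GG_one]
    · congr 1
      ring
    · filter_upwards [ae_restrict_mem measurableSet_Ioi] with u hu using hpos u hu
  rw [p1, p2, ← ENNReal.ofReal_add (by positivity) (by positivity)]
  congr 1
  ring

/-- the double Gamma integral -/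
theorem lint_double (d : ℕ) :
    ∫⁻ r in Ioi (0 : ℝ), ENNReal.ofReal (r ^ d * Real.exp (-r)) *
      ∫⁻ s in Ioi (0 : ℝ), ENNReal.ofReal (s ^ d * Real.exp (-s)) * ENNReal.ofReal |r - s| =
      ENNReal.ofReal (2 * (2 * d + 2).factorial / ((d + 1) * 4 ^ (d + 1))) := by
  have hsub : ∀ r ∈ Ioi (0 : ℝ), ENNReal.ofReal (r ^ d * Real.exp (-r)) *
      ∫⁻ s in Ioi (0 : ℝ), ENNReal.ofReal (s ^ d * Real.exp (-s)) * ENNReal.ofReal |r - s| =
      ∫⁻ u in Ioi (0 : ℝ), ENNReal.ofReal (u ^ d * |1 - u|) *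
        ENNReal.ofReal (r ^ (2 * d + 2) * Real.exp (-((1 + u) * r))) := by
    intro r hr
    have hr : 0 < r := hr
    have himg : (fun x : ℝ => r • x) '' Ioi 0 = Ioi 0 := by
      ext x
      simp only [mem_image, mem_Ioi, smul_eq_mul]
      constructor
      · rintro ⟨y, hy, rfl⟩; positivity
      · intro hx; exact ⟨x / r, by positivity, by field_simp⟩
    have h1 := lintegral_smul_set (volume : Measure ℝ) (Ioi 0) hr
      (fun s => ENNReal.ofReal (s ^ d * Real.exp (-s)) * ENNReal.ofReal |r - s|)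
    rw [himg, Module.finrank_self, pow_one] at h1
    rw [h1, ← mul_assoc, ← ENNReal.ofReal_mul (by positivity), ← lintegral_const_mul' _ _ ENNReal.ofReal_ne_top]
    refine setLIntegral_congr_fun measurableSet_Ioi fun u hu => ?_
    have hu : 0 < u := hu
    simp only [smul_eq_mul]
    rw [← ENNReal.ofReal_mul (by positivity), ← ENNReal.ofReal_mul (by positivity),
      ← ENNReal.ofReal_mul (by positivity)]
    congr 1
    have e1 : |r - r * u| = r * |1 - u| := by
      rw [← abs_of_pos hr, ← abs_mul, abs_of_pos hr]; congr 1; ring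
    have e2 : Real.exp (-((1 + u) * r)) = Real.exp (-r) * Real.exp (-(r * u)) := by
      rw [← Real.exp_add]; congr 1; ring
    rw [e1, e2]
    ring
  rw [setLIntegral_congr_fun measurableSet_Ioi hsub]
  have hm : Measurable (fun p : ℝ × ℝ => ENNReal.ofReal (p.2 ^ d * |1 - p.2|) *
        ENNReal.ofReal (p.1 ^ (2 * d + 2) * Real.exp (-((1 + p.2) * p.1)))) := by fun_prop
  rw [lintegral_lintegral_swap hm.aemeasurable]
  have hin : ∀ u ∈ Ioi (0 : ℝ), ∫⁻ r in Ioi (0 : ℝ), ENNReal.ofReal (u ^ d * |1 - u|) *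
        ENNReal.ofReal (r ^ (2 * d + 2) * Real.exp (-((1 + u) * r))) =
      ENNReal.ofReal ((2 * d + 2).factorial : ℝ) *
        ENNReal.ofReal (u ^ d * |1 - u| / (1 + u) ^ (2 * d + 3)) := by
    intro u hu
    have hu : 0 < u := hu
    rw [lintegral_const_mul' _ _ ENNReal.ofReal_ne_top, lintegral_gamma _ (by positivity : 0 < 1 + u),
      ← ENNReal.ofReal_mul (by positivity), ← ENNReal.ofReal_mul (by positivity)]
    congr 1
    ring
  rw [setLIntegral_congr_fun measurableSet_Ioi hin, lintegral_const_mul' _ _ ENNReal.ofReal_ne_top,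
    lint_ratio, ← ENNReal.ofReal_mul (by positivity)]
  congr 1
  ring

end one

section K6

variable {E : Type*} [NormedAddCommGroup E] [NormedSpace ℝ E] [FiniteDimensional ℝ E]
variable [MeasurableSpace E] [BorelSpace E] (μ : Measure E) [μ.IsAddHaarMeasure]
variable {K : Set E} (hc : IsCompact K) (hv : Convex ℝ K) (hi : (interior K).Nonempty)

/-- the law of the height -/
theorem lint_height (s : ℝ) {f : ℝ → ℝ≥0∞} (hf : Measurable f) :
    ∫⁻ a, f a.2 ∂((frameOf K hc hv hi).ex (μ.prod (volume : Measure ℝ)) s) =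
      μ K * ∫⁻ r in Ioi (0 : ℝ), ENNReal.ofReal (r ^ Module.finrank ℝ E * Real.exp (-(s * r))) * f r := by
  have hm : Measurable (fun a : E × ℝ => f a.2) := hf.comp measurable_snd
  rw [(frameOf K hc hv hi).lintegral_ex _ s hm]
  have h2 : ∫⁻ a in (frameOf K hc hv hi).G,
      ENNReal.ofReal (Real.exp (-(s * (frameOf K hc hv hi).h a))) * f a.2 ∂(μ.prod (volume : Measure ℝ)) =
      ∫⁻ a in coneOf K, ENNReal.ofReal (Real.exp (-(s * a.2))) * f a.2
        ∂(μ.prod (volume : Measure ℝ)) := rfl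
  have hmm : Measurable (fun a : E × ℝ => ENNReal.ofReal (Real.exp (-(s * a.2))) * f a.2) :=
    (by fun_prop : Measurable fun a : E × ℝ => ENNReal.ofReal (Real.exp (-(s * a.2)))).mul hm
  rw [h2, lintegral_cone μ hc hmm]
  simp only [lintegral_const, Measure.restrict_apply MeasurableSet.univ, univ_inter]
  have hKt : μ K ≠ ∞ := hc.measure_lt_top.ne
  rw [← lintegral_const_mul' _ _ hKt]
  refine setLIntegral_congr_fun measurableSet_Ioi fun r hr => ?_
  have hr : 0 < r := hr
  rw [ENNReal.ofReal_mul (by positivity)]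
  ring

/-- the mean of `|h a - h b|` -/
theorem frameOf_E_lint :
    ∫⁻ p, ENNReal.ofReal |(frameOf K hc hv hi).h p.1 - (frameOf K hc hv hi).h p.2|
      ∂(((frameOf K hc hv hi).ex (μ.prod (volume : Measure ℝ)) 1).prod
        ((frameOf K hc hv hi).ex (μ.prod (volume : Measure ℝ)) 1)) =
      ENNReal.ofReal (2 * (Module.finrank ℝ E + 1) *
        ((2 * (Module.finrank ℝ E + 1)).choose (Module.finrank ℝ E + 1) : ℕ) /
          4 ^ (Module.finrank ℝ E + 1) * ((Module.finrank ℝ E).factorial * (μ K).toReal) ^ 2) := by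
  have hKt : μ K ≠ ∞ := hc.measure_lt_top.ne
  have hfin := Frame.Mom.finite_ex (frameOf K hc hv hi) (frameOf_mom μ hc hv hi) one_pos
  have e0 : ∫⁻ p, ENNReal.ofReal |(frameOf K hc hv hi).h p.1 - (frameOf K hc hv hi).h p.2|
      ∂(((frameOf K hc hv hi).ex (μ.prod (volume : Measure ℝ)) 1).prod
        ((frameOf K hc hv hi).ex (μ.prod (volume : Measure ℝ)) 1)) =
      ∫⁻ a, ∫⁻ b, ENNReal.ofReal |a.2 - b.2| ∂((frameOf K hc hv hi).ex (μ.prod (volume : Measure ℝ)) 1)
        ∂((frameOf K hc hv hi).ex (μ.prod (volume : Measure ℝ)) 1) := by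
    have hm : Measurable (fun p : (E × ℝ) × (E × ℝ) => ENNReal.ofReal |p.1.2 - p.2.2|) := by fun_prop
    exact lintegral_prod _ hm.aemeasurable
  have e1 : ∀ a : E × ℝ, ∫⁻ b, ENNReal.ofReal |a.2 - b.2|
      ∂((frameOf K hc hv hi).ex (μ.prod (volume : Measure ℝ)) 1) =
      (fun r : ℝ => μ K * ∫⁻ s in Ioi (0 : ℝ), ENNReal.ofReal (s ^ Module.finrank ℝ E *
        Real.exp (-(1 * s))) * ENNReal.ofReal |r - s|) a.2 := fun a =>
    lint_height μ hc hv hi 1 (f := fun s => ENNReal.ofReal |a.2 - s|) (by fun_prop)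
  have hm2 : Measurable (fun r : ℝ => μ K * ∫⁻ s in Ioi (0 : ℝ), ENNReal.ofReal
      (s ^ Module.finrank ℝ E * Real.exp (-(1 * s))) * ENNReal.ofReal |r - s|) := by
    refine Measurable.const_mul ?_ _
    have : Measurable (fun p : ℝ × ℝ => ENNReal.ofReal
      (p.2 ^ Module.finrank ℝ E * Real.exp (-(1 * p.2))) * ENNReal.ofReal |p.1 - p.2|) := by fun_prop
    exact this.lintegral_prod_right'
  rw [e0]
  simp_rw [e1]
  rw [lint_height μ hc hv hi 1 hm2]
  have e2 : ∫⁻ r in Ioi (0 : ℝ), ENNReal.ofReal (r ^ Module.finrank ℝ E * Real.exp (-(1 * r))) *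
      (μ K * ∫⁻ s in Ioi (0 : ℝ), ENNReal.ofReal (s ^ Module.finrank ℝ E * Real.exp (-(1 * s))) *
        ENNReal.ofReal |r - s|) = μ K * ∫⁻ r in Ioi (0 : ℝ), ENNReal.ofReal
      (r ^ Module.finrank ℝ E * Real.exp (-r)) * ∫⁻ s in Ioi (0 : ℝ), ENNReal.ofReal
      (s ^ Module.finrank ℝ E * Real.exp (-s)) * ENNReal.ofReal |r - s| := by
    rw [← lintegral_const_mul' _ _ hKt]
    refine setLIntegral_congr_fun measurableSet_Ioi fun r _ => ?_
    simp only [one_mul]
    ring
  rw [e2, lint_double]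
  set d := Module.finrank ℝ E with hd
  conv_lhs => rw [← ENNReal.ofReal_toReal hKt]
  rw [← mul_assoc, ← ENNReal.ofReal_mul ENNReal.toReal_nonneg, ← ENNReal.ofReal_mul (by positivity)]
  congr 1
  have hch : (((2 * (d + 1)).choose (d + 1) : ℕ) : ℝ) * ((d + 1).factorial : ℝ) ^ 2 =
      ((2 * d + 2).factorial : ℝ) := by
    have h := Nat.choose_mul_factorial_mul_factorial (show d + 1 ≤ 2 * (d + 1) by omega)
    have h' : 2 * (d + 1) - (d + 1) = d + 1 := by omega
    rw [h'] at h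
    have : ((2 * d + 2).factorial : ℝ) = ((2 * (d + 1)).factorial : ℕ) := by
      congr 2
    rw [this, ← h]
    push_cast
    ring
  have hf : ((d + 1).factorial : ℝ) = (d + 1) * d.factorial := by
    rw [Nat.factorial_succ]; push_cast; ring
  rw [← hch, hf]
  have hd1 : ((d : ℝ) + 1) ≠ 0 := by positivity
  field_simp

theorem frameOf_E :
    ∫ p, |(frameOf K hc hv hi).h p.1 - (frameOf K hc hv hi).h p.2|
      ∂(((frameOf K hc hv hi).ex (μ.prod (volume : Measure ℝ)) 1).prod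
        ((frameOf K hc hv hi).ex (μ.prod (volume : Measure ℝ)) 1)) =
      2 * (Module.finrank ℝ E + 1) *
        ((2 * (Module.finrank ℝ E + 1)).choose (Module.finrank ℝ E + 1) : ℕ) /
          4 ^ (Module.finrank ℝ E + 1) * ((Module.finrank ℝ E).factorial * (μ K).toReal) ^ 2 := by
  have hm : Measurable (fun p : (E × ℝ) × (E × ℝ) =>
      |(frameOf K hc hv hi).h p.1 - (frameOf K hc hv hi).h p.2|) :=
    (((frameOf K hc hv hi).measurable_h.comp measurable_fst).sub
      ((frameOf K hc hv hi).measurable_h.comp measurable_snd)).abs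
  rw [integral_eq_lintegral_of_nonneg_ae (Eventually.of_forall fun p => abs_nonneg _)
    hm.aestronglyMeasurable, frameOf_E_lint, ENNReal.toReal_ofReal (by positivity)]

end K6

end Pool.Agent.FR
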