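import Pool.Agent.Lib.MP_725e58_gt.FS.Cert41

/-! The certificate function: the integrals `J`, monotonicity and Lipschitz bounds. -/

set_option autoImplicit false

namespace Pool.Agent.FR.CF

open MeasureTheory Set Filter Topology intervalIntegral

/-- inverse power -/
noncomputable def ip (k : ℕ) (a : ℝ) : ℝ := (a ^ k)⁻¹

lemma ip_pos {k : ℕ} {a : ℝ} (ha : 0 < a) : 0 < ip k a := by unfold ip; positivity

lemma ip_le_one {k : ℕ} {a : ℝ} (ha : 1 ≤ a) : ip k a ≤ 1 := by
  unfold ip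
  exact inv_le_one_of_one_le₀ (one_le_pow₀ ha)

lemma ip_anti {k : ℕ} {a b : ℝ} (ha : 0 < a) (h : a ≤ b) : ip k b ≤ ip k a := by
  unfold ip
  gcongr

lemma ip_lip {k : ℕ} {a b : ℝ} (ha : 1 ≤ a) (hb : 1 ≤ b) : |ip k a - ip k b| ≤ k * |a - b| := by
  have e : ∀ x : ℝ, ip k x = (x⁻¹) ^ k := fun x => by unfold ip; rw [inv_pow]
  have a0 : 0 < a := by linarith
  have b0 : 0 < b := by linarith
  have h1 := abs_pow_sub_pow_le a⁻¹ b⁻¹ k
  rw [e, e]
  have h2 : |a⁻¹ - b⁻¹| ≤ |a - b| := by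
    rw [inv_sub_inv a0.ne' b0.ne', abs_div, abs_of_pos (mul_pos a0 b0), abs_sub_comm b a,
      div_le_iff₀ (mul_pos a0 b0)]
    nlinarith [abs_nonneg (a - b), mul_le_mul ha hb zero_le_one a0.le]
  have h3 : max |a⁻¹| |b⁻¹| ^ (k - 1) ≤ 1 := by
    apply pow_le_one₀ (le_max_of_le_left (abs_nonneg _))
    apply max_le
    · rw [abs_of_pos (inv_pos.mpr a0)]; exact inv_le_one_of_one_le₀ ha
    · rw [abs_of_pos (inv_pos.mpr b0)]; exact inv_le_one_of_one_le₀ hb
  calc |a⁻¹ ^ k - b⁻¹ ^ k| ≤ |a⁻¹ - b⁻¹| * k * max |a⁻¹| |b⁻¹| ^ (k - 1) := h1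
    _ ≤ |a - b| * k * 1 := by gcongr
    _ = k * |a - b| := by ring

/-- the weight `(1 - s²)^n (1 + u s)^(-n-1)` -/
noncomputable def W (n : ℕ) (u s : ℝ) : ℝ := (1 - s ^ 2) ^ n * ip (n + 1) (1 + u * s)

/-- `J u v = ∫₀¹ (1 - s²)^n ((1 + u s) (1 + v s))^(-n-1) ds` -/
noncomputable def J (n : ℕ) (u v : ℝ) : ℝ := ∫ s in (0:ℝ)..1, W n u s * ip (n + 1) (1 + v * s)

/-- `Gf u v = n (v - u) J u v` -/
noncomputable def Gf (n : ℕ) (u v : ℝ) : ℝ := n * (v - u) * J n u v

lemma one_add_pos {u s : ℝ} (hu : 0 ≤ u) (hs : s ∈ Icc (0:ℝ) 1) : 1 ≤ 1 + u * s := by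
  have := mul_nonneg hu hs.1
  linarith

lemma cont_ip {k : ℕ} {v : ℝ} (hv : 0 ≤ v) :
    ContinuousOn (fun s : ℝ => ip k (1 + v * s)) (Icc 0 1) := by
  unfold ip
  refine ContinuousOn.inv₀ (by fun_prop) fun s hs => ?_
  have := one_add_pos hv hs
  positivity

lemma cont_W {n : ℕ} {u : ℝ} (hu : 0 ≤ u) : ContinuousOn (W n u) (Icc 0 1) := by
  unfold W
  exact ContinuousOn.mul (by fun_prop) (cont_ip hu)

lemma W_nonneg {n : ℕ} {u s : ℝ} (hu : 0 ≤ u) (hs : s ∈ Icc (0:ℝ) 1) : 0 ≤ W n u s := by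
  unfold W
  have h1 := one_add_pos hu hs
  have h2 : 0 ≤ 1 - s ^ 2 := by nlinarith [hs.1, hs.2]
  have := ip_pos (k := n + 1) (a := 1 + u * s) (by linarith)
  positivity

lemma W_le_one {n : ℕ} {u s : ℝ} (hu : 0 ≤ u) (hs : s ∈ Icc (0:ℝ) 1) : W n u s ≤ 1 := by
  unfold W
  have h1 := one_add_pos hu hs
  have h2 : 0 ≤ 1 - s ^ 2 := by nlinarith [hs.1, hs.2]
  have h3 : 1 - s ^ 2 ≤ 1 := by nlinarith [hs.1, hs.2]
  have h4 := ip_pos (k := n + 1) (a := 1 + u * s) (by linarith)
  have h5 := ip_le_one (k := n + 1) h1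
  have h6 := pow_le_one₀ (n := n) h2 h3
  nlinarith [pow_nonneg h2 n]

lemma integrable_of_cont {f : ℝ → ℝ} (h : ContinuousOn f (Icc 0 1)) :
    IntervalIntegrable f volume 0 1 := by
  apply ContinuousOn.intervalIntegrable
  rwa [uIcc_of_le zero_le_one]

lemma J_comm (n : ℕ) (u v : ℝ) : J n u v = J n v u := by
  unfold J W
  congr 1
  funext s
  ring

lemma Gf_anti (n : ℕ) (u v : ℝ) : Gf n u v = -Gf n v u := by
  unfold Gf
  rw [J_comm]; ring

lemma hasDerivAt_ip {k : ℕ} {f : ℝ → ℝ} {f' x : ℝ} (hf : HasDerivAt f f' x) (h0 : f x ≠ 0) :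
    HasDerivAt (fun s => ip k (f s)) (-(k * ip (k + 1) (f x) * f')) x := by
  have h := (hf.fun_pow k).fun_inv (pow_ne_zero k h0)
  unfold ip
  refine h.congr_deriv ?_
  rcases k with _ | m
  · simp
  · simp only [Nat.add_sub_cancel]
    have : (f x ^ (m + 1 + 1))⁻¹ = f x ^ m / (f x ^ (m + 1)) ^ 2 := by
      field_simp
      ring
    rw [this]
    ring

lemma hasDerivAt_lin (u s : ℝ) : HasDerivAt (fun s : ℝ => 1 + u * s) u s := by
  simpa using ((hasDerivAt_id s).const_mul u).const_add 1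

/-- monotonicity -/
lemma Gf_mono {n : ℕ} (hn : 1 ≤ n) {u v v' : ℝ} (hu : 0 ≤ u) (hv : 0 ≤ v) (h : v ≤ v') :
    Gf n u v ≤ Gf n u v' := by
  have hv' : 0 ≤ v' := hv.trans h
  -- the function R
  set R : ℝ → ℝ := fun s => ip n (1 + v * s) - ip n (1 + v' * s) with hR
  set R' : ℝ → ℝ := fun s => n * (v' * ip (n + 1) (1 + v' * s) - v * ip (n + 1) (1 + v * s)) with hR'
  have dR : ∀ s ∈ uIcc (0:ℝ) 1, HasDerivAt R (R' s) s := by
    intro s hs
    rw [uIcc_of_le zero_le_one] at hs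
    have h1 := one_add_pos hv hs
    have h1' := one_add_pos hv' hs
    have e1 := hasDerivAt_ip (k := n) (hasDerivAt_lin v s) (by positivity)
    have e2 := hasDerivAt_ip (k := n) (hasDerivAt_lin v' s) (by positivity)
    refine (e1.sub e2).congr_deriv ?_
    simp only [hR']; ring
  set W' : ℝ → ℝ := fun s => -(2 * n * s * (1 - s ^ 2) ^ (n - 1) * ip (n + 1) (1 + u * s) +
    (n + 1) * u * (1 - s ^ 2) ^ n * ip (n + 2) (1 + u * s)) with hW'
  have dW : ∀ s ∈ uIcc (0:ℝ) 1, HasDerivAt (W n u) (W' s) s := by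
    intro s hs
    rw [uIcc_of_le zero_le_one] at hs
    have h1 := one_add_pos hu hs
    have e1 := hasDerivAt_ip (k := n + 1) (hasDerivAt_lin u s) (by positivity)
    have h3 : HasDerivAt (fun s : ℝ => 1 - s ^ 2) (-(2 * s)) s := by
      simpa using ((hasDerivAt_id s).pow 2).const_sub 1
    have h4 := (h3.fun_pow n).fun_mul e1
    refine h4.congr_deriv ?_
    simp only [hW']
    push_cast
    ring
  have cW' : IntervalIntegrable W' volume 0 1 := by
    apply integrable_of_cont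
    have c1 := cont_ip (k := n + 1) hu
    have c2 := cont_ip (k := n + 2) hu
    simp only [hW']
    apply ContinuousOn.neg
    apply ContinuousOn.add
    · exact ContinuousOn.mul (by fun_prop) c1
    · exact ContinuousOn.mul (by fun_prop) c2
  have cR' : ContinuousOn R' (Icc 0 1) := by
    have c1 := cont_ip (k := n + 1) hv
    have c2 := cont_ip (k := n + 1) hv'
    exact continuousOn_const.mul ((continuousOn_const.mul c2).sub (continuousOn_const.mul c1))
  have parts := integral_mul_deriv_eq_deriv_mul dW dR cW' (integrable_of_cont cR')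
  have hW1 : W n u 1 = 0 := by
    unfold W
    have : n ≠ 0 := by omega
    simp [this]
  have hR0 : R 0 = 0 := by simp [hR]
  rw [hW1, hR0, zero_mul, mul_zero, sub_zero, zero_sub] at parts
  have hWR : 0 ≤ ∫ s in (0:ℝ)..1, -(W' s * R s) := by
    apply integral_nonneg zero_le_one
    intro s hs
    have h1 := one_add_pos hu hs
    have h2 : 0 ≤ 1 - s ^ 2 := by nlinarith [hs.1, hs.2]
    have a1 := (ip_pos (k := n + 1) (a := 1 + u * s) (by linarith)).le
    have a2 := (ip_pos (k := n + 2) (a := 1 + u * s) (by linarith)).le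
    have a3 : 0 ≤ R s := by
      have h4 := one_add_pos hv hs
      have := ip_anti (k := n) (a := 1 + v * s) (b := 1 + v' * s) (by linarith)
        (by nlinarith [hs.1])
      simp only [hR]; linarith
    have s0 := hs.1
    have : 0 ≤ (2 * n * s * (1 - s ^ 2) ^ (n - 1) * ip (n + 1) (1 + u * s) +
        (n + 1) * u * (1 - s ^ 2) ^ n * ip (n + 2) (1 + u * s)) * R s := by positivity
    simp only [hW']
    linarith
  rw [intervalIntegral.integral_neg] at hWR
  have key : 0 ≤ ∫ s in (0:ℝ)..1, W n u s * R' s := by rw [parts]; exact hWR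
  -- the difference
  have i1 : ContinuousOn (fun s => W n u s * ip (n + 1) (1 + v * s)) (Icc 0 1) :=
    (cont_W hu).mul (cont_ip hv)
  have i2 : ContinuousOn (fun s => W n u s * ip (n + 1) (1 + v' * s)) (Icc 0 1) :=
    (cont_W hu).mul (cont_ip hv')
  have e : Gf n u v' - Gf n u v = (∫ s in (0:ℝ)..1, W n u s * R' s) +
      n * u * ∫ s in (0:ℝ)..1, (W n u s * ip (n + 1) (1 + v * s) -
        W n u s * ip (n + 1) (1 + v' * s)) := by
    unfold Gf J
    rw [integral_sub (integrable_of_cont i1) (integrable_of_cont i2)]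
    have e1 : ∫ s in (0:ℝ)..1, W n u s * R' s = n * (v' * (∫ s in (0:ℝ)..1,
        W n u s * ip (n + 1) (1 + v' * s)) - v * ∫ s in (0:ℝ)..1,
        W n u s * ip (n + 1) (1 + v * s)) := by
      rw [← intervalIntegral.integral_const_mul, ← intervalIntegral.integral_const_mul,
        ← integral_sub ((integrable_of_cont i2).const_mul _) ((integrable_of_cont i1).const_mul _),
        ← intervalIntegral.integral_const_mul]
      congr 1
      funext s
      simp only [hR']; ring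
    rw [e1]; ring
  have h2 : 0 ≤ ∫ s in (0:ℝ)..1, (W n u s * ip (n + 1) (1 + v * s) -
        W n u s * ip (n + 1) (1 + v' * s)) := by
    apply integral_nonneg zero_le_one
    intro s hs
    have a1 := W_nonneg (n := n) hu hs
    have h4 := one_add_pos hv hs
    have a2 := ip_anti (k := n + 1) (a := 1 + v * s) (b := 1 + v' * s) (by linarith)
        (by nlinarith [hs.1])
    nlinarith
  have h3 : 0 ≤ (n : ℝ) * u := by positivity
  nlinarith [mul_nonneg h3 h2]

/-- Lipschitz bound -/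
lemma Gf_lip {n : ℕ} {u v v' : ℝ} (hu : 0 ≤ u) (hu1 : u ≤ 1) (hv : 0 ≤ v) (hv1 : v ≤ 1)
    (hv' : 0 ≤ v') : |Gf n u v' - Gf n u v| ≤ n * (n + 2) * |v' - v| := by
  have i1 : ContinuousOn (fun s => W n u s * ip (n + 1) (1 + v * s)) (Icc 0 1) :=
    (cont_W hu).mul (cont_ip hv)
  have i2 : ContinuousOn (fun s => W n u s * ip (n + 1) (1 + v' * s)) (Icc 0 1) :=
    (cont_W hu).mul (cont_ip hv')
  have e : Gf n u v' - Gf n u v = n * ∫ s in (0:ℝ)..1, W n u s *
      ((v' - v) * ip (n + 1) (1 + v' * s) + (v - u) * (ip (n + 1) (1 + v' * s) -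
        ip (n + 1) (1 + v * s))) := by
    unfold Gf J
    rw [mul_assoc, mul_assoc, ← mul_sub, ← intervalIntegral.integral_const_mul,
      ← intervalIntegral.integral_const_mul,
      ← integral_sub ((integrable_of_cont i2).const_mul _) ((integrable_of_cont i1).const_mul _)]
    congr 2
    funext s
    ring
  rw [e, abs_mul, abs_of_nonneg (Nat.cast_nonneg n), mul_assoc]
  refine mul_le_mul_of_nonneg_left ?_ (Nat.cast_nonneg n)
  have h := intervalIntegral.norm_integral_le_of_norm_le_const (a := (0:ℝ)) (b := 1)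
    (C := (n + 2) * |v' - v|) (f := fun s => W n u s *
      ((v' - v) * ip (n + 1) (1 + v' * s) + (v - u) * (ip (n + 1) (1 + v' * s) -
        ip (n + 1) (1 + v * s)))) ?_
  · simpa [Real.norm_eq_abs] using h
  · intro s hs
    rw [uIoc_of_le zero_le_one] at hs
    have hs : s ∈ Icc (0:ℝ) 1 := ⟨hs.1.le, hs.2⟩
    have w0 := W_nonneg (n := n) hu hs
    have w1 := W_le_one (n := n) hu hs
    have h1 := one_add_pos hv hs
    have h1' := one_add_pos hv' hs
    have a0 := ip_pos (k := n + 1) (a := 1 + v' * s) (by linarith)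
    have a1 := ip_le_one (k := n + 1) h1'
    have a2 := ip_lip (k := n + 1) h1' h1
    have a3 : |(1 + v' * s) - (1 + v * s)| ≤ |v' - v| := by
      have : (1 + v' * s) - (1 + v * s) = (v' - v) * s := by ring
      rw [this, abs_mul, abs_of_nonneg hs.1]
      exact mul_le_of_le_one_right (abs_nonneg _) hs.2
    have a4 : |v - u| ≤ 1 := by rw [abs_le]; constructor <;> linarith
    rw [Real.norm_eq_abs, abs_mul, abs_of_nonneg w0]
    have b1 : |(v' - v) * ip (n + 1) (1 + v' * s)| ≤ |v' - v| := by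
      rw [abs_mul, abs_of_pos a0]
      exact mul_le_of_le_one_right (abs_nonneg _) a1
    have b2 : |(v - u) * (ip (n + 1) (1 + v' * s) - ip (n + 1) (1 + v * s))| ≤
        (n + 1) * |v' - v| := by
      rw [abs_mul]
      have : |ip (n + 1) (1 + v' * s) - ip (n + 1) (1 + v * s)| ≤ (n + 1) * |v' - v| := by
        refine a2.trans ?_
        push_cast
        gcongr
      calc _ ≤ 1 * ((n + 1) * |v' - v|) := by gcongr
        _ = _ := one_mul _
    have b3 := abs_add_le ((v' - v) * ip (n + 1) (1 + v' * s))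
      ((v - u) * (ip (n + 1) (1 + v' * s) - ip (n + 1) (1 + v * s)))
    calc _ ≤ 1 * (|v' - v| + (n + 1) * |v' - v|) := by
          refine mul_le_mul w1 (b3.trans (add_le_add b1 b2)) (abs_nonneg _) zero_le_one
      _ = _ := by ring

lemma Gf_self (n : ℕ) (u : ℝ) : Gf n u u = 0 := by unfold Gf; simp

lemma Gf_nonneg {n : ℕ} (hn : 1 ≤ n) {u v : ℝ} (hu : 0 ≤ u) (h : u ≤ v) : 0 ≤ Gf n u v := by
  have := Gf_mono hn hu hu h
  rwa [Gf_self] at this

/-- `Gf 0 v ≤ 1` -/
lemma Gf_zero_le {n : ℕ} {v : ℝ} (hv : 0 ≤ v) : Gf n 0 v ≤ 1 := by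
  have d : ∀ s ∈ uIcc (0:ℝ) 1, HasDerivAt (fun s : ℝ => -ip n (1 + v * s))
      (n * (v * ip (n + 1) (1 + v * s))) s := by
    intro s hs
    rw [uIcc_of_le zero_le_one] at hs
    have h1 := one_add_pos hv hs
    refine (hasDerivAt_ip (k := n) (hasDerivAt_lin v s) (by positivity)).fun_neg.congr_deriv ?_
    ring
  have c : ContinuousOn (fun s : ℝ => n * (v * ip (n + 1) (1 + v * s))) (Icc 0 1) :=
    continuousOn_const.mul (continuousOn_const.mul (cont_ip hv))
  have h := integral_eq_sub_of_hasDerivAt d (integrable_of_cont c)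
  have h2 : Gf n 0 v ≤ ∫ s in (0:ℝ)..1, n * (v * ip (n + 1) (1 + v * s)) := by
    unfold Gf J
    rw [← intervalIntegral.integral_const_mul]
    have i1 : ContinuousOn (fun s => n * (v - 0) * (W n 0 s * ip (n + 1) (1 + v * s))) (Icc 0 1) :=
      continuousOn_const.mul ((cont_W le_rfl).mul (cont_ip hv))
    refine integral_mono_on zero_le_one (integrable_of_cont i1) (integrable_of_cont c) ?_
    intro s hs
    have w1 := W_le_one (n := n) le_rfl hs
    have h1 := one_add_pos hv hs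
    have a0 := ip_pos (k := n + 1) (a := 1 + v * s) (by linarith)
    have : W n 0 s * ip (n + 1) (1 + v * s) ≤ ip (n + 1) (1 + v * s) :=
      mul_le_of_le_one_left a0.le w1
    calc (n : ℝ) * (v - 0) * (W n 0 s * ip (n + 1) (1 + v * s))
        = n * (v * (W n 0 s * ip (n + 1) (1 + v * s))) := by ring
      _ ≤ n * (v * ip (n + 1) (1 + v * s)) := by gcongr
  rw [h] at h2
  have h3 : ip n (1 + v * 0) = 1 := by simp [ip]
  have h4 : 0 ≤ ip n (1 + v * 1) := (ip_pos (by linarith)).le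
  rw [h3] at h2
  linarith

lemma Gf_abs_le {n : ℕ} (hn : 1 ≤ n) {u v : ℝ} (hu : 0 ≤ u) (hv : 0 ≤ v) : |Gf n u v| ≤ 1 := by
  rw [abs_le]
  constructor
  · have h1 := Gf_mono hn hu le_rfl hv
    have h2 := Gf_zero_le (n := n) hu
    rw [Gf_anti n u 0] at h1
    linarith
  · have h1 := Gf_mono hn hv le_rfl hu
    have h2 := Gf_zero_le (n := n) hv
    rw [Gf_anti n v 0, Gf_anti n v u] at h1
    linarith

end Pool.Agent.FR.CF
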