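import Pool.Agent.Lib.MP_725e58_gt.FS.FunA41

/-! The certificate function: definition, symmetry, monotonicity, Lipschitz bound. -/

set_option autoImplicit false

namespace Pool.Agent.FR.CF

open MeasureTheory Set Filter Topology intervalIntegral

/-- the certificate for two nonnegative arguments -/
noncomputable def P (n : ℕ) (x y : ℝ) : ℝ :=
  1 - (1 - Gf n 0 ((x + y) / (1 + x * y))) * ip n (1 + x * y)

/-- the certificate on the square -/
noncomputable def c0 (n : ℕ) (x y : ℝ) : ℝ :=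
  if 0 ≤ x then (if 0 ≤ y then P n x y else Gf n (-y) x)
  else (if 0 ≤ y then Gf n (-x) y else -P n (-x) (-y))

/-- clamping to `[-1, 1]` -/
noncomputable def cl (x : ℝ) : ℝ := max (-1) (min 1 x)

/-- the certificate -/
noncomputable def cc (n : ℕ) (x y : ℝ) : ℝ := c0 n (cl x) (cl y)

lemma cl_mem (x : ℝ) : cl x ∈ Icc (-1:ℝ) 1 :=
  ⟨le_max_left _ _, max_le (by norm_num) (min_le_left _ _)⟩

lemma cl_of_mem {x : ℝ} (h : |x| ≤ 1) : cl x = x := by
  obtain ⟨h1, h2⟩ := abs_le.mp h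
  unfold cl
  rw [min_eq_right h2, max_eq_right h1]

lemma cl_mono : Monotone cl := fun x y h => by unfold cl; gcongr

lemma cl_lip (x y : ℝ) : |cl x - cl y| ≤ |x - y| := by
  unfold cl
  rcases le_total 1 x with h1 | h1 <;> rcases le_total 1 y with h2 | h2 <;>
    rcases le_total (-1) x with h3 | h3 <;> rcases le_total (-1) y with h4 | h4 <;>
    simp only [min_eq_left, min_eq_right, max_eq_left, max_eq_right, h1, h2, h3, h4,
      show (-1:ℝ) ≤ 1 by norm_num] <;>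
    (rw [abs_le]; constructor <;>
      first
      | linarith [le_abs_self (x - y), neg_abs_le (x - y)])

lemma P_comm (n : ℕ) (x y : ℝ) : P n x y = P n y x := by
  unfold P; rw [add_comm x y, mul_comm x y]

lemma P_zero (n : ℕ) (y : ℝ) : P n 0 y = Gf n 0 y := by
  unfold P; simp [ip]

lemma v_nonneg {x y : ℝ} (hx : 0 ≤ x) (hy : 0 ≤ y) : 0 ≤ (x + y) / (1 + x * y) := by positivity

lemma v_le_one {x y : ℝ} (hx : 0 ≤ x) (hy : 0 ≤ y) (hx1 : x ≤ 1) (hy1 : y ≤ 1) :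
    (x + y) / (1 + x * y) ≤ 1 := by
  rw [div_le_one (by positivity)]
  nlinarith

lemma v_sub {x x' y : ℝ} (h : 1 + x * y ≠ 0) (h' : 1 + x' * y ≠ 0) :
    (x' + y) / (1 + x' * y) - (x + y) / (1 + x * y) =
      (x' - x) * (1 - y ^ 2) / ((1 + x' * y) * (1 + x * y)) := by
  rw [div_sub_div _ _ h' h]
  congr 1
  ring

lemma P_mono {n : ℕ} (hn : 1 ≤ n) {x x' y : ℝ} (hx : 0 ≤ x) (hy : 0 ≤ y) (hy1 : y ≤ 1)
    (h : x ≤ x') : P n x y ≤ P n x' y := by
  have hx' : 0 ≤ x' := hx.trans h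
  have a0 : 0 < 1 + x * y := by positivity
  have a1 : 0 < 1 + x' * y := by positivity
  have hv : (x + y) / (1 + x * y) ≤ (x' + y) / (1 + x' * y) := by
    have := v_sub a0.ne' a1.ne'
    have h2 : 0 ≤ (x' - x) * (1 - y ^ 2) / ((1 + x' * y) * (1 + x * y)) := by
      apply div_nonneg (mul_nonneg (by linarith) (by nlinarith)) (by positivity)
    linarith
  have b1 := Gf_mono hn le_rfl (v_nonneg hx hy) hv
  have b2 := Gf_zero_le (n := n) (v_nonneg hx' hy)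
  have b3 := ip_anti (k := n) a0 (show 1 + x * y ≤ 1 + x' * y by nlinarith)
  have b4 := ip_pos (k := n) a1
  unfold P
  have : (1 - Gf n 0 ((x' + y) / (1 + x' * y))) * ip n (1 + x' * y) ≤
      (1 - Gf n 0 ((x + y) / (1 + x * y))) * ip n (1 + x * y) :=
    mul_le_mul (by linarith) b3 b4.le (by linarith)
  linarith

lemma P_lip {n : ℕ} (hn : 1 ≤ n) {x x' y : ℝ} (hx : 0 ≤ x) (hx1 : x ≤ 1) (hy : 0 ≤ y) (hy1 : y ≤ 1)
    (hx' : 0 ≤ x') (hx1' : x' ≤ 1) : |P n x' y - P n x y| ≤ (n * (n + 2) + n) * |x' - x| := by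
  have a0 : 1 ≤ 1 + x * y := by nlinarith [mul_nonneg hx hy]
  have a1 : 1 ≤ 1 + x' * y := by nlinarith [mul_nonneg hx' hy]
  set v := (x + y) / (1 + x * y)
  set v' := (x' + y) / (1 + x' * y)
  have hv : |v' - v| ≤ |x' - x| := by
    rw [v_sub (by positivity) (by positivity), abs_div, abs_mul,
      abs_of_pos (show 0 < (1 + x' * y) * (1 + x * y) by positivity), div_le_iff₀ (by positivity)]
    have h1 : |1 - y ^ 2| ≤ 1 := by rw [abs_le]; constructor <;> nlinarith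
    have h2 : 1 ≤ (1 + x' * y) * (1 + x * y) := by nlinarith
    nlinarith [abs_nonneg (x' - x), mul_le_mul_of_nonneg_left h1 (abs_nonneg (x' - x)),
      mul_le_mul_of_nonneg_left h2 (abs_nonneg (x' - x))]
  have b1 := Gf_lip (n := n) le_rfl zero_le_one (v_nonneg hx hy) (v_le_one hx hy hx1 hy1)
    (v_nonneg hx' hy)
  have b2 := Gf_zero_le (n := n) (v_nonneg hx' hy)
  have b2' := Gf_nonneg hn le_rfl (v_nonneg hx' hy)
  have b3 := ip_lip (k := n) a1 a0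
  have b4 := ip_pos (k := n) (a := 1 + x * y) (by linarith)
  have b5 := ip_le_one (k := n) a0
  have b6 : |(1 + x' * y) - (1 + x * y)| ≤ |x' - x| := by
    have : (1 + x' * y) - (1 + x * y) = (x' - x) * y := by ring
    rw [this, abs_mul, abs_of_nonneg hy]
    exact mul_le_of_le_one_right (abs_nonneg _) hy1
  have e : P n x' y - P n x y = (Gf n 0 v' - Gf n 0 v) * ip n (1 + x * y) -
      (1 - Gf n 0 v') * (ip n (1 + x' * y) - ip n (1 + x * y)) := by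
    unfold P; ring
  rw [e]
  have c1 : |(Gf n 0 v' - Gf n 0 v) * ip n (1 + x * y)| ≤ n * (n + 2) * |x' - x| := by
    rw [abs_mul, abs_of_pos b4]
    calc _ ≤ (n * (n + 2) * |v' - v|) * 1 := by gcongr
      _ ≤ _ := by rw [mul_one]; gcongr
  have c2 : |(1 - Gf n 0 v') * (ip n (1 + x' * y) - ip n (1 + x * y))| ≤ n * |x' - x| := by
    rw [abs_mul, abs_of_nonneg (by linarith : 0 ≤ 1 - Gf n 0 v')]
    calc _ ≤ 1 * (n * |(1 + x' * y) - (1 + x * y)|) :=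
          mul_le_mul (by linarith) b3 (abs_nonneg _) zero_le_one
      _ ≤ _ := by rw [one_mul]; gcongr
  have := abs_sub ((Gf n 0 v' - Gf n 0 v) * ip n (1 + x * y))
    ((1 - Gf n 0 v') * (ip n (1 + x' * y) - ip n (1 + x * y)))
  linarith

lemma P_bd {n : ℕ} (hn : 1 ≤ n) {x y : ℝ} (hx : 0 ≤ x) (hy : 0 ≤ y) : |P n x y| ≤ 1 := by
  have a0 : 1 ≤ 1 + x * y := by nlinarith [mul_nonneg hx hy]
  have b2 := Gf_zero_le (n := n) (v_nonneg hx hy)
  have b2' := Gf_nonneg hn le_rfl (v_nonneg hx hy)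
  have b4 := ip_pos (k := n) (a := 1 + x * y) (by linarith)
  have b5 := ip_le_one (k := n) a0
  unfold P
  rw [abs_le]
  constructor <;> nlinarith

lemma c0_pp {n : ℕ} {x y : ℝ} (hx : 0 ≤ x) (hy : 0 ≤ y) : c0 n x y = P n x y := by
  simp [c0, hx, hy]

lemma c0_pn {n : ℕ} {x y : ℝ} (hx : 0 ≤ x) (hy : y ≤ 0) : c0 n x y = Gf n (-y) x := by
  rcases hy.lt_or_eq with h | rfl
  · simp [c0, hx, not_le.mpr h]
  · rw [c0_pp hx le_rfl, P_comm, P_zero, neg_zero]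

lemma c0_np {n : ℕ} {x y : ℝ} (hx : x ≤ 0) (hy : 0 ≤ y) : c0 n x y = Gf n (-x) y := by
  rcases hx.lt_or_eq with h | rfl
  · simp [c0, hy, not_le.mpr h]
  · rw [c0_pp le_rfl hy, P_zero, neg_zero]

lemma c0_nn {n : ℕ} {x y : ℝ} (hx : x ≤ 0) (hy : y ≤ 0) : c0 n x y = -P n (-x) (-y) := by
  rcases hx.lt_or_eq with h | rfl
  · rcases hy.lt_or_eq with h' | rfl
    · simp [c0, not_le.mpr h, not_le.mpr h']
    · rw [c0_np hx le_rfl, neg_zero, P_comm, P_zero, Gf_anti]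
  · rw [c0_pn le_rfl hy, neg_zero, P_zero, Gf_anti]

lemma c0_comm (n : ℕ) (x y : ℝ) : c0 n x y = c0 n y x := by
  rcases le_total 0 x with hx | hx <;> rcases le_total 0 y with hy | hy
  · rw [c0_pp hx hy, c0_pp hy hx, P_comm]
  · rw [c0_pn hx hy, c0_np hy hx]
  · rw [c0_np hx hy, c0_pn hy hx]
  · rw [c0_nn hx hy, c0_nn hy hx, P_comm]

lemma c0_neg (n : ℕ) (x y : ℝ) : c0 n (-x) (-y) = -c0 n x y := by
  rcases le_total 0 x with hx | hx <;> rcases le_total 0 y with hy | hy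
  · rw [c0_pp hx hy, c0_nn (by linarith) (by linarith), neg_neg, neg_neg]
  · rw [c0_pn hx hy, c0_np (by linarith) (by linarith), neg_neg, Gf_anti]
  · rw [c0_np hx hy, c0_pn (by linarith) (by linarith), neg_neg, Gf_anti]
  · rw [c0_nn hx hy, c0_pp (by linarith) (by linarith), neg_neg]

lemma c0_bd {n : ℕ} (hn : 1 ≤ n) (x y : ℝ) : |c0 n x y| ≤ 1 := by
  rcases le_total 0 x with hx | hx <;> rcases le_total 0 y with hy | hy
  · rw [c0_pp hx hy]; exact P_bd hn hx hy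
  · rw [c0_pn hx hy]; exact Gf_abs_le hn (by linarith) hx
  · rw [c0_np hx hy]; exact Gf_abs_le hn (by linarith) hy
  · rw [c0_nn hx hy, abs_neg]; exact P_bd hn (by linarith) (by linarith)

lemma Gf_anti1 {n : ℕ} (hn : 1 ≤ n) {u u' v : ℝ} (hu : 0 ≤ u) (hv : 0 ≤ v) (h : u ≤ u') :
    Gf n u' v ≤ Gf n u v := by
  rw [Gf_anti n u' v, Gf_anti n u v]
  exact neg_le_neg (Gf_mono hn hv hu h)

lemma c0_mono_pos {n : ℕ} (hn : 1 ≤ n) {x x' y : ℝ} (h : x ≤ x') (hy : 0 ≤ y) (hy1 : y ≤ 1) :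
    c0 n x y ≤ c0 n x' y := by
  rcases le_total 0 x with hx | hx
  · rw [c0_pp hx hy, c0_pp (hx.trans h) hy]
    exact P_mono hn hx hy hy1 h
  · rw [c0_np hx hy]
    rcases le_total 0 x' with hx' | hx'
    · rw [c0_pp hx' hy]
      calc Gf n (-x) y ≤ Gf n 0 y := Gf_anti1 hn le_rfl hy (by linarith)
        _ = P n 0 y := (P_zero n y).symm
        _ ≤ _ := P_mono hn le_rfl hy hy1 hx'
    · rw [c0_np hx' hy]
      exact Gf_anti1 hn (by linarith) hy (by linarith)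

lemma c0_mono {n : ℕ} (hn : 1 ≤ n) {x x' y : ℝ} (h : x ≤ x') (hy : y ∈ Icc (-1:ℝ) 1) :
    c0 n x y ≤ c0 n x' y := by
  rcases le_total 0 y with h0 | h0
  · exact c0_mono_pos hn h h0 hy.2
  · have := c0_mono_pos hn (neg_le_neg h) (neg_nonneg.mpr h0) (by linarith [hy.1])
    rw [c0_neg, c0_neg] at this
    linarith

lemma Gf_lip1 {n : ℕ} {u u' v : ℝ} (hu : 0 ≤ u) (hu1 : u ≤ 1) (hv : 0 ≤ v) (hv1 : v ≤ 1)
    (hu' : 0 ≤ u') : |Gf n u' v - Gf n u v| ≤ n * (n + 2) * |u' - u| := by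
  rw [Gf_anti n u' v, Gf_anti n u v]
  have := Gf_lip (n := n) hv hv1 hu hu1 hu'
  rw [← abs_neg] at this
  convert this using 2
  ring

lemma c0_lip_pos {n : ℕ} (hn : 1 ≤ n) {x x' y : ℝ} (hx : x ∈ Icc (-1:ℝ) 1)
    (hx' : x' ∈ Icc (-1:ℝ) 1) (hy : 0 ≤ y) (hy1 : y ≤ 1) :
    |c0 n x' y - c0 n x y| ≤ (n * (n + 2) + n) * |x' - x| := by
  have hn0 : (0:ℝ) ≤ n := Nat.cast_nonneg n
  have neg : ∀ z z' : ℝ, z ∈ Icc (-1:ℝ) 0 → z' ∈ Icc (-1:ℝ) 0 →
      |c0 n z' y - c0 n z y| ≤ (n * (n + 2) + n) * |z' - z| := by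
    intro z z' hz hz'
    rw [c0_np hz.2 hy, c0_np hz'.2 hy]
    have := Gf_lip1 (n := n) (u := -z) (u' := -z') (v := y) (by linarith [hz.2]) (by linarith [hz.1])
      hy hy1 (by linarith [hz'.2])
    have e : |-z' - -z| = |z' - z| := by rw [← abs_neg]; congr 1; ring
    rw [e] at this
    nlinarith [abs_nonneg (z' - z), mul_nonneg hn0 (abs_nonneg (z' - z))]
  have pos : ∀ z z' : ℝ, z ∈ Icc (0:ℝ) 1 → z' ∈ Icc (0:ℝ) 1 →
      |c0 n z' y - c0 n z y| ≤ (n * (n + 2) + n) * |z' - z| := by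
    intro z z' hz hz'
    rw [c0_pp hz.1 hy, c0_pp hz'.1 hy]
    exact P_lip hn hz.1 hz.2 hy hy1 hz'.1 hz'.2
  rcases le_total 0 x with h | h <;> rcases le_total 0 x' with h' | h'
  · exact pos x x' ⟨h, hx.2⟩ ⟨h', hx'.2⟩
  · have h1 := pos x 0 ⟨h, hx.2⟩ ⟨le_rfl, zero_le_one⟩
    have h2 := neg 0 x' ⟨by norm_num, le_rfl⟩ ⟨hx'.1, h'⟩
    have h3 := abs_sub_le (c0 n x' y) (c0 n 0 y) (c0 n x y)
    have e1 : |0 - x| = x := by rw [zero_sub, abs_neg, abs_of_nonneg h]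
    have e2 : |x' - 0| = -x' := by rw [sub_zero, abs_of_nonpos h']
    have e3 : |x' - x| = x - x' := by rw [abs_of_nonpos (by linarith)]; ring
    rw [e1] at h1; rw [e2] at h2; rw [e3]
    linarith
  · have h1 := neg x 0 ⟨hx.1, h⟩ ⟨by norm_num, le_rfl⟩
    have h2 := pos 0 x' ⟨le_rfl, zero_le_one⟩ ⟨h', hx'.2⟩
    have h3 := abs_sub_le (c0 n x' y) (c0 n 0 y) (c0 n x y)
    have e1 : |0 - x| = -x := by rw [zero_sub, abs_neg, abs_of_nonpos h]
    have e2 : |x' - 0| = x' := by rw [sub_zero, abs_of_nonneg h']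
    have e3 : |x' - x| = x' - x := abs_of_nonneg (by linarith)
    rw [e1] at h1; rw [e2] at h2; rw [e3]
    linarith
  · exact neg x x' ⟨hx.1, h⟩ ⟨hx'.1, h'⟩

lemma c0_lip1 {n : ℕ} (hn : 1 ≤ n) {x x' y : ℝ} (hx : x ∈ Icc (-1:ℝ) 1)
    (hx' : x' ∈ Icc (-1:ℝ) 1) (hy : y ∈ Icc (-1:ℝ) 1) :
    |c0 n x' y - c0 n x y| ≤ (n * (n + 2) + n) * |x' - x| := by
  rcases le_total 0 y with h0 | h0
  · exact c0_lip_pos hn hx hx' h0 hy.2
  · have := c0_lip_pos hn (x := -x) (x' := -x') (y := -y) ⟨by linarith [hx.2], by linarith [hx.1]⟩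
      ⟨by linarith [hx'.2], by linarith [hx'.1]⟩ (by linarith) (by linarith [hy.1])
    rw [c0_neg, c0_neg] at this
    have e : |-x' - -x| = |x' - x| := by rw [← abs_neg]; congr 1; ring
    have e2 : |-c0 n x' y - -c0 n x y| = |c0 n x' y - c0 n x y| := by
      rw [← abs_neg]; congr 1; ring
    rwa [e, e2] at this

lemma c0_lip {n : ℕ} (hn : 1 ≤ n) {x x' y y' : ℝ} (hx : x ∈ Icc (-1:ℝ) 1)
    (hx' : x' ∈ Icc (-1:ℝ) 1) (hy : y ∈ Icc (-1:ℝ) 1) (hy' : y' ∈ Icc (-1:ℝ) 1) :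
    |c0 n x y - c0 n x' y'| ≤ (n * (n + 2) + n) * (|x - x'| + |y - y'|) := by
  have h1 := c0_lip1 hn hx' hx hy
  have h2 := c0_lip1 hn hy' hy hx'
  rw [c0_comm n y x', c0_comm n y' x'] at h2
  have h3 := abs_sub_le (c0 n x y) (c0 n x' y) (c0 n x' y')
  linarith

end Pool.Agent.FR.CF
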