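import Pool.Agent.Lib.MP_725e58_gt.FS.FunB41

/-! The certificate function: the flow and the Euler step. -/

set_option autoImplicit false

namespace Pool.Agent.FR.CF

open MeasureTheory Set Filter Topology intervalIntegral

/-- the flow -/
noncomputable def fX (x T : ℝ) : ℝ := (x + T) / (1 + x * T)

/-- the factor of the flow -/
noncomputable def fM (x y T : ℝ) : ℝ := (1 + x * T) * (1 - y * T) / (1 - T ^ 2)

lemma fX_zero (x : ℝ) : fX x 0 = x := by unfold fX; simp

lemma fM_zero (x y : ℝ) : fM x y 0 = 1 := by unfold fM; simp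

lemma den_pos {x T : ℝ} (hx : |x| ≤ 1) (hT : |T| ≤ 1 / 2) : 1 / 2 ≤ 1 + x * T := by
  have : |x * T| ≤ 1 / 2 := by
    rw [abs_mul]
    calc |x| * |T| ≤ 1 * (1 / 2) := by gcongr
      _ = _ := by norm_num
  linarith [neg_abs_le (x * T)]

lemma hasDerivAt_fM (x y : ℝ) : HasDerivAt (fM x y) (x - y) 0 := by
  have h1 : HasDerivAt (fun T : ℝ => (1 + x * T) * (1 - y * T)) (x - y) 0 := by
    have a := hasDerivAt_lin x 0
    have b := hasDerivAt_lin (-y) 0
    have b' : HasDerivAt (fun T : ℝ => 1 - y * T) (-y) 0 := by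
      refine b.congr_of_eventuallyEq (Eventually.of_forall fun T => ?_)
      ring
    refine (a.fun_mul b').congr_deriv ?_
    ring
  have h2 : HasDerivAt (fun T : ℝ => 1 - T ^ 2) 0 0 := by
    have := ((hasDerivAt_id (0:ℝ)).pow 2).const_sub 1
    simpa using this
  refine (h1.fun_div h2 (by norm_num)).congr_deriv ?_
  simp

/-- the integrand -/
noncomputable def gI (n : ℕ) (x y σ : ℝ) : ℝ :=
  (1 - σ ^ 2) ^ n * ip (n + 1) ((1 - x * σ) * (1 + y * σ))

lemma one_sub_pos {x σ : ℝ} (hx : |x| ≤ 1) (hx0 : x ≤ 0) (hσ : σ ∈ Icc (-(1/2):ℝ) 1) :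
    1 / 2 ≤ 1 - x * σ := by
  have h1 := (abs_le.mp hx).1
  rcases le_total 0 σ with h | h
  · nlinarith
  · nlinarith [hσ.1]

lemma cont_gI {n : ℕ} {x y : ℝ} (hx : |x| ≤ 1) (hx0 : x ≤ 0) (hy : |y| ≤ 1) (hy0 : 0 ≤ y) :
    ContinuousOn (gI n x y) (Icc (-(1/2):ℝ) 1) := by
  unfold gI ip
  refine ContinuousOn.mul (by fun_prop) (ContinuousOn.inv₀ (by fun_prop) fun s hs => ?_)
  have h1 := one_sub_pos hx hx0 hs
  have h2 := one_sub_pos (x := -y) (by rwa [abs_neg]) (by linarith) hs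
  have h3 : 1 / 2 ≤ 1 + y * s := by linarith
  have : 0 < (1 - x * s) * (1 + y * s) := mul_pos (by linarith) (by linarith)
  positivity

lemma pow_key (n : ℕ) {g A S p q a b : ℝ} (hA : A ≠ 0) (hS : S ≠ 0) (hp : p ≠ 0) (hq : q ≠ 0)
    (ha : a ≠ 0) (hb : b ≠ 0) :
    (g * A / S ^ 2) ^ n * ((A * p / (a * S)) ^ (n + 1))⁻¹ * ((A * q / (b * S)) ^ (n + 1))⁻¹ *
      (A / S ^ 2) = (a * b / A) ^ (n + 1) * (g ^ n * ((p * q) ^ (n + 1))⁻¹) := by
  have h : (A / S ^ 2) * (A * p / (a * S))⁻¹ * (A * q / (b * S))⁻¹ = a * b / A * (p * q)⁻¹ := by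
    field_simp
  calc _ = g ^ n * ((A / S ^ 2) * (A * p / (a * S))⁻¹ * (A * q / (b * S))⁻¹) ^ (n + 1) := by
        rw [mul_div_assoc, mul_pow g, mul_pow, mul_pow, inv_pow, inv_pow, pow_succ (A / S ^ 2)]
        ring
    _ = _ := by rw [h, mul_pow, inv_pow]; ring

/-- the formula along the flow for arguments of opposite signs -/
lemma formula {n : ℕ} {x y T : ℝ} (hx : |x| ≤ 1) (hx0 : x ≤ 0) (hy : |y| ≤ 1) (hy0 : 0 ≤ y)
    (hT : |T| ≤ 1 / 2) (hX : fX x T ≤ 0) (hY : 0 ≤ -fX (-y) T) :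
    Gf n (-fX x T) (-fX (-y) T) =
      n * (x + y) * fM x y T ^ n * ∫ σ in (-T)..1, gI n x y σ := by
  have T1 := (abs_le.mp hT).1
  have T2 := (abs_le.mp hT).2
  have dx := den_pos hx hT
  have dy := den_pos (x := -y) (by rwa [abs_neg]) hT
  have dy' : 1 / 2 ≤ 1 - y * T := by linarith
  have dT : 1 / 2 ≤ 1 - T ^ 2 := by nlinarith
  have hsub : Icc (-T) 1 ⊆ Icc (-(1/2):ℝ) 1 := Icc_subset_Icc (by linarith) le_rfl
  have hle : -T ≤ 1 := by linarith
  -- the substitution
  set φ : ℝ → ℝ := fun σ => (σ + T) / (1 + T * σ) with hφ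
  set φ' : ℝ → ℝ := fun σ => (1 - T ^ 2) / (1 + T * σ) ^ 2 with hφ'
  have pos : ∀ σ ∈ uIcc (-T) 1, 0 < 1 + T * σ := by
    intro σ hσ
    rw [uIcc_of_le hle] at hσ
    rcases le_total 0 T with h | h
    · nlinarith [hσ.1, hσ.2]
    · nlinarith [hσ.1, hσ.2]
  have dφ : ∀ σ ∈ uIcc (-T) 1, HasDerivAt φ (φ' σ) σ := by
    intro σ hσ
    have p := pos σ hσ
    have a : HasDerivAt (fun σ : ℝ => σ + T) 1 σ := by simpa using (hasDerivAt_id σ).add_const T
    refine (a.fun_div (hasDerivAt_lin T σ) p.ne').congr_deriv ?_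
    simp only [hφ']
    congr 1
    ring
  have cφ' : ContinuousOn φ' (uIcc (-T) 1) := by
    simp only [hφ']
    refine ContinuousOn.div (by fun_prop) (by fun_prop) fun s hs => ?_
    have := pos s hs
    positivity
  set f : ℝ → ℝ := fun s => W n (-fX x T) s * ip (n + 1) (1 + (-fX (-y) T) * s) with hf
  have img : φ '' uIcc (-T) 1 ⊆ Icc 0 1 := by
    rintro _ ⟨σ, hσ, rfl⟩
    have p := pos σ hσ
    rw [uIcc_of_le hle] at hσ
    simp only [hφ]
    constructor
    · apply div_nonneg (by linarith [hσ.1]) p.le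
    · rw [div_le_one p]
      nlinarith [hσ.1, hσ.2]
  have cf : ContinuousOn f (φ '' uIcc (-T) 1) := by
    refine ContinuousOn.mono ?_ img
    exact (cont_W (by linarith)).mul (cont_ip hY)
  have sub := integral_comp_mul_deriv' dφ cφ' cf
  have e0 : φ (-T) = 0 := by simp [hφ]
  have e1 : φ 1 = 1 := by
    simp only [hφ]
    rw [mul_one, div_self]
    linarith
  rw [e0, e1] at sub
  -- the integrand
  have key : ∀ σ ∈ uIcc (-T) 1, (f ∘ φ) σ * φ' σ = fM x y T ^ (n + 1) * gI n x y σ := by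
    intro σ hσ
    have p := pos σ hσ
    rw [uIcc_of_le hle] at hσ
    have q1 := one_sub_pos hx hx0 (hsub hσ)
    have q2 := one_sub_pos (x := -y) (by rwa [abs_neg]) (by linarith) (hsub hσ)
    have q2' : 1 / 2 ≤ 1 + y * σ := by linarith
    have a1 : 1 - φ σ ^ 2 = (1 - σ ^ 2) * (1 - T ^ 2) / (1 + T * σ) ^ 2 := by
      simp only [hφ]
      rw [div_pow, eq_div_iff (by positivity), sub_mul, div_mul_cancel₀ _ (by positivity)]
      ring
    have a2 : 1 + -fX x T * φ σ = (1 - T ^ 2) * (1 - x * σ) / ((1 + x * T) * (1 + T * σ)) := by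
      simp only [hφ, fX]
      have d1 : (1 + x * T) ≠ 0 := by linarith
      field_simp
      ring
    have a3 : 1 + -fX (-y) T * φ σ = (1 - T ^ 2) * (1 + y * σ) / ((1 - y * T) * (1 + T * σ)) := by
      simp only [hφ, fX]
      have d1 : (1 - y * T) ≠ 0 := by linarith
      have d2 : (1 + -y * T) ≠ 0 := by linarith
      have d3 : 1 + -y * T = 1 - y * T := by ring
      rw [d3]
      field_simp
      ring
    simp only [Function.comp, hf, W, gI, ip]
    rw [a1, a2, a3]
    simp only [hφ', fM]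
    have z1 : (1 + T * σ) ≠ 0 := p.ne'
    have z2 : (1 - T ^ 2) ≠ 0 := by linarith
    have z3 : (1 - x * σ) ≠ 0 := by linarith
    have z4 : (1 + y * σ) ≠ 0 := by linarith
    have z5 : (1 + x * T) ≠ 0 := by linarith
    have z6 : (1 - y * T) ≠ 0 := by linarith
    exact pow_key n z2 z1 z3 z4 z5 z6
  have sub2 : J n (-fX x T) (-fX (-y) T) = fM x y T ^ (n + 1) * ∫ σ in (-T)..1, gI n x y σ := by
    rw [← intervalIntegral.integral_const_mul, ← integral_congr key, sub]
    rfl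
  unfold Gf
  rw [sub2]
  have e : -fX (-y) T - -fX x T = (x + y) * (1 - T ^ 2) / ((1 + x * T) * (1 - y * T)) := by
    unfold fX
    have d1 : (1 + x * T) ≠ 0 := by linarith
    have d2 : (1 - y * T) ≠ 0 := by linarith
    have d3 : 1 + -y * T = 1 - y * T := by ring
    rw [d3, sub_neg_eq_add, ← neg_div, div_add_div _ _ d2 d1, mul_comm (1 + x * T)]
    congr 1
    ring
  rw [e, pow_succ (fM x y T) n]
  have : (x + y) * (1 - T ^ 2) / ((1 + x * T) * (1 - y * T)) * fM x y T = x + y := by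
    unfold fM
    have d1 : (1 + x * T) ≠ 0 := by linarith
    have d2 : (1 - y * T) ≠ 0 := by linarith
    have d3 : (1 - T ^ 2) ≠ 0 := by linarith
    field_simp
  calc _ = n * ((x + y) * (1 - T ^ 2) / ((1 + x * T) * (1 - y * T)) * fM x y T) * fM x y T ^ n *
        ∫ σ in (-T)..1, gI n x y σ := by ring
    _ = _ := by rw [this]

lemma fM_pow_deriv (n : ℕ) (x y : ℝ) :
    HasDerivAt (fun T => fM x y T ^ n) (n * (x - y)) 0 := by
  have h := (hasDerivAt_fM x y).fun_pow n
  rw [fM_zero, one_pow, mul_one] at h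
  exact h

lemma int_deriv {n : ℕ} {x y : ℝ} (hx : |x| ≤ 1) (hx0 : x ≤ 0) (hy : |y| ≤ 1) (hy0 : 0 ≤ y) :
    HasDerivAt (fun T : ℝ => ∫ σ in (-T)..1, gI n x y σ) 1 0 := by
  have c := cont_gI (n := n) hx hx0 hy hy0
  have i : IntervalIntegrable (gI n x y) volume 0 1 := by
    apply ContinuousOn.intervalIntegrable
    rw [uIcc_of_le zero_le_one]
    exact c.mono (Icc_subset_Icc (by norm_num) le_rfl)
  have cn : ContinuousOn (gI n x y) (Ioo (-(1/2):ℝ) 1) := c.mono Ioo_subset_Icc_self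
  have o : IsOpen (Ioo (-(1/2):ℝ) 1) := isOpen_Ioo
  have m : (0:ℝ) ∈ Ioo (-(1/2):ℝ) 1 := ⟨by norm_num, by norm_num⟩
  have h := integral_hasDerivAt_left i
    (cn.stronglyMeasurableAtFilter o 0 m)
    (cn.continuousAt (o.mem_nhds m))
  have g0 : gI n x y 0 = 1 := by unfold gI ip; simp
  rw [g0] at h
  have h0 : HasDerivAt (fun u : ℝ => ∫ σ in u..1, gI n x y σ) (-1) (-(0:ℝ)) := by
    rw [neg_zero]; exact h
  have h2 := h0.scomp (0:ℝ) (hasDerivAt_neg (0:ℝ))
  exact h2.congr_deriv (by simp)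

/-- the derivative of the second formula -/
lemma f2_deriv {n : ℕ} {x y : ℝ} (hx : |x| ≤ 1) (hx0 : x ≤ 0) (hy : |y| ≤ 1) (hy0 : 0 ≤ y) :
    HasDerivAt (fun T : ℝ => n * (x + y) * fM x y T ^ n * ∫ σ in (-T)..1, gI n x y σ)
      (n * (x + y) + n * (x - y) * c0 n x y) 0 := by
  have h := ((fM_pow_deriv n x y).const_mul (n * (x + y))).fun_mul
    (int_deriv (n := n) hx hx0 hy hy0)
  refine h.congr_deriv ?_
  have e : c0 n x y = n * (x + y) * ∫ σ in (-(0:ℝ))..1, gI n x y σ := by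
    have := formula (n := n) (T := 0) hx hx0 hy hy0 (by norm_num) (by rw [fX_zero]; exact hx0)
      (by rw [fX_zero]; linarith)
    rw [fX_zero, fX_zero, neg_neg, fM_zero, one_pow, mul_one] at this
    rw [c0_np hx0 hy0, this]
  rw [e, fM_zero, one_pow]
  ring

lemma fX_nonneg {x T : ℝ} (hx : 0 ≤ x) (hT : 0 ≤ T) : 0 ≤ fX x T := by
  unfold fX; positivity

lemma fX_cont {x : ℝ} : ContinuousAt (fX x) 0 := by
  unfold fX
  refine ContinuousAt.div (by fun_prop) (by fun_prop) (by simp)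

/-- the second coordinate of the flow -/
noncomputable def fY (y T : ℝ) : ℝ := -fX (-y) T

lemma fY_zero (y : ℝ) : fY y 0 = y := by unfold fY; rw [fX_zero, neg_neg]

lemma fY_cont {y : ℝ} : ContinuousAt (fY y) 0 := fX_cont.neg

lemma fY_nonpos {y T : ℝ} (hy : y ≤ 0) (hT : 0 ≤ T) : fY y T ≤ 0 := by
  unfold fY
  have := fX_nonneg (x := -y) (by linarith) hT
  linarith

lemma fX_mem {x T : ℝ} (hx : |x| ≤ 1) (hT : |T| ≤ 1 / 2) : |fX x T| ≤ 1 := by
  have d := den_pos hx hT
  unfold fX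
  rw [abs_div, abs_of_pos (show 0 < 1 + x * T by linarith), div_le_one (by linarith)]
  obtain ⟨x1, x2⟩ := abs_le.mp hx
  obtain ⟨t1, t2⟩ := abs_le.mp hT
  rw [abs_le]
  constructor <;> nlinarith

lemma fY_mem {y T : ℝ} (hy : |y| ≤ 1) (hT : |T| ≤ 1 / 2) : |fY y T| ≤ 1 := by
  unfold fY
  rw [abs_neg]
  exact fX_mem (by rwa [abs_neg]) hT

/-- formula in the first quadrant -/
lemma P_formula {n : ℕ} {x y T : ℝ} (hx : |x| ≤ 1) (hx0 : 0 ≤ x) (hy : |y| ≤ 1) (hy0 : 0 ≤ y)
    (hT0 : 0 ≤ T) (hT : T ≤ 1 / 2) :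
    P n (fX x T) (fY y T) = 1 - (1 - P n x y) * fM x y T ^ n := by
  have hT' : |T| ≤ 1 / 2 := by rwa [abs_of_nonneg hT0]
  have dx := den_pos hx hT'
  have dy := den_pos (x := -y) (by rwa [abs_neg]) hT'
  have dy' : 1 / 2 ≤ 1 - y * T := by linarith
  have dT : 1 / 2 ≤ 1 - T ^ 2 := by nlinarith
  have d1 : (1 + x * T) ≠ 0 := by linarith
  have d2 : (1 - y * T) ≠ 0 := by linarith
  have d3 : 1 + -y * T = 1 - y * T := by ring
  have d4 : 1 - T ^ 2 ≠ 0 := by linarith
  have d5 : 1 + x * y ≠ 0 := by positivity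
  have e1 : fX x T + fY y T = (x + y) * (1 - T ^ 2) / ((1 + x * T) * (1 - y * T)) := by
    unfold fY fX
    rw [d3, ← neg_div, div_add_div _ _ d1 d2]
    congr 1
    ring
  have e2 : 1 + fX x T * fY y T = (1 + x * y) * (1 - T ^ 2) / ((1 + x * T) * (1 - y * T)) := by
    unfold fY fX
    rw [d3, ← neg_div, div_mul_div_comm, eq_div_iff (mul_ne_zero d1 d2), add_mul,
      div_mul_cancel₀ _ (mul_ne_zero d1 d2)]
    ring
  have e3 : (fX x T + fY y T) / (1 + fX x T * fY y T) = (x + y) / (1 + x * y) := by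
    rw [e1, e2]
    field_simp
  have e4 : ip n (1 + fX x T * fY y T) = ip n (1 + x * y) * fM x y T ^ n := by
    rw [e2]
    unfold ip fM
    rw [← inv_pow, ← inv_pow, ← mul_pow]
    congr 1
    field_simp
  unfold P
  rw [e3, e4]
  ring

/-- the right derivative of the certificate along the flow at `0` -/
lemma deriv_zero {n : ℕ} {x y : ℝ} (hx : |x| ≤ 1) (hy : |y| ≤ 1) :
    HasDerivWithinAt (fun T => c0 n (fX x T) (fY y T))
      (n * (|y| - |x|) - n * (y - x) * c0 n x y) (Ici 0) 0 := by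
  have ev : ∀ᶠ T in 𝓝[≥] (0:ℝ), 0 ≤ T ∧ T ≤ 1 / 2 := by
    have h1 : ∀ᶠ T in 𝓝[≥] (0:ℝ), T ∈ Ici (0:ℝ) := self_mem_nhdsWithin
    have h2 : ∀ᶠ T in 𝓝[≥] (0:ℝ), T ≤ 1 / 2 :=
      nhdsWithin_le_nhds (eventually_le_nhds (by norm_num))
    filter_upwards [h1, h2] with T a b using ⟨a, b⟩
  rcases le_or_gt 0 x with h0 | h0 <;> rcases le_or_gt y 0 with h1 | h1
  · -- x ≥ 0 ≥ y
    have f := (f2_deriv (n := n) (x := y) (y := x) hy h1 hx h0)
    have f0 : HasDerivAt (fun T : ℝ => n * (y + x) * fM y x T ^ n * ∫ σ in (-T)..1, gI n y x σ)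
      (n * (y + x) + n * (y - x) * c0 n y x) (-(0:ℝ)) := by rw [neg_zero]; exact f
    have f1 := f0.scomp (0:ℝ) (hasDerivAt_neg (0:ℝ))
    have f2 := f1.hasDerivWithinAt (s := Ici 0)
    have e : (-1 : ℝ) • (n * (y + x) + n * (y - x) * c0 n y x) =
        n * (|y| - |x|) - n * (y - x) * c0 n x y := by
      rw [abs_of_nonneg h0, abs_of_nonpos h1, c0_comm n y x, smul_eq_mul]; ring
    rw [e] at f2
    refine f2.congr_of_eventuallyEq ?_ ?_
    · filter_upwards [ev] with T hT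
      have hT' : |(-T)| ≤ 1 / 2 := by rw [abs_neg, abs_of_nonneg hT.1]; exact hT.2
      have a1 := fX_nonneg h0 hT.1
      have a2 := fY_nonpos h1 hT.1
      have e1 : fX y (-T) = fY y T := by
        unfold fY fX
        rw [← neg_div]
        congr 1 <;> ring
      have e2 : -fX (-x) (-T) = fX x T := by
        unfold fX
        rw [← neg_div]
        congr 1 <;> ring
      rw [c0_pn a1 a2]
      have := formula (n := n) (x := y) (y := x) (T := -T) hy h1 hx h0 hT'
        (by rw [e1]; exact a2) (by rw [e2]; exact a1)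
      rw [e1, e2] at this
      rw [this]
      rfl
    · rw [fX_zero, fY_zero]
      have := formula (n := n) (x := y) (y := x) (T := 0) hy h1 hx h0 (by norm_num)
        (by rw [fX_zero]; exact h1) (by rw [fX_zero]; linarith)
      rw [fX_zero, fX_zero, neg_neg] at this
      rw [c0_pn h0 h1, this]
      simp
  · -- x ≥ 0, y > 0
    have f := ((fM_pow_deriv n x y).const_mul (1 - P n x y)).const_sub 1
    have f2 := f.hasDerivWithinAt (s := Ici 0)
    have e : -((1 - P n x y) * (n * (x - y))) = n * (|y| - |x|) - n * (y - x) * c0 n x y := by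
      rw [abs_of_nonneg h0, abs_of_pos h1, c0_pp h0 h1.le]; ring
    rw [e] at f2
    have ev2 : ∀ᶠ T in 𝓝[≥] (0:ℝ), 0 < fY y T := by
      apply nhdsWithin_le_nhds
      have : Tendsto (fY y) (𝓝 0) (𝓝 y) := by
        have := fY_cont (y := y)
        unfold ContinuousAt at this
        rwa [fY_zero] at this
      exact this.eventually_const_lt h1
    refine f2.congr_of_eventuallyEq ?_ ?_
    · filter_upwards [ev, ev2] with T hT hT2
      rw [c0_pp (fX_nonneg h0 hT.1) hT2.le]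
      exact P_formula hx h0 hy h1.le hT.1 hT.2
    · rw [fX_zero, fY_zero, c0_pp h0 h1.le, fM_zero]
      ring
  · -- x < 0, y ≤ 0
    have f := (((fM_pow_deriv n (-y) (-x)).const_mul (1 - P n (-y) (-x))).const_sub 1).fun_neg
    have f2 := f.hasDerivWithinAt (s := Ici 0)
    have e : -(-((1 - P n (-y) (-x)) * (n * (-y - -x)))) =
        n * (|y| - |x|) - n * (y - x) * c0 n x y := by
      rw [abs_of_nonpos h1, abs_of_neg h0, c0_nn h0.le h1, P_comm n (-y) (-x)]; ring
    rw [e] at f2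
    have ev2 : ∀ᶠ T in 𝓝[≥] (0:ℝ), fX x T < 0 := by
      apply nhdsWithin_le_nhds
      have : Tendsto (fX x) (𝓝 0) (𝓝 x) := by
        have := fX_cont (x := x)
        unfold ContinuousAt at this
        rwa [fX_zero] at this
      exact this.eventually_lt_const h0
    refine f2.congr_of_eventuallyEq ?_ ?_
    · filter_upwards [ev, ev2] with T hT hT2
      rw [c0_nn hT2.le (fY_nonpos h1 hT.1), P_comm]
      have := P_formula (n := n) (x := -y) (y := -x) (T := T) (by rwa [abs_neg]) (by linarith)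
        (by rwa [abs_neg]) (by linarith) hT.1 hT.2
      have e1 : fX (-y) T = -fY y T := by unfold fY; ring
      have e2 : fY (-x) T = -fX x T := by unfold fY; rw [neg_neg]
      rw [e1, e2] at this
      rw [this]
    · rw [fX_zero, fY_zero, c0_nn h0.le h1, fM_zero, P_comm n (-y) (-x)]
      ring
  · -- x < 0 < y
    have f := (f2_deriv (n := n) hx h0.le hy h1.le)
    have f2 := f.hasDerivWithinAt (s := Ici 0)
    have e : n * (x + y) + n * (x - y) * c0 n x y =
        n * (|y| - |x|) - n * (y - x) * c0 n x y := by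
      rw [abs_of_neg h0, abs_of_pos h1]; ring
    rw [e] at f2
    have ev2 : ∀ᶠ T in 𝓝[≥] (0:ℝ), 0 < fY y T := by
      apply nhdsWithin_le_nhds
      have : Tendsto (fY y) (𝓝 0) (𝓝 y) := by
        have := fY_cont (y := y)
        unfold ContinuousAt at this
        rwa [fY_zero] at this
      exact this.eventually_const_lt h1
    have ev3 : ∀ᶠ T in 𝓝[≥] (0:ℝ), fX x T < 0 := by
      apply nhdsWithin_le_nhds
      have : Tendsto (fX x) (𝓝 0) (𝓝 x) := by
        have := fX_cont (x := x)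
        unfold ContinuousAt at this
        rwa [fX_zero] at this
      exact this.eventually_lt_const h0
    refine f2.congr_of_eventuallyEq ?_ ?_
    · filter_upwards [ev, ev2, ev3] with T hT hT2 hT3
      rw [c0_np hT3.le hT2.le]
      exact formula hx h0.le hy h1.le (by rw [abs_of_nonneg hT.1]; exact hT.2) hT3.le hT2.le
    · rw [fX_zero, fY_zero]
      have := formula (n := n) (T := 0) hx h0.le hy h1.le (by norm_num)
        (by rw [fX_zero]; exact h0.le) (by rw [fX_zero]; linarith)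
      rw [fX_zero, fX_zero, neg_neg] at this
      rw [c0_np h0.le h1.le, this]

end Pool.Agent.FR.CF
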