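import Pool.Agent.Lib.MP_725e58_gt.FS.Lim41

/-! Independence of the height and the direction on the cone. -/

set_option autoImplicit false

namespace Pool.Agent.FR

open MeasureTheory Set Filter Topology
open scoped ENNReal NNReal

namespace Frame

variable {V : Type*} [NormedAddCommGroup V] [NormedSpace ℝ V] (F : Frame V)
variable [FiniteDimensional ℝ V] [MeasurableSpace V] [BorelSpace V] (ν : Measure V)
  [ν.IsAddHaarMeasure]
variable {n : ℕ} {Z : ℝ}

lemma lint_hom (hn : Module.finrank ℝ V = n) {f : V → ℝ≥0∞} (hf : Measurable f)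
    (hom : ∀ r : ℝ, 0 < r → ∀ a, f (r • a) = f a) {s : ℝ} (hs : 0 < s) :
    ∫⁻ a, f a ∂(F.ex ν 1) = ENNReal.ofReal (s ^ n) * ∫⁻ a, f a ∂(F.ex ν s) := by
  have h1 := F.lint_smul ν hn (c := s⁻¹) (inv_pos.mpr hs) hf
  have h2 : ∫⁻ a, f (s⁻¹ • a) ∂(F.ex ν 1) = ∫⁻ a, f a ∂(F.ex ν 1) :=
    lintegral_congr fun a => hom _ (inv_pos.mpr hs) a
  rw [h2, F.lintegral_ex_exp ν 1 _ hf] at h1
  have e1 : (1:ℝ) - (1 - 1 / s⁻¹) = s := by
    rw [one_div, inv_inv]; ring
  have e2 : ((s⁻¹) ^ n)⁻¹ = s ^ n := by rw [inv_pow, inv_inv]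
  rw [e1, e2] at h1
  exact h1

/-- the shifted rate for a homogeneous function -/
lemma lint_rate (hn : Module.finrank ℝ V = n) {f : V → ℝ≥0∞} (hf : Measurable f)
    (hom : ∀ r : ℝ, 0 < r → ∀ a, f (r • a) = f a) {t : ℝ} (t1 : t < 1) :
    ENNReal.ofReal ((1 - t) ^ n) *
      ∫⁻ a, ENNReal.ofReal (Real.exp ((2 * t) * F.h a)) * f a ∂(F.ex ν 2) =
      ∫⁻ a, f a ∂(F.ex ν 2) := by
  have h1 := F.lint_hom ν hn hf hom (s := 2) two_pos
  have h2 := F.lint_hom ν hn hf hom (s := 2 - 2 * t) (by linarith)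
  rw [F.lintegral_ex_exp ν 2 (2 * t) hf]
  rw [h1] at h2
  have e : (2 - 2 * t) ^ n = 2 ^ n * (1 - t) ^ n := by rw [← mul_pow]; congr 1; ring
  rw [e, ENNReal.ofReal_mul (by positivity), mul_assoc] at h2
  have p : ENNReal.ofReal ((2:ℝ) ^ n) ≠ 0 := (ENNReal.ofReal_pos.mpr (by positivity)).ne'
  exact ((ENNReal.mul_right_inj p ENNReal.ofReal_ne_top).mp h2).symm

lemma lint_rate_prod (hn : Module.finrank ℝ V = n) {f : V × V → ℝ≥0∞} (hf : Measurable f)
    (hom : ∀ r : ℝ, 0 < r → ∀ y a, f (y, r • a) = f (y, a)) {t : ℝ} (t1 : t < 1) :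
    ENNReal.ofReal ((1 - t) ^ n) *
      ∫⁻ p : V × V, ENNReal.ofReal (Real.exp ((2 * t) * F.h p.2)) * f p
        ∂((F.eN ν).prod (F.ex ν 2)) =
      ∫⁻ p, f p ∂((F.eN ν).prod (F.ex ν 2)) := by
  have hm : Measurable (fun p : V × V => ENNReal.ofReal (Real.exp ((2 * t) * F.h p.2)) * f p) :=
    ((Real.measurable_exp.comp ((F.measurable_h.comp measurable_snd).const_mul _)).ennreal_ofReal).mul
      hf
  rw [lintegral_prod _ hm.aemeasurable, lintegral_prod _ hf.aemeasurable,
    ← lintegral_const_mul _ hm.lintegral_prod_right']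
  refine lintegral_congr fun y => ?_
  exact F.lint_rate ν hn (f := fun a => f (y, a)) (hf.comp measurable_prodMk_left)
    (fun r hr a => hom r hr y a) t1

/-- `∫ 2 h(g) f ≤ n ∫ f` for `f` homogeneous of degree zero in `g` -/
theorem gamma_le (hn : Module.finrank ℝ V = n) (hM : F.Mom ν n Z) {f : V × V → ℝ}
    (hf : Measurable f) {M : ℝ} (f0 : ∀ p, 0 ≤ f p) (fM : ∀ p, f p ≤ M)
    (hom : ∀ r : ℝ, 0 < r → ∀ y a, f (y, r • a) = f (y, a)) :
    ∫ p : V × V, 2 * F.h p.2 * f p ∂((F.eN ν).prod (F.ex ν 2)) ≤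
      n * ∫ p, f p ∂((F.eN ν).prod (F.ex ν 2)) := by
  have f1 := F.eN_finite ν hM
  have f2 := Mom.finite_ex F hM (s := 2) two_pos
  set Q := (F.eN ν).prod (F.ex ν 2) with hQ
  have mem : ∀ᵐ p ∂Q, p.2 ∈ F.G := by
    filter_upwards [F.ae_QQs ν hM] with p hp using hp.1
  have ih : Integrable (fun p : V × V => 2 * F.h p.2) Q := by
    have := (Mom.integrable_pow F hM 1 (s := 2) two_pos).comp_snd (F.eN ν)
    simp only [pow_one] at this
    exact this.const_mul 2
  have iF : Integrable f Q := Integrable.of_bound hf.aestronglyMeasurable M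
    (Eventually.of_forall fun p => by rw [Real.norm_eq_abs, abs_of_nonneg (f0 p)]; exact fM p)
  have mh : Measurable (fun p : V × V => 2 * F.h p.2) :=
    (F.measurable_h.comp measurable_snd).const_mul 2
  have iB : Integrable (fun p : V × V => 2 * F.h p.2 * f p) Q := by
    refine (ih.mul_const M).mono' (mh.mul hf).aestronglyMeasurable ?_
    filter_upwards [mem] with p hp
    have := F.h_nonneg hp
    rw [Real.norm_eq_abs, abs_mul, abs_of_nonneg (f0 p), abs_of_nonneg (by positivity)]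
    gcongr
    exact fM p
  set A := ∫ p, f p ∂Q
  set B := ∫ p : V × V, 2 * F.h p.2 * f p ∂Q
  have A0 : 0 ≤ A := integral_nonneg f0
  have B0 : 0 ≤ B := integral_nonneg_of_ae (by
    filter_upwards [mem] with p hp
    have := F.h_nonneg hp
    have := f0 p
    show 0 ≤ 2 * F.h p.2 * f p
    positivity)
  have hn0 : (0:ℝ) ≤ n := Nat.cast_nonneg n
  have key : ∀ t : ℝ, 0 < t → t < 1 → (1 - n * t) * B ≤ n * A := by
    intro t t0 t1
    have h1 := F.lint_rate_prod ν hn hf.ennreal_ofReal (t := t)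
      (fun r hr y a => by rw [hom r hr y a]) t1
    have h2 : ∫⁻ p : V × V, ENNReal.ofReal (f p + t * (2 * F.h p.2 * f p)) ∂Q ≤
        ∫⁻ p : V × V, ENNReal.ofReal (Real.exp ((2 * t) * F.h p.2)) * ENNReal.ofReal (f p) ∂Q := by
      refine lintegral_mono fun p => ?_
      rw [← ENNReal.ofReal_mul (Real.exp_pos _).le]
      refine ENNReal.ofReal_le_ofReal ?_
      have := Real.add_one_le_exp ((2 * t) * F.h p.2)
      have := mul_le_mul_of_nonneg_right this (f0 p)
      calc _ = ((2 * t) * F.h p.2 + 1) * f p := by ring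
        _ ≤ _ := this
    have h3 : ∫⁻ p : V × V, ENNReal.ofReal (f p + t * (2 * F.h p.2 * f p)) ∂Q =
        ENNReal.ofReal (A + t * B) := by
      have iS : Integrable (fun p : V × V => f p + t * (2 * F.h p.2 * f p)) Q :=
        iF.add (iB.const_mul t)
      rw [← ofReal_integral_eq_lintegral_ofReal iS]
      · congr 1
        rw [integral_add iF (iB.const_mul t), integral_const_mul]
      · filter_upwards [mem] with p hp
        have := F.h_nonneg hp
        have := f0 p
        show 0 ≤ f p + t * (2 * F.h p.2 * f p)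
        positivity
    have h4 : ∫⁻ p : V × V, ENNReal.ofReal (f p) ∂Q = ENNReal.ofReal A :=
      (ofReal_integral_eq_lintegral_ofReal iF (Eventually.of_forall f0)).symm
    rw [h4] at h1
    rw [h3] at h2
    have h5 : ENNReal.ofReal ((1 - t) ^ n) * ENNReal.ofReal (A + t * B) ≤ ENNReal.ofReal A := by
      rw [← h1]
      gcongr
    rw [← ENNReal.ofReal_mul (by have : 0 ≤ 1 - t := by linarith
                                 positivity), ENNReal.ofReal_le_ofReal_iff A0] at h5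
    have h6 : 1 - n * t ≤ (1 - t) ^ n := by
      have := one_add_mul_le_pow (a := -t) (by linarith) n
      calc 1 - n * t = 1 + n * (-t) := by ring
        _ ≤ _ := this
        _ = _ := by congr 1
    have h7 : (1 - n * t) * (A + t * B) ≤ A :=
      (mul_le_mul_of_nonneg_right h6 (by positivity)).trans h5
    have h8 : t * ((1 - n * t) * B) ≤ t * (n * A) := by nlinarith
    exact le_of_mul_le_mul_left h8 t0
  have lim : Tendsto (fun t : ℝ => (1 - n * t) * B) (𝓝[>] 0) (𝓝 ((1 - n * 0) * B)) := by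
    refine Tendsto.mono_left ?_ nhdsWithin_le_nhds
    exact Continuous.tendsto (by fun_prop) 0
  rw [mul_zero, sub_zero, one_mul] at lim
  refine le_of_tendsto lim ?_
  have lt1 : ∀ᶠ t : ℝ in 𝓝[>] 0, t < 1 :=
    nhdsWithin_le_nhds (eventually_lt_nhds one_pos)
  filter_upwards [self_mem_nhdsWithin, lt1] with t h0 h1 using key t h0 h1

omit [FiniteDimensional ℝ V] [MeasurableSpace V] [BorelSpace V] in
lemma rY_smul {r : ℝ} (hr : 0 < r) (y g : V) : F.rY (y, r • g) = F.rY (y, g) := by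
  simp only [rY, map_smul, smul_eq_mul]
  rw [show 2 * (r * F.gr y g) = r * (2 * F.gr y g) by ring,
    show 2 * (r * F.h g) = r * (2 * F.h g) by ring, mul_div_mul_left _ _ hr.ne']

/-- module D3 -/
theorem gamma_indep (hn : Module.finrank ℝ V = n) (hM : F.Mom ν n Z) {c : ℝ → ℝ → ℝ}
    (hc : Cert n c) :
    ∫ p : V × V, (|2 * F.gr p.1 p.2| - 2 * F.gr p.1 p.2 * F.rc c p)
        ∂((F.eN ν).prod (F.ex ν 2)) ≤
      n * ∫ p : V × V, (|F.rY p| - F.rY p * F.rc c p) ∂((F.eN ν).prod (F.ex ν 2)) := by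
  have f1 := F.eN_finite ν hM
  have f2 := Mom.finite_ex F hM (s := 2) two_pos
  set Q := (F.eN ν).prod (F.ex ν 2) with hQ
  -- a clipped version, equal almost everywhere
  set f : V × V → ℝ := fun p => |clip 1 (F.rY p)| - clip 1 (F.rY p) * F.rc c p with hf
  have mf : Measurable f :=
    (((continuous_clip 1).measurable.comp F.measurable_rY).abs).sub
      (((continuous_clip 1).measurable.comp F.measurable_rY).mul (F.measurable_rc hc))
  have bc : ∀ p, |F.rc c p| ≤ 1 := fun p => hc.bd _ _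
  have bb : ∀ p, |clip 1 (F.rY p) * F.rc c p| ≤ |clip 1 (F.rY p)| := fun p => by
    rw [abs_mul]
    exact mul_le_of_le_one_right (abs_nonneg _) (bc p)
  have f0 : ∀ p, 0 ≤ f p := fun p => by
    have := (abs_le.mp (bb p)).2
    simp only [hf]; linarith
  have fM : ∀ p, f p ≤ 2 := fun p => by
    have h1 := (abs_le.mp (bb p)).1
    have h2 := abs_clip_le zero_le_one (F.rY p)
    simp only [hf]; linarith
  have hom : ∀ r : ℝ, 0 < r → ∀ y a, f (y, r • a) = f (y, a) := by
    intro r hr y a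
    have e1 : F.rc c (y, r • a) = F.rc c (y, a) := by
      simp only [rc, rX, F.rY_smul hr y a]
    simp only [hf, F.rY_smul hr y a, e1]
  have g := F.gamma_le ν hn hM mf f0 fM hom
  have ev : ∀ᵐ p ∂Q, |F.rY p| ≤ 1 ∧ 2 * F.h p.2 * F.rY p = 2 * F.gr p.1 p.2 ∧ 0 ≤ F.h p.2 := by
    filter_upwards [F.ae_QQs ν hM] with p ⟨hp, hs⟩
    have a1 := Sup.abs_le F hs hp
    have a2 : |2 * F.gr p.1 p.2| ≤ 2 * F.h p.2 := by rw [abs_mul, abs_two]; linarith
    refine ⟨abs_ratio a2, ?_, F.h_nonneg hp⟩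
    rcases (F.h_nonneg hp).eq_or_lt with h0 | h0
    · rw [← h0, mul_zero] at a2
      have := abs_nonpos_iff.mp a2
      rw [this, ← h0]; ring
    · unfold rY
      field_simp
  have e1 : ∫ p : V × V, (|F.rY p| - F.rY p * F.rc c p) ∂Q = ∫ p, f p ∂Q := by
    refine integral_congr_ae ?_
    filter_upwards [ev] with p hp
    simp only [hf, clip_of_abs hp.1]
  have e2 : ∫ p : V × V, (|2 * F.gr p.1 p.2| - 2 * F.gr p.1 p.2 * F.rc c p) ∂Q =
      ∫ p : V × V, 2 * F.h p.2 * f p ∂Q := by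
    refine integral_congr_ae ?_
    filter_upwards [ev] with p hp
    simp only [hf, clip_of_abs hp.1]
    rw [← hp.2.1, abs_mul, abs_of_nonneg (show 0 ≤ 2 * F.h p.2 by linarith [hp.2.2])]
    ring
  rw [e1, e2]
  exact g

end Frame

end Pool.Agent.FR
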