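import Pool.Agent.Lib.MP_725e58_gt.FS.Test49

/-! The comparison of the two flows for a general test function. -/

set_option autoImplicit false

namespace Pool.Agent.FR

open MeasureTheory Set Filter Topology
open scoped ENNReal NNReal

section cont

variable {L : ℝ} {Φ B : ℝ → ℝ → ℝ → ℝ → ℝ}

lemma continuous_of_lip4 {Ψ : ℝ → ℝ → ℝ → ℝ → ℝ} (L0 : 0 ≤ L)
    (hl : ∀ z N θ e z' N' θ' e', |Ψ z N θ e - Ψ z' N' θ' e'| ≤
      L * (|z - z'| + |N - N'| + |θ - θ'| + |e - e'|)) :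
    Continuous (fun q : ℝ × ℝ × ℝ × ℝ => Ψ q.1 q.2.1 q.2.2.1 q.2.2.2) := by
  have : LipschitzWith (4 * ⟨L, L0⟩) (fun q : ℝ × ℝ × ℝ × ℝ => Ψ q.1 q.2.1 q.2.2.1 q.2.2.2) := by
    refine LipschitzWith.of_dist_le_mul fun p q => ?_
    rw [Real.dist_eq]
    refine (hl _ _ _ _ _ _ _ _).trans ?_
    have h1 : |p.1 - q.1| ≤ dist p q := by
      rw [← Real.dist_eq]; exact le_max_left _ _
    have h2 : dist p.2 q.2 ≤ dist p q := le_max_right _ _
    have h3 : |p.2.1 - q.2.1| ≤ dist p.2 q.2 := by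
      rw [← Real.dist_eq]; exact le_max_left _ _
    have h4 : dist p.2.2 q.2.2 ≤ dist p.2 q.2 := le_max_right _ _
    have h5 : |p.2.2.1 - q.2.2.1| ≤ dist p.2.2 q.2.2 := by
      rw [← Real.dist_eq]; exact le_max_left _ _
    have h6 : |p.2.2.2 - q.2.2.2| ≤ dist p.2.2 q.2.2 := by
      rw [← Real.dist_eq]; exact le_max_right _ _
    have h7 : |p.1 - q.1| + |p.2.1 - q.2.1| + |p.2.2.1 - q.2.2.1| + |p.2.2.2 - q.2.2.2| ≤
        4 * dist p q := by linarith
    calc L * (|p.1 - q.1| + |p.2.1 - q.2.1| + |p.2.2.1 - q.2.2.1| + |p.2.2.2 - q.2.2.2|)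
        ≤ L * (4 * dist p q) := mul_le_mul_of_nonneg_left h7 L0
      _ = ((4 * ⟨L, L0⟩ : ℝ≥0) : ℝ) * dist p q := by
          show L * (4 * dist p q) = 4 * L * dist p q
          ring
  exact this.continuous

lemma TestF.measF (T : TestF L Φ B) {α : Type*} [MeasurableSpace α] {f1 f2 f3 f4 : α → ℝ}
    (h1 : Measurable f1) (h2 : Measurable f2) (h3 : Measurable f3) (h4 : Measurable f4) :
    Measurable (fun a => Φ (f1 a) (f2 a) (f3 a) (f4 a)) :=
  (continuous_of_lip4 T.L0 T.lip).measurable.comp (h1.prodMk (h2.prodMk (h3.prodMk h4)))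

lemma TestF.measB (T : TestF L Φ B) {α : Type*} [MeasurableSpace α] {f1 f2 f3 f4 : α → ℝ}
    (h1 : Measurable f1) (h2 : Measurable f2) (h3 : Measurable f3) (h4 : Measurable f4) :
    Measurable (fun a => B (f1 a) (f2 a) (f3 a) (f4 a)) :=
  (continuous_of_lip4 T.L0 T.Blip).measurable.comp (h1.prodMk (h2.prodMk (h3.prodMk h4)))

end cont

namespace Frame

variable {V : Type*} [NormedAddCommGroup V] [NormedSpace ℝ V] (F : Frame V)

lemma abs_h_le_N (y : V) : |F.h y| ≤ F.N y := by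
  obtain ⟨a, ha, b, hb, rfl, h⟩ := F.dec y
  rw [h, map_sub, abs_le]
  have := F.h_nonneg ha
  have := F.h_nonneg hb
  constructor <;> linarith

section pt

variable {L : ℝ} {Φ B : ℝ → ℝ → ℝ → ℝ → ℝ}

/-- the comparison on the Rogers-Shephard part -/
theorem pointF (T : TestF L Φ B) {y a b g : V} {φ ψ χ : V →L[ℝ] ℝ} {t θ : ℝ} (ha : a ∈ F.G)
    (hb : b ∈ F.G) (hg : g ∈ F.G)
    (hy : y = a - b) (hN : F.N y = F.h a + F.h b) (hφ : F.Sup φ y)
    (hψ : F.Sup ψ (y + (2 * θ * t) • g)) (hχ : F.Sup χ (y + t • ((a + g) + (b + g))))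
    (t0 : 0 < t) (t1 : t ≤ 1 / 2) (θ0 : 0 < θ) (θ1 : θ < 1) (ht : θ * t < 1 - θ) :
    Φ (F.h (y + (2 * θ * t) • g)) (F.N (y + (2 * θ * t) • g)) (2 * ψ g) (2 * F.h g) -
        Φ (F.h y) (F.N y) (2 * φ g) (2 * F.h g) ≤
      (Φ (F.h y + t * (F.h ((a + g) + (b + g)) - F.N y))
          (F.N y + t * (φ ((a + g) + (b + g)) - F.h y))
          (χ ((a + g) + (b + g)) - F.h y) (F.h ((a + g) + (b + g)) - F.N y) -
        Φ (F.h y) (F.N y) (φ ((a + g) + (b + g)) - F.h y) (F.h ((a + g) + (b + g)) - F.N y)) +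
      L * (eps θ t + t * (1 + eps θ t)) * (χ ((a + g) + (b + g)) - φ ((a + g) + (b + g))) := by
  obtain ⟨P1, P2, P3⟩ := F.pointwise ha hb hy hN hφ hψ hχ t0 t1 θ1
  obtain ⟨S, hS⟩ : ∃ S, S = (a + g) + (b + g) := ⟨_, rfl⟩
  rw [← hS] at P1 P2 P3 ⊢
  have he : F.h S - F.N y = 2 * F.h g := by
    rw [hS, hN, map_add, map_add, map_add]; ring
  have hΘ : φ S - F.h y = 2 * φ g := by linarith
  obtain ⟨D, hD⟩ : ∃ D, D = χ S - φ S := ⟨_, rfl⟩
  have hD0 : 0 ≤ D := by rw [hD]; linarith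
  have hχS : χ S - F.h y = 2 * φ g + D := by rw [hD]; linarith
  rw [← hD] at P3 ⊢
  rw [he, hΘ, hχS]
  have hpos : 0 < (1 - t) * (1 - θ - θ * t) := mul_pos (by linarith) (by linarith)
  have εn : 0 ≤ eps θ t := by
    unfold eps
    have : 0 ≤ 3 - θ * t := by linarith
    positivity
  -- slope bound
  have e1 : 2 * ψ g ≤ 2 * φ g + D + eps θ t * D := by
    have : 2 * (ψ g - φ g) ≤ D + eps θ t * D := by
      unfold eps
      rw [div_mul_eq_mul_div, ← sub_le_iff_le_add', le_div_iff₀ hpos]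
      linarith
    linarith
  have hyg : F.h (y + (2 * θ * t) • g) = F.h y + θ * t * (2 * F.h g) := by
    rw [map_add, map_smul, smul_eq_mul]; ring
  have n1 : F.N (y + (2 * θ * t) • g) ≤ F.N y + θ * t * (2 * ψ g) := by
    have h1 := hψ.2
    have h2 := hψ.1 y
    rw [map_add, map_smul, smul_eq_mul] at h1
    rw [← h1]; linarith
  have n2 : F.N y + θ * t * (2 * φ g) ≤ F.N (y + (2 * θ * t) • g) := by
    have h1 := hφ.1 (y + (2 * θ * t) • g)
    rw [map_add, map_smul, smul_eq_mul, hφ.2] at h1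
    linarith
  have hθt : 0 < θ * t := mul_pos θ0 t0
  have e2 : 2 * φ g ≤ 2 * ψ g := by
    have : θ * t * (2 * φ g) ≤ θ * t * (2 * ψ g) := by linarith
    exact le_of_mul_le_mul_left this hθt
  have hψg : |2 * ψ g| ≤ 2 * F.h g := by
    rw [abs_mul, abs_two]
    exact mul_le_mul_of_nonneg_left (Sup.abs_le F hψ hg) (by norm_num)
  have x1 := T.xmono (F.h (y + (2 * θ * t) • g)) (F.N (y + (2 * θ * t) • g)) (2 * ψ g) (2 * ψ g)
    (2 * F.h g) ((1 - θ) * t) (F.abs_h_le_N _) hψg (mul_nonneg (by linarith) t0.le)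
  have ez : F.h (y + (2 * θ * t) • g) + (1 - θ) * t * (2 * F.h g) = F.h y + t * (2 * F.h g) := by
    rw [hyg]; ring
  rw [ez] at x1
  obtain ⟨N', hN'⟩ : ∃ N', N' = F.N (y + (2 * θ * t) • g) := ⟨_, rfl⟩
  rw [← hN'] at x1 n1 n2 ⊢
  have x2 := (abs_le.mp (T.lip (F.h y + t * (2 * F.h g)) (N' + (1 - θ) * t * (2 * ψ g)) (2 * ψ g)
    (2 * F.h g) (F.h y + t * (2 * F.h g)) (F.N y + t * (2 * φ g)) (2 * ψ g) (2 * F.h g))).2
  have x3 := T.mono (F.h y + t * (2 * F.h g)) (F.N y + t * (2 * φ g)) (2 * F.h g) e1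
  have x4 := (abs_le.mp (T.lip (F.h y + t * (2 * F.h g)) (F.N y + t * (2 * φ g))
    (2 * φ g + D + eps θ t * D) (2 * F.h g) (F.h y + t * (2 * F.h g)) (F.N y + t * (2 * φ g))
    (2 * φ g + D) (2 * F.h g))).2
  simp only [sub_self, abs_zero, zero_add, add_zero] at x2 x4
  have hL := T.L0
  have x5 : |N' + (1 - θ) * t * (2 * ψ g) - (F.N y + t * (2 * φ g))| ≤ t * (D + eps θ t * D) := by
    have a1 : 0 ≤ (1 - θ) * t * (2 * ψ g - 2 * φ g) :=
      mul_nonneg (mul_nonneg (by linarith) t0.le) (by linarith)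
    have a2 : t * (2 * ψ g - 2 * φ g) ≤ t * (D + eps θ t * D) :=
      mul_le_mul_of_nonneg_left (by linarith) t0.le
    have a3 : 0 ≤ t * (2 * ψ g - 2 * φ g) := mul_nonneg t0.le (by linarith)
    rw [abs_le]
    constructor <;> linarith
  have x6 : |2 * φ g + D + eps θ t * D - (2 * φ g + D)| = eps θ t * D := by
    have : 2 * φ g + D + eps θ t * D - (2 * φ g + D) = eps θ t * D := by ring
    rw [this, abs_of_nonneg (mul_nonneg εn hD0)]
  rw [x6] at x4
  have x7 : L * |N' + (1 - θ) * t * (2 * ψ g) - (F.N y + t * (2 * φ g))| ≤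
      L * (t * (D + eps θ t * D)) := mul_le_mul_of_nonneg_left x5 hL
  have x3' : Φ (F.h y + t * (2 * F.h g)) (F.N y + t * (2 * φ g)) (2 * ψ g) (2 * F.h g) ≤
      Φ (F.h y + t * (2 * F.h g)) (F.N y + t * (2 * φ g)) (2 * φ g + D + eps θ t * D)
        (2 * F.h g) := x3
  have x8 : L * (eps θ t + t * (1 + eps θ t)) * D = L * (t * (D + eps θ t * D)) +
      L * (eps θ t * D) := by ring
  rw [x8]
  linarith

/-- the comparison with the scaled point -/
theorem scaleF (T : TestF L Φ B) {a b : V} {φ χ : V →L[ℝ] ℝ} {t : ℝ} (ha : a ∈ F.G) (hb : b ∈ F.G)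
    (hφ : F.Sup φ (a - b)) (hχ : F.Sup χ (a - b + t • (a + b)))
    (t0 : 0 < t) (t1 : t ≤ 1 / 2) :
    Φ (F.h (a - b) + t * (F.h (a + b) - F.N (a - b)))
        (F.N (a - b) + t * (φ (a + b) - F.h (a - b)))
        (χ (a + b) - F.h (a - b)) (F.h (a + b) - F.N (a - b)) ≤
      Φ (F.h ((1 + t) • a - (1 - t) • b)) (F.N ((1 + t) • a - (1 - t) • b))
        (χ ((1 + t) • a + (1 - t) • b) - F.h ((1 + t) • a - (1 - t) • b))
        (F.h ((1 + t) • a + (1 - t) • b) - F.N ((1 + t) • a - (1 - t) • b)) -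
      t * B (F.h (a - b)) (F.N (a - b)) (φ (a + b) - F.h (a - b)) (F.h (a + b) - F.N (a - b)) +
      L * (9 * t * (χ (a + b) - φ (a + b)) + t ^ 2 * (1 + 4 * (F.h a + F.h b))) := by
  have ey : (1 + t) • a - (1 - t) • b = a - b + t • (a + b) := by
    rw [add_smul, sub_smul, one_smul, one_smul, smul_add]; abel
  have eS : (1 + t) • a + (1 - t) • b = a + b + t • (a - b) := by
    rw [add_smul, sub_smul, one_smul, one_smul, smul_sub]; abel
  rw [ey, eS]
  have hL := T.L0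
  have hSab : F.h (a + b) = F.h a + F.h b := map_add _ _ _
  have hyab : F.h (a - b) = F.h a - F.h b := map_sub _ _ _
  obtain ⟨y, hy⟩ : ∃ y, y = a - b := ⟨_, rfl⟩
  obtain ⟨S, hS⟩ : ∃ S, S = a + b := ⟨_, rfl⟩
  have haG := F.h_nonneg ha
  have hbG := F.h_nonneg hb
  have NyS : F.N y ≤ F.h S := by
    rw [hy, hS, hSab]; exact F.N_le ha hb
  have hχ2a : χ S = 2 * χ a - χ y := by rw [hS, hy, map_add, map_sub]; ring
  have hχa := Sup.le_h F hχ ha
  have hSy : F.h S + F.h y = 2 * F.h a := by rw [hS, hy, map_add, map_sub]; ring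
  have hφ2a : φ S = 2 * φ a - φ y := by rw [hS, hy, map_add, map_sub]; ring
  have hφ2b : φ S = 2 * φ b + φ y := by rw [hS, hy, map_add, map_sub]; ring
  have hSy' : F.h S - F.h y = 2 * F.h b := by rw [hS, hy, map_add, map_sub]; ring
  have hφa := Sup.le_h F hφ ha
  have hφb := Sup.neg_h_le F hφ hb
  have hφ' : F.Sup φ y := by rw [hy]; exact hφ
  have hχ' : F.Sup χ (y + t • S) := by rw [hy, hS]; exact hχ
  rw [← hSab]
  clear hφ hχ hSab hyab ey eS
  rw [← hy, ← hS]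
  have f1 := hφ'.2
  have f2 := hχ'.2
  have f3 := hφ'.1 (y + t • S)
  have f4 := hχ'.1 y
  rw [map_add, map_smul, smul_eq_mul] at f2 f3
  have zN := F.abs_h_le_N y
  have zN1 := F.abs_h_le_N (y + t • S)
  have ehz : F.h (y + t • S) = F.h y + t * F.h S := by rw [map_add, map_smul, smul_eq_mul]
  have ehS : F.h (S + t • y) = F.h S + t * F.h y := by rw [map_add, map_smul, smul_eq_mul]
  have eχS : χ (S + t • y) = χ S + t * χ y := by rw [map_add, map_smul, smul_eq_mul]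
  rw [ehz] at zN1
  rw [ehz, ehS, eχS]
  obtain ⟨z, hz⟩ : ∃ z, z = F.h y := ⟨_, rfl⟩
  obtain ⟨N, hN⟩ : ∃ N, N = F.N y := ⟨_, rfl⟩
  obtain ⟨N1, hN1⟩ : ∃ N1, N1 = F.N (y + t • S) := ⟨_, rfl⟩
  obtain ⟨e, he⟩ : ∃ e, e = F.h S - F.N y := ⟨_, rfl⟩
  have hhS : F.h S = N + e := by rw [hN, he]; ring
  obtain ⟨Θ, hΘ⟩ : ∃ Θ, Θ = φ S - F.h y := ⟨_, rfl⟩
  obtain ⟨D, hD⟩ : ∃ D, D = χ S - φ S := ⟨_, rfl⟩
  have hφS : φ S = z + Θ := by rw [hz, hΘ]; ring
  have hχS : χ S = z + Θ + D := by rw [hD, ← hφS]; ring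
  have hD' : χ S - φ S = D := hD.symm
  have e0 : 0 ≤ e := by rw [he]; linarith
  rw [hD', ← he, ← hN1, ← hN, hhS, hφS, hχS, ← hz]
  rw [← hz, ← hN] at zN
  rw [← hz, hhS, ← hN1] at zN1
  rw [← hN] at f1 f4
  rw [← hN1] at f2 f3
  rw [f1, hφS] at f3
  rw [hχS] at f2
  have a1 : z + Θ - z = Θ := by ring
  have a2 : z + Θ + D - z = Θ + D := by ring
  rw [a1, a2]
  -- D is nonnegative
  have D0 : 0 ≤ D := by
    have : 0 ≤ t * D := by linarith
    exact (mul_nonneg_iff_of_pos_left t0).mp this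
  -- bounds on Θ
  have T1 : Θ ≤ e := by
    rw [hΘ, he, hφ2a, f1]; linarith
  have T2 : -e ≤ Θ := by
    rw [hΘ, he, hφ2b, f1]; linarith
  have T3 : Θ + D ≤ e + t * D := by
    have b1 : Θ + D = χ S - F.h y := by rw [hΘ, hD]; ring
    have b2 : N - t * D ≤ χ y := by linarith
    rw [b1, he, hχ2a]
    linarith
  have hχy : |χ y - N| ≤ t * D := by
    rw [abs_le]; constructor <;> linarith
  obtain ⟨M, hM⟩ : ∃ M, M = min (Θ + D) e := ⟨_, rfl⟩
  have M1 : M ≤ Θ + D := by rw [hM]; exact min_le_left _ _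
  have M2 : M ≤ e := by rw [hM]; exact min_le_right _ _
  have M3 : Θ ≤ M := by rw [hM]; exact le_min (by linarith) T1
  have M4 : Θ + D - M ≤ t * D := by
    rw [hM]
    have tD : 0 ≤ t * D := mul_nonneg t0.le D0
    rcases le_total (Θ + D) e with h | h
    · rw [min_eq_left h]; linarith
    · rw [min_eq_right h]; linarith
  have Me : |M| ≤ e := by rw [abs_le]; constructor <;> linarith
  obtain ⟨P, hP⟩ : ∃ P, P = z + t * e := ⟨_, rfl⟩
  obtain ⟨Q, hQ⟩ : ∃ Q, Q = N1 - t * z := ⟨_, rfl⟩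
  have z1 := abs_le.mp zN
  have z2 := abs_le.mp zN1
  have te : 0 ≤ t * e := mul_nonneg t0.le e0
  have tD : 0 ≤ t * D := mul_nonneg t0.le D0
  have tΘ1 : t * Θ ≤ t * e := mul_le_mul_of_nonneg_left T1 t0.le
  have tΘ2 : -(t * e) ≤ t * Θ := by
    have := mul_le_mul_of_nonneg_left T2 t0.le
    linarith
  have PQ : |P| ≤ Q := by
    rw [abs_le]
    constructor
    · rw [hP, hQ]; linarith
    · rw [hP, hQ]
      have : t * z ≤ t * N := mul_le_mul_of_nonneg_left z1.2 t0.le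
      linarith
  have Q1 : N + t * Θ ≤ Q := by rw [hQ]; linarith
  have Q2 : Q ≤ N + t * Θ + t * D := by rw [hQ]; linarith
  have E := T.euler P Q M e t PQ Me t0.le t1
  -- the four comparisons
  have G1 := (abs_le.mp (T.lip (z + t * e) (N + t * Θ) (Θ + D) e P Q M e)).2
  have G2 := (abs_le.mp (T.lip (P + t * Q) (Q + t * P) (M - t * e) (e - t * M)
    (z + t * (N + e)) N1 (z + Θ + D + t * χ y - (z + t * (N + e))) (N + e + t * z - N1))).2
  have G3 := (abs_le.mp (T.Blip z N Θ e P Q M e)).2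
  have tt : t * t ≤ t * (1 / 2) := mul_le_mul_of_nonneg_left t1 t0.le
  have ttD : t * (t * D) ≤ t * D / 2 := by
    have := mul_le_mul_of_nonneg_right t1 tD
    linarith
  have ttD0 : 0 ≤ t * (t * D) := mul_nonneg t0.le tD
  have tte0 : 0 ≤ t * (t * e) := mul_nonneg t0.le te
  have g1 : |z + t * e - P| + |N + t * Θ - Q| + |Θ + D - M| + |e - e| ≤ 2 * (t * D) := by
    have b1 : |z + t * e - P| = 0 := by rw [hP]; simp
    have b2 : |N + t * Θ - Q| ≤ t * D := by rw [abs_le]; constructor <;> linarith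
    have b3 : |Θ + D - M| ≤ t * D := by rw [abs_le]; constructor <;> linarith
    have b4 : |e - e| = 0 := by simp
    linarith
  have g2 : |P + t * Q - (z + t * (N + e))| + |Q + t * P - N1| +
      |M - t * e - (z + Θ + D + t * χ y - (z + t * (N + e)))| +
      |e - t * M - (N + e + t * z - N1)| ≤ 2 * (t * (t * e)) + 5 * (t * D) := by
    have b1 : |P + t * Q - (z + t * (N + e))| ≤ t * (t * e) + t * (t * D) := by
      have : P + t * Q - (z + t * (N + e)) = t * (Q - N) := by rw [hP]; ring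
      rw [this, abs_mul, abs_of_pos t0]
      have : |Q - N| ≤ t * e + t * D := by rw [abs_le]; constructor <;> linarith
      have := mul_le_mul_of_nonneg_left this t0.le
      linarith
    have b2 : |Q + t * P - N1| = t * (t * e) := by
      have : Q + t * P - N1 = t * (t * e) := by rw [hQ, hP]; ring
      rw [this, abs_of_nonneg tte0]
    have b3 : |M - t * e - (z + Θ + D + t * χ y - (z + t * (N + e)))| ≤ t * D + t * (t * D) := by
      have : M - t * e - (z + Θ + D + t * χ y - (z + t * (N + e))) =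
          -(Θ + D - M) - t * (χ y - N) := by ring
      rw [this]
      have c1 := abs_le.mp hχy
      have c2 : t * (χ y - N) ≤ t * (t * D) := mul_le_mul_of_nonneg_left c1.2 t0.le
      have c3 : -(t * (t * D)) ≤ t * (χ y - N) := by
        have := mul_le_mul_of_nonneg_left c1.1 t0.le
        linarith
      rw [abs_le]; constructor <;> linarith
    have b4 : |e - t * M - (N + e + t * z - N1)| ≤ 2 * (t * D) := by
      have c1 : t * Θ ≤ t * M := mul_le_mul_of_nonneg_left M3 t0.le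
      have c2 : t * M ≤ t * (Θ + D) := mul_le_mul_of_nonneg_left M1 t0.le
      rw [abs_le]; constructor <;> linarith
    linarith
  have g3 : |z - P| + |N - Q| + |Θ - M| + |e - e| ≤ 2 * (t * e) + t * D + D := by
    have b1 : |z - P| = t * e := by
      have : z - P = -(t * e) := by rw [hP]; ring
      rw [this, abs_neg, abs_of_nonneg te]
    have b2 : |N - Q| ≤ t * e + t * D := by rw [abs_le]; constructor <;> linarith
    have b3 : |Θ - M| ≤ D := by rw [abs_le]; constructor <;> linarith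
    have b4 : |e - e| = 0 := by simp
    linarith
  have k1 := mul_le_mul_of_nonneg_left g1 hL
  have k2 := mul_le_mul_of_nonneg_left g2 hL
  have k3 : t * (L * (|z - P| + |N - Q| + |Θ - M| + |e - e|)) ≤
      L * (2 * (t * (t * e)) + t * (t * D) + t * D) := by
    have := mul_le_mul_of_nonneg_left (mul_le_mul_of_nonneg_left g3 hL) t0.le
    refine this.trans (le_of_eq (by ring))
  have k4 : t * B z N Θ e - t * B P Q M e ≤
      t * (L * (|z - P| + |N - Q| + |Θ - M| + |e - e|)) := by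
    have := mul_le_mul_of_nonneg_left G3 t0.le
    linarith
  have eN : L * (t ^ 2 * (1 + 4 * (N + e))) = L * t ^ 2 + 4 * (L * (t * (t * N))) +
      4 * (L * (t * (t * e))) := by ring
  have N0 : 0 ≤ N := by rw [hN]; exact F.N_nonneg _
  have p1 : 0 ≤ L * (t * (t * N)) := by positivity
  have p2 : L * (t * (t * D)) ≤ L * (t * D) := by
    refine mul_le_mul_of_nonneg_left ?_ hL
    linarith
  have e2 : L * (9 * t * D + t ^ 2 * (1 + 4 * (N + e))) = 9 * (L * (t * D)) + L * t ^ 2 +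
      4 * (L * (t * (t * N))) + 4 * (L * (t * (t * e))) := by ring
  rw [e2]
  have k1' : L * (2 * (t * D)) = 2 * (L * (t * D)) := by ring
  have k2' : L * (2 * (t * (t * e)) + 5 * (t * D)) = 2 * (L * (t * (t * e))) +
      5 * (L * (t * D)) := by ring
  have k3' : L * (2 * (t * (t * e)) + t * (t * D) + t * D) = 2 * (L * (t * (t * e))) +
      L * (t * (t * D)) + L * (t * D) := by ring
  rw [k1'] at k1
  rw [k2'] at k2
  rw [k3'] at k3
  linarith

end pt

end Frame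

end Pool.Agent.FR
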