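import Pool.Agent.Lib.MP_725e58_gt.FS.Gen49

/-! The integrated comparison of the two flows for a general test function. -/

set_option autoImplicit false

namespace Pool.Agent.FR

open MeasureTheory Set Filter Topology
open scoped ENNReal NNReal

namespace Frame

variable {V : Type*} [NormedAddCommGroup V] [NormedSpace ℝ V] (F : Frame V)
variable [FiniteDimensional ℝ V] [MeasurableSpace V] [BorelSpace V] (ν : Measure V)
  [ν.IsAddHaarMeasure]

variable {n : ℕ} {Z : ℝ}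

/-- integration by parts along translations, for a bounded function -/
theorem ibpw (hM : F.Mom ν n Z) {C : ℝ} {w : V × V → ℝ} (mw : Measurable w)
    (bd : ∀ p, |w p| ≤ C) :
    Tendsto (fun δ : ℝ => δ⁻¹ * ∫ p : V × V, (w (p.1 + δ • p.2, p.2) - w p)
          ∂((F.eN ν).prod (F.ex ν 2))) (𝓝[>] 0)
      (𝓝 (∫ p : V × V, F.gr p.1 p.2 * w p ∂((F.eN ν).prod (F.ex ν 2)))) := by
  have h3 := F.eN_finite ν hM
  have h2 := Mom.finite_ex F hM (s := 2) two_pos
  -- rewrite the difference quotient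
  have e : ∀ δ : ℝ, δ⁻¹ * ∫ p : V × V, (w (p.1 + δ • p.2, p.2) - w p)
          ∂((F.eN ν).prod (F.ex ν 2)) =
      ∫ p : V × V, (δ⁻¹ * (F.sd δ p - 1)) * w p ∂((F.eN ν).prod (F.ex ν 2)) := by
    intro δ
    have i1 : Integrable (fun p : V × V => w (p.1 + δ • p.2, p.2))
        ((F.eN ν).prod (F.ex ν 2)) := by
      have m : Measurable (fun p : V × V => w (p.1 + δ • p.2, p.2)) :=
        mw.comp (f := fun p : V × V => (p.1 + δ • p.2, p.2)) (by fun_prop)
      exact Integrable.of_bound m.aestronglyMeasurable C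
        (Filter.Eventually.of_forall fun p => bd _)
    have i2 : Integrable w ((F.eN ν).prod (F.ex ν 2)) :=
      Integrable.of_bound mw.aestronglyMeasurable C (Filter.Eventually.of_forall bd)
    have i3 := F.integrable_sd_mul ν hM δ mw bd
    have s1 := F.integral_shift ν δ mw
    rw [integral_sub i1 i2, s1, ← integral_sub i3 i2, ← integral_const_mul]
    refine integral_congr_ae (Filter.Eventually.of_forall fun p => ?_)
    simp only; ring
  simp_rw [e]
  -- dominated convergence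
  have ib : Integrable (fun p : V × V => (F.h p.2 * Real.exp (F.h p.2)) * C)
      ((F.eN ν).prod (F.ex ν 2)) := by
    have i1 : Integrable (fun g : V => F.h g * Real.exp (F.h g)) (F.ex ν 2) := by
      have m : Measurable (fun g : V => F.h g * Real.exp (F.h g)) :=
        F.measurable_h.mul (Real.measurable_exp.comp F.measurable_h)
      refine ⟨m.aestronglyMeasurable, ?_⟩
      rw [hasFiniteIntegral_iff_ofReal]
      · have e1 : ∫⁻ g, ENNReal.ofReal (F.h g * Real.exp (F.h g)) ∂(F.ex ν 2) =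
            ∫⁻ g, ENNReal.ofReal (Real.exp (1 * F.h g)) * ENNReal.ofReal (F.h g) ∂(F.ex ν 2) := by
          refine lintegral_congr fun g => ?_
          rw [← ENNReal.ofReal_mul (Real.exp_nonneg _), one_mul, mul_comm]
        rw [e1, F.lintegral_ex_exp ν 2 1 F.measurable_h.ennreal_ofReal]
        have := hM.mom 1 (2 - 1) (by norm_num)
        simp only [pow_one] at this
        rw [this]
        exact ENNReal.ofReal_lt_top
      · filter_upwards [F.ex_ae_mem ν 2] with g hg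
        exact mul_nonneg (F.h_nonneg hg) (Real.exp_nonneg _)
    exact (i1.comp_snd (F.eN ν)).mul_const C
  refine tendsto_integral_filter_of_dominated_convergence _ ?_ ?_ ib ?_
  · exact Filter.Eventually.of_forall fun δ =>
      ((((F.measurable_sd δ).sub measurable_const).const_mul _).mul mw).aestronglyMeasurable
  · have : ∀ᶠ δ : ℝ in 𝓝[>] 0, δ ≤ 1 := nhdsWithin_le_nhds (Iic_mem_nhds one_pos)
    filter_upwards [self_mem_nhdsWithin, this] with δ δ0 δ1
    have δ0 : 0 < δ := δ0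
    filter_upwards [F.ae_QQ ν hM] with p ⟨hp, _⟩
    have hh := F.h_nonneg hp
    have b1 : |F.N p.1 - F.N (p.1 - δ • p.2)| ≤ δ * F.h p.2 := by
      refine (F.abs_N_sub_le _ _).trans ?_
      have : p.1 - (p.1 - δ • p.2) = δ • p.2 := by abel
      rw [this, F.N_smul δ0.le]
      exact mul_le_mul_of_nonneg_left (F.N_le_h hp) δ0.le
    have b2 := abs_exp_sub_one_le49 b1
    rw [Real.norm_eq_abs, abs_mul, abs_mul, abs_of_pos (inv_pos.mpr δ0)]
    refine mul_le_mul ?_ (bd p) (abs_nonneg _) (by positivity)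
    rw [inv_mul_le_iff₀ δ0]
    refine b2.trans ?_
    have : Real.exp (δ * F.h p.2) ≤ Real.exp (F.h p.2) := by
      apply Real.exp_le_exp.mpr; nlinarith
    calc δ * F.h p.2 * Real.exp (δ * F.h p.2) ≤ δ * F.h p.2 * Real.exp (F.h p.2) := by gcongr
      _ = δ * (F.h p.2 * Real.exp (F.h p.2)) := by ring
  · filter_upwards [F.ae_QQ ν hM] with p ⟨_, hd⟩
    refine Tendsto.mul_const _ ?_
    have h1 : HasDerivAt (fun t : ℝ => Real.exp (F.N p.1 - F.N (p.1 - t • p.2))) (F.gr p.1 p.2) 0 := by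
      have hl : HasDerivAt (fun t : ℝ => p.1 - t • p.2) (-p.2) 0 := by
        have := ((hasDerivAt_id (0 : ℝ)).smul_const p.2).const_sub p.1
        simpa using this
      have hd' : HasFDerivAt F.N (F.gr p.1) (p.1 - (0 : ℝ) • p.2) := by
        rw [zero_smul, sub_zero]; exact hd.hasFDerivAt
      have h2 := ((hd'.comp_hasDerivAt (0 : ℝ) hl).const_sub (F.N p.1)).exp
      have h3 : Real.exp (F.N p.1 - (F.N ∘ fun t : ℝ => p.1 - t • p.2) 0) * -(F.gr p.1) (-p.2) =
          F.gr p.1 p.2 := by simp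
      rw [← h3]
      exact h2
    have h2 := h1.tendsto_slope_zero_right
    simpa [sd] using h2

section main

variable {L : ℝ} {Φ B : ℝ → ℝ → ℝ → ℝ → ℝ}

/-- the test function on the Rogers-Shephard side -/
noncomputable def wR (Φ : ℝ → ℝ → ℝ → ℝ → ℝ) (p : V × V) : ℝ :=
  Φ (F.h p.1) (F.N p.1) (2 * F.gr p.1 p.2) (2 * F.h p.2)

/-- the test function on the product side, with the slope at time `t` -/
noncomputable def wG (Φ : ℝ → ℝ → ℝ → ℝ → ℝ) (p : V × V) : ℝ :=
  Φ (F.h (p.1 - p.2)) (F.N (p.1 - p.2)) (F.gr (p.1 - p.2) (p.1 + p.2) - F.h (p.1 - p.2))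
    (F.h (p.1 + p.2) - F.N (p.1 - p.2))

/-- the moved test function on the product side -/
noncomputable def wX (Φ : ℝ → ℝ → ℝ → ℝ → ℝ) (t : ℝ) (p : V × V) : ℝ :=
  Φ (F.h (p.1 - p.2) + t * (F.h (p.1 + p.2) - F.N (p.1 - p.2)))
    (F.N (p.1 - p.2) + t * (F.gr (p.1 - p.2) (p.1 + p.2) - F.h (p.1 - p.2)))
    (F.u t p - F.h (p.1 - p.2)) (F.h (p.1 + p.2) - F.N (p.1 - p.2))

lemma mz : Measurable (fun p : V × V => F.h (p.1 - p.2)) :=
  F.measurable_h.comp (measurable_fst.sub measurable_snd)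

lemma mS : Measurable (fun p : V × V => F.h (p.1 + p.2)) :=
  F.measurable_h.comp (measurable_fst.add measurable_snd)

lemma mN : Measurable (fun p : V × V => F.N (p.1 - p.2)) :=
  F.continuous_N.measurable.comp (measurable_fst.sub measurable_snd)

lemma mg : Measurable (fun p : V × V => F.gr (p.1 - p.2) (p.1 + p.2)) := by
  have e : (fun p : V × V => F.gr (p.1 - p.2) (p.1 + p.2)) = F.u 0 := by
    funext p
    simp only [u, zero_smul, add_zero]
  rw [e]
  exact F.measurable_u 0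

lemma meas_wR (T : TestF L Φ B) : Measurable (F.wR Φ) :=
  T.measF (F.measurable_h.comp measurable_fst) (F.continuous_N.measurable.comp measurable_fst)
    (F.measurable_gr_pair.const_mul 2) ((F.measurable_h.comp measurable_snd).const_mul 2)

lemma meas_wG (T : TestF L Φ B) : Measurable (F.wG Φ) :=
  T.measF F.mz F.mN (F.mg.sub F.mz) (F.mS.sub F.mN)

lemma meas_wGB (T : TestF L Φ B) : Measurable (F.wG B) :=
  T.measB F.mz F.mN (F.mg.sub F.mz) (F.mS.sub F.mN)

lemma meas_wX (T : TestF L Φ B) (t : ℝ) : Measurable (F.wX Φ t) :=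
  T.measF (F.mz.add ((F.mS.sub F.mN).const_mul t)) (F.mN.add ((F.mg.sub F.mz).const_mul t))
    ((F.measurable_u t).sub F.mz) (F.mS.sub F.mN)

omit [FiniteDimensional ℝ V] [MeasurableSpace V] [BorelSpace V] in
/-- bounds for the slope on the product side -/
lemma slope_bd {a b : V} {φ : V →L[ℝ] ℝ} (ha : a ∈ F.G) (hb : b ∈ F.G) (hφ : F.Sup φ (a - b)) :
    |φ (a + b) - F.h (a - b)| ≤ F.h (a + b) - F.N (a - b) := by
  have h1 := Sup.le_h F hφ ha
  have h2 := Sup.neg_h_le F hφ hb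
  have h3 := hφ.2
  rw [map_sub] at h3
  rw [abs_le, map_add, map_add, map_sub, ← h3]
  constructor <;> linarith

theorem stepF (T : TestF L Φ B) (hM : F.Mom ν n Z) {θ t : ℝ} (θ0 : 0 < θ) (θ1 : θ < 1)
    (t0 : 0 < t) (t1 : t ≤ 1 / 2) (ht : θ * t < 1 - θ) :
    ∫ p : V × V, (F.wR Φ (p.1 + (2 * θ * t) • p.2, p.2) - F.wR Φ p)
        ∂((F.eN ν).prod (F.ex ν 2)) ≤
      ∫ p : V × V, ((F.wX Φ t p - F.wG Φ p) +
        L * (eps θ t + t * (1 + eps θ t)) * (F.u t p - F.u 0 p)) ∂((F.ex ν 1).prod (F.ex ν 1)) := by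
  have h1 := F.eN_finite ν hM
  have h2 := Mom.finite_ex F hM (s := 2) two_pos
  have h3 := Mom.finite_ex F hM (s := 1) one_pos
  set f : V × V → ℝ := fun p => F.wR Φ (p.1 + (2 * θ * t) • p.2, p.2) - F.wR Φ p with hf
  set g : V × V → ℝ := fun p => (F.wX Φ t p - F.wG Φ p) +
        L * (eps θ t + t * (1 + eps θ t)) * (F.u t p - F.u 0 p) with hg
  have mf : Measurable f := by
    refine Measurable.sub ?_ (F.meas_wR T)
    exact (F.meas_wR T).comp (f := fun p : V × V => (p.1 + (2 * θ * t) • p.2, p.2)) (by fun_prop)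
  have mg : Measurable g :=
    ((F.meas_wX T t).sub (F.meas_wG T)).add
      (((F.measurable_u t).sub (F.measurable_u 0)).const_mul _)
  have hbd : ∀ z N θ e z' N' θ' e', ‖Φ z N θ e - Φ z' N' θ' e'‖ ≤ 2 := fun z N θ e z' N' θ' e' => by
    rw [Real.norm_eq_abs]
    have a1 := abs_le.mp (T.bd z N θ e)
    have a2 := abs_le.mp (T.bd z' N' θ' e')
    rw [abs_le]; constructor <;> linarith
  have if' : Integrable f ((F.eN ν).prod (F.ex ν 2)) :=
    Integrable.of_bound mf.aestronglyMeasurable 2 (Filter.Eventually.of_forall fun p =>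
      hbd _ _ _ _ _ _ _ _)
  have ig : Integrable g ((F.ex ν 1).prod (F.ex ν 1)) := by
    refine Integrable.add ?_ (((F.integrable_u ν hM (by linarith)).sub
      (F.integrable_u ν hM (by norm_num))).const_mul _)
    exact Integrable.of_bound ((F.meas_wX T t).sub (F.meas_wG T)).aestronglyMeasurable 2
      (Filter.Eventually.of_forall fun p => hbd _ _ _ _ _ _ _ _)
  -- monotonicity of the slope
  have mono : ∀ᵐ p ∂((F.ex ν 1).prod (F.ex ν 1)), F.u 0 p ≤ F.u t p := by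
    filter_upwards [F.ae_PP ν hM (t := t) (by linarith), F.ae_PP0 ν hM] with p ⟨_, _, s1⟩ ⟨_, _, s0⟩
    have e1 := s0.1 (p.1 - p.2 + t • (p.1 + p.2))
    have e2 := s1.1 (p.1 - p.2)
    rw [← s1.2, map_add, map_add, map_smul, map_smul, smul_eq_mul, smul_eq_mul] at e1
    rw [← s0.2] at e2
    have e3 : 0 ≤ t * (F.gr (p.1 - p.2 + t • (p.1 + p.2)) (p.1 + p.2) - F.gr (p.1 - p.2) (p.1 + p.2)) := by
      linarith
    have := (mul_nonneg_iff_of_pos_left t0).mp e3
    simp only [u, zero_smul, add_zero]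
    linarith
  have εn : 0 ≤ eps θ t := by
    unfold eps
    have : 0 ≤ 3 - θ * t := by linarith
    have : 0 < (1 - t) * (1 - θ - θ * t) := mul_pos (by linarith) (by linarith)
    positivity
  have L0 := T.L0
  have gn : 0 ≤ᵐ[(F.ex ν 1).prod (F.ex ν 1)] g := by
    filter_upwards [mono, F.ae_PP0 ν hM] with p hp ⟨ha, hb, s0⟩
    have e1 := F.slope_bd ha hb s0
    have e2 := T.xmono (F.h (p.1 - p.2)) (F.N (p.1 - p.2))
      (F.gr (p.1 - p.2) (p.1 + p.2) - F.h (p.1 - p.2))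
      (F.gr (p.1 - p.2) (p.1 + p.2) - F.h (p.1 - p.2)) (F.h (p.1 + p.2) - F.N (p.1 - p.2)) t
      (F.abs_h_le_N _) e1 t0.le
    have e0 : F.gr (p.1 - p.2) (p.1 + p.2) = F.u 0 p := by simp [u]
    have e3 : F.gr (p.1 - p.2) (p.1 + p.2) - F.h (p.1 - p.2) ≤ F.u t p - F.h (p.1 - p.2) := by
      rw [e0]; linarith
    have e4 := e2.trans (T.mono _ _ _ e3)
    have e5 : 0 ≤ L * (eps θ t + t * (1 + eps θ t)) * (F.u t p - F.u 0 p) :=
      mul_nonneg (by positivity) (by linarith)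
    show 0 ≤ (F.wX Φ t p - F.wG Φ p) +
        L * (eps θ t + t * (1 + eps θ t)) * (F.u t p - F.u 0 p)
    have e6 : F.wG Φ p ≤ F.wX Φ t p := e4
    linarith
  have key : ∫⁻ p, ENNReal.ofReal (f p) ∂((F.eN ν).prod (F.ex ν 2)) ≤
      ∫⁻ p, ENNReal.ofReal (g p) ∂((F.ex ν 1).prod (F.ex ν 1)) := by
    refine F.embed ν mf.ennreal_ofReal mg.ennreal_ofReal ?_
    filter_upwards [F.ae_sup ν] with y hy a ha b hb hab hN
    have hδ : (2 * θ * t) ≠ 0 := by positivity
    have d1 : ∀ᵐ g ∂ν, DifferentiableAt ℝ F.N (y + (2 * θ * t) • g) := by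
      filter_upwards [F.ae_diff_affine ν hδ y] with g hg
      rwa [add_comm] at hg
    have d2 : ∀ᵐ g ∂ν, DifferentiableAt ℝ F.N (y + t • ((a + g) + (b + g))) := by
      filter_upwards [F.ae_diff_affine ν (c := 2 * t) (by positivity) (y + t • (a + b))] with g hg
      have e : (2 * t) • g + (y + t • (a + b)) = y + t • ((a + g) + (b + g)) := by
        simp only [smul_add, mul_smul, two_smul]; abel
      rwa [e] at hg
    have d1' := ae_mono Measure.restrict_le_self (μ := ν.restrict F.G) d1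
    have d2' := ae_mono Measure.restrict_le_self (μ := ν.restrict F.G) d2
    have d3' : ∀ᵐ g ∂(ν.restrict F.G), g ∈ F.G := ae_restrict_mem F.measurableSet_G
    filter_upwards [d1', d2', d3'] with g hg1 hg2 hgG
    have P := F.pointF T (g := g) (t := t) (θ := θ) ha hb hgG hab hN hy (F.sup_gr hg1)
      (F.sup_gr hg2) t0 t1 θ0 θ1 ht
    refine ENNReal.ofReal_le_ofReal ?_
    have ey : (a + g) - (b + g) = y := by rw [hab]; abel
    have eu : F.u t (a + g, b + g) = F.gr (y + t • ((a + g) + (b + g))) ((a + g) + (b + g)) := by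
      simp only [u, ey]
    have eu0 : F.u 0 (a + g, b + g) = F.gr y ((a + g) + (b + g)) := by
      simp only [u, ey, zero_smul, add_zero]
    simp only [hf, hg, wR, wX, wG, ey, eu, eu0]
    exact P
  have e1 : ∫ p, f p ∂((F.eN ν).prod (F.ex ν 2)) ≤
      (∫⁻ p, ENNReal.ofReal (f p) ∂((F.eN ν).prod (F.ex ν 2))).toReal := by
    rw [integral_eq_lintegral_pos_part_sub_lintegral_neg_part if']
    exact sub_le_self _ ENNReal.toReal_nonneg
  have e2 : ∫ p, g p ∂((F.ex ν 1).prod (F.ex ν 1)) =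
      (∫⁻ p, ENNReal.ofReal (g p) ∂((F.ex ν 1).prod (F.ex ν 1))).toReal :=
    integral_eq_lintegral_of_nonneg_ae gn mg.aestronglyMeasurable
  rw [e2]
  refine e1.trans (ENNReal.toReal_mono ?_ key)
  rw [← ofReal_integral_eq_lintegral_ofReal ig gn]
  exact ENNReal.ofReal_ne_top

theorem scaledF (T : TestF L Φ B) (hn : Module.finrank ℝ V = n) (hM : F.Mom ν n Z) {t : ℝ}
    (t0 : 0 < t) (t1 : t ≤ 1 / 2) :
    ∫ p : V × V, (F.wX Φ t p - F.wG Φ p) ∂((F.ex ν 1).prod (F.ex ν 1)) ≤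
      ∫ p : V × V, (F.rt n t p - 1) * F.wG Φ p ∂((F.ex ν 1).prod (F.ex ν 1)) -
        t * ∫ p : V × V, F.wG B p ∂((F.ex ν 1).prod (F.ex ν 1)) +
        L * (9 * t * ∫ p : V × V, (F.u t p - F.u 0 p) ∂((F.ex ν 1).prod (F.ex ν 1)) +
          t ^ 2 * ((1 + 8 * n) * Z ^ 2)) := by
  have h3 := Mom.finite_ex F hM (s := 1) one_pos
  have mG := F.meas_wG T
  have bdG : ∀ p, |F.wG Φ p| ≤ 1 := fun p => T.bd _ _ _ _
  have bdX : ∀ p, |F.wX Φ t p| ≤ 1 := fun p => T.bd _ _ _ _
  have bdB : ∀ p, |F.wG B p| ≤ L := fun p => T.Bbd _ _ _ _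
  have i1 : Integrable (fun p : V × V => F.h p.1) ((F.ex ν 1).prod (F.ex ν 1)) := by
    simpa using Mom.integrable_PP F hM 1 0 one_pos one_pos
  have i2 : Integrable (fun p : V × V => F.h p.2) ((F.ex ν 1).prod (F.ex ν 1)) := by
    simpa using Mom.integrable_PP F hM 0 1 one_pos one_pos
  have v1 : ∫ p : V × V, F.h p.1 ∂((F.ex ν 1).prod (F.ex ν 1)) = n * Z ^ 2 := by
    have := Mom.integral_PP F hM 1 0 one_pos one_pos
    simp only [pow_one, pow_zero, mul_one, one_pow, div_one, Nat.ascFactorial_zero, Nat.cast_one,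
      asc_one] at this
    rw [this]; ring
  have v2 : ∫ p : V × V, F.h p.2 ∂((F.ex ν 1).prod (F.ex ν 1)) = n * Z ^ 2 := by
    have := Mom.integral_PP F hM 0 1 one_pos one_pos
    simp only [pow_one, pow_zero, mul_one, one_mul, one_pow, div_one, Nat.ascFactorial_zero, Nat.cast_one,
      asc_one] at this
    rw [this]; ring
  have vuniv : (((F.ex ν 1).prod (F.ex ν 1)).real univ) = Z ^ 2 := by
    rw [Measure.real, ← univ_prod_univ, Measure.prod_prod, Mom.ex_univ F hM one_pos,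
      ← ENNReal.ofReal_mul (by have := hM.Zpos; positivity),
      ENNReal.toReal_ofReal (by have := hM.Zpos; positivity)]
    ring
  have iG : Integrable (F.wG Φ) ((F.ex ν 1).prod (F.ex ν 1)) :=
    Integrable.of_bound mG.aestronglyMeasurable 1 (Filter.Eventually.of_forall bdG)
  have iX : Integrable (F.wX Φ t) ((F.ex ν 1).prod (F.ex ν 1)) :=
    Integrable.of_bound (F.meas_wX T t).aestronglyMeasurable 1 (Filter.Eventually.of_forall bdX)
  have iB : Integrable (F.wG B) ((F.ex ν 1).prod (F.ex ν 1)) :=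
    Integrable.of_bound (F.meas_wGB T).aestronglyMeasurable L (Filter.Eventually.of_forall bdB)
  have irG := F.integrable_rt_mul ν hn hM t0 (by linarith) mG bdG
  have iGT : Integrable (fun p => F.wG Φ (Frame.T t p)) ((F.ex ν 1).prod (F.ex ν 1)) :=
    Integrable.of_bound (mG.comp (measurable_T t)).aestronglyMeasurable 1
      (Filter.Eventually.of_forall fun p => bdG _)
  have iD : Integrable (fun p => F.u t p - F.u 0 p) ((F.ex ν 1).prod (F.ex ν 1)) :=
    (F.integrable_u ν hM (by linarith)).sub (F.integrable_u ν hM (by norm_num))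
  have iE : Integrable (fun p : V × V => t ^ 2 * (1 + 4 * (F.h p.1 + F.h p.2)))
      ((F.ex ν 1).prod (F.ex ν 1)) :=
    ((integrable_const _).add ((i1.add i2).const_mul 4)).const_mul _
  -- pointwise bound
  have pt : ∀ᵐ p ∂((F.ex ν 1).prod (F.ex ν 1)), F.wX Φ t p ≤
      F.wG Φ (Frame.T t p) - t * F.wG B p +
        L * (9 * t * (F.u t p - F.u 0 p) + t ^ 2 * (1 + 4 * (F.h p.1 + F.h p.2))) := by
    filter_upwards [F.ae_PP ν hM (t := t) (by linarith), F.ae_PP0 ν hM] with p ⟨ha, hb, hs⟩ ⟨_, _, h0⟩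
    obtain ⟨a, b⟩ := p
    have := F.scaleF T ha hb h0 hs t0 t1
    have ey : (1 + t) • a - (1 - t) • b = a - b + t • (a + b) := by
      rw [add_smul, sub_smul, one_smul, one_smul, smul_add]; abel
    simp only [wX, wG, u, Frame.T, zero_smul, add_zero] at this ⊢
    rw [ey] at this ⊢
    exact this
  have e := integral_mono_ae iX ((iGT.sub (iB.const_mul t)).add
    (((iD.const_mul (9 * t)).add iE).const_mul L)) pt
  have e0 := integral_add (iGT.sub (iB.const_mul t)) (((iD.const_mul (9 * t)).add iE).const_mul L)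
  have e1 := integral_sub iGT (iB.const_mul t)
  have e2 := integral_add (iD.const_mul (9 * t)) iE
  have e3 := integral_add (integrable_const (μ := (F.ex ν 1).prod (F.ex ν 1)) (1 : ℝ))
    ((i1.add i2).const_mul 4)
  have e4 := integral_add i1 i2
  simp only [Pi.add_apply, Pi.sub_apply] at e e0 e1 e2 e3 e4
  rw [e0, e1, integral_const_mul, integral_const_mul, e2, integral_const_mul, integral_const_mul, e3,
    integral_const_mul, e4, v1, v2, integral_const, vuniv, smul_eq_mul,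
    F.integral_T ν hn t0 (by linarith) mG] at e
  have s2 : ∫ p : V × V, (F.rt n t p - 1) * F.wG Φ p ∂((F.ex ν 1).prod (F.ex ν 1)) =
      ∫ p : V × V, F.rt n t p * F.wG Φ p ∂((F.ex ν 1).prod (F.ex ν 1)) -
      ∫ p : V × V, F.wG Φ p ∂((F.ex ν 1).prod (F.ex ν 1)) := by
    rw [← integral_sub irG iG]
    refine integral_congr_ae (Filter.Eventually.of_forall fun p => ?_)
    simp only; ring
  rw [s2, integral_sub iX iG]
  have : t ^ 2 * (Z ^ 2 * 1 + 4 * (n * Z ^ 2 + n * Z ^ 2)) = t ^ 2 * ((1 + 8 * n) * Z ^ 2) := by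
    ring
  rw [this] at e
  linarith

/-- the limit inequality for a fixed `θ` -/
theorem lim_thetaF (T : TestF L Φ B) (hn : Module.finrank ℝ V = n) (hM : F.Mom ν n Z) {θ : ℝ}
    (θ0 : 0 < θ) (θ1 : θ < 1) :
    2 * θ * ∫ p : V × V, F.gr p.1 p.2 * F.wR Φ p ∂((F.eN ν).prod (F.ex ν 2)) ≤
      ∫ p : V × V, (F.h p.1 - F.h p.2) * F.wG Φ p ∂((F.ex ν 1).prod (F.ex ν 1)) -
        ∫ p : V × V, F.wG B p ∂((F.ex ν 1).prod (F.ex ν 1)) := by
  have h3 := Mom.finite_ex F hM (s := 1) one_pos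
  have mG := F.meas_wG T
  have bdG : ∀ p, |F.wG Φ p| ≤ 1 := fun p => T.bd _ _ _ _
  have T1 := (F.ibpw ν hM (F.meas_wR T) (C := 1) fun p => T.bd _ _ _ _).comp
    (tendsto_nhdsWithin_iff.mpr
    ⟨(show Tendsto (fun t : ℝ => 2 * θ * t) (𝓝[>] 0) (𝓝 0) by
      have : Tendsto (fun t : ℝ => 2 * θ * t) (𝓝 0) (𝓝 (2 * θ * 0)) := by
        exact (continuous_const.mul continuous_id).tendsto 0
      rw [mul_zero] at this
      exact this.mono_left nhdsWithin_le_nhds),
    by filter_upwards [self_mem_nhdsWithin] with t ht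
       have ht : 0 < t := ht
       show 0 < 2 * θ * t
       positivity⟩)
  have T2 := F.dscale ν hM mG bdG
  have T3 := F.incr ν hM
  have T4 : Tendsto (fun t : ℝ => L * (((3 - θ * t) / ((1 - t) * (1 - θ - θ * t)) +
      (1 + eps θ t)) + 9)) (𝓝[>] 0)
      (𝓝 (L * (((3 - θ * 0) / ((1 - 0) * (1 - θ - θ * 0)) + (1 + eps θ 0)) + 9))) := by
    apply tendsto_nhdsWithin_of_tendsto_nhds
    apply ContinuousAt.tendsto
    unfold eps
    have hne : (1 - (0 : ℝ)) * (1 - θ - θ * 0) ≠ 0 := by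
      simp only [mul_zero, sub_zero, one_mul]
      linarith
    have c1 : ContinuousAt (fun t : ℝ => (3 - θ * t) / ((1 - t) * (1 - θ - θ * t))) 0 :=
      ContinuousAt.div (by fun_prop) (by fun_prop) hne
    have c2 : ContinuousAt (fun t : ℝ => t * (3 - θ * t) / ((1 - t) * (1 - θ - θ * t))) 0 :=
      ContinuousAt.div (by fun_prop) (by fun_prop) hne
    exact continuousAt_const.mul ((c1.add (continuousAt_const.add c2)).add continuousAt_const)
  have T5 : Tendsto (fun t : ℝ => -(∫ p : V × V, F.wG B p ∂((F.ex ν 1).prod (F.ex ν 1))) +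
      L * (t * ((1 + 8 * n) * Z ^ 2))) (𝓝[>] 0)
      (𝓝 (-(∫ p : V × V, F.wG B p ∂((F.ex ν 1).prod (F.ex ν 1))) +
      L * (0 * ((1 + 8 * n) * Z ^ 2)))) := by
    apply tendsto_nhdsWithin_of_tendsto_nhds
    apply Continuous.tendsto
    fun_prop
  have T6 := (T2.add T5).add (T4.mul T3)
  have T7 := T1.const_mul (2 * θ)
  have e7 : (∫ p : V × V, (F.h p.1 - F.h p.2) * F.wG Φ p ∂((F.ex ν 1).prod (F.ex ν 1)) +
      (-(∫ p : V × V, F.wG B p ∂((F.ex ν 1).prod (F.ex ν 1))) +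
      L * (0 * ((1 + 8 * n) * Z ^ 2)))) +
      L * (((3 - θ * 0) / ((1 - 0) * (1 - θ - θ * 0)) + (1 + eps θ 0)) + 9) * 0 =
      ∫ p : V × V, (F.h p.1 - F.h p.2) * F.wG Φ p ∂((F.ex ν 1).prod (F.ex ν 1)) -
        ∫ p : V × V, F.wG B p ∂((F.ex ν 1).prod (F.ex ν 1)) := by ring
  rw [e7] at T6
  refine le_of_tendsto_of_tendsto T7 T6 ?_
  have hev : ∀ᶠ t : ℝ in 𝓝[>] 0, 0 < t ∧ t ≤ 1 / 2 ∧ θ * t < 1 - θ := by
    have h1 : ∀ᶠ t : ℝ in 𝓝[>] 0, t < 1 / 2 :=
      nhdsWithin_le_nhds (Iio_mem_nhds (by norm_num))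
    have h2 : ∀ᶠ t : ℝ in 𝓝[>] 0, t < (1 - θ) / θ :=
      nhdsWithin_le_nhds (Iio_mem_nhds (div_pos (by linarith) θ0))
    filter_upwards [self_mem_nhdsWithin, h1, h2] with t ht h1 h2
    refine ⟨ht, h1.le, ?_⟩
    rw [lt_div_iff₀ θ0] at h2
    linarith
  filter_upwards [hev] with t ⟨t0, t1, ht⟩
  have S1 := F.stepF ν T hM θ0 θ1 t0 t1 ht
  have S2 := F.scaledF ν T hn hM t0 t1
  have iu1 : Integrable (fun p : V × V => F.wX Φ t p - F.wG Φ p)
      ((F.ex ν 1).prod (F.ex ν 1)) :=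
    (Integrable.of_bound (F.meas_wX T t).aestronglyMeasurable 1
      (Filter.Eventually.of_forall fun p => T.bd _ _ _ _)).sub
    (Integrable.of_bound mG.aestronglyMeasurable 1 (Filter.Eventually.of_forall bdG))
  have iu2 : Integrable (fun p : V × V => L * (eps θ t + t * (1 + eps θ t)) * (F.u t p - F.u 0 p))
      ((F.ex ν 1).prod (F.ex ν 1)) :=
    ((F.integrable_u ν hM (by linarith)).sub (F.integrable_u ν hM (by norm_num))).const_mul _
  rw [integral_add iu1 iu2, integral_const_mul] at S1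
  have eu : (∫ p : V × V, (F.gr (p.1 - p.2 + t • (p.1 + p.2)) (p.1 + p.2) -
      F.gr (p.1 - p.2) (p.1 + p.2)) ∂((F.ex ν 1).prod (F.ex ν 1))) =
      ∫ p : V × V, (F.u t p - F.u 0 p) ∂((F.ex ν 1).prod (F.ex ν 1)) := by
    simp only [u, zero_smul, add_zero]
  show 2 * θ * ((2 * θ * t)⁻¹ * ∫ p : V × V,
        (F.wR Φ (p.1 + (2 * θ * t) • p.2, p.2) - F.wR Φ p)
          ∂((F.eN ν).prod (F.ex ν 2))) ≤ (t⁻¹ * ∫ p : V × V, (F.rt n t p - 1) * F.wG Φ p
          ∂((F.ex ν 1).prod (F.ex ν 1)) +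
          (-(∫ p : V × V, F.wG B p ∂((F.ex ν 1).prod (F.ex ν 1))) +
            L * (t * ((1 + 8 * n) * Z ^ 2)))) +
          L * (((3 - θ * t) / ((1 - t) * (1 - θ - θ * t)) + (1 + eps θ t)) + 9) * ∫ p : V × V,
          (F.gr (p.1 - p.2 + t • (p.1 + p.2)) (p.1 + p.2) -
      F.gr (p.1 - p.2) (p.1 + p.2)) ∂((F.ex ν 1).prod (F.ex ν 1))
  rw [eu]
  set A := ∫ p : V × V, (F.wR Φ (p.1 + (2 * θ * t) • p.2, p.2) - F.wR Φ p)
          ∂((F.eN ν).prod (F.ex ν 2))
  set E := ∫ p : V × V, (F.rt n t p - 1) * F.wG Φ p ∂((F.ex ν 1).prod (F.ex ν 1))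
  set C := ∫ p : V × V, (F.u t p - F.u 0 p) ∂((F.ex ν 1).prod (F.ex ν 1))
  set I := ∫ p : V × V, F.wG B p ∂((F.ex ν 1).prod (F.ex ν 1))
  have e1 : 2 * θ * ((2 * θ * t)⁻¹ * A) = t⁻¹ * A := by
    field_simp
  have e2 : A ≤ E - t * I + L * (9 * t * C + t ^ 2 * ((1 + 8 * n) * Z ^ 2)) +
      L * (eps θ t + t * (1 + eps θ t)) * C := by linarith
  have hpos : 0 < (1 - t) * (1 - θ - θ * t) := mul_pos (by linarith) (by linarith)
  have e3 : t⁻¹ * (E - t * I + L * (9 * t * C + t ^ 2 * ((1 + 8 * n) * Z ^ 2)) +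
      L * (eps θ t + t * (1 + eps θ t)) * C) = (t⁻¹ * E + (-I + L * (t * ((1 + 8 * n) * Z ^ 2)))) +
          L * (((3 - θ * t) / ((1 - t) * (1 - θ - θ * t)) + (1 + eps θ t)) + 9) * C := by
    have hm : eps θ t = t * ((3 - θ * t) / ((1 - t) * (1 - θ - θ * t))) := by
      unfold eps; ring
    rw [hm]
    set m := (3 - θ * t) / ((1 - t) * (1 - θ - θ * t))
    field_simp
    ring
  rw [e1, ← e3]
  exact mul_le_mul_of_nonneg_left e2 (by positivity)

/-- The comparison of the two flows: for a test function `Φ` with the bracket bound `B`, the mean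
of `Θ Φ` over the Rogers-Shephard part is at most the mean of `z Φ - B` over the product. -/
theorem gen (T : TestF L Φ B) (hn : Module.finrank ℝ V = n) (hM : F.Mom ν n Z) :
    ∫ p : V × V, 2 * F.gr p.1 p.2 * F.wR Φ p ∂((F.eN ν).prod (F.ex ν 2)) ≤
      ∫ p : V × V, (F.h p.1 - F.h p.2) * F.wG Φ p ∂((F.ex ν 1).prod (F.ex ν 1)) -
        ∫ p : V × V, F.wG B p ∂((F.ex ν 1).prod (F.ex ν 1)) := by
  have e : ∫ p : V × V, 2 * F.gr p.1 p.2 * F.wR Φ p ∂((F.eN ν).prod (F.ex ν 2)) =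
      2 * 1 * ∫ p : V × V, F.gr p.1 p.2 * F.wR Φ p ∂((F.eN ν).prod (F.ex ν 2)) := by
    rw [← integral_const_mul]
    refine integral_congr_ae (Filter.Eventually.of_forall fun p => ?_)
    simp only; ring
  rw [e]
  set I := ∫ p : V × V, F.gr p.1 p.2 * F.wR Φ p ∂((F.eN ν).prod (F.ex ν 2))
  have T' : Tendsto (fun θ : ℝ => 2 * θ * I) (𝓝[<] 1) (𝓝 (2 * 1 * I)) := by
    apply tendsto_nhdsWithin_of_tendsto_nhds
    exact ((continuous_const.mul continuous_id).mul continuous_const).tendsto 1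
  refine le_of_tendsto T' ?_
  have : ∀ᶠ θ : ℝ in 𝓝[<] 1, 0 < θ := nhdsWithin_le_nhds (Ioi_mem_nhds one_pos)
  filter_upwards [self_mem_nhdsWithin, this] with θ hθ1 hθ0
  exact F.lim_thetaF ν T hn hM hθ0 hθ1

end main

end Frame

end Pool.Agent.FR
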