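import Mathlib

/-! Two-sided exponential laws: products, and two descriptions of the law of a difference of two
exponential variables. -/

set_option autoImplicit false

namespace Pool.Agent.FR.Simp

open MeasureTheory Set Filter Topology
open scoped ENNReal NNReal

lemma map_withDensity_comp {α β : Type*} [MeasurableSpace α] [MeasurableSpace β] (μ : Measure α)
    {e : α → β} (he : Measurable e) {g : β → ℝ≥0∞} (hg : Measurable g) :
    (μ.withDensity (fun a => g (e a))).map e = (μ.map e).withDensity g := by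
  ext s hs
  rw [Measure.map_apply he hs, withDensity_apply _ (he hs), withDensity_apply _ hs,
    setLIntegral_map hs hg he]

/-- a power of a measure with a density has the product density -/
lemma pi_wd (n : ℕ) {ρ : ℝ → ℝ≥0∞} (hρ : Measurable ρ)
    [SigmaFinite ((volume : Measure ℝ).withDensity ρ)] :
    Measure.pi (fun _ : Fin n => (volume : Measure ℝ).withDensity ρ) =
      (volume : Measure (Fin n → ℝ)).withDensity (fun x => ∏ i, ρ (x i)) := by
  induction n with
  | zero =>
    refine Measure.pi_eq fun s hs => ?_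
    have h1 : (fun x : Fin 0 → ℝ => ∏ i, ρ (x i)) = fun _ => 1 := by
      funext x; simp
    rw [h1, withDensity_const, one_smul, volume_pi, Measure.pi_pi]
    simp
  | succ n ih =>
    have h1 := (measurePreserving_piFinSuccAbove
      (fun _ : Fin (n + 1) => (volume : Measure ℝ).withDensity ρ) 0).symm.map_eq
    have h2 := (measurePreserving_piFinSuccAbove
      (fun _ : Fin (n + 1) => (volume : Measure ℝ)) 0).symm.map_eq
    have hm : Measurable (fun x : Fin n → ℝ => ∏ i, ρ (x i)) := by fun_prop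
    have hm' : Measurable (fun x : Fin (n + 1) → ℝ => ∏ i, ρ (x i)) := by fun_prop
    rw [← h1, ih, volume_pi, prod_withDensity hρ hm, volume_pi, ← h2]
    rw [← map_withDensity_comp _ (MeasurableEquiv.measurable _) hm']
    congr 2
    funext z
    rw [Fin.prod_univ_succ]
    rfl

/-- the same for `n + 1` factors written as an `Option` -/
lemma opt_wd (n : ℕ) {ρ : ℝ → ℝ≥0∞} (hρ : Measurable ρ)
    [SigmaFinite ((volume : Measure ℝ).withDensity ρ)] :
    (((volume : Measure (Fin n → ℝ)).prod (volume : Measure ℝ)).withDensity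
      (fun z => (∏ i, ρ (z.1 i)) * ρ z.2)).map
      (MeasurableEquiv.piOptionEquivProd (fun _ : Option (Fin n) => ℝ)).symm =
    Measure.pi (fun _ : Option (Fin n) => (volume : Measure ℝ).withDensity ρ) := by
  have h1 := Measure.pi_map_piOptionEquivProd
    (fun _ : Option (Fin n) => (volume : Measure ℝ).withDensity ρ)
  have hm : Measurable (fun x : Fin n → ℝ => ∏ i, ρ (x i)) := by fun_prop
  rw [← h1, pi_wd n hρ, prod_withDensity hm hρ]

/-- density of the two-sided exponential -/
noncomputable def rhoA (t : ℝ) : ℝ≥0∞ := ENNReal.ofReal (Real.exp (-|t|))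

/-- density of the one-sided exponential with rate `s` -/
noncomputable def rhoB (s t : ℝ) : ℝ≥0∞ :=
  (Ici (0 : ℝ)).indicator (fun t => ENNReal.ofReal (Real.exp (-(s * t)))) t

lemma measurable_rhoA : Measurable rhoA := by unfold rhoA; fun_prop

lemma measurable_rhoB (s : ℝ) : Measurable (rhoB s) := by
  unfold rhoB
  exact Measurable.indicator (by fun_prop) measurableSet_Ici

/-- the measure `e^{-|t|} dt` -/
noncomputable def mA : Measure ℝ := (volume : Measure ℝ).withDensity rhoA

/-- the measure `e^{-s t} dt` on `[0, ∞)` -/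
noncomputable def mB (s : ℝ) : Measure ℝ := (volume : Measure ℝ).withDensity (rhoB s)

lemma lint_mA {f : ℝ → ℝ≥0∞} (hf : Measurable f) :
    ∫⁻ y, f y ∂mA = ∫⁻ y, ENNReal.ofReal (Real.exp (-|y|)) * f y := by
  rw [mA, lintegral_withDensity_eq_lintegral_mul _ measurable_rhoA hf]
  rfl

lemma lint_mB {s : ℝ} {f : ℝ → ℝ≥0∞} (hf : Measurable f) :
    ∫⁻ y, f y ∂(mB s) = ∫⁻ y in Ici (0:ℝ), ENNReal.ofReal (Real.exp (-(s * y))) * f y := by
  rw [mB, lintegral_withDensity_eq_lintegral_mul _ (measurable_rhoB s) hf,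
    ← lintegral_indicator measurableSet_Ici]
  refine lintegral_congr fun y => ?_
  rw [Pi.mul_apply]
  by_cases hy : y ∈ Ici (0:ℝ)
  · rw [rhoB, indicator_of_mem hy, indicator_of_mem hy]
  · rw [rhoB, indicator_of_notMem hy, indicator_of_notMem hy, zero_mul]

lemma lint_exp {c : ℝ} {s : ℝ} (hs : 0 < s) :
    ∫⁻ y in Ioi c, ENNReal.ofReal (Real.exp (-(s * y))) = ENNReal.ofReal (Real.exp (-(s * c)) / s) := by
  have h1 : IntegrableOn (fun y : ℝ => Real.exp (-(s * y))) (Ioi c) := by
    have := integrableOn_exp_mul_Ioi (a := -s) (by linarith) c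
    refine this.congr_fun (fun y _ => ?_) measurableSet_Ioi
    show Real.exp (-s * y) = _
    rw [neg_mul]
  rw [← ofReal_integral_eq_lintegral_ofReal h1 (Eventually.of_forall fun y => (Real.exp_pos _).le)]
  congr 1
  have h2 := integral_exp_mul_Ioi (a := -s) (by linarith) c
  have h3 : ∫ y in Ioi c, Real.exp (-(s * y)) = ∫ y in Ioi c, Real.exp (-s * y) := by
    refine integral_congr_ae (Eventually.of_forall fun y => ?_)
    show Real.exp (-(s * y)) = Real.exp (-s * y)
    rw [neg_mul]
  rw [h3, h2, neg_mul]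
  rw [neg_div_neg_eq]

lemma lint_exp_Ici {c : ℝ} {s : ℝ} (hs : 0 < s) :
    ∫⁻ y in Ici c, ENNReal.ofReal (Real.exp (-(s * y))) = ENNReal.ofReal (Real.exp (-(s * c)) / s) := by
  rw [← setLIntegral_congr Ioi_ae_eq_Ici, lint_exp hs]

/-- two half lines -/
lemma lint_two (F : ℝ → ℝ≥0∞) :
    ∫⁻ y, F y = (∫⁻ y in Ici (0:ℝ), F y) + ∫⁻ y in Ici (0:ℝ), F (-y) := by
  have h1 : ∫⁻ y in Ici (0:ℝ), F (-y) = ∫⁻ y in Iic (0:ℝ), F y := by
    have hpre : Ici (0:ℝ) = (fun s : ℝ => -s) ⁻¹' (Iic 0) := by
      ext s; simp only [mem_Ici, mem_preimage, mem_Iic]; constructor <;> intro h <;> linarith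
    have hmp := (Measure.measurePreserving_neg (volume : Measure ℝ))
    have hme : MeasurableEmbedding (fun s : ℝ => -s) := (MeasurableEquiv.neg ℝ).measurableEmbedding
    rw [← hmp.setLIntegral_comp_preimage_emb hme _ (Iic 0), ← hpre]
  rw [h1, ← lintegral_add_compl _ (measurableSet_Ici (a := (0:ℝ))), compl_Ici,
    setLIntegral_congr (Iio_ae_eq_Iic (a := (0:ℝ)))]

lemma mA_univ : mA univ = 2 := by
  have h := lint_mA (f := fun _ => 1) measurable_const
  rw [lintegral_one] at h
  rw [h, lint_two]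
  have h2 : ∫⁻ y in Ici (0:ℝ), ENNReal.ofReal (Real.exp (-|y|)) * 1 = 1 := by
    have : ∫⁻ y in Ici (0:ℝ), ENNReal.ofReal (Real.exp (-|y|)) * 1 =
        ∫⁻ y in Ici (0:ℝ), ENNReal.ofReal (Real.exp (-(1 * y))) := by
      refine setLIntegral_congr_fun measurableSet_Ici fun y hy => ?_
      have hy : (0:ℝ) ≤ y := hy
      show ENNReal.ofReal (Real.exp (-|y|)) * 1 = ENNReal.ofReal (Real.exp (-(1 * y)))
      rw [mul_one, abs_of_nonneg hy, one_mul]
    rw [this, lint_exp_Ici one_pos]
    simp
  have h3 : ∫⁻ y in Ici (0:ℝ), ENNReal.ofReal (Real.exp (-|-y|)) * 1 = 1 := by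
    simp only [abs_neg]
    exact h2
  rw [h2, h3]
  norm_num

lemma mB_univ {s : ℝ} (hs : 0 < s) : mB s univ = ENNReal.ofReal (1 / s) := by
  have h := lint_mB (s := s) (f := fun _ => 1) measurable_const
  rw [lintegral_one] at h
  rw [h]
  simp only [mul_one]
  rw [lint_exp_Ici hs]
  simp

instance : IsFiniteMeasure mA := ⟨by rw [mA_univ]; exact ENNReal.ofNat_lt_top⟩

instance : IsFiniteMeasure (mB 1) := ⟨by rw [mB_univ one_pos]; exact ENNReal.ofReal_lt_top⟩

instance : IsFiniteMeasure (mB 2) := ⟨by rw [mB_univ two_pos]; exact ENNReal.ofReal_lt_top⟩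

instance : SigmaFinite ((volume : Measure ℝ).withDensity rhoA) :=
  inferInstanceAs (SigmaFinite mA)

instance : SigmaFinite ((volume : Measure ℝ).withDensity (rhoB 1)) :=
  inferInstanceAs (SigmaFinite (mB 1))

instance : SigmaFinite ((volume : Measure ℝ).withDensity (rhoB 2)) :=
  inferInstanceAs (SigmaFinite (mB 2))

/-- signed double of the second coordinate -/
noncomputable def w1 (p : ℝ × ℝ) : ℝ := 2 * (SignType.sign p.1 : ℝ) * p.2

/-- difference -/
noncomputable def w2 (p : ℝ × ℝ) : ℝ := p.1 - p.2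

lemma measurable_sgn : Measurable (fun y : ℝ => (SignType.sign y : ℝ)) := by
  have h : (fun y : ℝ => (SignType.sign y : ℝ)) =
      fun y => if 0 < y then 1 else if y < 0 then -1 else 0 := by
    funext y
    rcases lt_trichotomy y 0 with h | h | h
    · rw [sign_neg h, if_neg (not_lt.mpr h.le), if_pos h]; simp
    · subst h; simp
    · rw [sign_pos h, if_pos h]; simp
  rw [h]
  exact Measurable.ite measurableSet_Ioi measurable_const
    (Measurable.ite measurableSet_Iio measurable_const measurable_const)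

lemma measurable_w1 : Measurable w1 :=
  ((measurable_sgn.comp measurable_fst).const_mul 2).mul measurable_snd

lemma measurable_w2 : Measurable w2 := measurable_fst.sub measurable_snd

lemma lint_w1 {f : ℝ → ℝ≥0∞} (hf : Measurable f) :
    ∫⁻ p, f (w1 p) ∂(mA.prod (mB 2)) =
      (∫⁻ g in Ici (0:ℝ), ENNReal.ofReal (Real.exp (-(2 * g))) * f (2 * g)) +
      ∫⁻ g in Ici (0:ℝ), ENNReal.ofReal (Real.exp (-(2 * g))) * f (-(2 * g)) := by
  rw [lintegral_prod (fun p => f (w1 p)) (hf.comp measurable_w1).aemeasurable]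
  have hm : Measurable fun y : ℝ => ∫⁻ g, f (w1 (y, g)) ∂(mB 2) :=
    Measurable.lintegral_prod_right' (f := fun p => f (w1 p)) (hf.comp measurable_w1)
  rw [lint_mA hm, lint_two, ← setLIntegral_congr Ioi_ae_eq_Ici, ← setLIntegral_congr Ioi_ae_eq_Ici]
  set A := ∫⁻ g in Ici (0:ℝ), ENNReal.ofReal (Real.exp (-(2 * g))) * f (2 * g) with hA
  set B := ∫⁻ g in Ici (0:ℝ), ENNReal.ofReal (Real.exp (-(2 * g))) * f (-(2 * g)) with hB
  have e1 : ∀ y ∈ Ioi (0:ℝ), ENNReal.ofReal (Real.exp (-|y|)) * ∫⁻ g, f (w1 (y, g)) ∂(mB 2) =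
      ENNReal.ofReal (Real.exp (-(1 * y))) * A := by
    intro y hy
    have hy : (0:ℝ) < y := hy
    rw [abs_of_pos hy, one_mul]
    congr 1
    rw [hA, lint_mB (f := fun g => f (w1 (y, g)))
      (hf.comp (measurable_w1.comp measurable_prodMk_left))]
    refine lintegral_congr fun g => ?_
    simp only [w1, sign_pos hy, SignType.coe_one, mul_one]
  have e2 : ∀ y ∈ Ioi (0:ℝ), ENNReal.ofReal (Real.exp (-|-y|)) * ∫⁻ g, f (w1 (-y, g)) ∂(mB 2) =
      ENNReal.ofReal (Real.exp (-(1 * y))) * B := by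
    intro y hy
    have hy : (0:ℝ) < y := hy
    rw [abs_neg, abs_of_pos hy, one_mul]
    congr 1
    rw [hB, lint_mB (f := fun g => f (w1 (-y, g)))
      (hf.comp (measurable_w1.comp measurable_prodMk_left))]
    refine lintegral_congr fun g => ?_
    simp only [w1, sign_neg (neg_lt_zero.mpr hy), SignType.coe_neg_one]
    congr 2
    ring
  rw [setLIntegral_congr_fun measurableSet_Ioi e1, setLIntegral_congr_fun measurableSet_Ioi e2,
    lintegral_mul_const _ (by fun_prop), lintegral_mul_const _ (by fun_prop), lint_exp one_pos]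
  simp

lemma lint_scale2 {F : ℝ → ℝ≥0∞} (hF : Measurable F) :
    ∫⁻ g in Ici (0:ℝ), F (2 * g) = ENNReal.ofReal (1 / 2) * ∫⁻ w in Ici (0:ℝ), F w := by
  have h1 := Real.map_volume_mul_left (a := (2:ℝ)) (by norm_num)
  have h2 : ∫⁻ w in Ici (0:ℝ), F w ∂(Measure.map (fun x => 2 * x) volume) =
      ∫⁻ g in Ici (0:ℝ), F (2 * g) := by
    rw [setLIntegral_map measurableSet_Ici hF (measurable_const_mul 2)]
    congr 2
    ext g
    simp
  rw [← h2]
  have h3 : (Measure.map (fun x : ℝ => 2 * x) volume) = ENNReal.ofReal |(2:ℝ)⁻¹| • volume := h1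
  rw [h3, Measure.restrict_smul, lintegral_smul_measure, smul_eq_mul]
  congr 2
  rw [abs_of_pos (by norm_num)]
  norm_num

lemma lint_w1' {f : ℝ → ℝ≥0∞} (hf : Measurable f) :
    ∫⁻ p, f (w1 p) ∂(mA.prod (mB 2)) =
      ENNReal.ofReal (1 / 2) * ∫⁻ w, ENNReal.ofReal (Real.exp (-|w|)) * f w := by
  rw [lint_w1 hf, lint_two, mul_add]
  congr 1
  · rw [lint_scale2 (F := fun g => ENNReal.ofReal (Real.exp (-g)) * f g) (by fun_prop)]
    congr 1
    refine setLIntegral_congr_fun measurableSet_Ici fun y hy => ?_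
    have hy : (0:ℝ) ≤ y := hy
    show _ = ENNReal.ofReal (Real.exp (-|y|)) * f y
    rw [abs_of_nonneg hy]
  · rw [lint_scale2 (F := fun g => ENNReal.ofReal (Real.exp (-g)) * f (-g)) (by fun_prop)]
    congr 1
    refine setLIntegral_congr_fun measurableSet_Ici fun y hy => ?_
    have hy : (0:ℝ) ≤ y := hy
    show _ = ENNReal.ofReal (Real.exp (-|-y|)) * f (-y)
    rw [abs_neg, abs_of_nonneg hy]

lemma lint_w2 {f : ℝ → ℝ≥0∞} (hf : Measurable f) :
    ∫⁻ p, f (w2 p) ∂((mB 1).prod (mB 1)) =
      ENNReal.ofReal (1 / 2) * ∫⁻ w, ENNReal.ofReal (Real.exp (-|w|)) * f w := by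
  rw [lintegral_prod_symm (fun p => f (w2 p)) (hf.comp measurable_w2).aemeasurable]
  have e1 : ∀ b : ℝ, ∫⁻ a, f (w2 (a, b)) ∂(mB 1) =
      ∫⁻ y, rhoB 1 (y + b) * f y := by
    intro b
    have hg : Measurable (fun a => f (w2 (a, b))) :=
      hf.comp (measurable_w2.comp measurable_prodMk_right)
    rw [mB, lintegral_withDensity_eq_lintegral_mul _ (measurable_rhoB 1) hg,
      ← lintegral_add_right_eq_self _ b]
    refine lintegral_congr fun y => ?_
    simp only [Pi.mul_apply, w2, add_sub_cancel_right]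
  simp only [e1]
  have hm2 : Measurable (fun p : ℝ × ℝ => rhoB 1 (p.1 + p.2) * f p.1) :=
    ((measurable_rhoB 1).comp (measurable_fst.add measurable_snd)).mul (hf.comp measurable_fst)
  rw [lintegral_lintegral_swap (f := fun b y => rhoB 1 (y + b) * f y)
    (hm2.comp measurable_swap).aemeasurable, ← lintegral_const_mul _ (by fun_prop)]
  refine lintegral_congr fun y => ?_
  have hg1 : Measurable (fun b => rhoB 1 (y + b)) :=
    (measurable_rhoB 1).comp (measurable_const_add y)
  rw [lintegral_mul_const _ hg1, ← mul_assoc]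
  congr 1
  rw [mB, lintegral_withDensity_eq_lintegral_mul _ (measurable_rhoB 1) hg1]
  have e2 : ∀ b : ℝ, (rhoB 1 * fun b => rhoB 1 (y + b)) b =
      (Ici (max 0 (-y))).indicator
        (fun b => ENNReal.ofReal (Real.exp (-y)) * ENNReal.ofReal (Real.exp (-(2 * b)))) b := by
    intro b
    rw [Pi.mul_apply]
    by_cases hb : b ∈ Ici (max 0 (-y))
    · have hb' : 0 ≤ b ∧ -y ≤ b := max_le_iff.mp hb
      have h2 : y + b ∈ Ici (0:ℝ) := show (0:ℝ) ≤ y + b by linarith
      rw [indicator_of_mem hb, rhoB, rhoB, indicator_of_mem (show b ∈ Ici (0:ℝ) from hb'.1),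
        indicator_of_mem h2, ← ENNReal.ofReal_mul (Real.exp_pos _).le,
        ← ENNReal.ofReal_mul (Real.exp_pos _).le, ← Real.exp_add, ← Real.exp_add]
      congr 2
      ring
    · rw [indicator_of_notMem hb]
      by_cases hb0 : b ∈ Ici (0:ℝ)
      · have h2 : y + b ∉ Ici (0:ℝ) := by
          intro h
          have h : (0:ℝ) ≤ y + b := h
          have h6 : -y ≤ b := by linarith
          exact hb (show max 0 (-y) ≤ b from max_le hb0 h6)
        have h3 : rhoB 1 (y + b) = 0 := indicator_of_notMem h2 _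
        rw [h3, mul_zero]
      · have h3 : rhoB 1 b = 0 := indicator_of_notMem hb0 _
        rw [h3, zero_mul]
  simp only [e2]
  rw [lintegral_indicator measurableSet_Ici, lintegral_const_mul _ (by fun_prop),
    lint_exp_Ici two_pos, ← ENNReal.ofReal_mul (Real.exp_pos _).le,
    ← ENNReal.ofReal_mul (by norm_num)]
  congr 1
  rw [mul_div_assoc', ← Real.exp_add]
  rcases le_total 0 y with h | h
  · rw [max_eq_left (by linarith), abs_of_nonneg h]
    rw [mul_zero, neg_zero, add_zero]; ring
  · rw [max_eq_right (by linarith), abs_of_nonpos h]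
    have : -y + -(2 * -y) = -(-y) := by ring
    rw [this]; ring

/-- the two laws agree -/
theorem law_eq : (mA.prod (mB 2)).map w1 = ((mB 1).prod (mB 1)).map w2 := by
  refine Measure.ext_of_lintegral _ fun f hf => ?_
  rw [lintegral_map hf measurable_w1, lintegral_map hf measurable_w2, lint_w1' hf, lint_w2 hf]

end Pool.Agent.FR.Simp
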