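import Pool.Agent.Lib.MP_725e58_gt.FS.Test49

/-! The regularised certificate is a test function. -/

set_option autoImplicit false

namespace Pool.Agent.FR

/-- the regularised ratio -/
noncomputable def Rr (δ z N : ℝ) : ℝ := clip 1 (z / (max N 0 + δ))

/-- the error of the regularisation -/
noncomputable def dl (δ N : ℝ) : ℝ := δ / (max N 0 + δ)

/-- the regularised certificate -/
noncomputable def Fd (c : ℝ → ℝ → ℝ) (δ z N θ e : ℝ) : ℝ := c (Rr δ z N) (Rr δ θ e)

/-- the bracket of the regularised certificate -/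
noncomputable def Bd (n : ℕ) (c : ℝ → ℝ → ℝ) (C δ z N θ e : ℝ) : ℝ :=
  n * (|Rr δ θ e| - |Rr δ z N|) - n * (Rr δ θ e - Rr δ z N) * c (Rr δ z N) (Rr δ θ e) -
    C * (dl δ N + dl δ e)

lemma clip_lip (x y : ℝ) : |clip 1 x - clip 1 y| ≤ |x - y| := by
  rcases le_total x y with h | h
  · have h1 := clip_mono 1 h
    have h2 := clip_add_le 1 (x := x) (e := y - x) (by linarith)
    rw [add_sub_cancel] at h2
    rw [abs_of_nonpos (by linarith), abs_of_nonpos (by linarith)]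
    linarith
  · have h1 := clip_mono 1 h
    have h2 := clip_add_le 1 (x := y) (e := x - y) (by linarith)
    rw [add_sub_cancel] at h2
    rw [abs_of_nonneg (by linarith), abs_of_nonneg (by linarith)]
    linarith

lemma clip_of_abs {x : ℝ} (h : |x| ≤ 1) : clip 1 x = x := by
  obtain ⟨h1, h2⟩ := abs_le.mp h
  unfold clip
  rw [min_eq_right h2, max_eq_right h1]

lemma clip_of_ge {x : ℝ} (h : 1 ≤ x) : clip 1 x = 1 := by
  unfold clip
  rw [min_eq_left h, max_eq_right (by norm_num)]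

lemma clip_of_le {x : ℝ} (h : x ≤ -1) : clip 1 x = -1 := by
  unfold clip
  rw [min_eq_right (by linarith), max_eq_left h]

lemma clip_neg' (x : ℝ) : clip 1 (-x) = -clip 1 x := by
  rcases le_total x (-1) with h | h
  · rw [clip_of_le h, clip_of_ge (by linarith)]; ring
  · rcases le_total x 1 with h' | h'
    · rw [clip_of_abs (abs_le.mpr ⟨h, h'⟩), clip_of_abs (by rw [abs_neg]; exact abs_le.mpr ⟨h, h'⟩)]
    · rw [clip_of_ge h', clip_of_le (by linarith)]

lemma abs_Rr_le (δ z N : ℝ) : |Rr δ z N| ≤ 1 := abs_clip_le zero_le_one _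

lemma Rr_neg (δ z N : ℝ) : Rr δ (-z) N = -Rr δ z N := by
  unfold Rr
  rw [neg_div, clip_neg']

lemma den_pos49 {δ : ℝ} (_ : 0 < δ) (N : ℝ) : δ ≤ max N 0 + δ := by
  have := le_max_right N 0
  linarith

lemma rr_le {z M M' : ℝ} (hM : 0 < M) (h : M ≤ M') :
    |clip 1 (z / M) - clip 1 (z / M')| ≤ (M' - M) / M := by
  have hM' : 0 < M' := by linarith
  have h0 : 0 ≤ (M' - M) / M := div_nonneg (by linarith) hM.le
  rcases le_total M' z with h1 | h1
  · rw [clip_of_ge ((one_le_div hM).mpr (by linarith)), clip_of_ge ((one_le_div hM').mpr h1)]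
    simpa using h0
  rcases le_total z (-M') with h2 | h2
  · rw [clip_of_le ((div_le_iff₀ hM).mpr (by linarith)), clip_of_le ((div_le_iff₀ hM').mpr (by linarith))]
    simpa using h0
  have h3 : |z| ≤ M' := abs_le.mpr ⟨h2, h1⟩
  refine (clip_lip _ _).trans ?_
  have e : z / M - z / M' = z * (M' - M) / (M * M') := by field_simp
  rw [e, abs_div, abs_mul, abs_of_nonneg (show 0 ≤ M' - M by linarith), abs_of_pos (mul_pos hM hM'),
    div_le_div_iff₀ (mul_pos hM hM') hM]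
  have := mul_le_mul_of_nonneg_right h3 (show 0 ≤ (M' - M) * M by
    exact mul_nonneg (by linarith) hM.le)
  nlinarith

lemma rr_lip {δ : ℝ} (hδ : 0 < δ) {z M M' : ℝ} (hM : δ ≤ M) (hM' : δ ≤ M') :
    |clip 1 (z / M) - clip 1 (z / M')| ≤ |M - M'| / δ := by
  rcases le_total M M' with h | h
  · refine (rr_le (by linarith) h).trans ?_
    rw [abs_of_nonpos (by linarith), neg_sub]
    have : 0 ≤ M' - M := by linarith
    gcongr
  · rw [abs_sub_comm]
    refine (rr_le (by linarith) h).trans ?_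
    rw [abs_of_nonneg (by linarith)]
    have : 0 ≤ M - M' := by linarith
    gcongr

lemma max_lip (N N' δ : ℝ) : |(max N 0 + δ) - (max N' 0 + δ)| ≤ |N - N'| := by
  have : (max N 0 + δ) - (max N' 0 + δ) = max N 0 - max N' 0 := by ring
  rw [this]
  exact abs_max_sub_max_le_abs N N' 0

lemma Rr_lip {δ : ℝ} (hδ : 0 < δ) (z N z' N' : ℝ) :
    |Rr δ z N - Rr δ z' N'| ≤ (|z - z'| + |N - N'|) / δ := by
  have d1 := den_pos49 hδ N
  have d2 := den_pos49 hδ N'
  have h1 : |Rr δ z N - Rr δ z' N| ≤ |z - z'| / δ := by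
    unfold Rr
    refine (clip_lip _ _).trans ?_
    rw [← sub_div, abs_div, abs_of_pos (show 0 < max N 0 + δ by linarith)]
    gcongr
  have h2 : |Rr δ z' N - Rr δ z' N'| ≤ |N - N'| / δ := by
    unfold Rr
    refine (rr_lip hδ d1 d2).trans ?_
    have := max_lip N N' δ
    gcongr
  have h3 := abs_sub_le (Rr δ z N) (Rr δ z' N) (Rr δ z' N')
  rw [add_div]
  linarith

lemma dl_nonneg {δ : ℝ} (hδ : 0 < δ) (N : ℝ) : 0 ≤ dl δ N := by
  have d1 := den_pos49 hδ N
  unfold dl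
  exact div_nonneg hδ.le (by linarith)

lemma dl_le_one {δ : ℝ} (hδ : 0 < δ) (N : ℝ) : dl δ N ≤ 1 := by
  have d1 := den_pos49 hδ N
  unfold dl
  exact (div_le_one (by linarith)).mpr d1

lemma dl_lip {δ : ℝ} (hδ : 0 < δ) (N N' : ℝ) : |dl δ N - dl δ N'| ≤ |N - N'| / δ := by
  have d1 := den_pos49 hδ N
  have d2 := den_pos49 hδ N'
  have h := max_lip N N' δ
  unfold dl
  set M := max N 0 + δ
  set M' := max N' 0 + δ
  have hM : 0 < M := by linarith
  have hM' : 0 < M' := by linarith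
  have e : δ / M - δ / M' = δ * (M' - M) / (M * M') := by field_simp
  rw [e, abs_div, abs_mul, abs_of_pos hδ, abs_of_pos (mul_pos hM hM'),
    div_le_div_iff₀ (mul_pos hM hM') hδ, abs_sub_comm M' M]
  have h1 : δ * δ ≤ M * M' := mul_le_mul d1 d2 hδ.le hM.le
  have h2 := abs_nonneg (M - M')
  calc δ * |M - M'| * δ = |M - M'| * (δ * δ) := by ring
    _ ≤ |N - N'| * (M * M') := mul_le_mul h h1 (by positivity) (abs_nonneg _)

lemma Rr_of_le {δ z N : ℝ} (hδ : 0 < δ) (h : |z| ≤ N) : Rr δ z N = z / (N + δ) := by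
  have hN : 0 ≤ N := (abs_nonneg _).trans h
  unfold Rr
  rw [max_eq_left hN]
  refine clip_of_abs ?_
  rw [abs_div, abs_of_pos (show 0 < N + δ by linarith)]
  exact (div_le_one (by linarith)).mpr (by linarith)

lemma Rr_xmono {δ : ℝ} (hδ : 0 < δ) {z N θ e s : ℝ} (h : |z| ≤ N) (h' : |θ| ≤ e) (s0 : 0 ≤ s) :
    Rr δ z N ≤ Rr δ (z + s * e) (N + s * θ) := by
  have hN : 0 ≤ N := (abs_nonneg _).trans h
  have he : 0 ≤ e := (abs_nonneg _).trans h'
  obtain ⟨z1, z2⟩ := abs_le.mp h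
  obtain ⟨t1, t2⟩ := abs_le.mp h'
  unfold Rr
  refine clip_mono 1 ?_
  have d1 := den_pos49 hδ (N + s * θ)
  rw [max_eq_left hN, div_le_div_iff₀ (by linarith) (by linarith)]
  rcases le_total 0 (N + s * θ) with h1 | h1
  · rw [max_eq_left h1]
    have h2 : z * θ ≤ N * e := by
      calc z * θ ≤ |z * θ| := le_abs_self _
        _ = |z| * |θ| := abs_mul _ _
        _ ≤ N * e := mul_le_mul h h' (abs_nonneg _) hN
    have h3 : s * (z * θ) ≤ s * (N * e) := mul_le_mul_of_nonneg_left h2 s0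
    have h4 : 0 ≤ s * e * δ := by positivity
    nlinarith
  · rw [max_eq_right h1]
    have h2 : N ≤ s * e := by
      have : s * (-θ) ≤ s * e := mul_le_mul_of_nonneg_left (by linarith) s0
      linarith
    have h3 : N * N ≤ s * e * N := mul_le_mul_of_nonneg_right h2 hN
    have h4 : 0 ≤ s * e * δ := by positivity
    have h5 : -(N * N) ≤ z * N := by
      have := mul_le_mul_of_nonneg_right z1 hN
      linarith
    nlinarith

lemma Rr_hyp {δ P Q t : ℝ} (hδ : 0 < δ) (h : |P| ≤ Q) (t0 : 0 ≤ t) (t1 : t ≤ 1 / 2) :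
    |Rr δ (P + t * Q) (Q + t * P) - (Rr δ P Q + t * (1 - (Rr δ P Q) ^ 2))| ≤
      2 * (t * dl δ Q) + 2 * t ^ 2 := by
  have hQ : 0 ≤ Q := (abs_nonneg _).trans h
  obtain ⟨p1, p2⟩ := abs_le.mp h
  have a1 : t * P ≤ t * Q := mul_le_mul_of_nonneg_left p2 t0
  have a2 : -(t * Q) ≤ t * P := by
    have := mul_le_mul_of_nonneg_left p1 t0
    linarith
  have a3 : t * Q ≤ 1 / 2 * Q := mul_le_mul_of_nonneg_right t1 hQ
  have h2 : |P + t * Q| ≤ Q + t * P := by
    rw [abs_le]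
    have b1 : 0 ≤ (1 - t) * (Q - P) := mul_nonneg (by linarith) (by linarith)
    have b2 : 0 ≤ (1 + t) * (Q + P) := mul_nonneg (by linarith) (by linarith)
    constructor <;> nlinarith
  rw [Rr_of_le hδ h2, Rr_of_le hδ h]
  unfold dl
  rw [max_eq_left hQ]
  obtain ⟨M, hM⟩ : ∃ M, M = Q + δ := ⟨_, rfl⟩
  have hMp : 0 < M := by linarith
  obtain ⟨x, hx⟩ : ∃ x, x = P / M := ⟨_, rfl⟩
  obtain ⟨r, hr⟩ : ∃ r, r = δ / M := ⟨_, rfl⟩
  have ex : P = x * M := by rw [hx]; field_simp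
  have er : δ = r * M := by rw [hr]; field_simp
  have eQ : Q = M - r * M := by rw [← er]; linarith
  have r0 : 0 ≤ r := by rw [hr]; positivity
  have x1 : |x| ≤ 1 := by
    rw [hx, abs_div, abs_of_pos hMp]
    exact (div_le_one hMp).mpr (by linarith)
  obtain ⟨x2, x3⟩ := abs_le.mp x1
  have tx1 : t * x ≤ t * 1 := mul_le_mul_of_nonneg_left x3 t0
  have tx2 : t * (-1) ≤ t * x := mul_le_mul_of_nonneg_left x2 t0
  have hden : 1 / 2 ≤ 1 + t * x := by linarith
  have hden0 : 0 < 1 + t * x := by linarith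
  have hsum : Q + t * P + δ = M * (1 + t * x) := by rw [ex, eQ]; linarith [er]
  rw [← hM, ← hx, ← hr, hsum]
  have hnum : P + t * Q = M * (x + t - t * r) := by rw [ex, eQ]; ring
  rw [hnum, mul_div_mul_left _ _ hMp.ne']
  have e1 : (x + t - t * r) / (1 + t * x) - (x + t * (1 - x ^ 2)) =
      -((t * r + t ^ 2 * (x * (1 - x ^ 2))) / (1 + t * x)) := by
    have hne := hden0.ne'
    rw [eq_neg_iff_add_eq_zero, sub_add_eq_add_sub, ← add_div, sub_eq_zero, div_eq_iff hne]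
    ring
  rw [e1, abs_neg, abs_div, abs_of_pos hden0, div_le_iff₀ hden0]
  have x4 : |x * (1 - x ^ 2)| ≤ 1 := by
    have c1 : 0 ≤ 1 - x ^ 2 := by nlinarith
    have c2 : 1 - x ^ 2 ≤ 1 := by nlinarith [sq_nonneg x]
    rw [abs_mul, abs_of_nonneg c1]
    nlinarith [abs_nonneg x]
  have x5 : |t * r + t ^ 2 * (x * (1 - x ^ 2))| ≤ t * r + t ^ 2 := by
    have c1 : |t * r| = t * r := abs_of_nonneg (mul_nonneg t0 r0)
    have c2 : |t ^ 2 * (x * (1 - x ^ 2))| ≤ t ^ 2 := by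
      rw [abs_mul, abs_of_nonneg (sq_nonneg t)]
      have := mul_le_mul_of_nonneg_left x4 (sq_nonneg t)
      linarith
    have := abs_add_le (t * r) (t ^ 2 * (x * (1 - x ^ 2)))
    linarith
  refine x5.trans ?_
  have c3 : 0 ≤ 2 * (t * r) + 2 * t ^ 2 := by
    have := mul_nonneg t0 r0
    positivity
  have := mul_le_mul_of_nonneg_left hden c3
  linarith

/-- The regularised certificate is a test function. -/
theorem exists_testF {n : ℕ} {c : ℝ → ℝ → ℝ} (hc : Cert n c) :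
    ∃ C : ℝ, 0 ≤ C ∧ ∀ δ : ℝ, 0 < δ → ∃ L : ℝ, TestF L (Fd c δ) (Bd n c C δ) := by
  obtain ⟨C1, C10, hl⟩ := hc.lip
  obtain ⟨C2, C20, heu⟩ := hc.euler
  refine ⟨2 * C1, by positivity, fun δ hδ => ?_⟩
  have n0 : (0 : ℝ) ≤ n := Nat.cast_nonneg n
  obtain ⟨A1, hA1⟩ : ∃ A1, A1 = C1 / δ := ⟨_, rfl⟩
  obtain ⟨A2, hA2⟩ : ∃ A2, A2 = 4 * C1 + C2 := ⟨_, rfl⟩
  obtain ⟨A3, hA3⟩ : ∃ A3, A3 = 4 * n + 4 * C1 := ⟨_, rfl⟩
  obtain ⟨A4, hA4⟩ : ∃ A4, A4 = (2 * n + 2 * n * C1 + 2 * C1) / δ := ⟨_, rfl⟩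
  have A10 : 0 ≤ A1 := by rw [hA1]; positivity
  have A20 : 0 ≤ A2 := by rw [hA2]; positivity
  have A30 : 0 ≤ A3 := by rw [hA3]; positivity
  have A40 : 0 ≤ A4 := by rw [hA4]; positivity
  have key : ∀ z N θ e z' N' θ' e' : ℝ, |Rr δ z N - Rr δ z' N'| + |Rr δ θ e - Rr δ θ' e'| ≤
      (|z - z'| + |N - N'| + |θ - θ'| + |e - e'|) / δ := by
    intro z N θ e z' N' θ' e'
    have h1 := Rr_lip hδ z N z' N'
    have h2 := Rr_lip hδ θ e θ' e'
    have e1 : (|z - z'| + |N - N'| + |θ - θ'| + |e - e'|) / δ =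
        (|z - z'| + |N - N'|) / δ + (|θ - θ'| + |e - e'|) / δ := by rw [← add_div]; ring
    linarith
  have keyF : ∀ z N θ e z' N' θ' e' : ℝ, |Fd c δ z N θ e - Fd c δ z' N' θ' e'| ≤
      A1 * (|z - z'| + |N - N'| + |θ - θ'| + |e - e'|) := by
    intro z N θ e z' N' θ' e'
    refine (hl _ _ _ _).trans ((mul_le_mul_of_nonneg_left (key z N θ e z' N' θ' e') C10).trans
      (le_of_eq ?_))
    rw [hA1]; ring
  refine ⟨A1 + A2 + A3 + A4, ?_⟩
  refine ⟨by positivity, fun z N θ e => hc.bd _ _, ?_, ?_, ?_, ?_, ?_, ?_⟩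
  · intro z N θ e z' N' θ' e'
    refine (keyF z N θ e z' N' θ' e').trans ?_
    refine mul_le_mul_of_nonneg_right (by linarith) (by positivity)
  · intro z N e θ θ' h
    refine hc.mono2 _ ?_
    refine clip_mono 1 ?_
    have := den_pos49 hδ e
    gcongr
  · intro z N θ θ2 e s h h' s0
    exact hc.mono1 _ (Rr_xmono hδ h h' s0)
  · intro P Q θ e t hP hθ t0 t1
    have E1 := (abs_le.mp (heu (Rr δ P Q) (Rr δ θ e) t (abs_Rr_le _ _ _) (abs_Rr_le _ _ _) t0 t1)).1
    have E2 := (abs_le.mp (hl (Rr δ P Q + t * (1 - Rr δ P Q ^ 2)) (Rr δ (P + t * Q) (Q + t * P))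
      (Rr δ θ e - t * (1 - Rr δ θ e ^ 2)) (Rr δ (θ - t * e) (e - t * θ)))).2
    have H1 := Rr_hyp hδ hP t0 t1
    have H2 := Rr_hyp (P := -θ) (Q := e) hδ (by rw [abs_neg]; exact hθ) t0 t1
    have e1 : -θ + t * e = -(θ - t * e) := by ring
    have e2 : e + t * -θ = e - t * θ := by ring
    rw [e1, e2, Rr_neg, Rr_neg] at H2
    have H2' : |(Rr δ θ e - t * (1 - Rr δ θ e ^ 2)) - Rr δ (θ - t * e) (e - t * θ)| ≤
        2 * (t * dl δ e) + 2 * t ^ 2 := by
      refine le_trans (le_of_eq ?_) H2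
      congr 1
      ring
    rw [abs_sub_comm] at H1
    have H3 := mul_le_mul_of_nonneg_left (add_le_add H1 H2') C10
    show c (Rr δ P Q) (Rr δ θ e) + t * (n * (|Rr δ θ e| - |Rr δ P Q|) - n * (Rr δ θ e - Rr δ P Q) *
      c (Rr δ P Q) (Rr δ θ e) - 2 * C1 * (dl δ Q + dl δ e)) ≤
      c (Rr δ (P + t * Q) (Q + t * P)) (Rr δ (θ - t * e) (e - t * θ)) +
        (A1 + A2 + A3 + A4) * t ^ 2
    have e3 : (4 * C1 + C2) * t ^ 2 ≤ (A1 + A2 + A3 + A4) * t ^ 2 :=
      mul_le_mul_of_nonneg_right (by linarith) (sq_nonneg t)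
    linarith
  · intro z N θ e
    have x1 := abs_Rr_le δ z N
    have y1 := abs_Rr_le δ θ e
    have c1 := hc.bd (Rr δ z N) (Rr δ θ e)
    have d1 := dl_nonneg hδ N
    have d2 := dl_nonneg hδ e
    have d3 := dl_le_one hδ N
    have d4 := dl_le_one hδ e
    unfold Bd
    set x := Rr δ z N
    set y := Rr δ θ e
    set k := c x y
    have h1 : |(y - x) * k| ≤ 2 := by
      rw [abs_mul]
      have a1 : |y - x| ≤ 2 := (abs_sub _ _).trans (by linarith)
      calc |y - x| * |k| ≤ 2 * 1 := mul_le_mul a1 c1 (abs_nonneg _) (by norm_num)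
        _ = 2 := by norm_num
    have h2 : |(|y| - |x|)| ≤ 1 := by
      have a1 := abs_nonneg x
      have a2 := abs_nonneg y
      rw [abs_le]; constructor <;> linarith
    have h3 : |(n : ℝ) * (|y| - |x|)| ≤ n := by
      rw [abs_mul, abs_of_nonneg n0]
      have := mul_le_mul_of_nonneg_left h2 n0
      linarith
    have h4 : |(n : ℝ) * (y - x) * k| ≤ 2 * n := by
      rw [mul_assoc, abs_mul, abs_of_nonneg n0]
      have := mul_le_mul_of_nonneg_left h1 n0
      linarith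
    have h5 : |2 * C1 * (dl δ N + dl δ e)| ≤ 4 * C1 := by
      rw [abs_of_nonneg (by positivity)]
      have := mul_le_mul_of_nonneg_left (add_le_add d3 d4) (show 0 ≤ 2 * C1 by positivity)
      linarith
    have h6 := abs_le.mp h3
    have h7 := abs_le.mp h4
    have h8 := abs_le.mp h5
    rw [abs_le]
    constructor <;> linarith
  · intro z N θ e z' N' θ' e'
    have K := key z N θ e z' N' θ' e'
    have D1 := dl_lip hδ N N'
    have D2 := dl_lip hδ e e'
    have x1 := abs_Rr_le δ z N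
    have y1 := abs_Rr_le δ θ e
    have x1' := abs_Rr_le δ z' N'
    have y1' := abs_Rr_le δ θ' e'
    have c1 := hc.bd (Rr δ z N) (Rr δ θ e)
    have l1 := hl (Rr δ z N) (Rr δ z' N') (Rr δ θ e) (Rr δ θ' e')
    unfold Bd
    set x := Rr δ z N
    set y := Rr δ θ e
    set x' := Rr δ z' N'
    set y' := Rr δ θ' e'
    set k := c x y
    set k' := c x' y'
    obtain ⟨S, hS⟩ : ∃ S, S = |z - z'| + |N - N'| + |θ - θ'| + |e - e'| := ⟨_, rfl⟩
    rw [← hS] at K ⊢
    have S0 : 0 ≤ S := by rw [hS]; positivity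
    have D3 : |dl δ N - dl δ N'| + |dl δ e - dl δ e'| ≤ S / δ := by
      have : |N - N'| / δ + |e - e'| / δ ≤ S / δ := by
        rw [← add_div]
        gcongr
        rw [hS]
        have := abs_nonneg (z - z')
        have := abs_nonneg (θ - θ')
        linarith
      linarith
    obtain ⟨q, hq⟩ : ∃ q, q = S / δ := ⟨_, rfl⟩
    rw [← hq] at K D3
    have q0 : 0 ≤ q := by rw [hq]; positivity
    have m1 : |(|y| - |x|) - (|y'| - |x'|)| ≤ q := by
      have a1 := abs_abs_sub_abs_le_abs_sub y y'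
      have a2 := abs_abs_sub_abs_le_abs_sub x x'
      have a3 : (|y| - |x|) - (|y'| - |x'|) = (|y| - |y'|) - (|x| - |x'|) := by ring
      rw [a3]
      refine (abs_sub _ _).trans ?_
      linarith
    have m2 : |(y - x) * k - (y' - x') * k'| ≤ q + 2 * (C1 * q) := by
      have a1 : (y - x) * k - (y' - x') * k' = ((y - y') - (x - x')) * k + (y' - x') * (k - k') := by
        ring
      rw [a1]
      refine (abs_add_le _ _).trans ?_
      rw [abs_mul, abs_mul]
      have a2 : |(y - y') - (x - x')| ≤ q := (abs_sub _ _).trans (by linarith)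
      have a3 : |y' - x'| ≤ 2 := (abs_sub _ _).trans (by linarith)
      have a4 : |k - k'| ≤ C1 * q := l1.trans (mul_le_mul_of_nonneg_left K C10)
      have a5 : |(y - y') - (x - x')| * |k| ≤ q * 1 := mul_le_mul a2 c1 (abs_nonneg _) q0
      have a6 : |y' - x'| * |k - k'| ≤ 2 * (C1 * q) := mul_le_mul a3 a4 (abs_nonneg _) (by norm_num)
      linarith
    have m3 : |(dl δ N + dl δ e) - (dl δ N' + dl δ e')| ≤ q := by
      have a1 : (dl δ N + dl δ e) - (dl δ N' + dl δ e') = (dl δ N - dl δ N') + (dl δ e - dl δ e') := by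
        ring
      rw [a1]
      exact (abs_add_le _ _).trans D3
    have w1 : |(n : ℝ) * ((|y| - |x|) - (|y'| - |x'|))| ≤ n * q := by
      rw [abs_mul, abs_of_nonneg n0]
      exact mul_le_mul_of_nonneg_left m1 n0
    have w2 : |(n : ℝ) * ((y - x) * k - (y' - x') * k')| ≤ n * (q + 2 * (C1 * q)) := by
      rw [abs_mul, abs_of_nonneg n0]
      exact mul_le_mul_of_nonneg_left m2 n0
    have w3 : |2 * C1 * ((dl δ N + dl δ e) - (dl δ N' + dl δ e'))| ≤ 2 * C1 * q := by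
      rw [abs_mul, abs_of_nonneg (show 0 ≤ 2 * C1 by positivity)]
      exact mul_le_mul_of_nonneg_left m3 (by positivity)
    have fin : (2 * n + 2 * n * C1 + 2 * C1) * q ≤ (A1 + A2 + A3 + A4) * S := by
      have : (2 * n + 2 * n * C1 + 2 * C1) * q = A4 * S := by rw [hq, hA4]; ring
      rw [this]
      exact mul_le_mul_of_nonneg_right (by linarith) S0
    have v1 := abs_le.mp w1
    have v2 := abs_le.mp w2
    have v3 := abs_le.mp w3
    refine le_trans ?_ fin
    rw [abs_le]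
    constructor <;> linarith

end Pool.Agent.FR
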