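import Pool.Agent.Lib.MP_725e58_gt.FS.Def41
import Pool.Agent.Lib.MP_725e58_gt.FS.GenI49
import Pool.Agent.Lib.MP_725e58_gt.FS.Tst49

/-! The limit `δ → 0` in the regularised certificate inequality. -/

set_option autoImplicit false

namespace Pool.Agent.FR

open MeasureTheory Set Filter Topology
open scoped ENNReal NNReal

lemma abs_Rr (δ z N : ℝ) : |Rr δ z N| ≤ 1 := abs_clip_le zero_le_one _

lemma abs_ratio {z N : ℝ} (h : |z| ≤ N) : |z / N| ≤ 1 := by
  have hN : 0 ≤ N := (abs_nonneg z).trans h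
  rcases hN.eq_or_lt with h0 | h0
  · rw [← h0, div_zero, abs_zero]; exact zero_le_one
  · rw [abs_div, abs_of_pos h0, div_le_one h0]; exact h

lemma tendsto_Rr {z N : ℝ} (h : |z| ≤ N) :
    Tendsto (fun δ => Rr δ z N) (𝓝[>] 0) (𝓝 (z / N)) := by
  have hN : 0 ≤ N := (abs_nonneg z).trans h
  rcases hN.eq_or_lt with h0 | h0
  · have hz : z = 0 := by rw [← h0] at h; exact abs_nonpos_iff.mp h
    have : (fun δ => Rr δ z N) = fun _ => z / N := by
      funext δ
      unfold Rr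
      rw [hz, zero_div, zero_div]
      exact clip_of_abs (by simp)
    rw [this]
    exact tendsto_const_nhds
  · have h1 : Tendsto (fun δ : ℝ => z / (max N 0 + δ)) (𝓝 0) (𝓝 (z / N)) := by
      have : Tendsto (fun δ : ℝ => z / (max N 0 + δ)) (𝓝 0) (𝓝 (z / (max N 0 + 0))) := by
        apply ContinuousAt.tendsto
        refine ContinuousAt.div continuousAt_const (by fun_prop) ?_
        rw [max_eq_left hN, add_zero]; exact h0.ne'
      have e : z / (max N 0 + 0) = z / N := by rw [max_eq_left hN, add_zero]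
      rwa [e] at this
    have h2 := ((continuous_clip 1).tendsto (z / N)).comp
      (h1.mono_left (nhdsWithin_le_nhds (s := Ioi 0)))
    rw [clip_of_abs (abs_ratio h)] at h2
    exact h2

lemma tendsto_err {N : ℝ} (h : 0 < N) :
    Tendsto (fun δ : ℝ => δ / (max N 0 + δ)) (𝓝[>] 0) (𝓝 0) := by
  have : Tendsto (fun δ : ℝ => δ / (max N 0 + δ)) (𝓝 0) (𝓝 (0 / (max N 0 + 0))) := by
    apply ContinuousAt.tendsto
    refine ContinuousAt.div continuousAt_id (by fun_prop) ?_
    rw [max_eq_left h.le, add_zero]; exact h.ne'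
  rw [zero_div] at this
  exact this.mono_left nhdsWithin_le_nhds

lemma err_mem {N δ : ℝ} (h : 0 < δ) : |δ / (max N 0 + δ)| ≤ 1 := by
  have h1 : 0 ≤ max N 0 := le_max_right _ _
  rw [abs_of_nonneg (by positivity), div_le_one (by positivity)]
  linarith

namespace Frame

variable {V : Type*} [NormedAddCommGroup V] [NormedSpace ℝ V] (F : Frame V)

lemma h_abs_le41 (y : V) : |F.h y| ≤ F.N y := by
  obtain ⟨a, ha, b, hb, hy, hN⟩ := F.dec y
  have h1 := F.h_nonneg ha
  have h2 := F.h_nonneg hb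
  rw [hN, hy, map_sub, abs_le]
  constructor <;> linarith

lemma abs_W_le {p : V × V} (h1 : p.1 ∈ F.G) (h2 : p.2 ∈ F.G)
    (hs : F.Sup (F.gr (p.1 - p.2)) (p.1 - p.2)) : |F.W p| ≤ F.gE p := by
  have e1 := hs.2
  rw [map_sub] at e1
  have a1 := abs_le.mp (Sup.abs_le F hs h1)
  have a2 := abs_le.mp (Sup.abs_le F hs h2)
  have : F.W p = F.gr (p.1 - p.2) p.1 + F.gr (p.1 - p.2) p.2 - (F.h p.1 - F.h p.2) := by
    simp only [W, u, zero_smul, add_zero, map_add, map_sub]
  have e3 : F.gE p = F.h p.1 + F.h p.2 - F.N (p.1 - p.2) := by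
    simp only [gE, map_add]
  rw [this, e3, abs_le]
  constructor <;> linarith [a1.1, a1.2, a2.1, a2.2]

lemma N_sub_le_of_shift {a b g : V} (ha : a - g ∈ F.G) (hb : b - g ∈ F.G) :
    F.N (a - b) ≤ F.h a + F.h b - 2 * F.h g := by
  have := F.N_le ha hb
  rw [sub_sub_sub_cancel_right, map_sub, map_sub] at this
  linarith

lemma convex_G : Convex ℝ F.G := by
  intro x hx y hy s t hs ht _
  exact F.add_mem (F.smul_mem hs hx) (F.smul_mem ht hy)

lemma shift_mem {a g : V} (ha : a ∈ interior F.G) : ∀ᶠ s : ℝ in 𝓝[>] 0, a - s • g ∈ F.G := by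
  have h1 : Tendsto (fun s : ℝ => a - s • g) (𝓝 0) (𝓝 (a - (0:ℝ) • g)) := by
    apply Continuous.tendsto
    fun_prop
  rw [zero_smul, sub_zero] at h1
  have h2 := h1.mono_left (nhdsWithin_le_nhds (s := Ioi 0))
  exact h2.eventually (Filter.mem_of_superset (isOpen_interior.mem_nhds ha) interior_subset)

variable [FiniteDimensional ℝ V] [MeasurableSpace V] [BorelSpace V] (ν : Measure V)
  [ν.IsAddHaarMeasure]
variable {n : ℕ} {Z : ℝ}

omit [FiniteDimensional ℝ V] [ν.IsAddHaarMeasure] in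
lemma exists_pos (n0 : 0 < n) (hM : F.Mom ν n Z) : ∃ g ∈ F.G, 0 < F.h g := by
  by_contra hcon
  push Not at hcon
  have h1 := hM.mom 1 1 one_pos
  have h2 : ∫⁻ a, ENNReal.ofReal (F.h a ^ 1) ∂(F.ex ν 1) = 0 := by
    rw [lintegral_eq_zero_iff ((F.measurable_h.pow_const 1).ennreal_ofReal)]
    filter_upwards [F.ex_ae_mem ν 1] with a ha
    rw [pow_one]
    exact ENNReal.ofReal_of_nonpos (hcon a ha)
  rw [h2] at h1
  have h3 : 0 < Z * (n.ascFactorial 1 : ℝ) / 1 ^ (n + 1) := by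
    have := hM.Zpos
    have h4 : 0 < n.ascFactorial 1 := by
      rw [Nat.ascFactorial_succ, Nat.ascFactorial_zero]; omega
    positivity
  have := (ENNReal.ofReal_pos.mpr h3).ne'
  exact this h1.symm

lemma ae_h_ne (n0 : 0 < n) (hM : F.Mom ν n Z) : ∀ᵐ y ∂ν, F.h y ≠ 0 := by
  obtain ⟨g, -, hg⟩ := F.exists_pos ν n0 hM
  have h1 : LinearMap.ker (F.h : V →ₗ[ℝ] ℝ) ≠ ⊤ := by
    intro h
    have : g ∈ LinearMap.ker (F.h : V →ₗ[ℝ] ℝ) := by rw [h]; trivial
    exact hg.ne' this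
  have h2 := Measure.addHaar_submodule ν _ h1
  rw [ae_iff]
  refine measure_mono_null ?_ h2
  intro y hy
  exact not_not.mp hy

lemma ae_N_pos (n0 : 0 < n) (hM : F.Mom ν n Z) :
    ∀ᵐ p ∂((F.ex ν 1).prod (F.ex ν 1)), 0 < F.N (p.1 - p.2) := by
  have h1 := ae_comb ν (t := 0) one_pos (F.ae_h_ne ν n0 hM)
  filter_upwards [(F.prod_ac ν 1 1).ae_le h1] with p hp
  rw [zero_smul, add_zero] at hp
  exact (abs_pos.mpr hp).trans_le (F.h_abs_le41 _)

lemma ae_interior : ∀ᵐ a ∂(F.ex ν 1), a ∈ interior F.G := by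
  have h1 : ν (frontier F.G) = 0 := F.convex_G.addHaar_frontier ν
  have h2 : ∀ᵐ a ∂ν, a ∉ frontier F.G := by
    rw [ae_iff]
    simpa using h1
  filter_upwards [F.ex_ae_mem ν 1, (F.ex_ac ν 1).ae_le h2] with a ha hf
  by_contra hn
  exact hf ⟨subset_closure ha, hn⟩

lemma ae_gE_pos (n0 : 0 < n) (hM : F.Mom ν n Z) :
    ∀ᵐ p ∂((F.ex ν 1).prod (F.ex ν 1)), 0 < F.gE p := by
  obtain ⟨g, hg, hg0⟩ := F.exists_pos ν n0 hM
  filter_upwards [Measure.quasiMeasurePreserving_fst.ae (F.ae_interior ν),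
    Measure.quasiMeasurePreserving_snd.ae (F.ae_interior ν)] with p h1 h2
  obtain ⟨s, ⟨hs1, hs2⟩, hs0⟩ := ((F.shift_mem (g := g) h1).and (F.shift_mem (g := g) h2)).and
    (self_mem_nhdsWithin (s := Ioi (0:ℝ))) |>.exists
  have hs0 : 0 < s := hs0
  have := F.N_sub_le_of_shift hs1 hs2
  rw [map_smul, smul_eq_mul] at this
  have e3 : F.gE p = F.h p.1 + F.h p.2 - F.N (p.1 - p.2) := by
    simp only [gE, map_add]
  rw [e3]
  have : 0 < s * F.h g := by positivity
  linarith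

/-- Module C: the certificate inequality from its regularised form. -/
theorem cert_ineq_of (n0 : 0 < n) (hM : F.Mom ν n Z) {c : ℝ → ℝ → ℝ} (hc : Cert n c)
    {C : ℝ} (hC : 0 ≤ C)
    (H : ∀ δ : ℝ, 0 < δ →
      ∫ p : V × V, 2 * F.gr p.1 p.2 * c (Rr δ (F.h p.1) (F.N p.1))
          (Rr δ (2 * F.gr p.1 p.2) (2 * F.h p.2)) ∂((F.eN ν).prod (F.ex ν 2)) ≤
        ∫ p : V × V, (F.h (p.1 - p.2) * c (Rr δ (F.h (p.1 - p.2)) (F.N (p.1 - p.2)))
          (Rr δ (F.W p) (F.gE p)) -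
          (n * (|Rr δ (F.W p) (F.gE p)| - |Rr δ (F.h (p.1 - p.2)) (F.N (p.1 - p.2))|) -
            n * (Rr δ (F.W p) (F.gE p) - Rr δ (F.h (p.1 - p.2)) (F.N (p.1 - p.2))) *
              c (Rr δ (F.h (p.1 - p.2)) (F.N (p.1 - p.2))) (Rr δ (F.W p) (F.gE p)) -
            C * (δ / (max (F.N (p.1 - p.2)) 0 + δ) + δ / (max (F.gE p) 0 + δ))))
          ∂((F.ex ν 1).prod (F.ex ν 1))) :
    ∫ p : V × V, 2 * F.gr p.1 p.2 * F.rc c p ∂((F.eN ν).prod (F.ex ν 2)) ≤
      ∫ p : V × V, (F.h (p.1 - p.2) * F.gc c p -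
        (n * (|F.gY p| - |F.gX p|) - n * (F.gY p - F.gX p) * F.gc c p))
        ∂((F.ex ν 1).prod (F.ex ν 1)) := by
  have f1 := F.eN_finite ν hM
  have f2 := Mom.finite_ex F hM (s := 2) two_pos
  have f3 := Mom.finite_ex F hM (s := 1) one_pos
  have cc := hc.continuous
  have mR : ∀ (δ : ℝ) {W : Type _} [MeasurableSpace W] {f g : W → ℝ}, Measurable f → Measurable g →
      Measurable (fun w => Rr δ (f w) (g w)) := by
    intro δ W _ f g hf hg
    unfold Rr
    exact (continuous_clip 1).measurable.comp (hf.div ((hg.max measurable_const).add_const δ))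
  have mh2 : Measurable (fun p : V × V => 2 * F.h p.2) :=
    (F.measurable_h.comp measurable_snd).const_mul 2
  have mh1 : Measurable (fun p : V × V => F.h p.1) := F.measurable_h.comp measurable_fst
  have mN1 : Measurable (fun p : V × V => F.N p.1) := F.measurable_N.comp measurable_fst
  have mg : Measurable (fun p : V × V => 2 * F.gr p.1 p.2) := F.measurable_gr_pair.const_mul 2
  have T1 : Tendsto (fun δ : ℝ => ∫ p : V × V, 2 * F.gr p.1 p.2 * c (Rr δ (F.h p.1) (F.N p.1))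
          (Rr δ (2 * F.gr p.1 p.2) (2 * F.h p.2)) ∂((F.eN ν).prod (F.ex ν 2))) (𝓝[>] 0)
      (𝓝 (∫ p : V × V, 2 * F.gr p.1 p.2 * F.rc c p ∂((F.eN ν).prod (F.ex ν 2)))) := by
    have ih : Integrable (fun p : V × V => 2 * F.h p.2) ((F.eN ν).prod (F.ex ν 2)) := by
      have := (Mom.integrable_pow F hM 1 (s := 2) two_pos).comp_snd (F.eN ν)
      simp only [pow_one] at this
      exact this.const_mul 2
    refine tendsto_integral_filter_of_dominated_convergence (fun p => 2 * F.h p.2) ?_ ?_ ih ?_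
    · refine Eventually.of_forall fun δ => ?_
      exact (mg.mul (cc.measurable.comp ((mR δ mh1 mN1).prodMk (mR δ mg mh2)))).aestronglyMeasurable
    · refine Eventually.of_forall fun δ => ?_
      filter_upwards [F.ae_QQs ν hM] with p ⟨hp, hs⟩
      have a1 := Sup.abs_le F hs hp
      have a2 := hc.bd (Rr δ (F.h p.1) (F.N p.1)) (Rr δ (2 * F.gr p.1 p.2) (2 * F.h p.2))
      rw [Real.norm_eq_abs, abs_mul, abs_mul, abs_two]
      calc _ ≤ 2 * F.h p.2 * 1 := by
            gcongr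
            exact mul_nonneg zero_le_two (F.h_nonneg hp)
        _ = _ := mul_one _
    · filter_upwards [F.ae_QQs ν hM] with p ⟨hp, hs⟩
      have a1 := Sup.abs_le F hs hp
      have t1 := tendsto_Rr (F.h_abs_le41 p.1)
      have t2 := tendsto_Rr (z := 2 * F.gr p.1 p.2) (N := 2 * F.h p.2) (by
        rw [abs_mul, abs_two]; linarith)
      have t3 := (cc.tendsto (F.h p.1 / F.N p.1, 2 * F.gr p.1 p.2 / (2 * F.h p.2))).comp
        (t1.prodMk_nhds t2)
      exact t3.const_mul _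
  have T2 : Tendsto (fun δ : ℝ => ∫ p : V × V,
      (F.h (p.1 - p.2) * c (Rr δ (F.h (p.1 - p.2)) (F.N (p.1 - p.2)))
          (Rr δ (F.W p) (F.gE p)) -
          (n * (|Rr δ (F.W p) (F.gE p)| - |Rr δ (F.h (p.1 - p.2)) (F.N (p.1 - p.2))|) -
            n * (Rr δ (F.W p) (F.gE p) - Rr δ (F.h (p.1 - p.2)) (F.N (p.1 - p.2))) *
              c (Rr δ (F.h (p.1 - p.2)) (F.N (p.1 - p.2))) (Rr δ (F.W p) (F.gE p)) -
            C * (δ / (max (F.N (p.1 - p.2)) 0 + δ) + δ / (max (F.gE p) 0 + δ))))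
          ∂((F.ex ν 1).prod (F.ex ν 1))) (𝓝[>] 0)
      (𝓝 (∫ p : V × V, (F.h (p.1 - p.2) * F.gc c p -
        (n * (|F.gY p| - |F.gX p|) - n * (F.gY p - F.gX p) * F.gc c p))
        ∂((F.ex ν 1).prod (F.ex ν 1)))) := by
    have ib : Integrable (fun p : V × V => (F.h p.1 + F.h p.2) + (3 * n + 2 * C))
        ((F.ex ν 1).prod (F.ex ν 1)) := hM.integrable_hh.add (integrable_const _)
    refine tendsto_integral_filter_of_dominated_convergence
      (fun p => (F.h p.1 + F.h p.2) + (3 * n + 2 * C)) ?_ ?_ ib ?_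
    · refine Eventually.of_forall fun δ => ?_
      have mX := mR δ F.measurable_hsub F.measurable_Nsub
      have mY := mR δ F.measurable_W F.measurable_gE
      have mc : Measurable (fun p : V × V => c (Rr δ (F.h (p.1 - p.2)) (F.N (p.1 - p.2)))
          (Rr δ (F.W p) (F.gE p))) := cc.measurable.comp (mX.prodMk mY)
      have me : ∀ f : V × V → ℝ, Measurable f → Measurable (fun p => δ / (max (f p) 0 + δ)) :=
        fun f hf => measurable_const.div ((hf.max measurable_const).add_const δ)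
      have m1 : Measurable (fun p : V × V => (F.h (p.1 - p.2) * c (Rr δ (F.h (p.1 - p.2))
          (F.N (p.1 - p.2))) (Rr δ (F.W p) (F.gE p)) -
          (n * (|Rr δ (F.W p) (F.gE p)| - |Rr δ (F.h (p.1 - p.2)) (F.N (p.1 - p.2))|) -
            n * (Rr δ (F.W p) (F.gE p) - Rr δ (F.h (p.1 - p.2)) (F.N (p.1 - p.2))) *
              c (Rr δ (F.h (p.1 - p.2)) (F.N (p.1 - p.2))) (Rr δ (F.W p) (F.gE p)) -
            C * (δ / (max (F.N (p.1 - p.2)) 0 + δ) + δ / (max (F.gE p) 0 + δ))))) :=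
        (F.measurable_hsub.mul mc).sub (((((mY.abs).sub (mX.abs)).const_mul _).sub
          (((mY.sub mX).const_mul _).mul mc)).sub
          (((me _ F.measurable_Nsub).add (me _ F.measurable_gE)).const_mul C))
      exact m1.aestronglyMeasurable
    · filter_upwards [self_mem_nhdsWithin] with δ hδ
      filter_upwards [F.ae_prod_mem ν 1 1] with p hp
      set x := Rr δ (F.h (p.1 - p.2)) (F.N (p.1 - p.2))
      set y := Rr δ (F.W p) (F.gE p)
      have hx : |x| ≤ 1 := abs_Rr _ _ _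
      have hy : |y| ≤ 1 := abs_Rr _ _ _
      have hcb := hc.bd x y
      have a1 : |F.h (p.1 - p.2)| ≤ F.h p.1 + F.h p.2 :=
        (F.h_abs_le41 _).trans (F.N_le hp.1 hp.2)
      have a2 : |F.h (p.1 - p.2) * c x y| ≤ F.h p.1 + F.h p.2 := by
        rw [abs_mul]
        calc _ ≤ (F.h p.1 + F.h p.2) * 1 := by
              refine mul_le_mul a1 hcb (abs_nonneg _) ?_
              exact add_nonneg (F.h_nonneg hp.1) (F.h_nonneg hp.2)
          _ = _ := mul_one _
      have hn0 : (0:ℝ) ≤ n := Nat.cast_nonneg n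
      have a3 : |(n:ℝ) * (|y| - |x|)| ≤ n * 1 := by
        rw [abs_mul, abs_of_nonneg hn0]
        gcongr
        rw [abs_le]; constructor <;> linarith [abs_nonneg x, abs_nonneg y]
      have a4 : |(n:ℝ) * (y - x) * c x y| ≤ n * 2 * 1 := by
        rw [abs_mul, abs_mul, abs_of_nonneg hn0]
        have : |y - x| ≤ 2 := (abs_sub _ _).trans (by linarith)
        gcongr
      have b1 := err_mem (N := F.N (p.1 - p.2)) hδ
      have b2 := err_mem (N := F.gE p) hδ
      have a5 : |C * (δ / (max (F.N (p.1 - p.2)) 0 + δ) + δ / (max (F.gE p) 0 + δ))| ≤ C * 2 := by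
        rw [abs_mul, abs_of_nonneg hC]
        gcongr
        exact (abs_add_le _ _).trans (by linarith)
      rw [Real.norm_eq_abs]
      have c1 := abs_sub (F.h (p.1 - p.2) * c x y) (n * (|y| - |x|) - n * (y - x) * c x y -
        C * (δ / (max (F.N (p.1 - p.2)) 0 + δ) + δ / (max (F.gE p) 0 + δ)))
      have c2 := abs_sub (n * (|y| - |x|) - n * (y - x) * c x y)
        (C * (δ / (max (F.N (p.1 - p.2)) 0 + δ) + δ / (max (F.gE p) 0 + δ)))
      have c3 := abs_sub (n * (|y| - |x|)) (n * (y - x) * c x y)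
      linarith
    · filter_upwards [F.ae_prod_mem ν 1 1, F.ae_N_pos ν n0 hM, F.ae_gE_pos ν n0 hM,
        F.ae_PP0 ν hM] with p hp hN hE ⟨_, _, hs⟩
      have t1 := tendsto_Rr (F.h_abs_le41 (p.1 - p.2))
      have t2 := tendsto_Rr (F.abs_W_le hp.1 hp.2 hs)
      have t3 := (cc.tendsto (F.h (p.1 - p.2) / F.N (p.1 - p.2), F.W p / F.gE p)).comp
        (t1.prodMk_nhds t2)
      have t4 := tendsto_err hN
      have t5 := tendsto_err hE
      have t6 := (t3.const_mul (F.h (p.1 - p.2))).sub ((((t2.abs.sub t1.abs).const_mul (n:ℝ)).sub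
        (((t2.sub t1).const_mul (n:ℝ)).mul t3)).sub ((t4.add t5).const_mul C))
      rw [add_zero, mul_zero, sub_zero] at t6
      exact t6
  refine le_of_tendsto_of_tendsto T1 T2 ?_
  filter_upwards [self_mem_nhdsWithin] with δ hδ using H δ hδ

/-- Module C: the certificate inequality. -/
theorem cert_ineq (hn : Module.finrank ℝ V = n) (n0 : 0 < n) (hM : F.Mom ν n Z)
    {c : ℝ → ℝ → ℝ} (hc : Cert n c) :
    ∫ p : V × V, 2 * F.gr p.1 p.2 * F.rc c p ∂((F.eN ν).prod (F.ex ν 2)) ≤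
      ∫ p : V × V, (F.h (p.1 - p.2) * F.gc c p -
        (n * (|F.gY p| - |F.gX p|) - n * (F.gY p - F.gX p) * F.gc c p))
        ∂((F.ex ν 1).prod (F.ex ν 1)) := by
  have f3 := Mom.finite_ex F hM (s := 1) one_pos
  obtain ⟨C, hC, hT⟩ := exists_testF hc
  refine F.cert_ineq_of ν n0 hM hc hC fun δ hδ => ?_
  obtain ⟨L, T⟩ := hT δ hδ
  have g := F.gen ν T hn hM
  have i1 : Integrable (fun p : V × V => (F.h p.1 - F.h p.2) * F.wG (Fd c δ) p)
      ((F.ex ν 1).prod (F.ex ν 1)) := by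
    refine hM.integrable_hh.mono' ?_ ?_
    · exact (((F.measurable_h.comp measurable_fst).sub
        (F.measurable_h.comp measurable_snd)).mul (F.meas_wG T)).aestronglyMeasurable
    · filter_upwards [F.ae_prod_mem ν 1 1] with p hp
      have a1 : |F.h p.1 - F.h p.2| ≤ F.h p.1 + F.h p.2 := by
        have h1 := F.h_nonneg hp.1
        have h2 := F.h_nonneg hp.2
        rw [abs_le]; constructor <;> linarith
      rw [Real.norm_eq_abs, abs_mul]
      calc _ ≤ (F.h p.1 + F.h p.2) * 1 :=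
            mul_le_mul a1 (T.bd _ _ _ _) (abs_nonneg _) ((abs_nonneg _).trans a1)
        _ = _ := mul_one _
  have i2 : Integrable (fun p : V × V => F.wG (Bd n c C δ) p)
      ((F.ex ν 1).prod (F.ex ν 1)) :=
    Integrable.of_bound (F.meas_wGB T).aestronglyMeasurable L
      (Eventually.of_forall fun p => T.Bbd _ _ _ _)
  rw [← integral_sub i1 i2] at g
  have e : (fun p : V × V => (F.h p.1 - F.h p.2) * F.wG (Fd c δ) p - F.wG (Bd n c C δ) p) =
      fun p : V × V => (F.h (p.1 - p.2) * c (Rr δ (F.h (p.1 - p.2)) (F.N (p.1 - p.2)))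
          (Rr δ (F.W p) (F.gE p)) -
          (n * (|Rr δ (F.W p) (F.gE p)| - |Rr δ (F.h (p.1 - p.2)) (F.N (p.1 - p.2))|) -
            n * (Rr δ (F.W p) (F.gE p) - Rr δ (F.h (p.1 - p.2)) (F.N (p.1 - p.2))) *
              c (Rr δ (F.h (p.1 - p.2)) (F.N (p.1 - p.2))) (Rr δ (F.W p) (F.gE p)) -
            C * (δ / (max (F.N (p.1 - p.2)) 0 + δ) + δ / (max (F.gE p) 0 + δ)))) := by
    funext p
    simp only [wG, Fd, Bd, dl, W, u, gE, zero_smul, add_zero, map_sub]
  rw [e] at g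
  exact g

end Frame

end Pool.Agent.FR
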