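import Pool.Agent.Lib.MP_725e58_gt.FS.Const7
import Pool.Agent.Lib.MP_725e58_gt.FS.Dif49

/-! The sharp mean inequality for the reflection bodies of a convex body in a general space. -/

set_option autoImplicit false

namespace Pool.Agent.FR

open MeasureTheory Set Filter Topology
open scoped ENNReal NNReal
open Pool.Agent.Lib.MP_725e58_gt

section K7

variable {E : Type*} [NormedAddCommGroup E] [NormedSpace ℝ E] [FiniteDimensional ℝ E]
variable [MeasurableSpace E] [BorelSpace E] (μ : Measure E) [μ.IsAddHaarMeasure]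

variable {K : Set E} (hc : IsCompact K) (hv : Convex ℝ K) (hi : (interior K).Nonempty)

include hc hv hi in
/-- The sharp mean inequality. -/
theorem mean_RB : ∫⁻ x in K, μ (Tow.RB K x) ∂μ ≤
    ENNReal.ofReal (mc (Module.finrank ℝ E)) * (μ K) ^ 2 := by
  refine mean_RB_of μ hc hv hi rfl ?_
  rw [frameOf_E μ hc hv hi, Nat.centralBinom]
  push_cast
  ring

/-- The case of equality. -/
theorem mean_RB_eq_of
    (h : ∫⁻ p : (E × ℝ) × (E × ℝ), ENNReal.ofReal |(frameOf K hc hv hi).gr p.1 p.2|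
      ∂(((frameOf K hc hv hi).eN (μ.prod (volume : Measure ℝ))).prod
        ((frameOf K hc hv hi).ex (μ.prod (volume : Measure ℝ)) 2)) =
      ENNReal.ofReal (1 / 2) *
        ∫⁻ p, ENNReal.ofReal |(frameOf K hc hv hi).h p.1 - (frameOf K hc hv hi).h p.2|
      ∂(((frameOf K hc hv hi).ex (μ.prod (volume : Measure ℝ)) 1).prod
        ((frameOf K hc hv hi).ex (μ.prod (volume : Measure ℝ)) 1))) :
    ∫⁻ x in K, μ (Tow.RB K x) ∂μ = ENNReal.ofReal (mc (Module.finrank ℝ E)) * (μ K) ^ 2 := by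
  set d := Module.finrank ℝ E with hd
  have hKt : μ K ≠ ∞ := hc.measure_lt_top.ne
  rw [mean_RB_eq μ hc hv hi, frameOf_E_lint μ hc hv hi, ← hd,
    ← ENNReal.ofReal_mul (by norm_num)] at h
  set c : ℝ := ((d + 1).factorial : ℝ) * d.factorial / 2 ^ (d + 1) with hcdef
  have hcpos : 0 < c := by positivity
  have e1 : (1 / 2 * (2 * ((d : ℝ) + 1) * ((2 * (d + 1)).choose (d + 1) : ℕ) / 4 ^ (d + 1) *
      (d.factorial * (μ K).toReal) ^ 2)) = c * (mc d * ((μ K).toReal) ^ 2) := by
    have hf : ((d + 1).factorial : ℝ) = ((d : ℝ) + 1) * d.factorial := by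
      rw [Nat.factorial_succ]; push_cast; ring
    have e0 : ((2 * d + 2).choose (d + 1) : ℝ) = ((2 * (d + 1)).choose (d + 1) : ℝ) := by
      congr 2
    have e4 : (4 : ℝ) ^ (d + 1) = 2 ^ (d + 1) * 2 ^ (d + 1) := by
      rw [← mul_pow]; norm_num
    rw [hcdef, mc, hf, e0, e4]
    field_simp
  rw [e1, ENNReal.ofReal_mul hcpos.le] at h
  have h2 := (ENNReal.mul_right_inj (ENNReal.ofReal_pos.mpr hcpos).ne'
    ENNReal.ofReal_ne_top).mp h
  rw [h2, ENNReal.ofReal_mul (mc_nonneg d), ENNReal.ofReal_pow ENNReal.toReal_nonneg,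
    ENNReal.ofReal_toReal hKt]

end K7

end Pool.Agent.FR
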