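import Pool.Agent.Lib.MP_725e58_gt.FS.Lap59
import Pool.Agent.Lib.MP_725e58_gt.FS.Slope59
import Pool.Agent.Lib.MP_725e58_gt.FR.Emb81

/-! The cone over the standard simplex: equality in the mean slope inequality. -/

set_option autoImplicit false

namespace Pool.Agent.FR.Simp

open MeasureTheory Set Filter Topology
open scoped ENNReal NNReal

/-- the standard simplex with a vertex at the origin -/
def simp (d : ℕ) : Set (Fin d → ℝ) := {x | (∀ i, 0 ≤ x i) ∧ ∑ i, x i ≤ 1}

variable {d : ℕ}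

lemma simp_convex : Convex ℝ (simp d) := by
  rintro x ⟨hx, hx1⟩ y ⟨hy, hy1⟩ a b ha hb hab
  refine ⟨fun i => ?_, ?_⟩
  · have h1 := mul_nonneg ha (hx i)
    have h2 := mul_nonneg hb (hy i)
    simpa using add_nonneg h1 h2
  · simp only [Pi.add_apply, Pi.smul_apply, smul_eq_mul, Finset.sum_add_distrib, ← Finset.mul_sum]
    nlinarith

lemma simp_compact : IsCompact (simp d) := by
  have hsub : simp d ⊆ Set.pi univ (fun _ => Icc (0:ℝ) 1) := by
    rintro x ⟨hx, hx1⟩ i -
    refine ⟨hx i, le_trans ?_ hx1⟩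
    exact Finset.single_le_sum (f := x) (fun j _ => hx j) (Finset.mem_univ i)
  refine (isCompact_univ_pi fun _ => isCompact_Icc).of_isClosed_subset ?_ hsub
  refine IsClosed.inter ?_ ?_
  · have : {x : Fin d → ℝ | ∀ i, 0 ≤ x i} = ⋂ i, {x | 0 ≤ x i} := by ext; simp
    rw [show (fun x : Fin d → ℝ => ∀ i, 0 ≤ x i) = {x : Fin d → ℝ | ∀ i, 0 ≤ x i} from rfl, this]
    exact isClosed_iInter fun i => isClosed_le continuous_const (continuous_apply i)
  · exact isClosed_le (continuous_finset_sum _ fun i _ => continuous_apply i) continuous_const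

lemma simp_interior : (interior (simp d)).Nonempty := by
  refine ⟨fun _ => 1 / (2 * (d + 1)), ?_⟩
  rw [mem_interior]
  refine ⟨{x | (∀ i, 0 < x i) ∧ ∑ i, x i < 1}, ?_, ?_, ?_, ?_⟩
  · rintro x ⟨hx, hx1⟩
    exact ⟨fun i => (hx i).le, hx1.le⟩
  · refine IsOpen.inter ?_ ?_
    · have : {x : Fin d → ℝ | ∀ i, 0 < x i} = ⋂ i, {x | 0 < x i} := by ext; simp
      rw [show (fun x : Fin d → ℝ => ∀ i, 0 < x i) = {x : Fin d → ℝ | ∀ i, 0 < x i} from rfl, this]
      exact isOpen_iInter_of_finite fun i => isOpen_lt continuous_const (continuous_apply i)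
    · exact isOpen_lt (continuous_finset_sum _ fun i _ => continuous_apply i) continuous_const
  · intro i
    positivity
  · simp only [Finset.sum_const, Finset.card_univ, Fintype.card_fin, nsmul_eq_mul]
    rw [mul_one_div, div_lt_one (by positivity)]
    have : (0:ℝ) ≤ d := by positivity
    linarith

/-- the last barycentric coordinate -/
def u (y : (Fin d → ℝ) × ℝ) : ℝ := y.2 - ∑ i, y.1 i

lemma u_sub (y z : (Fin d → ℝ) × ℝ) : u (y - z) = u y - u z := by
  simp only [u, Prod.snd_sub, Prod.fst_sub, Pi.sub_apply, Finset.sum_sub_distrib]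
  ring

lemma mem_cone {p : (Fin d → ℝ) × ℝ} : p ∈ coneOf (simp d) ↔ (∀ i, 0 ≤ p.1 i) ∧ 0 ≤ u p := by
  constructor
  · rintro ⟨h0, x, ⟨hx, hx1⟩, hp⟩
    refine ⟨fun i => ?_, ?_⟩
    · rw [hp]; exact mul_nonneg h0 (hx i)
    · rw [u, hp]
      simp only [Pi.smul_apply, smul_eq_mul, ← Finset.mul_sum]
      nlinarith
  · rintro ⟨h1, h2⟩
    have hs : 0 ≤ ∑ i, p.1 i := Finset.sum_nonneg fun i _ => h1 i
    unfold u at h2
    have h0 : 0 ≤ p.2 := by linarith
    rcases h0.eq_or_lt with h | h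
    · have hs0 : ∑ i, p.1 i = 0 := by linarith
      have hz := (Finset.sum_eq_zero_iff_of_nonneg fun i _ => h1 i).mp hs0
      refine ⟨h0, 0, ⟨fun i => le_rfl, by simp⟩, ?_⟩
      funext i
      rw [smul_zero]
      exact hz i (Finset.mem_univ i)
    · refine ⟨h0, p.2⁻¹ • p.1, ⟨fun i => ?_, ?_⟩, ?_⟩
      · exact mul_nonneg (by positivity) (h1 i)
      · simp only [Pi.smul_apply, smul_eq_mul, ← Finset.mul_sum]
        rw [inv_mul_le_iff₀ h]
        linarith
      · rw [smul_smul, mul_inv_cancel₀ h.ne', one_smul]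

/-- the frame of the simplex -/
noncomputable def Fr (d : ℕ) : Frame ((Fin d → ℝ) × ℝ) :=
  frameOf (simp d) simp_compact simp_convex simp_interior

lemma Fr_G : (Fr d).G = coneOf (simp d) := rfl

lemma Fr_h (p : (Fin d → ℝ) × ℝ) : (Fr d).h p = p.2 := rfl

/-- the norm is the sum of the absolute values of the barycentric coordinates -/
lemma Fr_N (y : (Fin d → ℝ) × ℝ) : (Fr d).N y = (∑ i, |y.1 i|) + |u y| := by
  refine le_antisymm ?_ ?_
  · set a : (Fin d → ℝ) × ℝ := (fun i => max (y.1 i) 0, (∑ i, max (y.1 i) 0) + max (u y) 0) with ha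
    set b : (Fin d → ℝ) × ℝ := (fun i => max (-y.1 i) 0, (∑ i, max (-y.1 i) 0) + max (-u y) 0) with hb
    have hmx : ∀ t : ℝ, max t 0 - max (-t) 0 = t := by
      intro t
      rcases le_total t 0 with h | h
      · rw [max_eq_right h, max_eq_left (by linarith)]; ring
      · rw [max_eq_left h, max_eq_right (by linarith)]; ring
    have hmx' : ∀ t : ℝ, max t 0 + max (-t) 0 = |t| := by
      intro t
      rcases le_total t 0 with h | h
      · rw [max_eq_right h, max_eq_left (by linarith), abs_of_nonpos h]; ring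
      · rw [max_eq_left h, max_eq_right (by linarith), abs_of_nonneg h]; ring
    have haG : a ∈ (Fr d).G := by
      rw [Fr_G, mem_cone]
      refine ⟨fun i => le_max_right _ _, ?_⟩
      simp only [u, ha, add_sub_cancel_left]
      exact le_max_right _ _
    have hbG : b ∈ (Fr d).G := by
      rw [Fr_G, mem_cone]
      refine ⟨fun i => le_max_right _ _, ?_⟩
      simp only [u, hb, add_sub_cancel_left]
      exact le_max_right _ _
    have hab : a - b = y := by
      refine Prod.ext ?_ ?_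
      · funext i
        simp only [ha, hb, Prod.fst_sub, Pi.sub_apply]
        exact hmx _
      · simp only [ha, hb, Prod.snd_sub]
        have h1 : (∑ i, max (y.1 i) 0) - ∑ i, max (-y.1 i) 0 = ∑ i, y.1 i := by
          rw [← Finset.sum_sub_distrib]
          exact Finset.sum_congr rfl fun i _ => hmx _
        have h2 := hmx (u y)
        have h3 : u y = y.2 - ∑ i, y.1 i := rfl
        linarith
    have h := (Fr d).N_le haG hbG
    rw [hab, Fr_h, Fr_h] at h
    refine h.trans (le_of_eq ?_)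
    simp only [ha, hb]
    have h1 : (∑ i, max (y.1 i) 0) + ∑ i, max (-y.1 i) 0 = ∑ i, |y.1 i| := by
      rw [← Finset.sum_add_distrib]
      exact Finset.sum_congr rfl fun i _ => hmx' _
    have h2 := hmx' (u y)
    linarith
  · obtain ⟨a, ha, b, hb, rfl, hN⟩ := (Fr d).dec y
    rw [hN, Fr_h, Fr_h]
    rw [Fr_G, mem_cone] at ha hb
    have h1 : ∀ i, |(a - b).1 i| ≤ a.1 i + b.1 i := by
      intro i
      have e : (a - b).1 i = a.1 i - b.1 i := rfl
      have := ha.1 i
      have := hb.1 i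
      rw [e, abs_le]
      constructor <;> linarith
    have h2 : |u (a - b)| ≤ u a + u b := by
      have := ha.2
      have := hb.2
      rw [u_sub, abs_le]
      constructor <;> linarith
    have h3 : ∑ i, |(a - b).1 i| ≤ ∑ i, (a.1 i + b.1 i) := Finset.sum_le_sum fun i _ => h1 i
    rw [Finset.sum_add_distrib] at h3
    have h4 : u a = a.2 - ∑ i, a.1 i := rfl
    have h5 : u b = b.2 - ∑ i, b.1 i := rfl
    linarith

/-- the sign of a real number -/
noncomputable def sg (t : ℝ) : ℝ := (SignType.sign t : ℝ)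

/-- the last coordinate as a functional -/
noncomputable def uL : ((Fin d → ℝ) × ℝ) →L[ℝ] ℝ :=
  ContinuousLinearMap.snd ℝ (Fin d → ℝ) ℝ -
    ∑ i, (ContinuousLinearMap.proj i : (Fin d → ℝ) →L[ℝ] ℝ).comp
      (ContinuousLinearMap.fst ℝ (Fin d → ℝ) ℝ)

lemma uL_apply (y : (Fin d → ℝ) × ℝ) : uL y = u y := by
  simp [uL, u]

lemma hasFDerivAt_abs' {V : Type*} [NormedAddCommGroup V] [NormedSpace ℝ V] (L : V →L[ℝ] ℝ)
    {y : V} (hy : L y ≠ 0) : HasFDerivAt (fun y => |L y|) (sg (L y) • L) y := by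
  have h1 : HasDerivAt (fun t : ℝ => |t|) (sg (L y)) (L y) := hasDerivAt_abs hy
  exact h1.comp_hasFDerivAt y L.hasFDerivAt

lemma Fr_gr {y : (Fin d → ℝ) × ℝ} (h1 : ∀ i, y.1 i ≠ 0) (h2 : u y ≠ 0)
    (g : (Fin d → ℝ) × ℝ) :
    (Fr d).gr y g = (∑ i, sg (y.1 i) * g.1 i) + sg (u y) * u g := by
  set L : Fin d → (((Fin d → ℝ) × ℝ) →L[ℝ] ℝ) := fun i =>
    (ContinuousLinearMap.proj i : (Fin d → ℝ) →L[ℝ] ℝ).comp
      (ContinuousLinearMap.fst ℝ (Fin d → ℝ) ℝ) with hL
  have hN : (Fr d).N = fun y => (∑ i, |L i y|) + |uL y| := by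
    funext z
    rw [Fr_N, uL_apply]
    rfl
  have hd : HasFDerivAt (Fr d).N ((∑ i, sg (L i y) • L i) + sg (uL y) • uL) y := by
    rw [hN]
    refine HasFDerivAt.add ?_ (hasFDerivAt_abs' uL (by rwa [uL_apply]))
    exact HasFDerivAt.fun_sum fun i _ => hasFDerivAt_abs' (L i) (h1 i)
  have h3 : (Fr d).gr y = (∑ i, sg (L i y) • L i) + sg (uL y) • uL := hd.fderiv
  rw [h3, ContinuousLinearMap.add_apply, ContinuousLinearMap.sum_apply,
    ContinuousLinearMap.smul_apply, uL_apply, uL_apply]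
  rfl

/-- barycentric coordinates -/
def Psi (y : (Fin d → ℝ) × ℝ) : Option (Fin d) → ℝ :=
  (MeasurableEquiv.piOptionEquivProd (fun _ : Option (Fin d) => ℝ)).symm (y.1, u y)

lemma Psi_some (y : (Fin d → ℝ) × ℝ) (i : Fin d) : Psi y (some i) = y.1 i := rfl

lemma Psi_none (y : (Fin d → ℝ) × ℝ) : Psi y none = u y := rfl

lemma measurable_u : Measurable (u : (Fin d → ℝ) × ℝ → ℝ) := by
  unfold u; fun_prop

lemma measurable_sh : Measurable (fun y : (Fin d → ℝ) × ℝ => (y.1, u y)) :=
  measurable_fst.prodMk measurable_u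

lemma measurable_Psi : Measurable (Psi : (Fin d → ℝ) × ℝ → Option (Fin d) → ℝ) :=
  (MeasurableEquiv.measurable _).comp measurable_sh

lemma map_sh : ((volume : Measure (Fin d → ℝ)).prod (volume : Measure ℝ)).map
    (fun y : (Fin d → ℝ) × ℝ => (y.1, u y)) =
    (volume : Measure (Fin d → ℝ)).prod (volume : Measure ℝ) := by
  refine Measure.ext_of_lintegral _ fun f hf => ?_
  rw [lintegral_map hf measurable_sh,
    lintegral_prod (fun y => f (y.1, u y)) (hf.comp measurable_sh).aemeasurable,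
    lintegral_prod _ hf.aemeasurable]
  refine lintegral_congr fun x => ?_
  show ∫⁻ r : ℝ, f (x, r - ∑ i, x i) = _
  exact lintegral_sub_right_eq_self (fun r => f (x, r)) (∑ i, x i)

lemma map_Psi {ρ : ℝ → ℝ≥0∞} (hρ : Measurable ρ)
    [SigmaFinite ((volume : Measure ℝ).withDensity ρ)] {m : Measure ((Fin d → ℝ) × ℝ)}
    (hm : m = ((volume : Measure (Fin d → ℝ)).prod (volume : Measure ℝ)).withDensity
      (fun y => (∏ i, ρ (y.1 i)) * ρ (u y))) :
    m.map Psi = Measure.pi (fun _ : Option (Fin d) => (volume : Measure ℝ).withDensity ρ) := by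
  have h1 := opt_wd d hρ
  have hg : Measurable (fun z : (Fin d → ℝ) × ℝ => (∏ i, ρ (z.1 i)) * ρ z.2) := by fun_prop
  have h2 := map_withDensity_comp ((volume : Measure (Fin d → ℝ)).prod (volume : Measure ℝ))
    (measurable_sh (d := d)) hg
  rw [map_sh] at h2
  have h3 : m.map Psi = (m.map (fun y : (Fin d → ℝ) × ℝ => (y.1, u y))).map
      (MeasurableEquiv.piOptionEquivProd (fun _ : Option (Fin d) => ℝ)).symm := by
    rw [Measure.map_map (MeasurableEquiv.measurable _) measurable_sh]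
    rfl
  rw [h3, hm, h2, h1]

lemma map_eN : ((Fr d).eN ((volume : Measure (Fin d → ℝ)).prod (volume : Measure ℝ))).map Psi =
    Measure.pi (fun _ : Option (Fin d) => mA) := by
  refine map_Psi (ρ := rhoA) measurable_rhoA ?_
  rw [Frame.eN]
  congr 1
  funext y
  rw [Fr_N]
  unfold rhoA
  rw [← ENNReal.ofReal_prod_of_nonneg (fun i _ => (Real.exp_pos _).le), ← Real.exp_sum,
    ← ENNReal.ofReal_mul (Real.exp_pos _).le, ← Real.exp_add]
  congr 2
  rw [Finset.sum_neg_distrib]
  ring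

lemma map_ex {s : ℝ} [SigmaFinite ((volume : Measure ℝ).withDensity (rhoB s))] :
    ((Fr d).ex ((volume : Measure (Fin d → ℝ)).prod (volume : Measure ℝ)) s).map Psi =
    Measure.pi (fun _ : Option (Fin d) => mB s) := by
  refine map_Psi (ρ := rhoB s) (measurable_rhoB s) ?_
  rw [Frame.ex_eq]
  congr 1
  funext y
  by_cases hy : y ∈ (Fr d).G
  · rw [Frame.dens_of_mem _ _ hy, Fr_h]
    rw [Fr_G, mem_cone] at hy
    have e1 : ∀ i, rhoB s (y.1 i) = ENNReal.ofReal (Real.exp (-(s * y.1 i))) := fun i =>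
      indicator_of_mem (show y.1 i ∈ Ici (0:ℝ) from hy.1 i) _
    have e2 : rhoB s (u y) = ENNReal.ofReal (Real.exp (-(s * u y))) :=
      indicator_of_mem (show u y ∈ Ici (0:ℝ) from hy.2) _
    simp only [e1, e2]
    rw [← ENNReal.ofReal_prod_of_nonneg (fun i _ => (Real.exp_pos _).le), ← Real.exp_sum,
      ← ENNReal.ofReal_mul (Real.exp_pos _).le, ← Real.exp_add]
    congr 2
    rw [Finset.sum_neg_distrib, ← Finset.mul_sum, u]
    ring
  · rw [Frame.dens_of_notMem _ _ hy]
    rw [Fr_G, mem_cone] at hy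
    by_cases h1 : ∀ i, 0 ≤ y.1 i
    · have h2 : ¬ 0 ≤ u y := fun h => hy ⟨h1, h⟩
      have : rhoB s (u y) = 0 := indicator_of_notMem (show u y ∉ Ici (0:ℝ) from h2) _
      rw [this, mul_zero]
    · push Not at h1
      obtain ⟨i, hi⟩ := h1
      have : rhoB s (y.1 i) = 0 :=
        indicator_of_notMem (show y.1 i ∉ Ici (0:ℝ) from not_le.mpr hi) _
      rw [Finset.prod_eq_zero (Finset.mem_univ i) this, zero_mul]

end Pool.Agent.FR.Simp
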