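import Pool.Agent.Lib.MP_725e58_gt.FS.SimpEq59
import Pool.Agent.Lib.MP_725e58_gt.FR.Fin7
import Pool.Agent.Lib.MP_725e58_gt.Defs

/-! The mean volume of the reflection bodies of the simplex. -/

set_option autoImplicit false

namespace Pool.Agent.FR

open MeasureTheory Set Filter Topology
open scoped ENNReal NNReal Nat
open Pool.Agent.Lib.MP_725e58_gt
open Pool.Agent.Lib.MP_725e58_gt.Tow (RB RB_compact RB_image)

section avg

variable {E : Type*} [NormedAddCommGroup E] [NormedSpace ℝ E] [FiniteDimensional ℝ E]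
variable [MeasurableSpace E] [BorelSpace E] (μ : Measure E) [μ.IsAddHaarMeasure]
variable {K : Set E} (hc : IsCompact K) (hv : Convex ℝ K) (hi : (interior K).Nonempty)

/-- the integral of the volumes of the reflection bodies is the mean slope (every body) -/
theorem avg_eq :
    ∫⁻ p : (E × ℝ) × (E × ℝ), ENNReal.ofReal |(frameOf K hc hv hi).gr p.1 p.2|
      ∂(((frameOf K hc hv hi).eN (μ.prod (volume : Measure ℝ))).prod
        ((frameOf K hc hv hi).ex (μ.prod (volume : Measure ℝ)) 2)) =
    ENNReal.ofReal ((Module.finrank ℝ E + 1).factorial / 2 ^ (Module.finrank ℝ E + 2) *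
      (2 * (Module.finrank ℝ E).factorial)) * ∫⁻ x in K, μ (RB K x) ∂μ := by
  rw [slope_cone μ hc hv hi, ENNReal.ofReal_mul (by positivity), mul_assoc]
  congr 1
  rw [← lintegral_const_mul' _ _ ENNReal.ofReal_ne_top]
  refine lintegral_congr fun x => ?_
  exact frameOf_slope_eq μ hc hv hi x

/-- from a bound or a formula for the mean slope to the mean volume -/
theorem avg_const (d : ℕ) (Z : ℝ) :
    ((d + 1).factorial / 2 ^ (d + 2) * (2 * d.factorial) : ℝ)⁻¹ *
      (1 / 2 * (2 * (d + 1 : ℕ) * ((2 * (d + 1)).choose (d + 1) : ℕ) / 4 ^ (d + 1) *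
        (d.factorial * Z) ^ 2)) =
    ((2 * (d + 1)).choose (d + 1) : ℕ) / 2 ^ (d + 1) * Z ^ 2 := by
  have hf : ((d + 1).factorial : ℝ) = ((d : ℝ) + 1) * d.factorial := by
    rw [Nat.factorial_succ]; push_cast; ring
  have hfd : (d.factorial : ℝ) ≠ 0 := by positivity
  have hd1 : ((d : ℝ) + 1) ≠ 0 := by positivity
  have h4 : (4 : ℝ) ^ (d + 1) = 2 ^ (d + 1) * 2 ^ (d + 1) := by
    rw [← mul_pow]; norm_num
  rw [hf, h4]
  push_cast
  field_simp
  ring

theorem avg_formula
    (hE : ∫⁻ p : (E × ℝ) × (E × ℝ), ENNReal.ofReal |(frameOf K hc hv hi).gr p.1 p.2|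
      ∂(((frameOf K hc hv hi).eN (μ.prod (volume : Measure ℝ))).prod
        ((frameOf K hc hv hi).ex (μ.prod (volume : Measure ℝ)) 2)) =
      ENNReal.ofReal (1 / 2 * (2 * (Module.finrank ℝ E + 1 : ℕ) *
        ((2 * (Module.finrank ℝ E + 1)).choose (Module.finrank ℝ E + 1) : ℕ) /
          4 ^ (Module.finrank ℝ E + 1) *
        ((Module.finrank ℝ E).factorial * (μ K).toReal) ^ 2))) :
    ∫⁻ x in K, μ (RB K x) ∂μ =
      ENNReal.ofReal (((2 * (Module.finrank ℝ E + 1)).choose (Module.finrank ℝ E + 1) : ℕ) /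
        2 ^ (Module.finrank ℝ E + 1)) * μ K * μ K := by
  have hKt : μ K ≠ ∞ := hc.measure_lt_top.ne
  rw [avg_eq μ hc hv hi] at hE
  set d := Module.finrank ℝ E with hd
  set c : ℝ := ((d + 1).factorial : ℝ) / 2 ^ (d + 2) * (2 * d.factorial) with hcdef
  have hcpos : 0 < c := by positivity
  have h1 : ∫⁻ x in K, μ (RB K x) ∂μ =
      ENNReal.ofReal c⁻¹ * (ENNReal.ofReal c * ∫⁻ x in K, μ (RB K x) ∂μ) := by
    rw [← mul_assoc, ← ENNReal.ofReal_mul (by positivity), inv_mul_cancel₀ hcpos.ne',
      ENNReal.ofReal_one, one_mul]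
  rw [h1, hE, ← ENNReal.ofReal_mul (by positivity), hcdef, avg_const,
    ENNReal.ofReal_mul (by positivity), ENNReal.ofReal_pow ENNReal.toReal_nonneg,
    ENNReal.ofReal_toReal hKt, pow_two, mul_assoc]

end avg

namespace Simp

/-- the standard simplex in Euclidean space -/
def simE (d : ℕ) : Set (EuclideanSpace ℝ (Fin d)) := {x | (∀ i, 0 ≤ x i) ∧ ∑ i, x i ≤ 1}

/-- the identity as a continuous linear equivalence -/
noncomputable def eqv (d : ℕ) : EuclideanSpace ℝ (Fin d) ≃L[ℝ] (Fin d → ℝ) :=
  EuclideanSpace.equiv (Fin d) ℝ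

variable {d : ℕ}

lemma eqv_mp : MeasurePreserving (eqv d) :=
  PiLp.volume_preserving_ofLp (Fin d)

lemma simE_eq : simE d = (eqv d) ⁻¹' (simp d) := rfl

lemma simE_image : simE d = (eqv d).symm '' (simp d) := by
  rw [simE_eq, ContinuousLinearEquiv.image_symm_eq_preimage]

lemma simE_compact : IsCompact (simE d) := by
  rw [simE_image]; exact simp_compact.image (eqv d).symm.continuous

lemma simE_convex : Convex ℝ (simE d) := by
  rw [simE_eq]
  exact simp_convex.linear_preimage (eqv d).toLinearMap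

lemma simE_interior : (interior (simE d)).Nonempty := by
  obtain ⟨x, hx⟩ := simp_interior (d := d)
  refine ⟨(eqv d).symm x, ?_⟩
  rw [simE_eq]
  refine preimage_interior_subset_interior_preimage (eqv d).continuous ?_
  simpa using hx

lemma simE_vol : volume (simE d) = volume (simp d) := by
  rw [simE_eq]
  exact (eqv_mp (d := d)).measure_preimage simp_compact.measurableSet.nullMeasurableSet

lemma refl_eq (x : EuclideanSpace ℝ (Fin d)) :
    volume (ReflBody (simE d) x) = volume (RB (simp d) (eqv d x)) := by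
  have h1 := RB_image ((eqv d).symm : (Fin d → ℝ) →ₗ[ℝ] EuclideanSpace ℝ (Fin d)) 0 (simp d)
    (eqv d x)
  simp only [zero_add] at h1
  have h2 : ReflBody (simE d) x = (eqv d) ⁻¹' (RB (simp d) (eqv d x)) := by
    rw [← ContinuousLinearEquiv.image_symm_eq_preimage]
    refine Eq.trans ?_ h1
    have h3 : ((eqv d).symm.toLinearEquiv : (Fin d → ℝ) →ₗ[ℝ] EuclideanSpace ℝ (Fin d))
      (eqv d x) = x := (eqv d).symm_apply_apply x
    rw [h3, simE_image]
    rfl
  rw [h2]
  exact (eqv_mp (d := d)).measure_preimage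
    (RB_compact simp_compact simp_convex _).measurableSet.nullMeasurableSet

/-- transport of the mean to Euclidean space -/
theorem simE_avg : ∫⁻ x in simE d, volume (ReflBody (simE d) x) =
    ∫⁻ x in simp d, volume (RB (simp d) x) := by
  have h1 : ∀ x, volume (ReflBody (simE d) x) = volume (RB (simp d) (eqv d x)) := refl_eq
  simp only [h1]
  rw [simE_eq]
  have h2 := (eqv_mp (d := d)).setLIntegral_comp_preimage_emb
    (eqv d).toHomeomorph.measurableEmbedding (fun y => volume (RB (simp d) y)) (simp d)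
  exact h2

/-- the mean volume of the reflection bodies of the simplex, from the formula (E) for the
difference of two Gamma variables -/
theorem simE_mean
    (hE : ∫⁻ p, ENNReal.ofReal |(Fr d).h p.1 - (Fr d).h p.2|
      ∂(((Fr d).ex ((volume : Measure (Fin d → ℝ)).prod (volume : Measure ℝ)) 1).prod
        ((Fr d).ex ((volume : Measure (Fin d → ℝ)).prod (volume : Measure ℝ)) 1)) =
      ENNReal.ofReal (2 * (d + 1 : ℕ) * ((2 * (d + 1)).choose (d + 1) : ℕ) / 4 ^ (d + 1) *
        (d.factorial * (volume (simp d)).toReal) ^ 2)) :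
    ∫⁻ x in simE d, volume (ReflBody (simE d) x) =
      ENNReal.ofReal (((2 * (d + 1)).choose (d + 1) : ℕ) / 2 ^ (d + 1)) *
        volume (simE d) * volume (simE d) := by
  have hfin : Module.finrank ℝ (Fin d → ℝ) = d := by simp
  rw [simE_avg, simE_vol]
  have h := avg_formula (volume : Measure (Fin d → ℝ)) (K := simp d) simp_compact simp_convex
    simp_interior
  rw [hfin] at h
  refine h ?_
  have h2 := simplex_mean (d := d)
  rw [hE, ← ENNReal.ofReal_mul (by norm_num)] at h2
  exact h2

end Simp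

end Pool.Agent.FR
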