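import Pool.Agent.Lib.MP_725e58_gt.FS.Simp59

/-! Equality in the mean slope inequality for the simplex. -/

set_option autoImplicit false

namespace Pool.Agent.FR.Simp

open MeasureTheory Set Filter Topology
open scoped ENNReal NNReal

variable {d : ℕ}

lemma sum_Psi (y : (Fin d → ℝ) × ℝ) : ∑ i : Option (Fin d), Psi y i = y.2 := by
  rw [Fintype.sum_option, Psi_none]
  simp only [Psi_some, u]
  ring

lemma gr_Psi {y : (Fin d → ℝ) × ℝ} (h : ∀ i, Psi y i ≠ 0) (g : (Fin d → ℝ) × ℝ) :
    2 * (Fr d).gr y g = ∑ i : Option (Fin d), w1 (Psi y i, Psi g i) := by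
  rw [Fr_gr (fun i => h (some i)) (h none), Fintype.sum_option, mul_add, Finset.mul_sum]
  simp only [Psi_none, Psi_some, w1, sg]
  rw [add_comm]
  congr 1
  · ring
  · exact Finset.sum_congr rfl fun i _ => by ring

lemma h_Psi (a b : (Fin d → ℝ) × ℝ) :
    (Fr d).h (a - b) = ∑ i : Option (Fin d), w2 (Psi a i, Psi b i) := by
  rw [Fr_h, ← sum_Psi]
  refine Finset.sum_congr rfl fun i _ => ?_
  cases i with
  | none => simp only [Psi_none, w2, u_sub]
  | some i => simp only [Psi_some, w2, Prod.fst_sub, Pi.sub_apply]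

/-- push a pair of product measures forward by a function of the coordinates -/
lemma lint_pi {ι : Type*} [Fintype ι] (m m' : Measure ℝ) [IsFiniteMeasure m] [IsFiniteMeasure m']
    {w : ℝ × ℝ → ℝ} (hw : Measurable w) {f : ℝ → ℝ≥0∞} (hf : Measurable f) :
    ∫⁻ q : (ι → ℝ) × (ι → ℝ), f (∑ i, w (q.1 i, q.2 i))
      ∂((Measure.pi fun _ => m).prod (Measure.pi fun _ => m')) =
    ∫⁻ v : ι → ℝ, f (∑ i, v i) ∂(Measure.pi fun _ => (m.prod m').map w) := by
  have hF : Measurable (fun q : (ι → ℝ) × (ι → ℝ) => f (∑ i, w (q.1 i, q.2 i))) := by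
    refine hf.comp (Finset.measurable_sum _ fun i _ => hw.comp ?_)
    exact ((measurable_pi_apply i).comp measurable_fst).prodMk
      ((measurable_pi_apply i).comp measurable_snd)
  have h1 := measurePreserving_arrowProdEquivProdArrow ℝ ℝ ι (fun _ => m) (fun _ => m')
  rw [← h1.map_eq, lintegral_map hF (MeasurableEquiv.measurable _)]
  have h2 := Measure.pi_map_pi (ι := ι) (X := fun _ => ℝ × ℝ) (Y := fun _ => ℝ)
    (μ := fun _ => m.prod m') (f := fun _ => w) (fun _ => hw.aemeasurable)
  have hG : Measurable (fun v : ι → ℝ => f (∑ i, v i)) :=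
    hf.comp (Finset.measurable_sum _ fun i _ => measurable_pi_apply i)
  have hw2 : Measurable (fun (x : ι → ℝ × ℝ) (i : ι) => w (x i)) :=
    measurable_pi_lambda _ fun i => hw.comp (measurable_pi_apply i)
  rw [← h2, lintegral_map hG hw2]
  rfl

instance : NullSingletonClass mA := by unfold mA; infer_instance

/-- equality for the simplex -/
theorem simplex_law {f : ℝ → ℝ≥0∞} (hf : Measurable f) :
    ∫⁻ p, f (2 * (Fr d).gr p.1 p.2)
      ∂(((Fr d).eN ((volume : Measure (Fin d → ℝ)).prod (volume : Measure ℝ))).prod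
        ((Fr d).ex ((volume : Measure (Fin d → ℝ)).prod (volume : Measure ℝ)) 2)) =
    ∫⁻ p, f ((Fr d).h (p.1 - p.2))
      ∂(((Fr d).ex ((volume : Measure (Fin d → ℝ)).prod (volume : Measure ℝ)) 1).prod
        ((Fr d).ex ((volume : Measure (Fin d → ℝ)).prod (volume : Measure ℝ)) 1)) := by
  set ν := (volume : Measure (Fin d → ℝ)).prod (volume : Measure ℝ) with hν
  have hA : ∫⁻ p, f (2 * (Fr d).gr p.1 p.2) ∂(((Fr d).eN ν).prod ((Fr d).ex ν 2)) =
      ∫⁻ v : Option (Fin d) → ℝ, f (∑ i, v i) ∂(Measure.pi fun _ => (mA.prod (mB 2)).map w1) := by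
    rw [← lint_pi mA (mB 2) measurable_w1 hf]
    have h1 := map_eN (d := d)
    have h2 := map_ex (d := d) (s := 2)
    rw [← h1, ← h2, Measure.map_prod_map _ _ measurable_Psi measurable_Psi,
      lintegral_map _ (measurable_Psi.prodMap measurable_Psi)]
    · refine lintegral_congr_ae ?_
      have h3 : ∀ᵐ y ∂((Fr d).eN ν), ∀ i, Psi y i ≠ 0 := by
        rw [ae_all_iff]
        intro i
        have h4 : ∀ᵐ z ∂(Measure.pi fun _ : Option (Fin d) => mA), z i ≠ 0 :=
          Measure.ae_eval_ne (fun _ : Option (Fin d) => mA) i 0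
        rw [← h1] at h4
        exact ae_of_ae_map measurable_Psi.aemeasurable h4
      have h5 : ∀ᵐ p ∂(((Fr d).eN ν).prod ((Fr d).ex ν 2)), ∀ i, Psi p.1 i ≠ 0 :=
        Measure.quasiMeasurePreserving_fst.ae h3
      filter_upwards [h5] with p hp
      rw [gr_Psi hp]
      rfl
    · refine hf.comp (Finset.measurable_sum _ fun i _ => measurable_w1.comp ?_)
      exact ((measurable_pi_apply i).comp measurable_fst).prodMk
        ((measurable_pi_apply i).comp measurable_snd)
  have hB : ∫⁻ p, f ((Fr d).h (p.1 - p.2)) ∂(((Fr d).ex ν 1).prod ((Fr d).ex ν 1)) =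
      ∫⁻ v : Option (Fin d) → ℝ, f (∑ i, v i)
        ∂(Measure.pi fun _ => ((mB 1).prod (mB 1)).map w2) := by
    rw [← lint_pi (mB 1) (mB 1) measurable_w2 hf]
    have h2 := map_ex (d := d) (s := 1)
    rw [← h2, Measure.map_prod_map _ _ measurable_Psi measurable_Psi,
      lintegral_map _ (measurable_Psi.prodMap measurable_Psi)]
    · refine lintegral_congr fun p => ?_
      rw [h_Psi]
      rfl
    · refine hf.comp (Finset.measurable_sum _ fun i _ => measurable_w2.comp ?_)
      exact ((measurable_pi_apply i).comp measurable_fst).prodMk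
        ((measurable_pi_apply i).comp measurable_snd)
  rw [hA, hB, law_eq]

/-- equality in the mean slope inequality for the simplex -/
theorem simplex_mean :
    ∫⁻ p, ENNReal.ofReal |(Fr d).gr p.1 p.2|
      ∂(((Fr d).eN ((volume : Measure (Fin d → ℝ)).prod (volume : Measure ℝ))).prod
        ((Fr d).ex ((volume : Measure (Fin d → ℝ)).prod (volume : Measure ℝ)) 2)) =
    ENNReal.ofReal (1 / 2) * ∫⁻ p, ENNReal.ofReal |(Fr d).h p.1 - (Fr d).h p.2|
      ∂(((Fr d).ex ((volume : Measure (Fin d → ℝ)).prod (volume : Measure ℝ)) 1).prod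
        ((Fr d).ex ((volume : Measure (Fin d → ℝ)).prod (volume : Measure ℝ)) 1)) := by
  have h := simplex_law (d := d) (f := fun t => ENNReal.ofReal |t|) (by fun_prop)
  have e1 : ∀ p : ((Fin d → ℝ) × ℝ) × ((Fin d → ℝ) × ℝ), ENNReal.ofReal |(Fr d).gr p.1 p.2| =
      ENNReal.ofReal (1 / 2) * ENNReal.ofReal |2 * (Fr d).gr p.1 p.2| := by
    intro p
    rw [← ENNReal.ofReal_mul (by norm_num), abs_mul, abs_two]
    congr 1
    ring
  simp only [e1]
  rw [lintegral_const_mul' _ _ ENNReal.ofReal_ne_top, h]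
  simp only [map_sub]

end Pool.Agent.FR.Simp
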