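import Pool.Agent.Lib.MP_725e58_gt.FS.SimpG59
import Pool.Agent.Lib.MP_725e58_gt.FS.Asm7
import Pool.Agent.Lib.MP_725e58_gt.FS.Dif49

/-! The mean volume of the reflection bodies of a simplex is `mc d` times its volume. -/

set_option autoImplicit false

namespace Pool.Agent.FR.Simp

open MeasureTheory Set Filter Topology
open scoped ENNReal NNReal Nat
open Pool.Agent.Lib.MP_725e58_gt

variable {d : ℕ}

/-- The integral of the volumes of the reflection bodies over a simplex. -/
theorem simplex_mean_RB {p : Fin (d + 1) → EuclideanSpace ℝ (Fin d)}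
    (hp : AffineIndependent ℝ p) :
    ∫⁻ x in convexHull ℝ (range p), volume (ReflBody (convexHull ℝ (range p)) x) =
      ENNReal.ofReal (mc d) *
        volume (convexHull ℝ (range p)) * volume (convexHull ℝ (range p)) := by
  have h := simplex_avg (d := d) (p := p) ?_ hp
  · rw [h]
    rfl
  · have hE := frameOf_E_lint (volume : Measure (Fin d → ℝ)) (K := simp d) simp_compact
      simp_convex simp_interior
    have hfin : Module.finrank ℝ (Fin d → ℝ) = d := by simp
    rw [hfin] at hE
    rw [Nat.cast_add, Nat.cast_one]
    exact hE

end Pool.Agent.FR.Simp
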