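import Pool.Agent.Lib.MP_725e58_gt.FS.SimpAvg59

/-! The mean volume of the reflection bodies of an arbitrary simplex. -/

set_option autoImplicit false

namespace Pool.Agent.FR.Simp

open MeasureTheory Set Filter Topology
open scoped ENNReal NNReal Nat
open Pool.Agent.Lib.MP_725e58_gt
open Pool.Agent.Lib.MP_725e58_gt.Tow (RB RB_compact RB_image exists_scale)

section transport

variable {E : Type*} [NormedAddCommGroup E] [NormedSpace ℝ E] [FiniteDimensional ℝ E]
  [MeasurableSpace E] [BorelSpace E] (μ : Measure E) [μ.IsAddHaarMeasure]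
variable {F : Type*} [NormedAddCommGroup F] [NormedSpace ℝ F] [FiniteDimensional ℝ F]
  [MeasurableSpace F] [BorelSpace F] (ν : Measure F) [ν.IsAddHaarMeasure]

/-- affine invariance of the formula for the mean -/
theorem avg_transport (L : E ≃L[ℝ] F) (a : F) {K : Set E} {C : ℝ≥0∞}
    (h : ∫⁻ x in K, μ (RB K x) ∂μ = C * μ K * μ K) :
    ∫⁻ x in (fun v => a + L v) '' K, ν (RB ((fun v => a + L v) '' K) x) ∂ν =
      C * ν ((fun v => a + L v) '' K) * ν ((fun v => a + L v) '' K) := by
  obtain ⟨c, hc0, hct, hc⟩ := exists_scale μ ν L a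
  set T : E → F := fun v => a + L v with hT
  set e : E ≃ₜ F := L.toHomeomorph.trans (Homeomorph.addLeft a) with he
  have heT : (e : E → F) = T := rfl
  have hme : MeasurableEmbedding T := heT ▸ e.measurableEmbedding
  have hmap : μ.map T = c • ν := by
    ext s hs
    rw [hme.map_apply, hc (T ⁻¹' s), image_preimage_eq s (heT ▸ e.surjective), Measure.smul_apply,
      smul_eq_mul]
  have h1 : ∫⁻ x in T '' K, ν (RB (T '' K) x) ∂(μ.map T) =
      ∫⁻ x in K, ν (RB (T '' K) (T x)) ∂μ := by
    rw [hme.restrict_map, hme.lintegral_map, preimage_image_eq _ hme.injective]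
  rw [hmap, Measure.restrict_smul, lintegral_smul_measure, smul_eq_mul] at h1
  have h2 : ∀ x, c * ν (RB (T '' K) (T x)) = μ (RB K x) := by
    intro x
    have h3 := RB_image (L : E →ₗ[ℝ] F) a K x
    have h3' : RB (T '' K) (T x) = T '' RB K x := h3
    rw [h3', ← hc]
  have h4 : c * (c * ∫⁻ x in T '' K, ν (RB (T '' K) x) ∂ν) =
      c * (c * (C * ν (T '' K) * ν (T '' K))) := by
    rw [h1, ← lintegral_const_mul' _ _ hct]
    simp only [h2]
    rw [h, hc K]
    ring
  have h5 := (ENNReal.mul_right_inj hc0 hct).mp h4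
  exact (ENNReal.mul_right_inj hc0 hct).mp h5

end transport

/-- the vertices of the standard simplex -/
def vert (d : ℕ) : Fin (d + 1) → (Fin d → ℝ) := Fin.cons 0 (fun i => Pi.single i 1)

variable {d : ℕ}

lemma vert_zero : vert d 0 = 0 := rfl

lemma vert_succ (i : Fin d) : vert d i.succ = Pi.single i 1 := rfl

lemma hull_vert : convexHull ℝ (range (vert d)) = simp d := by
  refine Subset.antisymm ?_ ?_
  · refine convexHull_min ?_ simp_convex
    rintro _ ⟨i, rfl⟩
    refine Fin.cases ?_ (fun i => ?_) i
    · rw [vert_zero]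
      exact ⟨fun i => le_rfl, by simp⟩
    · rw [vert_succ]
      refine ⟨fun j => ?_, ?_⟩
      · by_cases h : j = i
        · subst h; simp
        · simp [h]
      · simp
  · rintro x ⟨hx, hx1⟩
    have hw : ∑ i : Fin (d + 1), (Fin.cons (1 - ∑ i, x i) x : Fin (d + 1) → ℝ) i = 1 := by
      rw [Fin.sum_univ_succ]
      simp
    have h := (convex_convexHull ℝ (range (vert d))).sum_mem (t := Finset.univ)
      (w := (Fin.cons (1 - ∑ i, x i) x : Fin (d + 1) → ℝ)) (z := vert d) ?_ hw
      (fun i _ => subset_convexHull ℝ _ (mem_range_self i))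
    · have h2 : ∑ i : Fin (d + 1), (Fin.cons (1 - ∑ i, x i) x : Fin (d + 1) → ℝ) i • vert d i =
          x := by
        rw [Fin.sum_univ_succ, vert_zero, smul_zero, zero_add]
        simp only [vert_succ, Fin.cons_succ]
        funext j
        rw [Finset.sum_apply]
        simp [Pi.single_apply]
      rwa [h2] at h
    · intro i _
      refine Fin.cases ?_ (fun i => ?_) i
      · rw [Fin.cons_zero]; linarith
      · rw [Fin.cons_succ]; exact hx i

/-- every simplex is an affine image of the standard one -/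
theorem exists_affine {F : Type*} [NormedAddCommGroup F] [NormedSpace ℝ F] [FiniteDimensional ℝ F]
    (hF : Module.finrank ℝ F = d) {p : Fin (d + 1) → F} (hp : AffineIndependent ℝ p) :
    ∃ L : (Fin d → ℝ) ≃L[ℝ] F, convexHull ℝ (range p) = (fun v => p 0 + L v) '' simp d := by
  have h1 := (affineIndependent_iff_linearIndependent_vsub ℝ p 0).mp hp
  have h2 : LinearIndependent ℝ (fun i : Fin d => p i.succ - p 0) :=
    h1.comp (fun i : Fin d => ⟨i.succ, Fin.succ_ne_zero i⟩) (fun i j hij => by
      have := congrArg Subtype.val hij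
      exact Fin.succ_injective _ this)
  rcases Nat.eq_zero_or_pos d with rfl | hd
  · -- dimension zero
    have hsub : Subsingleton F := Module.finrank_zero_iff.mp hF
    refine ⟨ContinuousLinearEquiv.ofFinrankEq (by rw [hF]; simp), ?_⟩
    have e1 : convexHull ℝ (range p) = univ := by
      refine Subsingleton.eq_univ_of_nonempty ?_
      exact ⟨p 0, subset_convexHull ℝ _ (mem_range_self 0)⟩
    rw [e1]
    symm
    refine Subsingleton.eq_univ_of_nonempty ?_
    obtain ⟨x, hx⟩ := simp_interior (d := 0)
    exact ⟨_, mem_image_of_mem _ (interior_subset hx)⟩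
  · have : Nonempty (Fin d) := ⟨⟨0, hd⟩⟩
    set b := basisOfLinearIndependentOfCardEqFinrank h2 (by rw [Fintype.card_fin, hF]) with hb
    set L : (Fin d → ℝ) ≃L[ℝ] F := b.equivFun.symm.toContinuousLinearEquiv with hL
    refine ⟨L, ?_⟩
    have hLs : ∀ i, L (Pi.single i 1) = p i.succ - p 0 := by
      intro i
      have e1 : L (Pi.single i 1) = b.equivFun.symm (Pi.single i 1) := rfl
      rw [e1, b.equivFun_symm_apply]
      simp [Pi.single_apply, hb]
    have e2 : range p = (fun v => p 0 + L v) '' range (vert d) := by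
      rw [← range_comp]
      congr 1
      funext i
      refine Fin.cases ?_ (fun i => ?_) i
      · simp [vert_zero]
      · simp only [Function.comp_apply, vert_succ]
        rw [hLs]
        abel
    have e3 : (fun v => p 0 + L v) =
        ⇑((L : (Fin d → ℝ) →ₗ[ℝ] F).toAffineMap + AffineMap.const ℝ (Fin d → ℝ) (p 0)) := by
      funext v
      simp [add_comm]
    rw [e2, e3, ← AffineMap.image_convexHull, hull_vert]

/-- The mean volume of the reflection bodies of a simplex. -/
theorem simplex_avg
    (hE : ∫⁻ p, ENNReal.ofReal |(Fr d).h p.1 - (Fr d).h p.2|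
      ∂(((Fr d).ex ((volume : Measure (Fin d → ℝ)).prod (volume : Measure ℝ)) 1).prod
        ((Fr d).ex ((volume : Measure (Fin d → ℝ)).prod (volume : Measure ℝ)) 1)) =
      ENNReal.ofReal (2 * (d + 1 : ℕ) * ((2 * (d + 1)).choose (d + 1) : ℕ) / 4 ^ (d + 1) *
        (d.factorial * (volume (simp d)).toReal) ^ 2))
    {p : Fin (d + 1) → EuclideanSpace ℝ (Fin d)} (hp : AffineIndependent ℝ p) :
    ∫⁻ x in convexHull ℝ (range p), volume (ReflBody (convexHull ℝ (range p)) x) =
      ENNReal.ofReal (((2 * (d + 1)).choose (d + 1) : ℕ) / 2 ^ (d + 1)) *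
        volume (convexHull ℝ (range p)) * volume (convexHull ℝ (range p)) := by
  have hfin : Module.finrank ℝ (Fin d → ℝ) = d := by simp
  obtain ⟨L, hL⟩ := exists_affine (d := d) (F := EuclideanSpace ℝ (Fin d)) (by simp) hp
  have h := avg_formula (volume : Measure (Fin d → ℝ)) (K := simp d) simp_compact simp_convex
    simp_interior
  rw [hfin] at h
  have h2 := simplex_mean (d := d)
  rw [hE, ← ENNReal.ofReal_mul (by norm_num)] at h2
  have h3 := avg_transport (volume : Measure (Fin d → ℝ))
    (volume : Measure (EuclideanSpace ℝ (Fin d))) L (p 0) (h h2)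
  rw [← hL] at h3
  exact h3

end Pool.Agent.FR.Simp
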