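import Pool.Agent.Lib.MP_725e58_gt.FS.Cert41
import Pool.Agent.Lib.MP_725e58_gt.FR.Main49

/-! Test functions for the comparison of the two flows. -/

set_option autoImplicit false

namespace Pool.Agent.FR

/-- A test function `F (z, N, Θ, ε)` with the bracket bound `B`. -/
structure TestF (L : ℝ) (F B : ℝ → ℝ → ℝ → ℝ → ℝ) : Prop where
  L0 : 0 ≤ L
  bd : ∀ z N θ e, |F z N θ e| ≤ 1
  lip : ∀ z N θ e z' N' θ' e', |F z N θ e - F z' N' θ' e'| ≤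
    L * (|z - z'| + |N - N'| + |θ - θ'| + |e - e'|)
  mono : ∀ z N e, Monotone fun θ => F z N θ e
  xmono : ∀ z N θ θ2 e s, |z| ≤ N → |θ| ≤ e → 0 ≤ s →
    F z N θ2 e ≤ F (z + s * e) (N + s * θ) θ2 e
  euler : ∀ P Q θ e t, |P| ≤ Q → |θ| ≤ e → 0 ≤ t → t ≤ 1 / 2 →
    F P Q θ e + t * B P Q θ e ≤ F (P + t * Q) (Q + t * P) (θ - t * e) (e - t * θ) + L * t ^ 2
  Bbd : ∀ z N θ e, |B z N θ e| ≤ L
  Blip : ∀ z N θ e z' N' θ' e', |B z N θ e - B z' N' θ' e'| ≤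
    L * (|z - z'| + |N - N'| + |θ - θ'| + |e - e'|)

end Pool.Agent.FR
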