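import Pool.Agent.Lib.MP_725e58_gt.FS.Yem41

/-! The weighted mean of the norm of a difference. -/

set_option autoImplicit false

namespace Pool.Agent.FR

open MeasureTheory Set Filter Topology
open scoped ENNReal NNReal

namespace Frame

variable {V : Type*} [NormedAddCommGroup V] [NormedSpace ℝ V] (F : Frame V)

lemma gr_smul {y : V} (hy : DifferentiableAt ℝ F.N y) {r : ℝ} (hr : 0 < r) :
    F.gr (r • y) = F.gr y := by
  have h1 : HasFDerivAt F.N (F.gr y) (r⁻¹ • (r • y)) := by
    rw [smul_smul, inv_mul_cancel₀ hr.ne', one_smul]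
    exact hy.hasFDerivAt
  have h2 : HasFDerivAt (fun z : V => r⁻¹ • z) (r⁻¹ • ContinuousLinearMap.id ℝ V) (r • y) :=
    (hasFDerivAt_id (r • y)).const_smul r⁻¹
  have h3 := (h1.comp (r • y) h2).const_mul r
  have e : (fun z : V => r * (F.N ∘ fun z => r⁻¹ • z) z) = F.N := by
    funext z
    simp only [Function.comp]
    rw [F.N_smul (inv_pos.mpr hr).le, ← mul_assoc, mul_inv_cancel₀ hr.ne', one_mul]
  rw [e] at h3
  have h4 := h3.fderiv
  unfold gr at h4 ⊢
  rw [h4]
  ext v
  simp only [ContinuousLinearMap.smul_apply, ContinuousLinearMap.comp_apply,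
    ContinuousLinearMap.id_apply, map_smul, smul_eq_mul]
  rw [← mul_assoc, mul_inv_cancel₀ hr.ne', one_mul]

lemma ratio_inv {y a b : V} (hd : DifferentiableAt ℝ F.N y) (ha : a ∈ F.G) (hb : b ∈ F.G)
    (hy : y = a - b) (hN : F.N y = F.h a + F.h b) {t : ℝ} (t0 : 0 < t) (u : V) :
    F.gX (y + u + t • a, u + t • b) = F.gX (y + u, u) ∧
      F.gY (y + u + t • a, u + t • b) = F.gY (y + u, u) := by
  have t1 : 0 < 1 + t := by linarith
  obtain ⟨e1, e2⟩ := F.gr_opt (F.sup_gr hd) ha hb hy hN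
  have ey : y + u + t • a - (u + t • b) = (1 + t) • y := by
    rw [add_smul, one_smul]
    nth_rewrite 3 [hy]
    rw [smul_sub]
    abel
  have ey' : y + u - u = y := by abel
  have hh : F.h y = F.h a - F.h b := by rw [hy, map_sub]
  constructor
  · simp only [gX, ey, ey', map_smul, smul_eq_mul, F.N_smul t1.le]
    rw [mul_div_mul_left _ _ t1.ne']
  · have w : F.W (y + u + t • a, u + t • b) = F.W (y + u, u) := by
      simp only [W, Frame.u, zero_smul, add_zero, ey, ey', F.gr_smul hd t1, map_add, map_smul,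
        smul_eq_mul, e1, e2, hh]
      ring
    have e : F.gE (y + u + t • a, u + t • b) = F.gE (y + u, u) := by
      simp only [gE, ey, ey', map_add, map_smul, smul_eq_mul, F.N_smul t1.le, hN]
      ring
    simp only [gY, w, e]

variable [FiniteDimensional ℝ V] [MeasurableSpace V] [BorelSpace V] (ν : Measure V)
  [ν.IsAddHaarMeasure]
variable {n : ℕ} {Z : ℝ}

/-- the weighted autocorrelation -/
noncomputable def Qw (f : V × V → ℝ≥0∞) (y : V) : ℝ≥0∞ :=
  ∫⁻ u, F.dens 1 (y + u) * F.dens 1 u * f (y + u, u) ∂ν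

lemma measurable_Qw_aux {f : V × V → ℝ≥0∞} (hf : Measurable f) :
    Measurable (fun p : V × V => F.dens 1 (p.1 + p.2) * F.dens 1 p.2 * f (p.1 + p.2, p.2)) := by
  have hd := F.measurable_dens 1
  exact ((hd.comp (measurable_fst.add measurable_snd)).mul (hd.comp measurable_snd)).mul
    (hf.comp ((measurable_fst.add measurable_snd).prodMk measurable_snd))

lemma measurable_Qw {f : V × V → ℝ≥0∞} (hf : Measurable f) : Measurable (F.Qw ν f) :=
  (F.measurable_Qw_aux hf).lintegral_prod_right'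

lemma lint_diff_w {f : V × V → ℝ≥0∞} (hf : Measurable f) {g : V → ℝ≥0∞} (hg : Measurable g) :
    ∫⁻ p : V × V, g (p.1 - p.2) * f p ∂((F.ex ν 1).prod (F.ex ν 1)) =
      ∫⁻ y, g y * F.Qw ν f y ∂ν := by
  have h1 : Measurable (fun p : V × V => g (p.1 - p.2) * f p) :=
    (hg.comp (measurable_fst.sub measurable_snd)).mul hf
  rw [F.lint_diff ν h1]
  refine lintegral_congr fun y => ?_
  have h2 : Measurable (fun u : V => F.dens 1 (y + u) * F.dens 1 u * f (y + u, u)) :=
    (F.measurable_Qw_aux hf).comp measurable_prodMk_left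
  rw [Qw, ← lintegral_const_mul _ h2]
  refine lintegral_congr fun u => ?_
  simp only [add_sub_cancel_right]
  ring

lemma Qw_scale_ge {f : V × V → ℝ≥0∞} (hf : Measurable f) {t : ℝ} (t0 : 0 < t) {y a b : V}
    (ha : a ∈ F.G) (hb : b ∈ F.G) (hy : y = a - b) (hN : F.N y = F.h a + F.h b)
    (inv : ∀ u : V, f (y + u + t • a, u + t • b) = f (y + u, u)) :
    ENNReal.ofReal (Real.exp (-(t * F.N y))) * F.Qw ν f y ≤ F.Qw ν f ((1 + t) • y) := by
  have h2 : Measurable (fun u : V => F.dens 1 (y + u) * F.dens 1 u * f (y + u, u)) :=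
    (F.measurable_Qw_aux hf).comp measurable_prodMk_left
  have h3 : F.Qw ν f ((1 + t) • y) =
      ∫⁻ u, F.dens 1 ((1 + t) • y + (u + t • b)) * F.dens 1 (u + t • b) *
        f ((1 + t) • y + (u + t • b), u + t • b) ∂ν :=
    (lintegral_add_right_eq_self (μ := ν)
      (fun u => F.dens 1 ((1 + t) • y + u) * F.dens 1 u * f ((1 + t) • y + u, u)) (t • b)).symm
  rw [h3, Qw, ← lintegral_const_mul _ h2]
  refine lintegral_mono fun u => ?_
  have e1 : (1 + t) • y + (u + t • b) = (y + u) + t • a := by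
    rw [add_smul, one_smul]
    nth_rewrite 2 [hy]
    rw [smul_sub]
    abel
  by_cases h4 : y + u ∈ F.G
  · by_cases h5 : u ∈ F.G
    · simp only
      rw [e1, inv u, F.dens_of_mem 1 (F.add_mem h4 (F.smul_mem t0.le ha)),
        F.dens_of_mem 1 (F.add_mem h5 (F.smul_mem t0.le hb)), F.dens_of_mem 1 h4,
        F.dens_of_mem 1 h5, ← mul_assoc,
        ← ENNReal.ofReal_mul (by positivity), ← ENNReal.ofReal_mul (by positivity),
        ← ENNReal.ofReal_mul (by positivity), ← Real.exp_add, ← Real.exp_add, ← Real.exp_add]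
      refine le_of_eq ?_
      congr 3
      rw [hN, map_add F.h (y + u) (t • a), map_add F.h u (t • b), map_smul, map_smul,
        smul_eq_mul, smul_eq_mul]
      ring
    · rw [F.dens_of_notMem 1 h5]; simp
  · rw [F.dens_of_notMem 1 h4]; simp

lemma lint_exp_w_le (hn : Module.finrank ℝ V = n) {f : V × V → ℝ≥0∞} (hf : Measurable f) {t : ℝ}
    (t0 : 0 < t)
    (inv : ∀ᵐ y ∂ν, ∀ a ∈ F.G, ∀ b ∈ F.G, y = a - b → F.N y = F.h a + F.h b →
      ∀ u : V, f (y + u + t • a, u + t • b) = f (y + u, u)) :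
    ∫⁻ p : V × V, ENNReal.ofReal (Real.exp (-(t * F.N (p.1 - p.2)))) * f p
      ∂((F.ex ν 1).prod (F.ex ν 1)) ≤
      ENNReal.ofReal (((1 + t) ^ n)⁻¹) * ∫⁻ p, f p ∂((F.ex ν 1).prod (F.ex ν 1)) := by
  have hc : 0 < 1 + t := by linarith
  have hg : Measurable (fun y : V => ENNReal.ofReal (Real.exp (-(t * F.N y)))) :=
    (Real.measurable_exp.comp ((F.continuous_N.measurable.const_mul t).neg)).ennreal_ofReal
  rw [F.lint_diff_w ν hf hg]
  have hZ : ∫⁻ y, F.Qw ν f y ∂ν = ∫⁻ p, f p ∂((F.ex ν 1).prod (F.ex ν 1)) := by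
    have h1 := F.lint_diff_w ν hf (g := fun _ => 1) measurable_const
    simp only [one_mul] at h1
    exact h1.symm
  calc ∫⁻ y, ENNReal.ofReal (Real.exp (-(t * F.N y))) * F.Qw ν f y ∂ν
      ≤ ∫⁻ y, F.Qw ν f ((1 + t) • y) ∂ν := by
        refine lintegral_mono_ae ?_
        filter_upwards [inv] with y hi
        obtain ⟨a, ha, b, hb, hy, hN⟩ := F.dec y
        exact F.Qw_scale_ge ν hf t0 ha hb hy hN (hi a ha b hb hy hN)
    _ = ∫⁻ y, F.Qw ν f y ∂(Measure.map (fun a : V => (1 + t) • a) ν) :=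
        (lintegral_map (F.measurable_Qw ν hf) (measurable_const_smul (1 + t))).symm
    _ = ENNReal.ofReal (((1 + t) ^ n)⁻¹) * ∫⁻ y, F.Qw ν f y ∂ν := by
        rw [Measure.map_addHaar_smul ν hc.ne', hn, lintegral_smul_measure,
          abs_of_pos (by positivity)]
        rfl
    _ = _ := by rw [hZ]

/-- the weighted mean of the norm of a difference is at least `n` times the mean weight -/
theorem weighted_mean (hn : Module.finrank ℝ V = n) (hM : F.Mom ν n Z) {f : V × V → ℝ}
    (hf : Measurable f) {M : ℝ} (f0 : ∀ p, 0 ≤ f p) (fM : ∀ p, f p ≤ M)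
    (inv : ∀ t : ℝ, 0 < t → ∀ᵐ y ∂ν, ∀ a ∈ F.G, ∀ b ∈ F.G, y = a - b →
      F.N y = F.h a + F.h b → ∀ u : V, f (y + u + t • a, u + t • b) = f (y + u, u)) :
    0 ≤ ∫ p : V × V, (F.N (p.1 - p.2) - n) * f p ∂((F.ex ν 1).prod (F.ex ν 1)) := by
  have := Mom.finite_ex F hM one_pos
  set P := (F.ex ν 1).prod (F.ex ν 1) with hP
  have iF : Integrable f P := Integrable.of_bound hf.aestronglyMeasurable M
    (Eventually.of_forall fun p => by rw [Real.norm_eq_abs, abs_of_nonneg (f0 p)]; exact fM p)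
  have iI : Integrable (fun p : V × V => F.N (p.1 - p.2) * f p) P := by
    refine (hM.integrable_N.mul_const M).mono' (F.measurable_Nsub.mul hf).aestronglyMeasurable ?_
    refine Eventually.of_forall fun p => ?_
    have h0 := F.N_nonneg (p.1 - p.2)
    rw [Real.norm_eq_abs, abs_mul, abs_of_nonneg (f0 p), abs_of_nonneg h0]
    exact mul_le_mul_of_nonneg_left (fM p) h0
  set A := ∫ p, f p ∂P
  set I := ∫ p : V × V, F.N (p.1 - p.2) * f p ∂P
  have A0 : 0 ≤ A := integral_nonneg f0
  have key : ∀ t : ℝ, 0 < t → n * A ≤ (1 + n * t) * I := by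
    intro t t0
    have h0 := F.lint_exp_w_le ν hn (f := fun p => ENNReal.ofReal (f p)) hf.ennreal_ofReal t0 (by
      filter_upwards [inv t t0] with y hy a ha b hb e1 e2 u
      rw [hy a ha b hb e1 e2 u])
    have hm : Measurable (fun p : V × V => Real.exp (-(t * F.N (p.1 - p.2)))) :=
      Real.measurable_exp.comp ((F.measurable_Nsub.const_mul t).neg)
    have hE : ∀ p : V × V, Real.exp (-(t * F.N (p.1 - p.2))) ≤ 1 := fun p => by
      refine Real.exp_le_one_iff.mpr ?_
      have := F.N_nonneg (p.1 - p.2)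
      have : 0 ≤ t * F.N (p.1 - p.2) := by positivity
      linarith
    have hi1 : Integrable (fun p : V × V => Real.exp (-(t * F.N (p.1 - p.2))) * f p) P := by
      refine (integrable_const M).mono' (hm.mul hf).aestronglyMeasurable
        (Eventually.of_forall fun p => ?_)
      rw [Real.norm_eq_abs, abs_mul, abs_of_nonneg (f0 p), abs_of_pos (Real.exp_pos _)]
      calc _ ≤ 1 * M := mul_le_mul (hE p) (fM p) (f0 p) zero_le_one
        _ = M := one_mul M
    have h1 : ∫ p : V × V, Real.exp (-(t * F.N (p.1 - p.2))) * f p ∂P ≤ ((1 + t) ^ n)⁻¹ * A := by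
      have e1 : ∫⁻ p : V × V, ENNReal.ofReal (Real.exp (-(t * F.N (p.1 - p.2)))) *
          ENNReal.ofReal (f p) ∂P =
          ENNReal.ofReal (∫ p : V × V, Real.exp (-(t * F.N (p.1 - p.2))) * f p ∂P) := by
        rw [ofReal_integral_eq_lintegral_ofReal hi1 (Eventually.of_forall fun p =>
          mul_nonneg (Real.exp_pos _).le (f0 p))]
        refine lintegral_congr fun p => ?_
        rw [ENNReal.ofReal_mul (Real.exp_pos _).le]
      have e2 : ∫⁻ p : V × V, ENNReal.ofReal (f p) ∂P = ENNReal.ofReal A :=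
        (ofReal_integral_eq_lintegral_ofReal iF (Eventually.of_forall f0)).symm
      rw [e1, e2, ← ENNReal.ofReal_mul (by positivity),
        ENNReal.ofReal_le_ofReal_iff (by positivity)] at h0
      exact h0
    have h2 : ∫ p : V × V, (f p - t * (F.N (p.1 - p.2) * f p)) ∂P ≤
        ∫ p : V × V, Real.exp (-(t * F.N (p.1 - p.2))) * f p ∂P := by
      refine integral_mono (iF.sub (iI.const_mul t)) hi1 fun p => ?_
      have := mul_le_mul_of_nonneg_right (Real.add_one_le_exp (-(t * F.N (p.1 - p.2)))) (f0 p)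
      simp only
      calc _ = (-(t * F.N (p.1 - p.2)) + 1) * f p := by ring
        _ ≤ _ := this
    have h3 : ∫ p : V × V, (f p - t * (F.N (p.1 - p.2) * f p)) ∂P = A - t * I := by
      rw [integral_sub iF (iI.const_mul t), integral_const_mul]
    have h4 : (1 : ℝ) + n * t ≤ (1 + t) ^ n := one_add_mul_le_pow (by linarith) n
    have hn0 : (0 : ℝ) ≤ n := Nat.cast_nonneg n
    have h5 : 0 < 1 + (n : ℝ) * t := by positivity
    have h6 : A - t * I ≤ (1 + n * t)⁻¹ * A := by
      calc A - t * I ≤ ((1 + t) ^ n)⁻¹ * A := by linarith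
        _ ≤ _ := by gcongr
    have h7 : (1 + n * t) * (A - t * I) ≤ A := by
      calc (1 + n * t) * (A - t * I) ≤ (1 + n * t) * ((1 + n * t)⁻¹ * A) := by gcongr
        _ = A := by rw [← mul_assoc, mul_inv_cancel₀ h5.ne', one_mul]
    have h8 : t * (n * A) ≤ t * ((1 + n * t) * I) := by nlinarith
    exact le_of_mul_le_mul_left h8 t0
  have hlim : Tendsto (fun t : ℝ => (1 + n * t) * I) (𝓝[>] 0) (𝓝 ((1 + n * 0) * I)) := by
    refine Tendsto.mono_left ?_ nhdsWithin_le_nhds
    exact Continuous.tendsto (by fun_prop) 0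
  have h9 : n * A ≤ (1 + n * 0) * I := by
    refine ge_of_tendsto hlim ?_
    filter_upwards [self_mem_nhdsWithin] with t ht using key t ht
  have e : ∫ p : V × V, (F.N (p.1 - p.2) - n) * f p ∂P = I - n * A := by
    rw [← integral_const_mul, ← integral_sub iI (iF.const_mul _)]
    refine integral_congr_ae (Eventually.of_forall fun p => ?_)
    simp only; ring
  rw [e]
  simp only [mul_zero, add_zero, one_mul] at h9
  linarith

/-- module D1 -/
theorem weighted_N (hn : Module.finrank ℝ V = n) (hM : F.Mom ν n Z) {c : ℝ → ℝ → ℝ}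
    (hc : Cert n c) :
    0 ≤ ∫ p : V × V, (F.N (p.1 - p.2) - n) * (|F.gX p| - F.gX p * F.gc c p)
      ∂((F.ex ν 1).prod (F.ex ν 1)) := by
  have bX : ∀ p, |F.gX p| ≤ 1 := fun p => abs_ratio (F.h_abs_le41 _)
  have bb : ∀ p, |F.gX p * F.gc c p| ≤ |F.gX p| := fun p => by
    rw [abs_mul]
    exact mul_le_of_le_one_right (abs_nonneg _) (hc.bd _ _)
  refine F.weighted_mean ν hn hM (M := 2) ?_ ?_ ?_ ?_
  · exact F.measurable_gX.abs.sub (F.measurable_gX.mul (F.measurable_gc hc))
  · intro p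
    have := (abs_le.mp (bb p)).2
    linarith
  · intro p
    have := (abs_le.mp (bb p)).1
    have := bX p
    linarith
  · intro t t0
    filter_upwards [F.ae_diff ν] with y hd a ha b hb hy hN u
    obtain ⟨r1, r2⟩ := F.ratio_inv hd ha hb hy hN t0 u
    simp only [gc, r1, r2]

end Frame

end Pool.Agent.FR
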