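import Pool.Agent.Lib.MP_725e58_gt.FS.Gam41

/-! The ratios along the embedding. -/

set_option autoImplicit false

namespace Pool.Agent.FR

open MeasureTheory Set Filter Topology
open scoped ENNReal NNReal

namespace Frame

variable {V : Type*} [NormedAddCommGroup V] [NormedSpace ℝ V] (F : Frame V)

lemma gr_opt {y a b : V} (hs : F.Sup (F.gr y) y) (ha : a ∈ F.G) (hb : b ∈ F.G) (hy : y = a - b)
    (hN : F.N y = F.h a + F.h b) : F.gr y a = F.h a ∧ F.gr y b = -F.h b := by
  have e : F.gr y a - F.gr y b = F.h a + F.h b := by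
    rw [← hN, ← hs.2]
    conv_rhs => rw [hy]
    rw [map_sub, ← hy]
  have a1 := Sup.le_h F hs ha
  have a2 := Sup.neg_h_le F hs hb
  constructor <;> linarith

lemma embed_ratio {y a b : V} (hs : F.Sup (F.gr y) y) (ha : a ∈ F.G) (hb : b ∈ F.G)
    (hy : y = a - b) (hN : F.N y = F.h a + F.h b) (g : V) :
    F.gX (a + g, b + g) = F.rX (y, g) ∧ F.gY (a + g, b + g) = F.rY (y, g) := by
  obtain ⟨e1, e2⟩ := F.gr_opt hs ha hb hy hN
  have ey : a + g - (b + g) = y := by rw [hy]; abel
  constructor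
  · simp only [gX, rX, ey]
  · have w : F.W (a + g, b + g) = 2 * F.gr y g := by
      simp only [W, u, zero_smul, add_zero, ey]
      have : F.h y = F.h a - F.h b := by rw [hy, map_sub]
      rw [this, map_add, map_add, map_add, e1, e2]
      ring
    have e : F.gE (a + g, b + g) = 2 * F.h g := by
      simp only [gE, ey]
      rw [hN, map_add, map_add, map_add]
      ring
    simp only [gY, rY, w, e]

variable [FiniteDimensional ℝ V] [MeasurableSpace V] [BorelSpace V] (ν : Measure V)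
  [ν.IsAddHaarMeasure]
variable {n : ℕ} {Z : ℝ}

/-- the defect `|y| - y c(x, y)` -/
noncomputable def psi (c : ℝ → ℝ → ℝ) (x y : ℝ) : ℝ := |clip 1 y| - clip 1 y * c x y

lemma psi_nonneg {c : ℝ → ℝ → ℝ} (hc : Cert n c) (x y : ℝ) : 0 ≤ psi c x y := by
  have h1 : |clip 1 y * c x y| ≤ |clip 1 y| := by
    rw [abs_mul]
    exact mul_le_of_le_one_right (abs_nonneg _) (hc.bd x y)
  have := (abs_le.mp h1).2
  unfold psi; linarith

lemma psi_le {c : ℝ → ℝ → ℝ} (hc : Cert n c) (x y : ℝ) : psi c x y ≤ 2 := by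
  have h1 : |clip 1 y * c x y| ≤ |clip 1 y| := by
    rw [abs_mul]
    exact mul_le_of_le_one_right (abs_nonneg _) (hc.bd x y)
  have h2 := abs_clip_le zero_le_one y
  have := (abs_le.mp h1).1
  unfold psi; linarith

lemma measurable_psi {c : ℝ → ℝ → ℝ} (hc : Cert n c) {W : Type*} [MeasurableSpace W]
    {f g : W → ℝ} (hf : Measurable f) (hg : Measurable g) :
    Measurable (fun w => psi c (f w) (g w)) := by
  unfold psi
  exact (((continuous_clip 1).measurable.comp hg).abs).sub
      (((continuous_clip 1).measurable.comp hg).mul (hc.continuous.measurable.comp (hf.prodMk hg)))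

lemma psi_eq {c : ℝ → ℝ → ℝ} {x y : ℝ} (h : |y| ≤ 1) : psi c x y = |y| - y * c x y := by
  unfold psi; rw [clip_of_abs h]

/-- module D2 -/
theorem y_embed (hM : F.Mom ν n Z) {c : ℝ → ℝ → ℝ} (hc : Cert n c) :
    ∫ p : V × V, (|F.rY p| - F.rY p * F.rc c p) ∂((F.eN ν).prod (F.ex ν 2)) ≤
      ∫ p : V × V, (|F.gY p| - F.gY p * F.gc c p) ∂((F.ex ν 1).prod (F.ex ν 1)) := by
  have f1 := F.eN_finite ν hM
  have f2 := Mom.finite_ex F hM (s := 2) two_pos
  have f3 := Mom.finite_ex F hM (s := 1) one_pos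
  have m1 := measurable_psi hc F.measurable_rX F.measurable_rY
  have m2 := measurable_psi hc F.measurable_gX F.measurable_gY
  have e1 : ∫ p : V × V, (|F.rY p| - F.rY p * F.rc c p) ∂((F.eN ν).prod (F.ex ν 2)) =
      ∫ p : V × V, psi c (F.rX p) (F.rY p) ∂((F.eN ν).prod (F.ex ν 2)) := by
    refine integral_congr_ae ?_
    filter_upwards [F.ae_QQs ν hM] with p ⟨hp, hs⟩
    have a1 := Sup.abs_le F hs hp
    have a2 : |2 * F.gr p.1 p.2| ≤ 2 * F.h p.2 := by rw [abs_mul, abs_two]; linarith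
    have a3 : |F.rY p| ≤ 1 := abs_ratio a2
    rw [psi_eq a3]
    rfl
  have e2 : ∫ p : V × V, (|F.gY p| - F.gY p * F.gc c p) ∂((F.ex ν 1).prod (F.ex ν 1)) =
      ∫ p : V × V, psi c (F.gX p) (F.gY p) ∂((F.ex ν 1).prod (F.ex ν 1)) := by
    refine integral_congr_ae ?_
    filter_upwards [F.ae_PP0 ν hM] with p ⟨h1, h2, hs⟩
    have a3 : |F.gY p| ≤ 1 := abs_ratio (F.abs_W_le h1 h2 hs)
    rw [psi_eq a3]
    rfl
  have i1 : Integrable (fun p : V × V => psi c (F.rX p) (F.rY p))
      ((F.eN ν).prod (F.ex ν 2)) := Integrable.of_bound m1.aestronglyMeasurable 2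
    (Eventually.of_forall fun p => by
      rw [Real.norm_eq_abs, abs_of_nonneg (psi_nonneg hc _ _)]; exact psi_le hc _ _)
  have i2 : Integrable (fun p : V × V => psi c (F.gX p) (F.gY p))
      ((F.ex ν 1).prod (F.ex ν 1)) := Integrable.of_bound m2.aestronglyMeasurable 2
    (Eventually.of_forall fun p => by
      rw [Real.norm_eq_abs, abs_of_nonneg (psi_nonneg hc _ _)]; exact psi_le hc _ _)
  have key := F.embed ν (H := fun p => ENNReal.ofReal (psi c (F.rX p) (F.rY p)))
    (G' := fun p => ENNReal.ofReal (psi c (F.gX p) (F.gY p))) m1.ennreal_ofReal m2.ennreal_ofReal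
    (by
      filter_upwards [F.ae_sup ν] with y hs a ha b hb hy hN
      refine Eventually.of_forall fun g => ?_
      obtain ⟨r1, r2⟩ := F.embed_ratio hs ha hb hy hN g
      simp only [r1, r2, le_refl])
  rw [← ofReal_integral_eq_lintegral_ofReal i1 (Eventually.of_forall fun p => psi_nonneg hc _ _),
    ← ofReal_integral_eq_lintegral_ofReal i2 (Eventually.of_forall fun p => psi_nonneg hc _ _),
    ENNReal.ofReal_le_ofReal_iff (integral_nonneg fun p => psi_nonneg hc _ _)] at key
  rw [e1, e2]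
  exact key

end Frame

end Pool.Agent.FR
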